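import Pool.Agent.P.MP_4a4b50_gt.Hopf

set_option autoImplicit false

open Set Filter Topology Metric

namespace Pool.Agent.P.MP_4a4b50_gt

section Hom
variable {E F : Type*} [NormedAddCommGroup E] [NormedSpace ℝ E] [NormedAddCommGroup F]
  [NormedSpace ℝ F]

theorem fderiv_scale (f : E → F) (t s : ℝ) (h : ∀ x, f (t • x) = s • f x) (x : E) :
    t • fderiv ℝ f (t • x) = s • fderiv ℝ f x := by
  rw [← fderiv_comp_smul]
  have : (fun y => f (t • y)) = s • f := by funext y; simp [h]
  rw [this, fderiv_const_smul_field]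
  rfl

theorem fderiv_hom_one (f : E → F) (t : ℝ) (ht : t ≠ 0) (h : ∀ x, f (t • x) = t • f x) (x : E) :
    fderiv ℝ f (t • x) = fderiv ℝ f x :=
  smul_right_injective _ ht (fderiv_scale f t t h x)

theorem fderiv2_hom_one (f : E → F) (t : ℝ) (ht : t ≠ 0) (h : ∀ x, f (t • x) = t • f x) (x : E) :
    t • fderiv ℝ (fderiv ℝ f) (t • x) = fderiv ℝ (fderiv ℝ f) x := by
  have := fderiv_scale (fderiv ℝ f) t 1 (fun y => by rw [fderiv_hom_one f t ht h, one_smul]) x
  rwa [one_smul] at this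

theorem euler_zero (f : E → F) (h : ∀ t : ℝ, 0 < t → ∀ x, f (t • x) = f x) {x : E}
    (hf : DifferentiableAt ℝ f x) : fderiv ℝ f x x = 0 := by
  have h1 : HasDerivAt (fun t : ℝ => t • x) x 1 := by
    simpa using (hasDerivAt_id (1 : ℝ)).smul_const x
  have h2 : HasFDerivAt f (fderiv ℝ f x) ((fun t : ℝ => t • x) 1) := by
    simpa using hf.hasFDerivAt
  have h3 := h2.comp_hasDerivAt (1 : ℝ) h1
  have h4 : (f ∘ fun t : ℝ => t • x) =ᶠ[𝓝 1] fun _ => f x := by
    filter_upwards [lt_mem_nhds (show (0 : ℝ) < 1 by norm_num)] with t ht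
    exact h t ht x
  have h5 := (hasDerivAt_const (1 : ℝ) (f x)).congr_of_eventuallyEq h4
  exact h3.unique h5

theorem euler_one (f : E → F) (h : ∀ t : ℝ, 0 < t → ∀ x, f (t • x) = t • f x) {x : E}
    (hf : DifferentiableAt ℝ f x) : fderiv ℝ f x x = f x := by
  have h1 : HasDerivAt (fun t : ℝ => t • x) x 1 := by
    simpa using (hasDerivAt_id (1 : ℝ)).smul_const x
  have h2 : HasFDerivAt f (fderiv ℝ f x) ((fun t : ℝ => t • x) 1) := by
    simpa using hf.hasFDerivAt
  have h3 := h2.comp_hasDerivAt (1 : ℝ) h1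
  have h4 : (f ∘ fun t : ℝ => t • x) =ᶠ[𝓝 1] fun t => t • f x := by
    filter_upwards [lt_mem_nhds (show (0 : ℝ) < 1 by norm_num)] with t ht
    exact h t ht x
  have h5 : HasDerivAt (fun t : ℝ => t • f x) (f x) 1 := by
    simpa using (hasDerivAt_id (1 : ℝ)).smul_const (f x)
  exact h3.unique (h5.congr_of_eventuallyEq h4)

/-- second derivative evaluated on constant vectors as iterated directional derivative -/
theorem fderiv_apply_const {f : E → F} {x : E} (hf : ContDiffAt ℝ 2 f x) (v w : E) :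
    fderiv ℝ (fun y => fderiv ℝ f y w) x v = fderiv ℝ (fderiv ℝ f) x v w := by
  have a1 : DifferentiableAt ℝ (fderiv ℝ f) x :=
    (hf.fderiv_right (m := 1) (by norm_num)).differentiableAt (by simp)
  have := (a1.hasFDerivAt.clm_apply (hasFDerivAt_const w x)).fderiv
  rw [this]
  simp

theorem snd_radial_zero (g : E → F) (h : ∀ t : ℝ, 0 < t → ∀ x, g (t • x) = g x) {x : E}
    (hg : ContDiffAt ℝ 2 g x) : fderiv ℝ (fderiv ℝ g) x x x = 0 := by
  have hev : ∀ᶠ y in 𝓝 x, DifferentiableAt ℝ g y := by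
    have h1 : ∀ᶠ y in 𝓝 x, ContDiffAt ℝ 2 g y := hg.eventually (by simp)
    filter_upwards [h1] with y hy
    exact hy.differentiableAt (by simp)
  have h0 : (fun y => fderiv ℝ g y y) =ᶠ[𝓝 x] fun _ => 0 := by
    filter_upwards [hev] with y hy using euler_zero g h hy
  have a1 : DifferentiableAt ℝ (fderiv ℝ g) x :=
    (hg.fderiv_right (m := 1) (by norm_num)).differentiableAt (by simp)
  have a2 := (a1.hasFDerivAt.clm_apply (hasFDerivAt_id x)).fderiv
  have a3 : fderiv ℝ (fun y => fderiv ℝ g y y) x = 0 := by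
    rw [h0.fderiv_eq]; simp
  have a4 : fderiv ℝ (fun y => fderiv ℝ g y y) x x
      = fderiv ℝ g x x + fderiv ℝ (fderiv ℝ g) x x x := by
    have : (fun y => fderiv ℝ g y y) = fun y => fderiv ℝ g y (id y) := rfl
    rw [this, a2]
    simp
  rw [a3, euler_zero g h hev.self_of_nhds] at a4
  simpa using a4.symm

end Hom

section Supp
variable {E : Type*} [NormedAddCommGroup E] [InnerProductSpace ℝ E]

theorem supp_le {H : Set E} (hH : IsCompact H) {h : E → ℝ}
    (hh : ∀ x, h x = sSup ((fun y => inner ℝ y x) '' H)) (x : E) {y : E} (hy : y ∈ H) :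
    inner ℝ y x ≤ h x := by
  rw [hh]
  apply le_csSup
  · exact (hH.image (by fun_prop)).bddAbove
  · exact ⟨y, hy, rfl⟩

theorem supp_ex {H : Set E} (hH : IsCompact H) (hne : H.Nonempty) {h : E → ℝ}
    (hh : ∀ x, h x = sSup ((fun y => inner ℝ y x) '' H)) (x : E) :
    ∃ y ∈ H, inner ℝ y x = h x := by
  have : IsCompact ((fun y => inner ℝ y x) '' H) := hH.image (by fun_prop)
  have := this.sSup_mem (hne.image _)
  rw [← hh] at this
  exact this

theorem supp_hom {H : Set E} (hH : IsCompact H) (hne : H.Nonempty) {h : E → ℝ}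
    (hh : ∀ x, h x = sSup ((fun y => inner ℝ y x) '' H)) (t : ℝ) (ht : 0 ≤ t) (x : E) :
    h (t • x) = t • h x := by
  apply le_antisymm
  · obtain ⟨y, hy, e⟩ := supp_ex hH hne hh (t • x)
    rw [← e, inner_smul_right, smul_eq_mul]
    exact mul_le_mul_of_nonneg_left (supp_le hH hh x hy) ht
  · obtain ⟨y, hy, e⟩ := supp_ex hH hne hh x
    have := supp_le hH hh (t • x) hy
    rwa [inner_smul_right, e] at this

theorem supp_psd {H : Set E} (hH : IsCompact H) (hne : H.Nonempty) {h : E → ℝ}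
    (hh : ∀ x, h x = sSup ((fun y => inner ℝ y x) '' H)) {x : E} (hx : ContDiffAt ℝ 2 h x)
    (v : E) : 0 ≤ fderiv ℝ (fderiv ℝ h) x v v := by
  obtain ⟨y, hy, e⟩ := supp_ex hH hne hh x
  have hmax : IsLocalMax (fun z => innerSL ℝ y z - h z) x := by
    apply Filter.Eventually.of_forall
    intro z
    have := supp_le hH hh z hy
    simp only [innerSL_apply_apply]
    linarith
  have hc : ContDiffAt ℝ 2 (fun z => innerSL ℝ y z - h z) x :=
    (innerSL ℝ y).contDiff.contDiffAt.sub hx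
  have := snd_nonpos_of_isLocalMax hc hmax v
  have hev : ∀ᶠ z in 𝓝 x, DifferentiableAt ℝ h z := by
    have h1 : ∀ᶠ y in 𝓝 x, ContDiffAt ℝ 2 h y := hx.eventually (by simp)
    filter_upwards [h1] with y hy
    exact hy.differentiableAt (by simp)
  have e1 : fderiv ℝ (fun z => innerSL ℝ y z - h z) =ᶠ[𝓝 x]
      fun z => innerSL ℝ y - fderiv ℝ h z := by
    filter_upwards [hev] with z hz
    exact ((innerSL ℝ y).hasFDerivAt.sub hz.hasFDerivAt).fderiv
  have a1 : DifferentiableAt ℝ (fderiv ℝ h) x :=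
    (hx.fderiv_right (m := 1) (by norm_num)).differentiableAt (by simp)
  rw [e1.fderiv_eq, (a1.hasFDerivAt.const_sub (innerSL ℝ y)).fderiv] at this
  simpa using this

theorem mem_of_supp [CompleteSpace E] {C : Set E} (hC : IsCompact C) (hc : Convex ℝ C) {p : E}
    (hp : ∀ x, ∃ y ∈ C, inner ℝ p x ≤ inner ℝ y x) : p ∈ C := by
  by_contra hn
  obtain ⟨f, u, h1, h2⟩ := geometric_hahn_banach_closed_point hc hC.isClosed hn
  obtain ⟨y, hy, hle⟩ := hp ((InnerProductSpace.toDual ℝ E).symm f)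
  rw [real_inner_comm, InnerProductSpace.toDual_symm_apply, real_inner_comm,
    InnerProductSpace.toDual_symm_apply] at hle
  have := h1 y hy
  linarith

theorem translate_of_supp [CompleteSpace E] {H K : Set E} (hH : IsCompact H) (cH : Convex ℝ H)
    (nH : H.Nonempty) (hK : IsCompact K) (cK : Convex ℝ K) (nK : K.Nonempty) {hH' hK' : E → ℝ}
    (eH : ∀ x, hH' x = sSup ((fun y => inner ℝ y x) '' H))
    (eK : ∀ x, hK' x = sSup ((fun y => inner ℝ y x) '' K)) (v : E)
    (hv : ∀ x, hH' x = hK' x + inner ℝ v x) : H = (fun x => x + v) '' K := by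
  apply Subset.antisymm
  · intro p hp
    refine ⟨p - v, ?_, by simp⟩
    apply mem_of_supp hK cK
    intro x
    obtain ⟨y, hy, e⟩ := supp_ex hK nK eK x
    refine ⟨y, hy, ?_⟩
    have := supp_le hH eH x hp
    rw [inner_sub_left, e]
    linarith [hv x]
  · rintro _ ⟨p, hp, rfl⟩
    apply mem_of_supp hH cH
    intro x
    obtain ⟨y, hy, e⟩ := supp_ex hH nH eH x
    refine ⟨y, hy, ?_⟩
    have := supp_le hK eK x hp
    rw [inner_add_left, e]
    linarith [hv x]

end Supp

end Pool.Agent.P.MP_4a4b50_gt
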