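import Pool.Agent.P.MP_0c5457_lc.Fix

/-! Schauder fixed point theorem and the local solution map. -/

set_option autoImplicit false

namespace Pool.Agent.P.MP_4a4b50_gt.CE

open scoped Topology NNReal
open Set Filter Metric

theorem schauder_approx {X : Type*} [NormedAddCommGroup X] [NormedSpace ℝ X] {K Q : Set X}
    (hK : Convex ℝ K) (hne : K.Nonempty) (hQ : IsCompact Q) (hQK : Q ⊆ K) {f : X → X}
    (hf : ContinuousOn f K) (hm : MapsTo f K Q) {ε : ℝ} (hε : 0 < ε) :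
    ∃ x ∈ K, ‖f x - x‖ ≤ ε := by
  classical
  obtain ⟨t, htQ, hcov⟩ := hQ.elim_nhds_subcover (fun y => ball y ε)
    (fun y _ => ball_mem_nhds y hε)
  set y : Fin t.card → X := fun k => (t.equivFin.symm k : X) with hy
  have hyQ : ∀ k, y k ∈ Q := fun k => htQ _ (t.equivFin.symm k).2
  have hcov' : ∀ z ∈ Q, ∃ k, ‖z - y k‖ < ε := by
    intro z hz
    obtain ⟨x, hx, hzx⟩ := mem_iUnion₂.1 (hcov hz)
    refine ⟨t.equivFin ⟨x, hx⟩, ?_⟩
    simpa [hy, dist_eq_norm] using hzx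
  obtain ⟨x0, hx0⟩ := hne
  obtain ⟨k0, -⟩ := hcov' _ (hm hx0)
  haveI : Nonempty (Fin t.card) := ⟨k0⟩
  set w : Fin t.card → X → ℝ := fun k z => max 0 (ε - ‖z - y k‖) with hw
  have hw0 : ∀ k z, 0 ≤ w k z := fun k z => le_max_left _ _
  have hwc : ∀ k, Continuous (w k) := fun k => by simp only [hw]; fun_prop
  have hsum : ∀ z ∈ Q, 0 < ∑ k, w k z := by
    intro z hz
    obtain ⟨k, hk⟩ := hcov' z hz
    refine lt_of_lt_of_le ?_ (Finset.single_le_sum (fun j _ => hw0 j z) (Finset.mem_univ k))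
    exact lt_of_lt_of_le (by linarith) (le_max_right _ _)
  set P : (Fin t.card → ℝ) → X := fun a => ∑ k, a k • y k with hP
  have hPc : Continuous P := by simp only [hP]; fun_prop
  have hPK : ∀ a ∈ stdSimplex ℝ (Fin t.card), P a ∈ K := fun a ha =>
    hK.sum_mem (fun k _ => ha.1 k) ha.2 (fun k _ => hQK (hyQ k))
  have hfP : ContinuousOn (fun a => f (P a)) (stdSimplex ℝ (Fin t.card)) :=
    hf.comp hPc.continuousOn hPK
  obtain ⟨a, ha, hfix⟩ := Pool.Agent.P.MP_0c5457_lc.brouwer_simplex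
    (fun a k => w k (f (P a)) / ∑ j, w j (f (P a)))
    (by
      refine continuousOn_pi.2 fun k => ContinuousOn.div ((hwc k).comp_continuousOn hfP)
        (continuousOn_finset_sum _ fun j _ => (hwc j).comp_continuousOn hfP) ?_
      exact fun a ha => (hsum _ (hm (hPK a ha))).ne')
    (by
      intro a ha
      have h := hsum _ (hm (hPK a ha))
      refine ⟨fun k => div_nonneg (hw0 _ _) h.le, ?_⟩
      rw [← Finset.sum_div, div_self h.ne'])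
  refine ⟨P a, hPK a ha, ?_⟩
  have h1 : f (P a) - P a = ∑ k, a k • (f (P a) - y k) := by
    simp only [smul_sub, Finset.sum_sub_distrib, ← Finset.sum_smul, ha.2, one_smul, hP]
  rw [h1]
  refine (norm_sum_le _ _).trans ?_
  have h2 : ∀ k, ‖a k • (f (P a) - y k)‖ ≤ a k * ε := by
    intro k
    rw [norm_smul, Real.norm_of_nonneg (ha.1 k)]
    by_cases hk : ‖f (P a) - y k‖ ≤ ε
    · exact mul_le_mul_of_nonneg_left hk (ha.1 k)
    · have h3 : a k = 0 := by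
        have := congrFun hfix k
        rw [← this]
        have h4 : w k (f (P a)) = 0 := max_eq_left (by linarith [not_le.1 hk])
        simp only [h4, zero_div]
      simp [h3]
  refine (Finset.sum_le_sum fun k _ => h2 k).trans ?_
  rw [← Finset.sum_mul, ha.2, one_mul]

theorem schauder' {X : Type*} [NormedAddCommGroup X] [NormedSpace ℝ X] {K Q : Set X}
    (hK : Convex ℝ K) (hne : K.Nonempty) (hQ : IsCompact Q) (hQK : Q ⊆ K) {f : X → X}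
    (hf : ContinuousOn f K) (hm : MapsTo f K Q) : ∃ x ∈ K, f x = x := by
  choose x hxK hx using fun n : ℕ =>
    schauder_approx hK hne hQ hQK hf hm (Nat.one_div_pos_of_nat (n := n) (α := ℝ))
  obtain ⟨q, hq, ψ, hψ, hlim⟩ := hQ.tendsto_subseq (x := fun n => f (x n)) fun n => hm (hxK n)
  have h0 : Tendsto (fun n => f (x (ψ n)) - x (ψ n)) atTop (𝓝 0) := by
    refine squeeze_zero_norm (fun n => hx (ψ n)) ?_
    exact tendsto_one_div_add_atTop_nhds_zero_nat.comp hψ.tendsto_atTop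
  have h1 : Tendsto (fun n => x (ψ n)) atTop (𝓝 q) := by
    have := hlim.sub h0
    simpa using this
  have h2 : Tendsto (fun n => f (x (ψ n))) atTop (𝓝 (f q)) :=
    (hf q (hQK hq)).tendsto.comp
      (tendsto_nhdsWithin_iff.2 ⟨h1, Eventually.of_forall fun n => hxK _⟩)
  exact ⟨q, hQK hq, tendsto_nhds_unique h2 hlim⟩

section sol

variable {H A : Type} [NormedAddCommGroup H] [InnerProductSpace ℝ H]
  [NormedAddCommGroup A] [NormedSpace ℝ A]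

lemma bil_le (B : A →L[ℝ] H →L[ℝ] ℝ) (a : A) (w : H) : |B a w| ≤ ‖B‖ * ‖a‖ * ‖w‖ :=
  B.le_opNorm₂ a w

lemma lin_eq (E : ℝ × H → A) (hE : ContDiff ℝ 1 E)
    (L : ℝ → H →L[ℝ] A) (hL : ∀ τ, HasFDerivAt (fun w => E (τ, w)) (L τ) 0) (τ : ℝ) :
    L τ = (fderiv ℝ E (τ, 0)).comp (ContinuousLinearMap.inr ℝ ℝ H) := by
  refine (hL τ).unique ?_
  exact ((hE.differentiable one_ne_zero (τ, 0)).hasFDerivAt).comp (0 : H)
    (hasFDerivAt_prodMk_right τ (0 : H))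

lemma lin_cont (E : ℝ × H → A) (hE : ContDiff ℝ 1 E)
    (L : ℝ → H →L[ℝ] A) (hL : ∀ τ, HasFDerivAt (fun w => E (τ, w)) (L τ) 0) : Continuous L := by
  have : L = fun τ => (fderiv ℝ E (τ, 0)).comp (ContinuousLinearMap.inr ℝ ℝ H) :=
    funext (lin_eq E hE L hL)
  rw [this]
  exact ((hE.continuous_fderiv one_ne_zero).comp (by fun_prop)).clm_comp continuous_const

lemma unif_coercive (i : H →L[ℝ] A) (B : A →L[ℝ] H →L[ℝ] ℝ) (hBi : ∀ w, 0 ≤ B (i w) w)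
    (L : ℝ → H →L[ℝ] A) (hLc : Continuous L)
    (hG : ∀ τ ∈ Icc (0 : ℝ) 1, ∃ μ c : ℝ, 0 < c ∧ ∀ w, c * ‖w‖ ^ 2 ≤ B (μ • i w - L τ w) w) :
    ∃ μ c : ℝ, 0 < c ∧ ∀ τ ∈ Icc (0 : ℝ) 1, ∀ μ', μ ≤ μ' →
      ∀ w, c * ‖w‖ ^ 2 ≤ B (μ' • i w - L τ w) w := by
  refine isCompact_Icc.induction_on (p := fun s => ∃ μ c : ℝ, 0 < c ∧ ∀ τ ∈ s, ∀ μ', μ ≤ μ' →
      ∀ w, c * ‖w‖ ^ 2 ≤ B (μ' • i w - L τ w) w) ⟨0, 1, one_pos, by simp⟩ ?_ ?_ ?_
  · rintro s t hst ⟨μ, c, hc, h⟩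
    exact ⟨μ, c, hc, fun τ hτ => h τ (hst hτ)⟩
  · rintro s t ⟨μ, c, hc, h⟩ ⟨μ2, c2, hc2, h2⟩
    refine ⟨max μ μ2, min c c2, lt_min hc hc2, ?_⟩
    rintro τ (hτ | hτ) μ' hμ w
    · exact (mul_le_mul_of_nonneg_right (min_le_left _ _) (sq_nonneg _)).trans
        (h τ hτ μ' ((le_max_left _ _).trans hμ) w)
    · exact (mul_le_mul_of_nonneg_right (min_le_right _ _) (sq_nonneg _)).trans
        (h2 τ hτ μ' ((le_max_right _ _).trans hμ) w)
  · intro τ0 hτ0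
    obtain ⟨μ, c, hc, h⟩ := hG τ0 hτ0
    have hev : ∀ᶠ τ in 𝓝 τ0, ‖B‖ * ‖L τ0 - L τ‖ < c / 2 := by
      have hcont : Continuous fun τ => ‖B‖ * ‖L τ0 - L τ‖ := by fun_prop
      refine hcont.continuousAt.eventually_lt continuousAt_const ?_
      simpa using hc
    refine ⟨_, mem_nhdsWithin_of_mem_nhds hev, μ, c / 2, half_pos hc, ?_⟩
    intro τ hτ μ' hμ w
    have e1 : μ' • i w - L τ w = (μ • i w - L τ0 w) + (μ' - μ) • i w + (L τ0 - L τ) w := by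
      simp only [sub_smul, ContinuousLinearMap.sub_apply]; abel
    rw [e1]
    simp only [map_add, ContinuousLinearMap.add_apply, map_smul, ContinuousLinearMap.smul_apply,
      smul_eq_mul]
    have h1 := h w
    have h2 := mul_nonneg (sub_nonneg.2 hμ) (hBi w)
    have h3 := bil_le B ((L τ0 - L τ) w) w
    have h4 := (L τ0 - L τ).le_opNorm w
    have h5 : ‖B‖ * ‖(L τ0 - L τ) w‖ * ‖w‖ ≤ c / 2 * ‖w‖ ^ 2 := by
      have hτ' : ‖B‖ * ‖L τ0 - L τ‖ < c / 2 := hτ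
      calc ‖B‖ * ‖(L τ0 - L τ) w‖ * ‖w‖ ≤ ‖B‖ * (‖L τ0 - L τ‖ * ‖w‖) * ‖w‖ := by gcongr
        _ = (‖B‖ * ‖L τ0 - L τ‖) * ‖w‖ ^ 2 := by ring
        _ ≤ c / 2 * ‖w‖ ^ 2 := by gcongr
    have h6 := neg_abs_le (B ((L τ0 - L τ) w) w)
    linarith

lemma coercive_bound (B : A →L[ℝ] H →L[ℝ] ℝ) (T : H →L[ℝ] A) {c : ℝ} (hc : 0 < c)
    (h : ∀ w, c * ‖w‖ ^ 2 ≤ B (T w) w) (w : H) : ‖w‖ ≤ (‖B‖ + 1) / c * ‖T w‖ := by
  rcases (norm_nonneg w).eq_or_lt with h0 | h0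
  · rw [← h0]; positivity
  · have h1 := (h w).trans ((le_abs_self _).trans (bil_le B (T w) w))
    have h2 : c * ‖w‖ ≤ ‖B‖ * ‖T w‖ := by
      refine le_of_mul_le_mul_right ?_ h0
      nlinarith
    rw [div_mul_eq_mul_div, le_div_iff₀ hc]
    nlinarith [norm_nonneg (T w)]

lemma coercive_surj [CompleteSpace H] (B : A →L[ℝ] H →L[ℝ] ℝ)
    (hsep : ∀ a, (∀ w, B a w = 0) → a = 0) (T : H →L[ℝ] A) {c : ℝ} (hc : 0 < c)
    (h : ∀ w, c * ‖w‖ ^ 2 ≤ B (T w) w) : Function.Surjective T := by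
  have hco : IsCoercive (B.comp T) := ⟨c, hc, fun u => by
    have := h u
    simp only [ContinuousLinearMap.comp_apply]
    nlinarith⟩
  intro g
  refine ⟨hco.continuousLinearEquivOfBilin.symm ((InnerProductSpace.toDual ℝ H).symm (B g)), ?_⟩
  refine sub_eq_zero.1 (hsep _ fun v => ?_)
  have h1 := hco.continuousLinearEquivOfBilin_apply
    (hco.continuousLinearEquivOfBilin.symm ((InnerProductSpace.toDual ℝ H).symm (B g))) v
  rw [ContinuousLinearEquiv.apply_symm_apply, InnerProductSpace.toDual_symm_apply] at h1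
  simp only [map_sub, ContinuousLinearMap.sub_apply]
  rw [h1]
  simp

lemma unif_approx (E : ℝ × H → A) (hE : ContDiff ℝ 1 E)
    (L : ℝ → H →L[ℝ] A) (hL : ∀ τ, HasFDerivAt (fun w => E (τ, w)) (L τ) 0) {κ : ℝ}
    (hκ : 0 < κ) : ∃ d : ℝ, 0 < d ∧ ∀ τ ∈ Icc (0 : ℝ) 1, ∀ w1 w2 : H, ‖w1‖ ≤ d → ‖w2‖ ≤ d →
      ‖E (τ, w1) - E (τ, w2) - L τ (w1 - w2)‖ ≤ κ * ‖w1 - w2‖ := by
  have hLc := lin_cont E hE L hL
  have hc : Continuous fun z : H × ℝ =>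
      ‖(fderiv ℝ E (z.2, z.1)).comp (ContinuousLinearMap.inr ℝ ℝ H) - L z.2‖ := by
    refine Continuous.norm (Continuous.sub ?_ (hLc.comp continuous_snd))
    exact ((hE.continuous_fderiv one_ne_zero).comp (by fun_prop)).clm_comp continuous_const
  have hev : ∀ᶠ w in 𝓝 (0 : H), ∀ τ ∈ Icc (0 : ℝ) 1,
      ‖(fderiv ℝ E (τ, w)).comp (ContinuousLinearMap.inr ℝ ℝ H) - L τ‖ < κ := by
    refine isCompact_Icc.eventually_forall_of_forall_eventually (P := fun w τ =>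
      ‖(fderiv ℝ E (τ, w)).comp (ContinuousLinearMap.inr ℝ ℝ H) - L τ‖ < κ) fun τ _ => ?_
    refine hc.continuousAt.eventually_lt continuousAt_const ?_
    simp only [← lin_eq E hE L hL τ, sub_self, norm_zero, hκ]
  obtain ⟨d, hd, hball⟩ := Metric.nhds_basis_closedBall.eventually_iff.1 hev
  refine ⟨d, hd, fun τ hτ w1 w2 h1 h2 => ?_⟩
  refine Convex.norm_image_sub_le_of_norm_hasFDerivWithin_le' (𝕜 := ℝ) (f := fun w => E (τ, w))
    (f' := fun w => (fderiv ℝ E (τ, w)).comp (ContinuousLinearMap.inr ℝ ℝ H))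
    (s := closedBall 0 d) (fun w _ => ?_) (fun w hw => (hball hw τ hτ).le)
    (convex_closedBall 0 d) (mem_closedBall_zero_iff.2 h2) (mem_closedBall_zero_iff.2 h1)
  exact (((hE.differentiable one_ne_zero (τ, w)).hasFDerivAt).comp w
    (hasFDerivAt_prodMk_right τ w)).hasFDerivWithinAt

/-- the local solution map of `μ i w - E (τ, w) = g` -/
lemma exists_solmap [CompleteSpace H] (i : H →L[ℝ] A) (B : A →L[ℝ] H →L[ℝ] ℝ)
    (hsep : ∀ a, (∀ w, B a w = 0) → a = 0) (hBi : ∀ w, 0 ≤ B (i w) w)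
    (E : ℝ × H → A) (hE : ContDiff ℝ 1 E) (hE0 : ∀ τ, E (τ, 0) = 0)
    (L : ℝ → H →L[ℝ] A) (hL : ∀ τ, HasFDerivAt (fun w => E (τ, w)) (L τ) 0)
    (hG : ∀ τ ∈ Icc (0 : ℝ) 1, ∃ μ c : ℝ, 0 < c ∧ ∀ w, c * ‖w‖ ^ 2 ≤ B (μ • i w - L τ w) w)
    (μ₀ : ℝ) {d₀ κ : ℝ} (hd₀ : 0 < d₀) (hκ : 0 < κ) :
    ∃ (μ d r : ℝ) (S : ℝ × A → H), μ₀ ≤ μ ∧ 0 < d ∧ d ≤ d₀ ∧ 0 < r ∧
      ContinuousOn S (Icc (0 : ℝ) 1 ×ˢ closedBall 0 r) ∧
      (∀ τ ∈ Icc (0 : ℝ) 1, ∀ g, ‖g‖ ≤ r →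
        ‖S (τ, g)‖ ≤ d ∧ μ • i (S (τ, g)) - E (τ, S (τ, g)) = g) ∧
      (∀ τ ∈ Icc (0 : ℝ) 1, ∀ w1 w2, ‖w1‖ ≤ d → ‖w2‖ ≤ d →
        μ • i w1 - E (τ, w1) = μ • i w2 - E (τ, w2) → w1 = w2) ∧
      (∀ w, ‖w‖ ≤ d → ‖E (0, w) - L 0 w‖ ≤ κ * ‖w‖) := by
  classical
  obtain ⟨μ1, c, hc, hco⟩ := unif_coercive i B hBi L (lin_cont E hE L hL) hG
  set μ := max μ₀ μ1 with hμ
  set K := (‖B‖ + 1) / c with hK
  have hK0 : 0 < K := by positivity
  set κ' := min κ (1 / (2 * K)) with hκ'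
  have hκ'0 : 0 < κ' := lt_min hκ (by positivity)
  obtain ⟨d1, hd1, happ⟩ := unif_approx E hE L hL hκ'0
  set d := min d1 d₀ with hd
  have hd0 : 0 < d := lt_min hd1 hd₀
  set T : ℝ → H →L[ℝ] A := fun τ => μ • i - L τ with hT
  have hTco : ∀ τ ∈ Icc (0 : ℝ) 1, ∀ w, c * ‖w‖ ^ 2 ≤ B (T τ w) w := fun τ hτ w =>
    hco τ hτ μ (le_max_right _ _) w
  set F : ℝ → H → A := fun τ w => μ • i w - E (τ, w) with hF
  have hFa : ∀ τ ∈ Icc (0 : ℝ) 1, ∀ w1 w2 : H, ‖w1‖ ≤ d → ‖w2‖ ≤ d →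
      ‖F τ w1 - F τ w2 - T τ (w1 - w2)‖ ≤ 1 / (2 * K) * ‖w1 - w2‖ := by
    intro τ hτ w1 w2 h1 h2
    have e : F τ w1 - F τ w2 - T τ (w1 - w2) = -(E (τ, w1) - E (τ, w2) - L τ (w1 - w2)) := by
      simp only [hF, hT, ContinuousLinearMap.sub_apply, ContinuousLinearMap.smul_apply, map_sub,
        smul_sub]
      abel
    rw [e, norm_neg]
    refine (happ τ hτ w1 w2 (h1.trans (min_le_left _ _)) (h2.trans (min_le_left _ _))).trans ?_
    exact mul_le_mul_of_nonneg_right (min_le_right _ _) (norm_nonneg _)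
  have hFl : ∀ τ ∈ Icc (0 : ℝ) 1, ∀ w1 w2 : H, ‖w1‖ ≤ d → ‖w2‖ ≤ d →
      ‖w1 - w2‖ ≤ 2 * K * ‖F τ w1 - F τ w2‖ := by
    intro τ hτ w1 w2 h1 h2
    have a1 := coercive_bound B (T τ) hc (hTco τ hτ) (w1 - w2)
    have a2 := hFa τ hτ w1 w2 h1 h2
    have a3 : ‖T τ (w1 - w2)‖ ≤ ‖F τ w1 - F τ w2‖ + ‖F τ w1 - F τ w2 - T τ (w1 - w2)‖ := by
      have := norm_sub_le (F τ w1 - F τ w2) (F τ w1 - F τ w2 - T τ (w1 - w2))
      simpa using this
    have a4 : K * (1 / (2 * K) * ‖w1 - w2‖) = ‖w1 - w2‖ / 2 := by field_simp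
    have a5 : K * ‖T τ (w1 - w2)‖ ≤ K * (‖F τ w1 - F τ w2‖ + 1 / (2 * K) * ‖w1 - w2‖) := by
      gcongr; linarith
    rw [← hK] at a1
    nlinarith
  set r := 1 / (2 * K) * d with hr
  have hr0 : 0 < r := by positivity
  have hsurj : ∀ τ ∈ Icc (0 : ℝ) 1, ∀ g, ‖g‖ ≤ r → ∃ w, ‖w‖ ≤ d ∧ F τ w = g := by
    intro τ hτ g hg
    have hs := coercive_surj B hsep (T τ) hc (hTco τ hτ)
    choose inv hinv using hs
    let R : (T τ).NonlinearRightInverse :=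
      { toFun := inv
        nnnorm := ⟨K, hK0.le⟩
        bound' := fun y => by
          have := coercive_bound B (T τ) hc (hTco τ hτ) (inv y)
          rwa [hinv] at this
        right_inv' := hinv }
    have hap : ApproximatesLinearOn (F τ) (T τ) (closedBall 0 d) ⟨1 / (2 * K), by positivity⟩ :=
      fun x hx y hy => hFa τ hτ x y (mem_closedBall_zero_iff.1 hx) (mem_closedBall_zero_iff.1 hy)
    have hso := hap.surjOn_closedBall_of_nonlinearRightInverse R hd0.le subset_rfl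
    have hF0 : F τ 0 = 0 := by simp [hF, hE0]
    obtain ⟨w, hw, hwg⟩ := hso (a := g) (by
      rw [hF0, mem_closedBall_zero_iff]
      refine hg.trans (le_of_eq ?_)
      change 1 / (2 * K) * d = (K⁻¹ - 1 / (2 * K)) * d
      field_simp
      ring)
    exact ⟨w, mem_closedBall_zero_iff.1 hw, hwg⟩
  choose! S0 hS0 using hsurj
  refine ⟨μ, d, r, fun p => S0 p.1 p.2, le_max_left _ _, hd0, min_le_right _ _, hr0, ?_,
    fun τ hτ g hg => hS0 τ hτ g hg, ?_, ?_⟩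
  · rintro ⟨τ0, g0⟩ ⟨hτ0, hg0⟩
    have hg0' : ‖g0‖ ≤ r := mem_closedBall_zero_iff.1 hg0
    obtain ⟨b1, b2⟩ := hS0 τ0 hτ0 g0 hg0'
    rw [ContinuousWithinAt, tendsto_iff_norm_sub_tendsto_zero]
    have hcont : Continuous fun p : ℝ × A => 2 * K * ‖p.2 - F p.1 (S0 τ0 g0)‖ := by
      have := hE.continuous
      simp only [hF]
      fun_prop
    have hlim : Tendsto (fun p : ℝ × A => 2 * K * ‖p.2 - F p.1 (S0 τ0 g0)‖)
        (𝓝[Icc (0 : ℝ) 1 ×ˢ closedBall 0 r] (τ0, g0)) (𝓝 0) := by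
      have := (hcont.tendsto (τ0, g0)).mono_left
        (nhdsWithin_le_nhds (s := Icc (0 : ℝ) 1 ×ˢ closedBall (0 : A) r))
      simpa [b2] using this
    refine squeeze_zero' (Eventually.of_forall fun _ => norm_nonneg _) ?_ hlim
    filter_upwards [self_mem_nhdsWithin] with p hp
    obtain ⟨c1, c2⟩ := hS0 p.1 hp.1 p.2 (mem_closedBall_zero_iff.1 hp.2)
    have := hFl p.1 hp.1 _ _ c1 b1
    rwa [c2] at this
  · intro τ hτ w1 w2 h1 h2 h
    have := hFl τ hτ w1 w2 h1 h2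
    have h' : F τ w1 - F τ w2 = 0 := sub_eq_zero.2 h
    rw [h', norm_zero, mul_zero] at this
    exact sub_eq_zero.1 (norm_le_zero_iff.1 this)
  · intro w hw
    have := happ 0 ⟨le_rfl, zero_le_one⟩ w 0 (hw.trans (min_le_left _ _)) (by simpa using hd1.le)
    simp only [hE0, sub_zero] at this
    exact this.trans (mul_le_mul_of_nonneg_right (min_le_left _ _) (norm_nonneg _))

end sol

end Pool.Agent.P.MP_4a4b50_gt.CE
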