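import Pool.Agent.P.MP_4a4b50_gt.CDefs
import Pool.Agent.P.MP_f7c28d_an.Brouwer
import Pool.Agent.P.MP_4a4b50_gt.CAbs1

set_option autoImplicit false

namespace Pool.Agent.P.MP_4a4b50_gt.CE

open scoped ContDiff Topology
open Pool.Agent.P.MP_f97e06_gt (Eu)
open Matrix Set Filter

/-- Schauder fixed point theorem -/
theorem schauder {X : Type*} [NormedAddCommGroup X] [NormedSpace ℝ X] {K Q : Set X}
    (hK : Convex ℝ K) (hne : K.Nonempty) (hQ : IsCompact Q) (hQK : Q ⊆ K) {f : X → X}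
    (hf : ContinuousOn f K) (hm : MapsTo f K Q) : ∃ x ∈ K, f x = x :=
  schauder' hK hne hQ hQK hf hm

lemma clip_fix_lt {τ ρ : ℝ} (h : max 0 (min 1 (τ + 1 - ρ)) = τ) (hρ : ρ < 1) : τ = 1 := by
  rcases le_total 1 (τ + 1 - ρ) with h1 | h1
  · rw [min_eq_left h1, max_eq_right zero_le_one] at h
    exact h.symm
  · rw [min_eq_right h1] at h
    have := le_max_right 0 (τ + 1 - ρ)
    linarith

lemma clip_fix_gt {τ ρ : ℝ} (h : max 0 (min 1 (τ + 1 - ρ)) = τ) (hρ : 1 < ρ) : τ = 0 := by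
  rcases le_total 0 (min 1 (τ + 1 - ρ)) with h1 | h1
  · rw [max_eq_right h1] at h
    have := min_le_right 1 (τ + 1 - ρ)
    linarith
  · rw [max_eq_left h1] at h
    exact h.symm

theorem abstract_bifurcation {H A : Type} [NormedAddCommGroup H] [InnerProductSpace ℝ H]
    [CompleteSpace H] [NormedAddCommGroup A] [NormedSpace ℝ A] [CompleteSpace A]
    (i : H →L[ℝ] A) (hi : IsCompactOperator i) (B : A →L[ℝ] H →L[ℝ] ℝ)
    (hsep : ∀ a, (∀ w, B a w = 0) → a = 0) (hBi : ∀ w, 0 ≤ B (i w) w)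
    (E : ℝ × H → A) (hE : ContDiff ℝ 1 E) (hE0 : ∀ τ, E (τ, 0) = 0)
    (L : ℝ → H →L[ℝ] A) (hL : ∀ τ, HasFDerivAt (fun w => E (τ, w)) (L τ) 0)
    (hG : ∀ τ ∈ Icc (0 : ℝ) 1, ∃ μ c : ℝ, 0 < c ∧ ∀ w, c * ‖w‖ ^ 2 ≤ B (μ • i w - L τ w) w)
    (C : Set A) (hCc : IsClosed C) (hC0 : (0 : A) ∈ C) (hCa : ∀ a ∈ C, ∀ b ∈ C, a + b ∈ C)
    (hCs : ∀ a ∈ C, ∀ t : ℝ, 0 ≤ t → t • a ∈ C)
    (φ : A) (hφ : φ ∈ C) (hpt : ∀ d ∈ C, d + φ ≠ 0)
    (hMP : ∃ μ₀ δ₀ : ℝ, 0 < δ₀ ∧ ∀ μ, μ₀ ≤ μ → ∀ τ ∈ Icc (0 : ℝ) 1, ∀ w, ‖w‖ ≤ δ₀ →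
      μ • i w - E (τ, w) ∈ C → i w ∈ C)
    (h0 : ∃ c : ℝ, 0 < c ∧ ∀ w, i w ∈ C → c * ‖w‖ ^ 2 ≤ B (-L 0 w) w)
    (h1 : ∃ δ₁ : ℝ, 0 < δ₁ ∧ ∀ w, ‖w‖ ≤ δ₁ → i w ∈ C → ∀ η : ℝ, 0 < η → -E (1, w) - η • φ ∉ C)
    {ε : ℝ} (hε : 0 < ε) :
    ∃ τ ∈ Icc (0 : ℝ) 1, ∃ w, ‖w‖ ≤ ε ∧ i w ≠ 0 ∧ i w ∈ C ∧ E (τ, w) = 0 := by
  obtain ⟨μ₀, δ₀, hδ₀, hMP⟩ := hMP
  obtain ⟨c0, hc0, h0⟩ := h0
  obtain ⟨δ₁, hδ₁, h1⟩ := h1
  have hκ : 0 < c0 / (2 * (‖B‖ + 1)) := by positivity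
  obtain ⟨μ, d, r, S, hμ, hd, hdd, hr, hSc, hS, huniq, happ⟩ :=
    exists_solmap i B hsep hBi E hE hE0 L hL hG (max μ₀ 0)
      (lt_min hδ₀ (lt_min hδ₁ hε)) hκ
  have hμ0 : 0 ≤ μ := (le_max_right _ _).trans hμ
  have hμ₀ : μ₀ ≤ μ := (le_max_left _ _).trans hμ
  have hd0 : d ≤ δ₀ := hdd.trans (min_le_left _ _)
  have hd1 : d ≤ δ₁ := hdd.trans ((min_le_right _ _).trans (min_le_left _ _))
  have hdε : d ≤ ε := hdd.trans ((min_le_right _ _).trans (min_le_right _ _))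
  -- the radius
  obtain ⟨δ, hδ, hδd, hδr⟩ : ∃ δ : ℝ, 0 < δ ∧ δ ≤ d ∧ μ * (‖i‖ * δ) ≤ r / 2 := by
    refine ⟨min d (r / (2 * (μ * ‖i‖ + 1))), lt_min hd (by positivity), min_le_left _ _, ?_⟩
    have a1 : min d (r / (2 * (μ * ‖i‖ + 1))) ≤ r / (2 * (μ * ‖i‖ + 1)) := min_le_right _ _
    have a2 : 0 ≤ μ * ‖i‖ := by positivity
    calc μ * (‖i‖ * min d (r / (2 * (μ * ‖i‖ + 1))))
        = (μ * ‖i‖) * min d (r / (2 * (μ * ‖i‖ + 1))) := by ring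
      _ ≤ (μ * ‖i‖ + 1) * (r / (2 * (μ * ‖i‖ + 1))) := by
          gcongr
          linarith
      _ = r / 2 := by field_simp
  obtain ⟨η₀, hη₀, hη₀r, hη₀c⟩ : ∃ η₀ : ℝ, 0 < η₀ ∧ η₀ * ‖φ‖ ≤ r / 2 ∧
      η₀ * (‖B‖ * ‖φ‖) ≤ c0 / 2 * δ := by
    refine ⟨min (r / (2 * (‖φ‖ + 1))) (c0 / 2 * δ / (‖B‖ * ‖φ‖ + 1)),
      lt_min (by positivity) (by positivity), ?_, ?_⟩
    · calc _ ≤ r / (2 * (‖φ‖ + 1)) * (‖φ‖ + 1) := by
            gcongr
            · exact min_le_left _ _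
            · linarith
        _ = r / 2 := by field_simp
    · calc _ ≤ c0 / 2 * δ / (‖B‖ * ‖φ‖ + 1) * (‖B‖ * ‖φ‖ + 1) := by
            gcongr
            · exact min_le_right _ _
            · linarith
        _ = c0 / 2 * δ := by field_simp
  obtain ⟨Kc, hKc, hKci⟩ :=
    IsCompactOperator.image_closedBall_subset_compact (f := (i : H →ₗ[ℝ] A)) hi δ
  have hKc' : ∀ w, ‖w‖ ≤ δ → i w ∈ Kc := fun w hw =>
    hKci ⟨w, mem_closedBall_zero_iff.2 hw, rfl⟩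
  have hgr : ∀ η, 0 ≤ η → η ≤ η₀ → ∀ a : A, ‖a‖ ≤ ‖i‖ * δ → ‖μ • a + η • φ‖ ≤ r := by
    intro η hη hη' a ha
    refine (norm_add_le _ _).trans ?_
    rw [norm_smul, norm_smul, Real.norm_of_nonneg hμ0, Real.norm_of_nonneg hη]
    have a1 : μ * ‖a‖ ≤ μ * (‖i‖ * δ) := by gcongr
    have a2 : η * ‖φ‖ ≤ η₀ * ‖φ‖ := by gcongr
    linarith
  have hCconv : Convex ℝ C := fun a ha b hb s t hs ht _ => hCa _ (hCs a ha s hs) _ (hCs b hb t ht)
  -- approximate solutions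
  have key : ∀ η, 0 < η → η ≤ η₀ → ∃ τ ∈ Icc (0 : ℝ) 1, ∃ w, ‖w‖ = δ ∧ i w ∈ C ∧
      E (τ, w) = -(η • φ) := by
    intro η hη hη'
    set K : Set (ℝ × A) := Icc (0 : ℝ) 1 ×ˢ (C ∩ Metric.closedBall 0 (‖i‖ * δ)) with hK
    set W : ℝ × A → H := fun p => S (p.1, μ • p.2 + η • φ) with hW
    have hWs : ∀ p ∈ K, ‖W p‖ ≤ d ∧ μ • i (W p) - E (p.1, W p) = μ • p.2 + η • φ := fun p hp =>
      hS p.1 hp.1 _ (hgr η hη.le hη' _ (mem_closedBall_zero_iff.1 hp.2.2))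
    have hWC : ∀ p ∈ K, i (W p) ∈ C := fun p hp => by
      refine hMP μ hμ₀ p.1 hp.1 _ ((hWs p hp).1.trans hd0) ?_
      rw [(hWs p hp).2]
      exact hCa _ (hCs _ hp.2.1 μ hμ0) _ (hCs _ hφ η hη.le)
    have hW0 : ∀ p ∈ K, 0 < ‖W p‖ := fun p hp => by
      refine norm_pos_iff.2 fun h => ?_
      have a1 := (hWs p hp).2
      rw [h, map_zero, smul_zero, hE0, sub_zero] at a1
      refine hpt ((μ / η) • p.2) (hCs _ hp.2.1 _ (by positivity)) ?_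
      have a2 : (μ / η) • p.2 + φ = η⁻¹ • (μ • p.2 + η • φ) := by
        rw [smul_add, smul_smul, smul_smul, inv_mul_cancel₀ hη.ne', one_smul, div_eq_inv_mul]
      rw [a2, ← a1, smul_zero]
    have hWc : ContinuousOn W K := by
      refine hSc.comp (f := fun p : ℝ × A => (p.1, μ • p.2 + η • φ)) (by fun_prop) ?_
      exact fun p hp => ⟨hp.1, mem_closedBall_zero_iff.2
        (hgr η hη.le hη' _ (mem_closedBall_zero_iff.1 hp.2.2))⟩
    obtain ⟨p, hp, hfix⟩ := schauder (K := K)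
      (Q := Icc (0 : ℝ) 1 ×ˢ (Kc ∩ (C ∩ Metric.closedBall 0 (‖i‖ * δ))))
      (f := fun p => (max 0 (min 1 (p.1 + 1 - ‖W p‖ / δ)), (δ / ‖W p‖) • i (W p)))
      ((convex_Icc 0 1).prod (hCconv.inter (convex_closedBall _ _)))
      ⟨(0, 0), ⟨le_rfl, zero_le_one⟩, hC0, mem_closedBall_zero_iff.2 (by
        rw [norm_zero]; positivity)⟩
      (isCompact_Icc.prod (hKc.inter_right (hCc.inter Metric.isClosed_closedBall)))
      (fun p hp => ⟨hp.1, hp.2.2⟩)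
      (by
        refine ContinuousOn.prodMk ?_ ?_
        · have hcl : Continuous fun s : ℝ => max 0 (min 1 s) := by fun_prop
          exact hcl.comp_continuousOn
            ((continuousOn_fst.add continuousOn_const).sub (hWc.norm.div_const δ))
        · exact (continuousOn_const.div hWc.norm fun p hp => (hW0 p hp).ne').smul
            (i.continuous.comp_continuousOn hWc))
      (by
        intro p hp
        have hn : ‖(δ / ‖W p‖) • W p‖ = δ := by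
          rw [norm_smul, Real.norm_of_nonneg (by positivity), div_mul_cancel₀ _ (hW0 p hp).ne']
        refine ⟨⟨le_max_left _ _, max_le zero_le_one (min_le_left _ _)⟩, ?_,
          hCs _ (hWC p hp) _ (by positivity), ?_⟩
        · have := hKc' _ hn.le
          rwa [map_smul] at this
        · rw [mem_closedBall_zero_iff]
          have := i.le_opNorm ((δ / ‖W p‖) • W p)
          rwa [map_smul, hn] at this)
    have f1 : max 0 (min 1 (p.1 + 1 - ‖W p‖ / δ)) = p.1 := congrArg Prod.fst hfix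
    have f2 : (δ / ‖W p‖) • i (W p) = p.2 := congrArg Prod.snd hfix
    obtain ⟨s1, s2⟩ := hWs p hp
    have s3 := hWC p hp
    have s4 := hW0 p hp
    set w := W p with hw
    rw [← f2] at s2
    have s5 : -E (p.1, w) - η • φ = (μ * (δ / ‖w‖ - 1)) • i w := by
      have : -E (p.1, w) = μ • (δ / ‖w‖) • i w + η • φ - μ • i w := by rw [← s2]; abel
      rw [this, smul_smul, mul_sub, sub_smul, mul_one]
      abel
    rcases lt_trichotomy ‖w‖ δ with hlt | heq | hgt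
    · exfalso
      have hτ := clip_fix_lt f1 ((div_lt_one hδ).2 hlt)
      rw [hτ] at s5
      refine h1 w (s1.trans hd1) s3 η hη ?_
      rw [s5]
      refine hCs _ s3 _ (mul_nonneg hμ0 ?_)
      have := (one_le_div s4).2 hlt.le
      linarith
    · refine ⟨p.1, hp.1, w, heq, s3, ?_⟩
      rw [heq, div_self hδ.ne', sub_self, mul_zero, zero_smul, sub_eq_zero] at s5
      rw [← s5, neg_neg]
    · exfalso
      have hτ := clip_fix_gt f1 ((one_lt_div hδ).2 hgt)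
      rw [hτ] at s5
      have t1 := h0 w s3
      have t2 := happ w s1
      have e1 : -L 0 w = (μ * (δ / ‖w‖ - 1)) • i w + η • φ + (E (0, w) - L 0 w) := by
        rw [← s5]; abel
      rw [e1] at t1
      simp only [map_add, ContinuousLinearMap.add_apply, map_smul,
        ContinuousLinearMap.smul_apply, smul_eq_mul] at t1
      have t3 : μ * (δ / ‖w‖ - 1) * B (i w) w ≤ 0 := by
        refine mul_nonpos_of_nonpos_of_nonneg (mul_nonpos_of_nonneg_of_nonpos hμ0 ?_) (hBi w)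
        have := (div_le_one s4).2 hgt.le
        linarith
      have t4 : η * B φ w ≤ c0 / 2 * δ * ‖w‖ := by
        have a1 := (le_abs_self _).trans (bil_le B φ w)
        calc η * B φ w ≤ η * (‖B‖ * ‖φ‖ * ‖w‖) := by gcongr
          _ ≤ η₀ * (‖B‖ * ‖φ‖ * ‖w‖) := by gcongr
          _ = η₀ * (‖B‖ * ‖φ‖) * ‖w‖ := by ring
          _ ≤ c0 / 2 * δ * ‖w‖ := by gcongr
      have t5 : B (E (0, w) - L 0 w) w ≤ c0 / 2 * ‖w‖ ^ 2 := by
        have a1 := (le_abs_self _).trans (bil_le B (E (0, w) - L 0 w) w)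
        calc B (E (0, w) - L 0 w) w ≤ ‖B‖ * ‖E (0, w) - L 0 w‖ * ‖w‖ := a1
          _ ≤ (‖B‖ + 1) * (c0 / (2 * (‖B‖ + 1)) * ‖w‖) * ‖w‖ := by
              gcongr; linarith
          _ = c0 / 2 * ‖w‖ ^ 2 := by field_simp
      have t6 : c0 / 2 * δ * ‖w‖ < c0 / 2 * ‖w‖ * ‖w‖ := by gcongr
      nlinarith
  -- the limit
  have hηn : ∀ n : ℕ, 0 < η₀ * (1 / ((n : ℝ) + 1)) ∧ η₀ * (1 / ((n : ℝ) + 1)) ≤ η₀ := by
    intro n
    refine ⟨by positivity, mul_le_of_le_one_right hη₀.le ?_⟩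
    rw [div_le_one (by positivity)]
    linarith [Nat.cast_nonneg (α := ℝ) n]
  choose τ hτ w hw hwC hwE using fun n : ℕ => key _ (hηn n).1 (hηn n).2
  have hiw : ∀ n, ‖i (w n)‖ ≤ ‖i‖ * δ := fun n => by
    have := i.le_opNorm (w n)
    rwa [hw] at this
  obtain ⟨⟨τ0, a⟩, ⟨hτ0, haK, har⟩, ψ, hψ, hlim⟩ :=
    (isCompact_Icc.prod (hKc.inter_right (Metric.isClosed_closedBall (x := 0)
      (ε := ‖i‖ * δ)))).tendsto_subseq (x := fun n => (τ n, i (w n)))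
      fun n => ⟨hτ n, hKc' _ (hw n).le, mem_closedBall_zero_iff.2 (hiw n)⟩
  have l1 : Tendsto (fun n => τ (ψ n)) atTop (𝓝 τ0) := (continuous_fst.tendsto _).comp hlim
  have l2 : Tendsto (fun n => i (w (ψ n))) atTop (𝓝 a) := (continuous_snd.tendsto _).comp hlim
  have l3 : Tendsto (fun n => η₀ * (1 / ((ψ n : ℝ) + 1))) atTop (𝓝 0) := by
    have := (tendsto_one_div_add_atTop_nhds_zero_nat (𝕜 := ℝ)).comp hψ.tendsto_atTop
    simpa using this.const_mul η₀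
  have l4 : Tendsto (fun n => μ • i (w (ψ n)) + (η₀ * (1 / ((ψ n : ℝ) + 1))) • φ) atTop
      (𝓝 (μ • a + (0 : ℝ) • φ)) := (l2.const_smul μ).add (l3.smul_const φ)
  have hga : ‖μ • a + (0 : ℝ) • φ‖ ≤ r :=
    hgr 0 le_rfl hη₀.le a (mem_closedBall_zero_iff.1 har)
  have hwS : ∀ n, S (τ n, μ • i (w n) + (η₀ * (1 / ((n : ℝ) + 1))) • φ) = w n := by
    intro n
    obtain ⟨b1, b2⟩ := hS (τ n) (hτ n) _ (hgr _ (hηn n).1.le (hηn n).2 _ (hiw n))
    refine huniq (τ n) (hτ n) _ _ b1 ((hw n).le.trans hδd) ?_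
    rw [b2, hwE, sub_neg_eq_add]
  set w0 := S (τ0, μ • a + (0 : ℝ) • φ) with hw0
  have l5 : Tendsto (fun n => w (ψ n)) atTop (𝓝 w0) := by
    have := (hSc (τ0, μ • a + (0 : ℝ) • φ) ⟨hτ0, mem_closedBall_zero_iff.2 hga⟩).tendsto.comp
      (tendsto_nhdsWithin_iff.2 ⟨l1.prodMk_nhds l4, Eventually.of_forall fun n =>
        ⟨hτ _, mem_closedBall_zero_iff.2 (hgr _ (hηn _).1.le (hηn _).2 _ (hiw _))⟩⟩)
    refine this.congr fun n => ?_
    exact hwS (ψ n)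
  have m1 : ‖w0‖ = δ := by
    refine tendsto_nhds_unique l5.norm ?_
    simp only [hw]
    exact tendsto_const_nhds
  have m2 : E (τ0, w0) = 0 := by
    refine tendsto_nhds_unique ((hE.continuous.tendsto _).comp (l1.prodMk_nhds l5)) ?_
    have := (l3.smul_const φ).neg
    rw [zero_smul, neg_zero] at this
    refine this.congr fun n => ?_
    exact (hwE (ψ n)).symm
  have m3 : i w0 ∈ C :=
    hCc.mem_of_tendsto ((i.continuous.tendsto _).comp l5) (Eventually.of_forall fun n => hwC _)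
  refine ⟨τ0, hτ0, w0, m1.le.trans (hδd.trans hdε), fun h => ?_, m3, m2⟩
  have := huniq τ0 hτ0 w0 0 (m1.le.trans hδd) (by simpa using hd.le) (by simp [h, m2, hE0])
  rw [this, norm_zero] at m1
  exact hδ.ne m1

end Pool.Agent.P.MP_4a4b50_gt.CE
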