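import Pool.Agent.P.MP_4a4b50_gt.CCalc

set_option autoImplicit false

namespace Pool.Agent.P.MP_4a4b50_gt.CE

open scoped ContDiff Topology
open Pool.Agent.P.MP_f97e06_gt (Eu)
open Matrix Set Filter

theorem seg_ineq {n : ℕ} {g : Eu n → ℝ} (hs : ContDiffOn ℝ 2 g {0}ᶜ)
    (hpsd : ∀ x, x ≠ 0 → ∀ v, 0 ≤ D2 g x v v) (x u : Eu n)
    (hne : ∀ r ∈ Icc (0 : ℝ) 1, x + r • u ≠ 0) : g x + fderiv ℝ g x u ≤ g (x + u) := by
  have hat : ∀ r ∈ Icc (0 : ℝ) 1, ContDiffAt ℝ 2 g (x + r • u) := fun r hr =>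
    hs.contDiffAt (isOpen_compl_singleton.mem_nhds (hne r hr))
  have hl : ∀ r : ℝ, HasDerivAt (fun r : ℝ => x + r • u) u r := fun r => by
    simpa using ((hasDerivAt_id r).smul_const u).const_add x
  have d1 : ∀ r ∈ Icc (0 : ℝ) 1,
      HasDerivAt (fun r : ℝ => g (x + r • u)) (fderiv ℝ g (x + r • u) u) r := fun r hr =>
    ((hat r hr).differentiableAt (by simp)).hasFDerivAt.comp_hasDerivAt r (hl r)
  have d2 : ∀ r ∈ Icc (0 : ℝ) 1,
      HasDerivAt (fun r : ℝ => fderiv ℝ g (x + r • u) u) (D2 g (x + r • u) u u) r := fun r hr => by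
    have a1 : DifferentiableAt ℝ (fderiv ℝ g) (x + r • u) :=
      ((hat r hr).fderiv_right (m := 1) (by norm_num)).differentiableAt (by simp)
    have a2 := a1.hasFDerivAt.comp_hasDerivAt r (hl r)
    simpa using a2.clm_apply (hasDerivAt_const r u)
  obtain ⟨c, hc, ec⟩ := exists_hasDerivAt_eq_slope (fun r : ℝ => g (x + r • u))
    (fun r => fderiv ℝ g (x + r • u) u) zero_lt_one
    (fun r hr => (d1 r hr).continuousAt.continuousWithinAt)
    (fun r hr => d1 r (Ioo_subset_Icc_self hr))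
  have hsub : Icc (0 : ℝ) c ⊆ Icc 0 1 := Icc_subset_Icc_right hc.2.le
  obtain ⟨e, he, ee⟩ := exists_hasDerivAt_eq_slope (fun r : ℝ => fderiv ℝ g (x + r • u) u)
    (fun r => D2 g (x + r • u) u u) hc.1
    (fun r hr => (d2 r (hsub hr)).continuousAt.continuousWithinAt)
    (fun r hr => d2 r (hsub (Ioo_subset_Icc_self hr)))
  have h0 := hpsd _ (hne e (hsub (Ioo_subset_Icc_self he))) u
  rw [ee, sub_zero] at h0
  have h1 := (div_nonneg_iff.1 h0).resolve_right (fun h => absurd hc.1 (not_lt.2 h.2))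
  simp only [zero_smul, add_zero, one_smul, sub_zero, div_one] at ec h1
  linarith [h1.1]

theorem fderiv_le_of_psd {n : ℕ} (hn : 2 ≤ n) {g : Eu n → ℝ} (hs : ContDiffOn ℝ 2 g {0}ᶜ)
    (h1 : Hom1 g) (hpsd : ∀ x, x ≠ 0 → ∀ v, 0 ≤ D2 g x v v) {x : Eu n} (hx : x ≠ 0) (z : Eu n) :
    fderiv ℝ g x z ≤ g z := by
  have hat : ∀ y : Eu n, y ≠ 0 → ContDiffAt ℝ 2 g y := fun y hy =>
    hs.contDiffAt (isOpen_compl_singleton.mem_nhds hy)
  have heu := h1.euler ((hat x hx).differentiableAt (by simp))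
  have key : ∀ z : Eu n, z ∉ Submodule.span ℝ ({x} : Set (Eu n)) → fderiv ℝ g x z ≤ g z := by
    intro z hz
    have := seg_ineq hs hpsd x (z - x) (by
      intro r _ h0
      by_cases hr : r = 0
      · rw [hr, zero_smul, add_zero] at h0
        exact hx h0
      · apply hz
        have hrz : r • z = (r - 1) • x := by
          rw [smul_sub] at h0
          rw [sub_smul, one_smul]
          linear_combination (norm := module) h0
        have : z = (r⁻¹ * (r - 1)) • x := by
          rw [mul_smul, ← hrz, smul_smul, inv_mul_cancel₀ hr, one_smul]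
        rw [this]
        exact Submodule.smul_mem _ _ (Submodule.mem_span_singleton_self x))
    have e : x + (z - x) = z := by abel
    rw [e, map_sub, heu] at this
    linarith
  by_cases hz : z ∈ Submodule.span ℝ ({x} : Set (Eu n))
  swap
  · exact key z hz
  by_cases hz0 : z = 0
  · rw [hz0, map_zero, h1.zero]
  obtain ⟨w, hw⟩ := (Submodule.span ℝ ({x} : Set (Eu n))).exists_of_finrank_lt (by
    rw [finrank_span_singleton hx, finrank_euclideanSpace_fin]
    omega)
  have hc : ContinuousAt (fun r : ℝ => g (z + r • w) - fderiv ℝ g x (z + r • w)) 0 := by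
    have c1 : ContinuousAt (fun r : ℝ => z + r • w) 0 := by fun_prop
    have c2 : ContinuousAt g ((fun r : ℝ => z + r • w) 0) := by
      simpa using (hat z hz0).continuousAt
    have c3 : ContinuousAt (fun r : ℝ => fderiv ℝ g x (z + r • w)) 0 := by fun_prop
    exact (ContinuousAt.comp (f := fun r : ℝ => z + r • w) c2 c1).sub c3
  have hlim : Tendsto (fun r : ℝ => g (z + r • w) - fderiv ℝ g x (z + r • w)) (𝓝[≠] 0)
      (𝓝 (g z - fderiv ℝ g x z)) := by
    simpa using hc.tendsto.mono_left nhdsWithin_le_nhds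
  have : 0 ≤ g z - fderiv ℝ g x z := by
    apply ge_of_tendsto hlim
    filter_upwards [self_mem_nhdsWithin] with r hr
    have := key (z + r • w) (fun h => hw r hr ((Submodule.add_mem_iff_right _ hz).1 h))
    linarith
  linarith

/-- a one-homogeneous function with positive definite `hatM` is the support function of a body -/
theorem exists_body {n : ℕ} (hn : 2 ≤ n) {h : Eu n → ℝ} (hs : ContDiffOn ℝ 2 h {0}ᶜ) (h1 : Hom1 h)
    (hp : ∀ x, ‖x‖ = 1 → (hatM h x).PosDef) :
    ∃ K : Set (Eu n), IsCompact K ∧ Convex ℝ K ∧ (interior K).Nonempty ∧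
      ∀ x, h x = sSup ((fun y => inner ℝ y x) '' K) := by
  have hat : ∀ y : Eu n, y ≠ 0 → ContDiffAt ℝ 2 h y := fun y hy =>
    hs.contDiffAt (isOpen_compl_singleton.mem_nhds hy)
  have hnat : ∀ y : Eu n, y ≠ 0 → ContDiffAt ℝ 2 (fun z : Eu n => ‖z‖) y := fun y hy =>
    contDiffAt_norm ℝ hy
  obtain ⟨l, R, hl, hlR⟩ := uniform_pos hs hp
  let g : Eu n → ℝ := fun z => 1 * h z + (-l) * ‖z‖
  have hgs : ContDiffOn ℝ 2 g {0}ᶜ := fun y hy =>
    ((contDiffAt_const.mul (hat y hy)).add (contDiffAt_const.mul (hnat y hy))).contDiffWithinAt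
  have hg1 : Hom1 g := fun t ht x => by
    simp only [g, h1 t ht x, norm_smul, Real.norm_of_nonneg ht.le]
    ring
  have hunit : ∀ x : Eu n, x ≠ 0 → ‖‖x‖⁻¹ • x‖ = 1 ∧ ‖x‖ • ‖x‖⁻¹ • x = x := fun x hx => by
    have : ‖x‖ ≠ 0 := norm_ne_zero_iff.2 hx
    refine ⟨norm_smul_inv_norm (𝕜 := ℝ) hx, ?_⟩
    rw [smul_smul, mul_inv_cancel₀ this, one_smul]
  have hpsd1 : ∀ x : Eu n, ‖x‖ = 1 → ∀ v, 0 ≤ D2 g x v v := by
    intro x hx v
    have hx0 : x ≠ 0 := by
      rintro rfl
      simp at hx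
    have e1 : D2 g x v v = D2 h x v v - l * (inner ℝ v v - inner ℝ x v * inner ℝ x v) := by
      rw [← hessM_form, hessM_lin (hat x hx0) (hnat x hx0), Matrix.add_mulVec, dotProduct_add,
        Matrix.smul_mulVec, Matrix.smul_mulVec, dotProduct_smul, dotProduct_smul, hessM_form,
        hessM_form, D2_norm_unit hx]
      simp only [smul_eq_mul]
      ring
    set t : ℝ := inner ℝ x v with ht
    have hxx : inner ℝ x x = (1 : ℝ) := by rw [real_inner_self_eq_norm_sq, hx]; norm_num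
    have e2 := (hlR x hx).1.dotProduct_mulVec_nonneg (v - t • x).ofLp
    rw [star_trivial, Matrix.sub_mulVec, dotProduct_sub, hatM_form, Matrix.smul_mulVec,
      Matrix.one_mulVec, dotProduct_smul] at e2
    have e3 : (v - t • x).ofLp ⬝ᵥ (v - t • x).ofLp = inner ℝ (v - t • x) (v - t • x) := by
      rw [EuclideanSpace.inner_eq_star_dotProduct, star_trivial]
    have e4 : D2 h x (v - t • x) (v - t • x) = D2 h x v v := by
      have a1 := (h1.D2_self (hat x hx0) v).1
      have a2 := (h1.D2_self (hat x hx0) v).2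
      have a3 := (h1.D2_self (hat x hx0) x).1
      simp only [map_sub, map_smul, ContinuousLinearMap.sub_apply, ContinuousLinearMap.smul_apply,
        a1, a2, a3, smul_zero, sub_zero]
    have e5 : inner ℝ x (v - t • x) = 0 := by
      rw [inner_sub_right, real_inner_smul_right, hxx, ← ht]; ring
    have e6 : inner ℝ (v - t • x) (v - t • x) = inner ℝ v v - t * t := by
      rw [inner_sub_left, real_inner_smul_left, e5, inner_sub_right, real_inner_smul_right,
        real_inner_comm x v, ← ht]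
      ring
    rw [e3, e4, e5, e6, smul_eq_mul] at e2
    rw [e1]
    linarith
  have hpsd : ∀ x : Eu n, x ≠ 0 → ∀ v, 0 ≤ D2 g x v v := by
    intro x hx v
    obtain ⟨u1, u2⟩ := hunit x hx
    have hpos : 0 < ‖x‖ := norm_pos_iff.2 hx
    have := hg1.D2_smul hpos (‖x‖⁻¹ • x)
    rw [u2] at this
    rw [this]
    simp only [ContinuousLinearMap.smul_apply, smul_eq_mul]
    exact mul_nonneg (inv_nonneg.2 hpos.le) (hpsd1 _ u1 v)
  let K : Set (Eu n) := {p | ∀ z, inner ℝ p z ≤ h z}
  have hball : ∀ x : Eu n, x ≠ 0 →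
      Metric.closedBall ((InnerProductSpace.toDual ℝ (Eu n)).symm (fderiv ℝ g x)) l ⊆ K := by
    intro x hx p hp' z
    have a1 := fderiv_le_of_psd hn hgs hg1 hpsd hx z
    set p0 := (InnerProductSpace.toDual ℝ (Eu n)).symm (fderiv ℝ g x) with hp0
    have a2 : inner ℝ p0 z = fderiv ℝ g x z := InnerProductSpace.toDual_symm_apply
    have a3 : inner ℝ (p - p0) z ≤ ‖p - p0‖ * ‖z‖ := real_inner_le_norm _ _
    have a4 : ‖p - p0‖ ≤ l := by rwa [Metric.mem_closedBall, dist_eq_norm] at hp'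
    have a5 : ‖p - p0‖ * ‖z‖ ≤ l * ‖z‖ := mul_le_mul_of_nonneg_right a4 (norm_nonneg _)
    rw [inner_sub_left] at a3
    simp only [g] at a1 a2
    linarith
  have hx0 : (EuclideanSpace.single (⟨0, by omega⟩ : Fin n) (1 : ℝ) : Eu n) ≠ 0 := by
    rw [← norm_ne_zero_iff]
    simp
  have hint : (interior K).Nonempty :=
    ⟨_, mem_interior_iff_mem_nhds.2
      (mem_of_superset (Metric.closedBall_mem_nhds _ hl) (hball _ hx0))⟩
  refine ⟨K, ?_, ?_, hint, fun x => ?_⟩
  · have hcl : IsClosed K := by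
      simp only [K, setOf_forall]
      exact isClosed_iInter fun z => isClosed_le (by fun_prop) continuous_const
    obtain ⟨M, hM⟩ := (isCompact_sphere (0 : Eu n) 1).bddAbove_image (f := h)
      (hs.continuousOn.mono fun y hy h0 => by
        rw [mem_singleton_iff.1 h0] at hy
        simp at hy)
    refine Metric.isCompact_of_isClosed_isBounded hcl
      ((Metric.isBounded_closedBall (x := (0 : Eu n)) (r := max M 0)).subset fun p hp' => ?_)
    rw [mem_closedBall_zero_iff]
    by_cases h0 : p = 0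
    · rw [h0, norm_zero]
      exact le_max_right _ _
    · have a1 := hp' (‖p‖⁻¹ • p)
      have a2 : h (‖p‖⁻¹ • p) ≤ M :=
        hM ⟨_, mem_sphere_zero_iff_norm.2 (hunit p h0).1, rfl⟩
      have a3 : ‖p‖ ≠ 0 := norm_ne_zero_iff.2 h0
      rw [real_inner_smul_right, real_inner_self_eq_norm_sq] at a1
      have a4 : ‖p‖⁻¹ * ‖p‖ ^ 2 = ‖p‖ := by field_simp
      rw [a4] at a1
      exact (a1.trans a2).trans (le_max_left _ _)
  · intro p hp1 q hq1 a b ha hb hab z
    rw [inner_add_left, real_inner_smul_left, real_inner_smul_left]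
    have a1 := mul_le_mul_of_nonneg_left (hp1 z) ha
    have a2 := mul_le_mul_of_nonneg_left (hq1 z) hb
    have a3 : a * h z + b * h z = h z := by rw [← add_mul, hab, one_mul]
    linarith
  · refine (IsGreatest.csSup_eq ⟨?_, ?_⟩).symm
    · by_cases hx : x = 0
      · obtain ⟨p, hp'⟩ := hint
        exact ⟨p, interior_subset hp', by simp [hx, h1.zero]⟩
      · obtain ⟨u1, u2⟩ := hunit x hx
        refine ⟨(InnerProductSpace.toDual ℝ (Eu n)).symm (fderiv ℝ g x) + l • ‖x‖⁻¹ • x,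
          hball x hx ?_, ?_⟩
        · rw [Metric.mem_closedBall, dist_eq_norm, add_sub_cancel_left, norm_smul, u1,
            Real.norm_of_nonneg hl.le, mul_one]
        · have a1 := hg1.euler
            ((hgs.contDiffAt (isOpen_compl_singleton.mem_nhds hx)).differentiableAt (by simp))
          have a3 : ‖x‖ ≠ 0 := norm_ne_zero_iff.2 hx
          have a4 : ‖x‖⁻¹ * ‖x‖ ^ 2 = ‖x‖ := by field_simp
          simp only []
          rw [inner_add_left, InnerProductSpace.toDual_symm_apply, a1, real_inner_smul_left,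
            real_inner_smul_left, real_inner_self_eq_norm_sq, a4]
          simp only [g]
          ring
    · rintro _ ⟨p, hp', rfl⟩
      exact hp' x

theorem not_statement {G : Set (Eu 10 ≃ₗᵢ[ℝ] Eu 10)} (hG : NoFix G) {h d : Eu 10 → ℝ}
    (hs : Sol 9 G h d) :
    ¬ (∀ n : ℕ, 3 ≤ n →
    ∀ N : ℕ, N = (if n ≤ 7 then (if Even n then 8 else 9) else (n - 1) / 2 + 5) →
    ∀ H K : Set (EuclideanSpace ℝ (Fin n)),
    IsCompact H → Convex ℝ H → (interior H).Nonempty →
    IsCompact K → Convex ℝ K → (interior K).Nonempty →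
    ∀ hH hK : EuclideanSpace ℝ (Fin n) → ℝ,
    (∀ x, hH x = sSup ((fun y => inner ℝ y x) '' H)) →
    (∀ x, hK x = sSup ((fun y => inner ℝ y x) '' K)) →
    ∀ RH RK : EuclideanSpace ℝ (Fin n) → ℝ,
    (∀ u, RH u = (Matrix.of (fun i j : Fin n =>
        fderiv ℝ (fderiv ℝ hH) u (EuclideanSpace.single i 1) (EuclideanSpace.single j 1)
        + inner ℝ u (EuclideanSpace.single i (1 : ℝ)) * inner ℝ u (EuclideanSpace.single j (1 : ℝ)))).det) →
    (∀ u, RK u = (Matrix.of (fun i j : Fin n =>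
        fderiv ℝ (fderiv ℝ hK) u (EuclideanSpace.single i 1) (EuclideanSpace.single j 1)
        + inner ℝ u (EuclideanSpace.single i (1 : ℝ)) * inner ℝ u (EuclideanSpace.single j (1 : ℝ)))).det) →
    ContDiffOn ℝ (N : WithTop ℕ∞) hH {0}ᶜ →
    ContDiffOn ℝ (N : WithTop ℕ∞) hK {0}ᶜ →
    (∀ u : EuclideanSpace ℝ (Fin n), ‖u‖ = 1 → 0 < RH u) →
    (∀ u : EuclideanSpace ℝ (Fin n), ‖u‖ = 1 → 0 < RK u) →
    (∀ u : EuclideanSpace ℝ (Fin n), ‖u‖ = 1 → hH u + hH (-u) = hK u + hK (-u)) →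
    (∀ u : EuclideanSpace ℝ (Fin n), ‖u‖ = 1 → RH (-u) * RK u = RK (-u) * RH u) →
    ∃ v : EuclideanSpace ℝ (Fin n), H = (fun x => x + v) '' K) := by
  intro hall
  have h29 : (2 : WithTop ℕ∞) ≤ ((9 : ℕ) : WithTop ℕ∞) := by exact_mod_cast (by norm_num : 2 ≤ 9)
  have hne : ∀ u : Eu 10, ‖u‖ = 1 → u ≠ 0 := by
    rintro u hu rfl
    simp at hu
  let k : Eu 10 → ℝ := fun z => 1 * h z + 1 * d z
  have hks : ContDiffOn ℝ ((9 : ℕ) : WithTop ℕ∞) k {0}ᶜ :=
    (contDiffOn_const.mul hs.h_smooth).add (contDiffOn_const.mul hs.d_smooth)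
  have hk1 : Hom1 k := fun t ht x => by
    simp only [k, hs.h_hom t ht x, hs.d_hom t ht x]
    ring
  have hkM : ∀ u : Eu 10, ‖u‖ = 1 → hatM k u = hatM h u + hessM d u := by
    intro u hu
    have a1 := (hs.h_smooth.of_le h29).contDiffAt (isOpen_compl_singleton.mem_nhds (hne u hu))
    have a2 := (hs.d_smooth.of_le h29).contDiffAt (isOpen_compl_singleton.mem_nhds (hne u hu))
    simp only [hatM, k]
    rw [hessM_lin a1 a2, one_smul, one_smul]
    abel
  have hkp : ∀ u : Eu 10, ‖u‖ = 1 → (hatM k u).PosDef := fun u hu => by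
    rw [hkM u hu]
    exact hs.k_pos u hu
  obtain ⟨H, H1, H2, H3, H4⟩ := exists_body (by norm_num) (hs.h_smooth.of_le h29) hs.h_hom hs.h_pos
  obtain ⟨K, K1, K2, K3, K4⟩ := exists_body (by norm_num) (hks.of_le h29) hk1 hkp
  have hM : ∀ (f : Eu 10 → ℝ) (u : Eu 10), (hatM f u).det = (Matrix.of (fun i j : Fin 10 =>
      fderiv ℝ (fderiv ℝ f) u (EuclideanSpace.single i 1) (EuclideanSpace.single j 1)
      + inner ℝ u (EuclideanSpace.single i (1 : ℝ))
        * inner ℝ u (EuclideanSpace.single j (1 : ℝ)))).det := by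
    intro f u
    congr 1
    ext i j
    simp [hatM, hessM, Matrix.vecMulVec_apply, EuclideanSpace.inner_single_right]
  obtain ⟨v, hv⟩ := hall 10 (by norm_num) 9 (by norm_num) H K H1 H2 H3 K1 K2 K3 h k H4 K4
    (fun u => (hatM h u).det) (fun u => (hatM k u).det) (hM h) (hM k) hs.h_smooth hks
    (fun u hu => (hs.h_pos u hu).det_pos) (fun u hu => (hkp u hu).det_pos)
    (fun u _ => by simp only [k, hs.d_odd u]; ring)
    (fun u hu => by
      have a1 := hessM_neg_neg d u
      have a2 : (fun z => -d (-z)) = d := funext fun z => by rw [hs.d_odd, neg_neg]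
      rw [a2] at a1
      have a3 : hessM d (-u) = -hessM d u := by rw [a1, neg_neg]
      have a4 := hs.eqn u hu
      rw [hkM u hu, hkM (-u) (by rwa [norm_neg]), a3, ← sub_eq_add_neg]
      simp only [Eop] at a4
      linarith)
  have hd : ∀ x, d x = -inner ℝ v x := by
    intro x
    obtain ⟨y, hy, e1⟩ := supp_ex H1 (H3.mono interior_subset) H4 x
    obtain ⟨y', hy', e2⟩ := supp_ex K1 (K3.mono interior_subset) K4 x
    have e3 := supp_le H1 H4 x (y := y' + v) (hv ▸ ⟨y', hy', rfl⟩)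
    rw [hv] at hy
    obtain ⟨y'', hy'', rfl⟩ := hy
    have e4 := supp_le K1 K4 x hy''
    simp only [inner_add_left, k] at e1 e2 e3 e4
    linarith
  have hv0 : v = 0 := by
    apply hG
    intro g hg
    apply ext_inner_right ℝ
    intro z
    have a1 := hs.d_inv g hg (g.symm z)
    rw [hd, hd, LinearIsometryEquiv.apply_symm_apply] at a1
    have a2 : inner ℝ (g v) z = inner ℝ v (g.symm z) := by
      rw [← g.inner_map_map v (g.symm z), LinearIsometryEquiv.apply_symm_apply]
    linarith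
  obtain ⟨x, hx⟩ := hs.d_ne
  apply hx
  rw [hd, hv0]
  simp

end Pool.Agent.P.MP_4a4b50_gt.CE
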