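import Pool.Agent.P.MP_4a4b50_gt.Basic

set_option autoImplicit false

open Set Filter Topology Metric

namespace Pool.Agent.P.MP_4a4b50_gt

section Gen
variable {E : Type*} [NormedAddCommGroup E] [InnerProductSpace ℝ E]

theorem contDiffAt_dir {d : E → ℝ} {x : E} (hd : ContDiffAt ℝ 3 d x) (a : E) :
    ContDiffAt ℝ 2 (fun y => fderiv ℝ d y a) x :=
  (hd.fderiv_right (m := 2) (by norm_num)).clm_apply contDiffAt_const

theorem contDiffAt_dir2 {d : E → ℝ} {x : E} (hd : ContDiffAt ℝ 3 d x) (a b : E) :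
    ContDiffAt ℝ 1 (fun y => fderiv ℝ (fderiv ℝ d) y a b) x :=
  (((hd.fderiv_right (m := 2) (by norm_num)).fderiv_right (m := 1)
    (by norm_num)).clm_apply contDiffAt_const).clm_apply contDiffAt_const

theorem symm2 {d : E → ℝ} {x : E} (hd : ContDiffAt ℝ 2 d x) (a b : E) :
    fderiv ℝ (fderiv ℝ d) x a b = fderiv ℝ (fderiv ℝ d) x b a :=
  (hd.isSymmSndFDerivAt (by simp)).eq a b

theorem hopf_dir [FiniteDimensional ℝ E] {U : Set E} (hU : IsOpen U) {d : E → ℝ}
    (hd : ContDiffOn ℝ 3 d U) (hhom : ∀ t : ℝ, 0 < t → ∀ x, d (t • x) = t • d x)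
    (a b : E) {α β : E → ℝ} (hα : ContDiffOn ℝ 1 α U) (hβ : ContDiffOn ℝ 1 β U)
    (hell : ∀ x ∈ U, 0 < α x - β x ^ 2)
    (heq : ∀ x ∈ U, α x * fderiv ℝ (fderiv ℝ d) x a a + 2 * β x * fderiv ℝ (fderiv ℝ d) x a b
      + fderiv ℝ (fderiv ℝ d) x b b = 0)
    (hspan : ∀ x ∈ U, ∀ ξ : E, inner ℝ ξ a = 0 → inner ℝ ξ b = 0 → inner ℝ ξ x = 0 → ξ = 0)
    {m : ℝ} (hm : ∀ x ∈ U, fderiv ℝ d x a ≤ m) {x0 : E} (hx0 : x0 ∈ U)
    (h0 : fderiv ℝ d x0 a = m) : ∀ᶠ x in 𝓝 x0, fderiv ℝ d x a = m := by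
  set g : E → ℝ := fun y => fderiv ℝ d y a with hg
  set gb : E → ℝ := fun y => fderiv ℝ d y b with hgb
  have hdx : ∀ x ∈ U, ContDiffAt ℝ 3 d x := fun x hx => hd.contDiffAt (hU.mem_nhds hx)
  have hdx2 : ∀ x ∈ U, ContDiffAt ℝ 2 d x := fun x hx => (hdx x hx).of_le (by norm_num)
  have hg2 : ∀ x ∈ U, ContDiffAt ℝ 2 g x := fun x hx => contDiffAt_dir (hdx x hx) a
  have hgb2 : ∀ x ∈ U, ContDiffAt ℝ 2 gb x := fun x hx => contDiffAt_dir (hdx x hx) b
  have hg0 : ∀ t : ℝ, 0 < t → ∀ x, g (t • x) = g x := by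
    intro t ht x
    simp only [hg]
    rw [fderiv_hom_one d t ht.ne' (hhom t ht)]
  have hαc : ContinuousOn (fun x => fderiv ℝ α x a) U :=
    (hα.continuousOn_fderiv_of_isOpen hU le_rfl).clm_apply continuousOn_const
  have hβc : ContinuousOn (fun x => fderiv ℝ β x a) U :=
    (hβ.continuousOn_fderiv_of_isOpen hU le_rfl).clm_apply continuousOn_const
  have hα0 := hα.continuousOn
  have hβ0 := hβ.continuousOn
  refine hopf (ι := Fin 3) hU (g := g) (fun x hx => (hg2 x hx).contDiffWithinAt)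
    ![fun x => α x - β x ^ 2, fun _ => 1, fun _ => 1]
    ![fun _ => a, fun x => b + β x • a, fun x => x]
    (fun x => fderiv ℝ α x a • a + (2 * fderiv ℝ β x a) • b) ?_ ?_ ?_ ?_ ?_ ?_ hm hx0 h0
  · intro i
    fin_cases i
    · exact hα0.sub (hβ0.pow 2)
    · exact continuousOn_const
    · exact continuousOn_const
  · intro i
    fin_cases i
    · exact continuousOn_const
    · exact continuousOn_const.add (hβ0.smul continuousOn_const)
    · exact continuousOn_id
  · exact (hαc.smul continuousOn_const).add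
      ((continuousOn_const.mul hβc).smul continuousOn_const)
  · intro i x hx
    fin_cases i
    · exact hell x hx
    · exact one_pos
    · exact one_pos
  · intro x hx ξ hξ
    by_contra hcon
    push Not at hcon
    have h1 : inner ℝ ξ a = 0 := hcon 0
    have h2 : inner ℝ ξ (b + β x • a) = 0 := hcon 1
    have h3 : inner ℝ ξ x = 0 := hcon 2
    rw [inner_add_right, inner_smul_right, h1] at h2
    exact hξ (hspan x hx ξ h1 (by simpa using h2) h3)
  · intro x hx
    have hn := hU.mem_nhds hx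
    -- the equation in terms of g and gb
    have e0 : (fun y => α y * fderiv ℝ g y a + 2 * (β y * fderiv ℝ g y b) + fderiv ℝ gb y b)
        =ᶠ[𝓝 x] fun _ => 0 := by
      filter_upwards [hn] with y hy
      simp only [hg, hgb]
      rw [fderiv_apply_const (hdx2 y hy), fderiv_apply_const (hdx2 y hy),
        fderiv_apply_const (hdx2 y hy), symm2 (hdx2 y hy) b a]
      linarith [heq y hy]
    have dα : HasFDerivAt α (fderiv ℝ α x) x :=
      ((hα.contDiffAt hn).differentiableAt (by simp)).hasFDerivAt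
    have dβ : HasFDerivAt β (fderiv ℝ β x) x :=
      ((hβ.contDiffAt hn).differentiableAt (by simp)).hasFDerivAt
    have dd : ∀ (f : E → ℝ), ContDiffAt ℝ 2 f x → ∀ v : E,
        HasFDerivAt (fun y => fderiv ℝ f y v) (fderiv ℝ (fun y => fderiv ℝ f y v) x) x := by
      intro f hf v
      exact (((hf.fderiv_right (m := 1) (by norm_num)).clm_apply
        contDiffAt_const).differentiableAt (by simp)).hasFDerivAt
    have d1 := dd g (hg2 x hx) a
    have d2 := dd g (hg2 x hx) b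
    have d3 := dd gb (hgb2 x hx) b
    have dall := ((dα.mul d1).add ((dβ.mul d2).const_mul 2)).add d3
    have e1 := (hasFDerivAt_const (𝕜 := ℝ) (0 : ℝ) x).congr_of_eventuallyEq e0
    have e2 := congrArg (fun L : E →L[ℝ] ℝ => L a) (dall.unique e1)
    simp only [add_apply, smul_apply, smul_eq_mul, zero_apply] at e2
    rw [fderiv_apply_const (hg2 x hx), fderiv_apply_const (hg2 x hx),
      fderiv_apply_const (hgb2 x hx)] at e2
    have e3 : fderiv ℝ (fderiv ℝ gb) x a b = fderiv ℝ (fderiv ℝ g) x b b := by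
      rw [symm2 (hgb2 x hx) a b, ← fderiv_apply_const (hgb2 x hx),
        ← fderiv_apply_const (hg2 x hx)]
      have : (fun y => fderiv ℝ gb y a) =ᶠ[𝓝 x] fun y => fderiv ℝ g y b := by
        filter_upwards [hn] with y hy
        simp only [hg, hgb]
        rw [fderiv_apply_const (hdx2 y hy), fderiv_apply_const (hdx2 y hy), symm2 (hdx2 y hy) b a]
      rw [this.fderiv_eq]
    have e4 := snd_radial_zero g hg0 (hg2 x hx)
    have e5 := symm2 (hg2 x hx) a b
    rw [Fin.sum_univ_three]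
    simp only [Matrix.cons_val_zero, Matrix.cons_val_one, Matrix.cons_val_two, Matrix.head_cons,
      Matrix.tail_cons, map_add, map_smul, add_apply, smul_apply, smul_eq_mul, e4]
    rw [e3] at e2
    rw [← e5]
    linarith

end Gen

theorem pd_form {p11 p12 p22 : ℝ} (h1 : 0 ≤ p11) (h2 : 0 < p11 * p22 - p12 ^ 2) (s t : ℝ)
    (hst : s ≠ 0 ∨ t ≠ 0) : 0 < p22 * s ^ 2 - 2 * p12 * s * t + p11 * t ^ 2 := by
  have h3 : 0 < p11 := by
    rcases h1.lt_or_eq with h | h
    · exact h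
    · rw [← h] at h2; nlinarith [sq_nonneg p12]
  have e : p11 * (p22 * s ^ 2 - 2 * p12 * s * t + p11 * t ^ 2)
      = (p11 * t - p12 * s) ^ 2 + (p11 * p22 - p12 ^ 2) * s ^ 2 := by ring
  have : 0 < p11 * (p22 * s ^ 2 - 2 * p12 * s * t + p11 * t ^ 2) := by
    rw [e]
    by_cases hs : s = 0
    · have ht : t ≠ 0 := by tauto
      subst hs
      have : 0 < (p11 * t) ^ 2 := by positivity
      simpa using this
    · have : 0 < (p11 * p22 - p12 ^ 2) * s ^ 2 := by positivity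
      nlinarith [sq_nonneg (p11 * t - p12 * s)]
  exact (mul_pos_iff_of_pos_left h3).mp this

theorem alg_main {x11 x12 x22 k11 k12 k22 y11 y12 y22 z11 z12 z22 : ℝ}
    (hx : 0 ≤ x11) (hx' : 0 < x11 * x22 - x12 ^ 2) (hk : 0 ≤ k11) (hk' : 0 < k11 * k22 - k12 ^ 2)
    (hy : 0 ≤ y11) (hy' : 0 < y11 * y22 - y12 ^ 2) (hz : 0 ≤ z11) (hz' : 0 < z11 * z22 - z12 ^ 2)
    (M11 M12 M22 : ℝ)
    (e11 : M11 = (z11 * z22 - z12 ^ 2) * (x22 + k22) + (x11 * x22 - x12 ^ 2) * (y22 + z22))
    (e12 : M12 = -((z11 * z22 - z12 ^ 2) * (x12 + k12) + (x11 * x22 - x12 ^ 2) * (y12 + z12)))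
    (e22 : M22 = (z11 * z22 - z12 ^ 2) * (x11 + k11) + (x11 * x22 - x12 ^ 2) * (y11 + z11)) :
    0 < M22 ∧ 0 < M11 / M22 - (M12 / M22) ^ 2 := by
  have form : ∀ s t : ℝ, (s ≠ 0 ∨ t ≠ 0) → 0 < M11 * s ^ 2 + 2 * M12 * s * t + M22 * t ^ 2 := by
    intro s t hst
    have a1 := pd_form hx hx' s t hst
    have a2 := pd_form hk hk' s t hst
    have a3 := pd_form hy hy' s t hst
    have a4 := pd_form hz hz' s t hst
    have : M11 * s ^ 2 + 2 * M12 * s * t + M22 * t ^ 2
        = (z11 * z22 - z12 ^ 2) * ((x22 * s ^ 2 - 2 * x12 * s * t + x11 * t ^ 2)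
          + (k22 * s ^ 2 - 2 * k12 * s * t + k11 * t ^ 2))
        + (x11 * x22 - x12 ^ 2) * ((y22 * s ^ 2 - 2 * y12 * s * t + y11 * t ^ 2)
          + (z22 * s ^ 2 - 2 * z12 * s * t + z11 * t ^ 2)) := by
      rw [e11, e12, e22]; ring
    rw [this]
    positivity
  have h22 : 0 < M22 := by simpa using form 0 1 (Or.inr one_ne_zero)
  refine ⟨h22, ?_⟩
  have := form 1 (-(M12 / M22)) (Or.inl one_ne_zero)
  have e : M11 / M22 - (M12 / M22) ^ 2
      = (M11 * 1 ^ 2 + 2 * M12 * 1 * (-(M12 / M22)) + M22 * (-(M12 / M22)) ^ 2) / M22 := by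
    field_simp
    ring
  rw [e]
  positivity

abbrev E3 := EuclideanSpace ℝ (Fin 3)

theorem decomp (v : E3) : v = v 0 • EuclideanSpace.single 0 (1 : ℝ)
    + v 1 • EuclideanSpace.single 1 (1 : ℝ) + v 2 • EuclideanSpace.single 2 (1 : ℝ) := by
  ext i
  fin_cases i <;> simp

/-- triple product -/
def trip (a b x : E3) : ℝ :=
  a 0 * b 1 * x 2 - a 0 * b 2 * x 1 - a 1 * b 0 * x 2 + a 1 * b 2 * x 0 + a 2 * b 0 * x 1
    - a 2 * b 1 * x 0

theorem inner3 (v w : E3) : inner ℝ v w = v 0 * w 0 + v 1 * w 1 + v 2 * w 2 := by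
  simp [PiLp.inner_apply, Fin.sum_univ_three]
  ring

theorem det_id (Q : E3 →L[ℝ] E3 →L[ℝ] ℝ) (hs : ∀ v w, Q v w = Q w v) (u : E3)
    (hu : ‖u‖ = 1) (hQ : ∀ v, Q u v = 0) (a b : E3) :
    (Matrix.of (fun i j : Fin 3 =>
        Q (EuclideanSpace.single i 1) (EuclideanSpace.single j 1)
        + inner ℝ u (EuclideanSpace.single i (1 : ℝ))
          * inner ℝ u (EuclideanSpace.single j (1 : ℝ)))).det * trip a b u ^ 2
      = Q a a * Q b b - Q a b ^ 2 := by
  set N := Matrix.of (fun i j : Fin 3 =>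
        Q (EuclideanSpace.single i 1) (EuclideanSpace.single j 1)
        + inner ℝ u (EuclideanSpace.single i (1 : ℝ))
          * inner ℝ u (EuclideanSpace.single j (1 : ℝ))) with hN
  set p : Fin 3 → E3 := ![a, b, u] with hp
  set P : Matrix (Fin 3) (Fin 3) ℝ := Matrix.of fun k i => p k i with hP
  have hdet : P.det = trip a b u := by
    rw [Matrix.det_fin_three]
    simp [hP, hp, trip]
  have hG : P * N * P.transpose
      = Matrix.of fun k l => Q (p k) (p l) + inner ℝ u (p k) * inner ℝ u (p l) := by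
    ext k l
    simp only [Matrix.mul_apply, Fin.sum_univ_three, Matrix.transpose_apply, hP, hN,
      Matrix.of_apply]
    conv_rhs => rw [decomp (p k), decomp (p l)]
    simp only [map_add, map_smul, add_apply, smul_apply, smul_eq_mul, inner_add_right,
      inner_smul_right]
    ring
  have h1 := congrArg Matrix.det hG
  rw [Matrix.det_mul, Matrix.det_mul, Matrix.det_transpose, hdet, Matrix.det_fin_three
    (Matrix.of fun k l => Q (p k) (p l) + inner ℝ u (p k) * inner ℝ u (p l))] at h1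
  have huu : inner ℝ u u = 1 := by rw [real_inner_self_eq_norm_sq, hu]; norm_num
  have hQ' : ∀ v, Q v u = 0 := fun v => by rw [hs, hQ]
  simp only [hp, Matrix.of_apply, Matrix.cons_val_zero, Matrix.cons_val_one, Matrix.cons_val_two,
    Matrix.head_cons, Matrix.tail_cons, huu, hQ, hQ', hs b a] at h1
  linear_combination h1

theorem span_of_trip {a b x ξ : E3} (h : trip a b x ≠ 0) (h1 : inner ℝ ξ a = 0)
    (h2 : inner ℝ ξ b = 0) (h3 : inner ℝ ξ x = 0) : ξ = 0 := by
  rw [inner3] at h1 h2 h3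
  have e0 : trip a b x * ξ 0 = 0 := by
    unfold trip
    linear_combination (b 1 * x 2 - b 2 * x 1) * h1 - (a 1 * x 2 - a 2 * x 1) * h2
      + (a 1 * b 2 - a 2 * b 1) * h3
  have e1 : trip a b x * ξ 1 = 0 := by
    unfold trip
    linear_combination (b 2 * x 0 - b 0 * x 2) * h1 - (a 2 * x 0 - a 0 * x 2) * h2
      + (a 2 * b 0 - a 0 * b 2) * h3
  have e2 : trip a b x * ξ 2 = 0 := by
    unfold trip
    linear_combination (b 0 * x 1 - b 1 * x 0) * h1 - (a 0 * x 1 - a 1 * x 0) * h2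
      + (a 0 * b 1 - a 1 * b 0) * h3
  ext i
  fin_cases i
  · simpa [h] using e0
  · simpa [h] using e1
  · simpa [h] using e2

theorem exists_trip {a x : E3} (ha : a ≠ 0) (hx : x ∉ Submodule.span ℝ {a}) :
    ∃ b, trip a b x ≠ 0 := by
  by_contra hcon
  push Not at hcon
  have h0 := hcon (EuclideanSpace.single 0 1)
  have h1 := hcon (EuclideanSpace.single 1 1)
  have h2 := hcon (EuclideanSpace.single 2 1)
  simp [trip] at h0 h1 h2
  apply hx
  rw [Submodule.mem_span_singleton]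
  have hn : a 0 * a 0 + a 1 * a 1 + a 2 * a 2 ≠ 0 := by
    rw [← inner3]
    exact fun h => ha (inner_self_eq_zero.mp h)
  refine ⟨(a 0 * x 0 + a 1 * x 1 + a 2 * x 2) / (a 0 * a 0 + a 1 * a 1 + a 2 * a 2), ?_⟩
  ext i
  fin_cases i
  · simp only [Fin.zero_eta, PiLp.smul_apply, smul_eq_mul]
    rw [div_mul_eq_mul_div, div_eq_iff hn]
    linear_combination a 2 * h1 - a 1 * h2
  · simp only [Fin.mk_one, PiLp.smul_apply, smul_eq_mul]
    rw [div_mul_eq_mul_div, div_eq_iff hn]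
    linear_combination a 0 * h2 - a 2 * h0
  · simp only [Fin.reduceFinMk, PiLp.smul_apply, smul_eq_mul]
    rw [div_mul_eq_mul_div, div_eq_iff hn]
    linear_combination a 1 * h0 - a 0 * h1

end Pool.Agent.P.MP_4a4b50_gt
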