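import Pool.Agent.P.MP_4a4b50_gt.CDefs
import Pool.Agent.P.MP_4a4b50_gt.Pde

set_option autoImplicit false

namespace Pool.Agent.P.MP_4a4b50_gt.CE

open scoped ContDiff Topology
open Pool.Agent.P.MP_f97e06_gt (Eu)
open Matrix Set Filter

variable {n : ℕ}

theorem Calc.bil_form (Q : Eu n →L[ℝ] Eu n →L[ℝ] ℝ) (v w : Eu n) :
    v.ofLp ⬝ᵥ (Matrix.of fun i j => Q (EuclideanSpace.single i 1) (EuclideanSpace.single j 1))
      *ᵥ w.ofLp = Q v w := by
  have hv := (EuclideanSpace.basisFun (Fin n) ℝ).sum_repr v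
  have hw := (EuclideanSpace.basisFun (Fin n) ℝ).sum_repr w
  simp only [EuclideanSpace.basisFun_apply, EuclideanSpace.basisFun_repr] at hv hw
  conv_rhs => rw [← hv, ← hw]
  simp only [map_sum, map_smul, _root_.sum_apply, _root_.smul_apply,
    smul_eq_mul, dotProduct, mulVec, Matrix.of_apply, Finset.mul_sum]
  rw [Finset.sum_comm]
  refine Finset.sum_congr rfl fun i _ => Finset.sum_congr rfl fun j _ => ?_
  ring

theorem Calc.inner_dot (x v : Eu n) : inner ℝ x v = x.ofLp ⬝ᵥ v.ofLp := by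
  simp [PiLp.inner_apply, dotProduct, mul_comm]

theorem Calc.vecMulVec_form (x v w : Eu n) :
    v.ofLp ⬝ᵥ vecMulVec x.ofLp x.ofLp *ᵥ w.ofLp = inner ℝ x v * inner ℝ x w := by
  rw [Calc.inner_dot, Calc.inner_dot]
  simp only [dotProduct, mulVec, vecMulVec_apply, Finset.mul_sum, Finset.sum_mul]
  rw [Finset.sum_comm]
  refine Finset.sum_congr rfl fun i _ => Finset.sum_congr rfl fun j _ => ?_
  ring

theorem Calc.inner_single' (x : Eu n) (i : Fin n) :
    inner ℝ x (EuclideanSpace.single i (1 : ℝ)) = x i := by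
  simp [EuclideanSpace.inner_single_right]

theorem hessM_form (h : Eu n → ℝ) (x v w : Eu n) :
    v.ofLp ⬝ᵥ hessM h x *ᵥ w.ofLp = D2 h x v w := by
  exact Calc.bil_form (D2 h x) v w

theorem hatM_form (h : Eu n → ℝ) (x v w : Eu n) :
    v.ofLp ⬝ᵥ hatM h x *ᵥ w.ofLp = D2 h x v w + inner ℝ x v * inner ℝ x w := by
  rw [hatM, add_mulVec, dotProduct_add, hessM_form, Calc.vecMulVec_form]

theorem hessM_symm {h : Eu n → ℝ} {x : Eu n} (hh : ContDiffAt ℝ 2 h x) :
    (hessM h x)ᵀ = hessM h x := by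
  ext i j
  exact symm2 hh _ _

theorem hatM_symm {h : Eu n → ℝ} {x : Eu n} (hh : ContDiffAt ℝ 2 h x) :
    (hatM h x)ᵀ = hatM h x := by
  rw [hatM, transpose_add, hessM_symm hh, transpose_vecMulVec]

theorem Calc.ev_diff {h : Eu n → ℝ} {x : Eu n} (hh : ContDiffAt ℝ 2 h x) :
    ∀ᶠ y in 𝓝 x, DifferentiableAt ℝ h y := by
  have h1 : ∀ᶠ y in 𝓝 x, ContDiffAt ℝ 2 h y := hh.eventually (by simp)
  filter_upwards [h1] with y hy
  exact hy.differentiableAt (by simp)

theorem Calc.diff_fderiv {h : Eu n → ℝ} {x : Eu n} (hh : ContDiffAt ℝ 2 h x) :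
    DifferentiableAt ℝ (fderiv ℝ h) x :=
  (hh.fderiv_right (m := 1) (by norm_num)).differentiableAt (by simp)

theorem Calc.D2_lin {h k : Eu n → ℝ} {x : Eu n} (hh : ContDiffAt ℝ 2 h x) (hk : ContDiffAt ℝ 2 k x)
    (a b : ℝ) : D2 (fun z => a * h z + b * k z) x = a • D2 h x + b • D2 k x := by
  have e1 : fderiv ℝ (fun z => a * h z + b * k z) =ᶠ[𝓝 x]
      fun z => a • fderiv ℝ h z + b • fderiv ℝ k z := by
    filter_upwards [Calc.ev_diff hh, Calc.ev_diff hk] with z hz1 hz2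
    exact ((hz1.hasFDerivAt.const_mul a).add (hz2.hasFDerivAt.const_mul b)).fderiv
  unfold D2
  rw [e1.fderiv_eq]
  exact (((Calc.diff_fderiv hh).hasFDerivAt.const_smul a).add
    ((Calc.diff_fderiv hk).hasFDerivAt.const_smul b)).fderiv

theorem hessM_lin {h k : Eu n → ℝ} {x : Eu n} (hh : ContDiffAt ℝ 2 h x) (hk : ContDiffAt ℝ 2 k x)
    (a b : ℝ) : hessM (fun z => a * h z + b * k z) x = a • hessM h x + b • hessM k x := by
  ext i j
  simp only [hessM, Matrix.of_apply, Matrix.add_apply, Matrix.smul_apply, smul_eq_mul]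
  rw [Calc.D2_lin hh hk]
  simp

theorem Calc.hasFDerivAt_norm' {x : Eu n} (hx : x ≠ 0) :
    HasFDerivAt (fun z : Eu n => ‖z‖) (‖x‖⁻¹ • innerSL ℝ x) x := by
  have h0 : ‖x‖ ≠ 0 := norm_ne_zero_iff.2 hx
  have h1 := ((hasStrictFDerivAt_norm_sq x).hasFDerivAt).sqrt (pow_ne_zero 2 h0)
  simp only [Real.sqrt_sq (norm_nonneg _)] at h1
  refine h1.congr_fderiv (ContinuousLinearMap.ext fun v => ?_)
  simp only [_root_.smul_apply, innerSL_apply_apply, smul_eq_mul, nsmul_eq_mul]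
  push_cast
  field_simp

theorem fderiv_norm_unit {x : Eu n} (hx : ‖x‖ = 1) (v : Eu n) :
    fderiv ℝ (fun z : Eu n => ‖z‖) x v = inner ℝ x v := by
  have hx0 : x ≠ 0 := by
    rintro rfl
    simp at hx
  rw [(Calc.hasFDerivAt_norm' hx0).fderiv, hx]
  simp

theorem D2_norm_unit {x : Eu n} (hx : ‖x‖ = 1) (v w : Eu n) :
    D2 (fun z : Eu n => ‖z‖) x v w = inner ℝ v w - inner ℝ x v * inner ℝ x w := by
  have hx0 : x ≠ 0 := by
    rintro rfl
    simp at hx
  have e1 : fderiv ℝ (fun z : Eu n => ‖z‖) =ᶠ[𝓝 x] fun z => ‖z‖⁻¹ • innerSL ℝ z := by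
    filter_upwards [isOpen_ne.mem_nhds hx0] with z hz
    exact (Calc.hasFDerivAt_norm' hz).fderiv
  have h1 := (hasDerivAt_inv (x := ‖x‖) (by rw [hx]; norm_num)).comp_hasFDerivAt x
    (Calc.hasFDerivAt_norm' hx0)
  have h2 : HasFDerivAt (fun z : Eu n => (innerSL ℝ z : Eu n →L[ℝ] ℝ))
      (innerSL ℝ : Eu n →L[ℝ] Eu n →L[ℝ] ℝ) x :=
    (innerSL ℝ : Eu n →L[ℝ] Eu n →L[ℝ] ℝ).hasFDerivAt
  have h3 := (h1.smul h2).fderiv
  unfold D2
  rw [e1.fderiv_eq]
  have h4 : (fun z : Eu n => ‖z‖⁻¹ • (innerSL ℝ z : Eu n →L[ℝ] ℝ)) =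
      ((fun y : ℝ => y⁻¹) ∘ fun z : Eu n => ‖z‖) •
        fun z : Eu n => (innerSL ℝ z : Eu n →L[ℝ] ℝ) := rfl
  rw [h4, h3]
  simp [hx, sub_eq_add_neg]
  rfl

theorem hatM_norm_unit {x : Eu n} (hx : ‖x‖ = 1) : hatM (fun z : Eu n => ‖z‖) x = 1 := by
  ext i j
  simp only [hatM, hessM, Matrix.add_apply, Matrix.of_apply, vecMulVec_apply]
  rw [D2_norm_unit hx, Calc.inner_single', Calc.inner_single', Calc.inner_single']
  simp [Matrix.one_apply, eq_comm]

theorem Hom1.zero {h : Eu n → ℝ} (hh : Hom1 h) : h 0 = 0 := by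
  have := hh 2 (by norm_num) 0
  rw [smul_zero] at this
  linarith

theorem Hom1.euler {h : Eu n → ℝ} (hh : Hom1 h) {x : Eu n} (hd : DifferentiableAt ℝ h x) :
    fderiv ℝ h x x = h x := by
  exact euler_one h (fun t ht x => hh t ht x) hd

theorem Hom1.D2_self {h : Eu n → ℝ} (hh : Hom1 h) {x : Eu n} (hd : ContDiffAt ℝ 2 h x) (v : Eu n) :
    D2 h x x v = 0 ∧ D2 h x v x = 0 := by
  have h1 : D2 h x x = 0 :=
    euler_zero (fderiv ℝ h) (fun t ht y => fderiv_hom_one h t ht.ne' (fun z => hh t ht z) y)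
      (Calc.diff_fderiv hd)
  have h2 : D2 h x x v = 0 := by rw [h1]; rfl
  exact ⟨h2, (symm2 hd v x).trans h2⟩

theorem Hom1.fderiv_smul {h : Eu n → ℝ} (hh : Hom1 h) {t : ℝ} (ht : 0 < t) (x : Eu n) :
    fderiv ℝ h (t • x) = fderiv ℝ h x := by
  exact fderiv_hom_one h t ht.ne' (fun z => hh t ht z) x

theorem Hom1.D2_smul {h : Eu n → ℝ} (hh : Hom1 h) {t : ℝ} (ht : 0 < t) (x : Eu n) :
    D2 h (t • x) = t⁻¹ • D2 h x := by
  have := fderiv2_hom_one h t ht.ne' (fun z => hh t ht z) x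
  unfold D2
  rw [← this, smul_smul, inv_mul_cancel₀ ht.ne', one_smul]

theorem Calc.snd_nonneg_1d {ψ ψ' : ℝ → ℝ} {c : ℝ} (h1 : ∀ᶠ t in 𝓝 (0 : ℝ), HasDerivAt ψ (ψ' t) t)
    (h2 : HasDerivAt ψ' c 0) (hmin : IsLocalMin ψ 0) : 0 ≤ c := by
  by_contra hneg
  push Not at hneg
  have hd1 : deriv ψ =ᶠ[𝓝 0] ψ' := by
    filter_upwards [h1] with t ht
    exact ht.deriv
  have hdd : deriv (deriv ψ) 0 = c := by
    rw [hd1.deriv_eq]; exact h2.deriv
  have hmax : IsLocalMax ψ 0 :=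
    isLocalMax_of_deriv_deriv_neg (by rw [hdd]; exact hneg) hmin.deriv_eq_zero
      h1.self_of_nhds.continuousAt
  have hconst : ψ =ᶠ[𝓝 0] fun _ => ψ 0 := by
    filter_upwards [hmax, hmin] with t a1 a2
    exact le_antisymm a1 a2
  have : deriv (deriv ψ) 0 = 0 := by
    have a1 := hconst.deriv
    have a2 : deriv (fun _ : ℝ => ψ 0) = fun _ => (0 : ℝ) := by
      funext t; simp
    rw [a2] at a1
    rw [a1.deriv_eq]; simp
  linarith

/-- second order test along a line against a cubic polynomial -/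
theorem line_test {g : Eu n → ℝ} {x : Eu n} (hg : ContDiffAt ℝ 2 g x) (v : Eu n)
    {b p₁ p₂ p₃ : ℝ}
    (h : ∀ᶠ r in 𝓝 (0 : ℝ), g x + p₁ * r + p₂ * r ^ 2 + p₃ * r ^ 3 ≤ (1 + b * r ^ 2) * g (x + r • v)) :
    2 * p₂ ≤ D2 g x v v + 2 * b * g x := by
  set γ : ℝ → Eu n := fun t => x + t • v with hγ
  have hγ0 : γ 0 = x := by simp [hγ]
  have hγd : ∀ t, HasDerivAt γ v t := by
    intro t
    have := ((hasDerivAt_id t).smul_const v).const_add x
    simpa [hγ] using this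
  have hγc : Continuous γ := by
    rw [hγ]; fun_prop
  have hγt : Tendsto γ (𝓝 0) (𝓝 x) := by
    have := hγc.tendsto 0
    rwa [hγ0] at this
  have hG : ∀ᶠ t in 𝓝 (0 : ℝ), HasDerivAt (fun r => g (γ r)) (fderiv ℝ g (γ t) v) t := by
    filter_upwards [hγt.eventually (Calc.ev_diff hg)] with t ht
    exact ht.hasFDerivAt.comp_hasDerivAt t (hγd t)
  have hG2 : HasDerivAt (fun t => fderiv ℝ g (γ t) v) (D2 g x v v) 0 := by
    have h1 : HasFDerivAt (fderiv ℝ g) (fderiv ℝ (fderiv ℝ g) x) (γ 0) := by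
      rw [hγ0]; exact (Calc.diff_fderiv hg).hasFDerivAt
    have h2 := h1.comp_hasDerivAt (0 : ℝ) (hγd 0)
    have h3 := h2.clm_apply (hasDerivAt_const (0 : ℝ) v)
    simpa using h3
  have key := Calc.snd_nonneg_1d
    (ψ := fun r => (1 + b * r ^ 2) * g (γ r) - (g x + p₁ * r + p₂ * r ^ 2 + p₃ * r ^ 3))
    (ψ' := fun r => (2 * b * r) * g (γ r) + (1 + b * r ^ 2) * fderiv ℝ g (γ r) v
      - (p₁ + 2 * p₂ * r + 3 * p₃ * r ^ 2))
    (c := D2 g x v v + 2 * b * g x - 2 * p₂) ?_ ?_ ?_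
  · linarith
  · filter_upwards [hG] with t ht
    have a1 : HasDerivAt (fun r : ℝ => 1 + b * r ^ 2) (2 * b * t) t := by
      have := ((hasDerivAt_pow 2 t).const_mul b).const_add 1
      exact this.congr_deriv (by simp; ring)
    have a2 : HasDerivAt (fun r : ℝ => g x + p₁ * r + p₂ * r ^ 2 + p₃ * r ^ 3)
        (p₁ + 2 * p₂ * t + 3 * p₃ * t ^ 2) t := by
      have := ((((hasDerivAt_id t).const_mul p₁).const_add (g x)).add
        ((hasDerivAt_pow 2 t).const_mul p₂)).add ((hasDerivAt_pow 3 t).const_mul p₃)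
      exact this.congr_deriv (by simp; ring)
    exact (a1.mul ht).sub a2
  · have a0 := hG.self_of_nhds
    have a1 : HasDerivAt (fun r : ℝ => 1 + b * r ^ 2) 0 0 := by
      have := ((hasDerivAt_pow 2 (0 : ℝ)).const_mul b).const_add 1
      exact this.congr_deriv (by simp)
    have a2 : HasDerivAt (fun r : ℝ => 2 * b * r) (2 * b) 0 := by
      simpa using (hasDerivAt_id (0 : ℝ)).const_mul (2 * b)
    have a3 : HasDerivAt (fun r : ℝ => p₁ + 2 * p₂ * r + 3 * p₃ * r ^ 2) (2 * p₂) 0 := by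
      have := (((hasDerivAt_id (0 : ℝ)).const_mul (2 * p₂)).const_add p₁).add
        ((hasDerivAt_pow 2 (0 : ℝ)).const_mul (3 * p₃))
      exact this.congr_deriv (by simp)
    have := ((a2.mul a0).add (a1.mul hG2)).sub a3
    exact this.congr_deriv (by simp [hγ0]; ring)
  · filter_upwards [h] with t ht
    simp only [hγ0]
    simp only [hγ]
    linarith

/-- second order test at a local minimum on the sphere -/
theorem sphere_min_test {d : Eu n → ℝ} (hd : ContDiffOn ℝ 2 d {0}ᶜ) (h1 : Hom1 d) {x : Eu n}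
    (hx : ‖x‖ = 1) (hmin : ∀ᶠ z in 𝓝 x, ‖z‖ = 1 → d x ≤ d z) :
    (hessM d x - d x • (1 - vecMulVec x.ofLp x.ofLp)).PosSemidef := by
  have hx0 : x ≠ 0 := by
    rintro rfl
    simp at hx
  have hdx : ContDiffAt ℝ 2 d x := hd.contDiffAt (isOpen_compl_singleton.mem_nhds hx0)
  have hnx : ContDiffAt ℝ 2 (fun z : Eu n => ‖z‖) x := contDiffAt_norm ℝ hx0
  have hcont : Tendsto (fun z : Eu n => ‖z‖⁻¹ • z) (𝓝 x) (𝓝 x) := by
    have : ContinuousAt (fun z : Eu n => ‖z‖⁻¹ • z) x :=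
      (continuous_norm.continuousAt.inv₀ (by rw [hx]; norm_num)).smul continuousAt_id
    simpa [ContinuousAt, hx] using this
  have hmax : IsLocalMax (fun z => (-1) * d z + d x * ‖z‖) x := by
    filter_upwards [hcont.eventually hmin, isOpen_ne.mem_nhds hx0] with z hz hz0
    have hn : 0 < ‖z‖ := norm_pos_iff.2 hz0
    have a1 : ‖‖z‖⁻¹ • z‖ = 1 := by
      rw [norm_smul, norm_inv, norm_norm, inv_mul_cancel₀ hn.ne']
    have a2 := hz a1
    rw [h1 _ (inv_pos.2 hn)] at a2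
    have a3 := mul_le_mul_of_nonneg_left a2 hn.le
    rw [← mul_assoc, mul_inv_cancel₀ hn.ne', one_mul] at a3
    simp only [hx]
    linarith
  have hc : ContDiffAt ℝ 2 (fun z => (-1) * d z + d x * ‖z‖) x :=
    (contDiffAt_const.mul hdx).add (contDiffAt_const.mul hnx)
  refine PosSemidef.of_dotProduct_mulVec_nonneg ?_ fun u => ?_
  · rw [IsHermitian, conjTranspose_eq_transpose_of_trivial, transpose_sub, hessM_symm hdx,
      transpose_smul, transpose_sub, transpose_one, transpose_vecMulVec]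
  · have a1 := snd_nonpos_of_isLocalMax hc hmax (WithLp.toLp 2 u)
    have a2 := Calc.D2_lin hdx hnx (-1) (d x)
    unfold D2 at a2
    rw [a2] at a1
    simp only [_root_.add_apply, _root_.smul_apply, smul_eq_mul] at a1
    have a3 := D2_norm_unit hx (WithLp.toLp 2 u) (WithLp.toLp 2 u)
    have a4 := hessM_form d x (WithLp.toLp 2 u) (WithLp.toLp 2 u)
    have a5 := Calc.vecMulVec_form x (WithLp.toLp 2 u) (WithLp.toLp 2 u)
    have a6 := Calc.inner_dot (WithLp.toLp 2 u : Eu n) (WithLp.toLp 2 u)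
    unfold D2 at a3 a4
    rw [a3] at a1
    simp only [star_trivial, sub_mulVec, smul_mulVec, one_mulVec, dotProduct_sub,
      dotProduct_smul, smul_eq_mul] at a4 a5 a6 ⊢
    rw [a4, a5, ← a6]
    linarith

theorem Calc.D2_comp_equiv (d : Eu n → ℝ) (g : Eu n ≃L[ℝ] Eu n) (x v w : Eu n) :
    D2 (fun z => d (g z)) x v w = D2 d (g x) (g v) (g w) := by
  let Φ : (Eu n →L[ℝ] ℝ) ≃L[ℝ] (Eu n →L[ℝ] ℝ) :=
    g.symm.arrowCongr (ContinuousLinearEquiv.refl ℝ ℝ)
  have e1 : fderiv ℝ (fun z => d (g z)) = Φ ∘ (fderiv ℝ d ∘ g) := by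
    funext z
    have := g.comp_right_fderiv (f := d) (x := z)
    exact this
  unfold D2
  rw [e1, Φ.comp_fderiv, g.comp_right_fderiv]
  rfl

theorem D2_comp_isometry (d : Eu n → ℝ) (g : Eu n ≃ₗᵢ[ℝ] Eu n) (x v w : Eu n) :
    D2 (fun z => d (g z)) x v w = D2 d (g x) (g v) (g w) := by
  exact Calc.D2_comp_equiv d (g : Eu n ≃L[ℝ] Eu n) x v w

theorem Eop_isometry {f : Eu n → ℝ} (d : Eu n → ℝ) (g : Eu n ≃ₗᵢ[ℝ] Eu n)
    (hf : ∀ z, f (g z) = f z) (x : Eu n) :
    Eop (hatM f x) (hatM f (-x)) (hessM (fun z => d (g z)) x) =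
      Eop (hatM f (g x)) (hatM f (-g x)) (hessM d (g x)) := by
  let O : Matrix (Fin n) (Fin n) ℝ := Matrix.of fun i j => g (EuclideanSpace.single j 1) i
  have conj : ∀ (M : Matrix (Fin n) (Fin n) ℝ) (i j : Fin n), (Oᵀ * M * O) i j =
      (g (EuclideanSpace.single i 1)).ofLp ⬝ᵥ M *ᵥ (g (EuclideanSpace.single j 1)).ofLp := by
    intro M i j
    rw [Matrix.mul_assoc]
    rfl
  have hO : Oᵀ * O = 1 := by
    ext i j
    have := conj 1 i j
    rw [Matrix.mul_one, one_mulVec, ← Calc.inner_dot, g.inner_map_map, Calc.inner_single'] at this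
    rw [this]
    simp [Matrix.one_apply, eq_comm]
  have hdet : O.det * O.det = 1 := by
    have := congrArg Matrix.det hO
    rwa [det_mul, det_transpose, det_one] at this
  have hhess : ∀ (k : Eu n → ℝ) (y : Eu n),
      hessM (fun z => k (g z)) y = Oᵀ * hessM k (g y) * O := by
    intro k y
    ext i j
    rw [conj, hessM_form, ← D2_comp_isometry]
    rfl
  have hhat : ∀ y : Eu n, hatM f y = Oᵀ * hatM f (g y) * O := by
    intro y
    ext i j
    have e : (fun z => f (g z)) = f := funext hf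
    rw [conj, hatM_form, ← D2_comp_isometry, g.inner_map_map, g.inner_map_map, e,
      Calc.inner_single', Calc.inner_single']
    rfl
  rw [hhat x, hhat (-x), hhess, map_neg]
  unfold Eop
  rw [← Matrix.add_mul, ← Matrix.mul_add, ← Matrix.sub_mul, ← Matrix.mul_sub]
  simp only [det_mul, det_transpose]
  linear_combination ((O.det * O.det + 1) *
    ((hatM f (g x) + hessM d (g x)).det * (hatM f (-g x)).det -
      (hatM f (-g x) - hessM d (g x)).det * (hatM f (g x)).det)) * hdet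

theorem hessM_neg_neg (d : Eu n → ℝ) (x : Eu n) :
    hessM (fun z => -d (-z)) x = -hessM d (-x) := by
  ext i j
  have e1 : fderiv ℝ (fun z => -d (-z)) = fun y => -fderiv ℝ (fun z => d (-z)) y := by
    funext y
    exact fderiv_fun_neg
  have e2 := D2_comp_isometry d (LinearIsometryEquiv.neg ℝ) x (EuclideanSpace.single i 1)
    (EuclideanSpace.single j 1)
  simp only [LinearIsometryEquiv.coe_neg, map_neg, _root_.neg_apply, neg_neg] at e2
  simp only [hessM, Matrix.of_apply, Matrix.neg_apply]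
  rw [← e2]
  unfold D2
  rw [e1, fderiv_fun_neg]
  rfl

theorem Eop_swap (X Y D : Matrix (Fin n) (Fin n) ℝ) : Eop X Y (-D) = -Eop Y X D := by
  unfold Eop
  rw [sub_neg_eq_add, ← sub_eq_add_neg]
  ring

theorem posDef_of_form {h : Eu n → ℝ} {x : Eu n} (hh : ContDiffAt ℝ 2 h x) {ε : ℝ} (hε : 0 < ε)
    (hp : ∀ v, ε * ‖v‖ ^ 2 ≤ D2 h x v v + inner ℝ x v ^ 2) : (hatM h x).PosDef := by
  refine PosDef.of_dotProduct_mulVec_pos ?_ fun u hu => ?_
  · rw [IsHermitian, conjTranspose_eq_transpose_of_trivial, hatM_symm hh]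
  · have a1 := hatM_form h x (WithLp.toLp 2 u) (WithLp.toLp 2 u)
    have a2 := hp (WithLp.toLp 2 u)
    have a3 : (WithLp.toLp 2 u : Eu n) ≠ 0 := fun h0 => hu (by simpa using h0)
    have a4 : 0 < ε * ‖(WithLp.toLp 2 u : Eu n)‖ ^ 2 := mul_pos hε (pow_pos (norm_pos_iff.2 a3) 2)
    simp only [star_trivial] at a1 ⊢
    rw [a1]
    nlinarith

theorem uniform_pos {f : Eu n → ℝ} (hf : ContDiffOn ℝ 2 f {0}ᶜ)
    (hp : ∀ x, ‖x‖ = 1 → (hatM f x).PosDef) : ∃ l R : ℝ, 0 < l ∧ ∀ x, ‖x‖ = 1 →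
      (hatM f x - l • (1 : Matrix (Fin n) (Fin n) ℝ)).PosSemidef ∧ ∀ i j, |hatM f x i j| ≤ R := by
  have hne : ∀ x : Eu n, ‖x‖ = 1 → x ≠ 0 := by
    rintro x hx rfl
    simp at hx
  have hat : ∀ x : Eu n, ‖x‖ = 1 → ContDiffAt ℝ 2 f x := fun x hx =>
    hf.contDiffAt (isOpen_compl_singleton.mem_nhds (hne x hx))
  have hD : ∀ x : Eu n, ‖x‖ = 1 → ContinuousAt (D2 f) x := fun x hx =>
    (((hat x hx).fderiv_right (m := 1) (by norm_num)).fderiv_right (m := 0)
      (by norm_num)).continuousAt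
  have hK : IsCompact (Metric.sphere (0 : Eu n) 1) := isCompact_sphere 0 1
  have hc : ContinuousOn (fun p : Eu n × Eu n => D2 f p.1 p.2 p.2 + inner ℝ p.1 p.2 * inner ℝ p.1 p.2)
      (Metric.sphere (0 : Eu n) 1 ×ˢ Metric.sphere (0 : Eu n) 1) := by
    intro p hp'
    have h1 : ContinuousAt (fun p : Eu n × Eu n => D2 f p.1) p :=
      ContinuousAt.comp (hD p.1 (by simpa using hp'.1)) continuousAt_fst
    have h2 : ContinuousAt (fun p : Eu n × Eu n => inner ℝ p.1 p.2) p :=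
      continuous_inner.continuousAt
    exact (((h1.clm_apply continuousAt_snd).clm_apply continuousAt_snd).add
      (h2.mul h2)).continuousWithinAt
  obtain ⟨l, hl, hlb⟩ := (hK.prod hK).exists_forall_le' hc (a := 0) (by
    intro p hp'
    have h1 : ‖p.1‖ = 1 := by simpa using hp'.1
    have h2 : ‖p.2‖ = 1 := by simpa using hp'.2
    have h3 : p.2.ofLp ≠ 0 := fun h0 => hne _ h2 (by simpa using h0)
    have := (hp p.1 h1).dotProduct_mulVec_pos h3
    rwa [star_trivial, hatM_form] at this)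
  obtain ⟨C, hC⟩ := hK.exists_bound_of_continuousOn (f := D2 f) fun x hx =>
    (hD x (by simpa using hx)).continuousWithinAt
  refine ⟨l, C + 1, hl, fun x hx => ⟨?_, fun i j => ?_⟩⟩
  · refine PosSemidef.of_dotProduct_mulVec_nonneg ?_ fun u => ?_
    · rw [IsHermitian, conjTranspose_eq_transpose_of_trivial, transpose_sub, hatM_symm (hat x hx),
        transpose_smul, transpose_one]
    · set v : Eu n := WithLp.toLp 2 u with hv
      have a1 := hatM_form f x v v
      have a6 := Calc.inner_dot v v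
      have a7 : u = v.ofLp := rfl
      rw [a7]
      simp only [star_trivial, sub_mulVec, smul_mulVec, one_mulVec, dotProduct_sub,
        dotProduct_smul, smul_eq_mul]
      rw [a1, ← a6, real_inner_self_eq_norm_sq]
      rcases eq_or_ne v 0 with h0 | h0
      · rw [h0]; simp
      · have hn : 0 < ‖v‖ := norm_pos_iff.2 h0
        have b1 : ‖‖v‖⁻¹ • v‖ = 1 := by
          rw [norm_smul, norm_inv, norm_norm, inv_mul_cancel₀ hn.ne']
        have b2 := hlb (x, ‖v‖⁻¹ • v) ⟨by simpa using hx, by simpa using b1⟩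
        simp only [map_smul, _root_.smul_apply, smul_eq_mul, inner_smul_right] at b2
        have b3 := mul_le_mul_of_nonneg_left b2 (pow_pos hn 2).le
        have b4 : ‖v‖ ^ 2 * (‖v‖⁻¹ * (‖v‖⁻¹ * D2 f x v v) +
            ‖v‖⁻¹ * inner ℝ x v * (‖v‖⁻¹ * inner ℝ x v)) =
            D2 f x v v + inner ℝ x v * inner ℝ x v := by
          field_simp
        rw [b4] at b3
        linarith
  · have b1 : |D2 f x (EuclideanSpace.single i 1) (EuclideanSpace.single j 1)| ≤ C := by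
      have c1 := (D2 f x).le_opNorm₂ (EuclideanSpace.single i 1) (EuclideanSpace.single j 1)
      simp only [PiLp.norm_single, norm_one, mul_one, Real.norm_eq_abs] at c1
      exact c1.trans (hC x (by simpa using hx))
    have b2 : ∀ k, |x k| ≤ 1 := fun k => by
      have := PiLp.norm_apply_le x k
      rwa [hx] at this
    have b3 : |x i * x j| ≤ 1 := by
      rw [abs_mul]
      exact mul_le_one₀ (b2 i) (abs_nonneg _) (b2 j)
    have b4 : hatM f x i j =
        D2 f x (EuclideanSpace.single i 1) (EuclideanSpace.single j 1) + x i * x j := rfl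
    rw [b4]
    exact (abs_add_le _ _).trans (add_le_add b1 b3)

end Pool.Agent.P.MP_4a4b50_gt.CE
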