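import Pool.Agent.P.MP_f97e06_gt.Smooth

/-! Common definitions for the counterexample in dimension ten. -/

set_option autoImplicit false

namespace Pool.Agent.P.MP_4a4b50_gt.CE

open scoped ContDiff
open Pool.Agent.P.MP_f97e06_gt (Eu)
open Matrix

/-- the unit sphere -/
abbrev Sph (n : ℕ) := Metric.sphere (0 : Eu n) 1

section general
variable {n : ℕ}

/-- positively homogeneous of degree one -/
def Hom1 (h : Eu n → ℝ) : Prop := ∀ t : ℝ, 0 < t → ∀ x, h (t • x) = t * h x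

/-- the second derivative as a bilinear map -/
noncomputable abbrev D2 (h : Eu n → ℝ) (x : Eu n) : Eu n →L[ℝ] Eu n →L[ℝ] ℝ :=
  fderiv ℝ (fderiv ℝ h) x

/-- the Hessian matrix -/
noncomputable def hessM (h : Eu n → ℝ) (x : Eu n) : Matrix (Fin n) (Fin n) ℝ :=
  Matrix.of fun i j => D2 h x (EuclideanSpace.single i 1) (EuclideanSpace.single j 1)

/-- the Hessian matrix plus `x xᵀ` -/
noncomputable def hatM (h : Eu n → ℝ) (x : Eu n) : Matrix (Fin n) (Fin n) ℝ :=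
  hessM h x + Matrix.vecMulVec x.ofLp x.ofLp

/-- the curvature ratio equation -/
def Eop (X Y D : Matrix (Fin n) (Fin n) ℝ) : ℝ :=
  (X + D).det * Y.det - (Y - D).det * X.det

/-- invariance under a set of isometries -/
def Inv (G : Set (Eu n ≃ₗᵢ[ℝ] Eu n)) (h : Eu n → ℝ) : Prop := ∀ g ∈ G, ∀ x, h (g x) = h x

/-- no nonzero common fixed vector -/
def NoFix (G : Set (Eu n ≃ₗᵢ[ℝ] Eu n)) : Prop := ∀ v, (∀ g ∈ G, g v = v) → v = 0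

/-- there is no small positive strict supersolution on `{φ > 0}` -/
def SubHyp (G : Set (Eu n ≃ₗᵢ[ℝ] Eu n)) (φ f : Eu n → ℝ) : Prop :=
  ∃ δ : ℝ, 0 < δ ∧ ∀ d : Eu n → ℝ, ContDiffOn ℝ 2 d {0}ᶜ → Hom1 d → Inv G d →
    (∀ x, ‖x‖ = 1 → ∀ i j, |hessM d x i j| ≤ δ) →
    (∀ x, ‖x‖ = 1 → 0 < φ x →
      0 < d x ∧ Eop (hatM f x) (hatM f (-x)) (hessM d x) < 0) → False

/-- the geometric input -/
structure Geom (G : Set (Eu n ≃ₗᵢ[ℝ] Eu n)) (φ f : Eu n → ℝ) : Prop where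
  nofix : NoFix G
  om_smooth : ContDiff ℝ ∞ φ
  om_odd : ∀ x, φ (-x) = -φ x
  om_inv : Inv G φ
  om_zero : ∀ x, ‖x‖ = 1 → φ x = 0 → ∃ g ∈ G, g x = -x
  om_pos : ∃ x, ‖x‖ = 1 ∧ 0 < φ x
  f_smooth : ContDiffOn ℝ ∞ f {0}ᶜ
  f_hom : Hom1 f
  f_inv : Inv G f
  f_pos : ∀ x, ‖x‖ = 1 → (hatM f x).PosDef
  sub : SubHyp G φ f

/-- the analytic output -/
structure Sol (N : ℕ) (G : Set (Eu n ≃ₗᵢ[ℝ] Eu n)) (h d : Eu n → ℝ) : Prop where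
  h_smooth : ContDiffOn ℝ N h {0}ᶜ
  d_smooth : ContDiffOn ℝ N d {0}ᶜ
  h_hom : Hom1 h
  d_hom : Hom1 d
  d_odd : ∀ x, d (-x) = -d x
  d_inv : Inv G d
  d_ne : ∃ x, d x ≠ 0
  h_pos : ∀ x, ‖x‖ = 1 → (hatM h x).PosDef
  k_pos : ∀ x, ‖x‖ = 1 → (hatM h x + hessM d x).PosDef
  eqn : ∀ x, ‖x‖ = 1 → Eop (hatM h x) (hatM h (-x)) (hessM d x) = 0

end general

/-- Interface of the Sobolev scale on the sphere: `H` is a Hilbert space of `C^N` functions,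
`A` a Banach algebra of continuous functions on the sphere. -/
structure Sob (n N : ℕ) (H A : Type) [NormedAddCommGroup H] [InnerProductSpace ℝ H]
    [NormedCommRing A] [NormedAlgebra ℝ A] where
  i : H →L[ℝ] A
  i_compact : IsCompactOperator i
  B : A →L[ℝ] H →L[ℝ] ℝ
  B_sep : ∀ a, (∀ w, B a w = 0) → a = 0
  B_i : ∀ w, 0 ≤ B (i w) w
  ev : A →ₐ[ℝ] C(Sph n, ℝ)
  ev_cont : Continuous ev
  ev_inj : Function.Injective ev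
  emb : ∀ h : Eu n → ℝ, ContDiffOn ℝ ∞ h {0}ᶜ → ∃ a : A, ∀ x : Sph n, ev a x = h x
  Hess : Fin n → Fin n → H →L[ℝ] A
  ext : H → Eu n → ℝ
  ext_smooth : ∀ w, ContDiffOn ℝ N (ext w) {0}ᶜ
  ext_hom : ∀ w, Hom1 (ext w)
  ext_eq : ∀ w (x : Sph n), ext w x = ev (i w) x
  ext_hess : ∀ w (x : Sph n) k j, hessM (ext w) x k j = ev (Hess k j w) x
  garding : ∀ a : Fin n → Fin n → A,
    (∀ k j, ∃ h : Eu n → ℝ, ContDiffOn ℝ ∞ h {0}ᶜ ∧ ∀ x : Sph n, ev (a k j) x = h x) →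
    (∀ x : Sph n, (Matrix.of fun k j => ev (a k j) x).PosDef) →
    ∃ μ c : ℝ, 0 < c ∧ ∀ w, c * ‖w‖ ^ 2 ≤ B (μ • i w - ∑ k, ∑ j, a k j * Hess k j w) w
  gap : ∀ G : Set (Eu n ≃ₗᵢ[ℝ] Eu n), NoFix G → ∃ c : ℝ, 0 < c ∧ ∀ w,
    (∀ x, ext w (-x) = -ext w x) → Inv G (ext w) → c * ‖w‖ ^ 2 ≤ B (-∑ k, Hess k k w) w

section ten

/-- the traceless symmetric matrix attached to a vector of `ℝ¹⁰` (coordinates `1..9`) -/
noncomputable def Y (x : Eu 10) : Matrix (Fin 4) (Fin 4) ℝ :=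
  !![(x 1 + x 2 + x 3) / 2, x 4 / √2, x 5 / √2, x 6 / √2;
     x 4 / √2, (x 1 - x 2 - x 3) / 2, x 7 / √2, x 8 / √2;
     x 5 / √2, x 7 / √2, (-x 1 + x 2 - x 3) / 2, x 9 / √2;
     x 6 / √2, x 8 / √2, x 9 / √2, (-x 1 - x 2 + x 3) / 2]

/-- the vector with zeroth coordinate `t` and matrix part `A` -/
noncomputable def lift (t : ℝ) (A : Matrix (Fin 4) (Fin 4) ℝ) : Eu 10 :=
  !₂[t, (A 0 0 + A 1 1 - A 2 2 - A 3 3) / 2, (A 0 0 - A 1 1 + A 2 2 - A 3 3) / 2,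
    (A 0 0 - A 1 1 - A 2 2 + A 3 3) / 2, √2 * A 0 1, √2 * A 0 2, √2 * A 0 3, √2 * A 1 2,
    √2 * A 1 3, √2 * A 2 3]

/-- conjugations by orthogonal matrices, with or without reflection of the zeroth coordinate -/
def GG : Set (Eu 10 ≃ₗᵢ[ℝ] Eu 10) :=
  {g | ∃ (O : Matrix (Fin 4) (Fin 4) ℝ) (σ : ℝ), O * Oᵀ = 1 ∧ (σ = 1 ∨ σ = -1) ∧
    ∀ x, Y (g x) = O * Y x * Oᵀ ∧ g x 0 = σ * x 0}

/-- the invariant cubic -/
noncomputable def om (x : Eu 10) : ℝ := (Y x * Y x * Y x).trace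

/-- the zeroth basis vector -/
noncomputable def e0 : Eu 10 := EuclideanSpace.single 0 1

/-- the off-diagonal direction `E₀ⱼ + Eⱼ₀` -/
noncomputable def Hv (j : Fin 4) : Eu 10 := lift 0 (Matrix.single 0 j 1 + Matrix.single j 0 1)

/-- the diagonal direction `E₀₀ - Eⱼⱼ` -/
noncomputable def Dv (j : Fin 4) : Eu 10 := lift 0 (Matrix.single 0 0 1 - Matrix.single j j 1)

/-- the direction `diag (3, -1, -1, -1)` -/
noncomputable def H0 : Eu 10 := lift 0 (Matrix.diagonal ![3, -1, -1, -1])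

/-- a smooth convex invariant approximation of `-λ_min (Y x)` -/
structure NuSpec (ν : Eu 10 → ℝ) : Prop where
  smooth : ContDiffOn ℝ ∞ ν {x | Y x ≠ 0}
  cont : Continuous ν
  hom : Hom1 ν
  shift : ∀ x (s : ℝ), ν (x + s • e0) = ν x
  inv : Inv GG ν
  pos : ∀ x, Y x ≠ 0 → 0 < ν x
  zero : ∀ x, Y x = 0 → ν x = 0
  lower : ∀ x (q : Fin 4 → ℝ), q ⬝ᵥ q = 1 → -(q ⬝ᵥ Y x *ᵥ q) ≤ ν x
  upper : ν H0 ≤ 26 / 25
  sublin : ∀ x, Y x ≠ 0 → ∀ v, fderiv ℝ ν x v ≤ ν v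
  psd : ∀ x, Y x ≠ 0 → ∀ v, 0 ≤ D2 ν x v v
  cmp : ∃ C : ℝ, 0 < C ∧ ∀ x, ‖x‖ = 1 → Y x ≠ 0 → ∀ v, D2 ν x v v ≤ C * D2 ν (-x) v v ∧
    (ν (-x) * fderiv ℝ ν x v + ν x * fderiv ℝ ν (-x) v) ^ 2 ≤ C * D2 ν (-x) v v

/-- the profile of the support function -/
structure PsiSpec (δ M η : ℝ) (Ψ : ℝ → ℝ) : Prop where
  smooth : ContDiff ℝ ∞ Ψ
  even : ∀ s, Ψ (-s) = Ψ s
  far : ∃ c s₀ : ℝ, ∀ s, s₀ ≤ |s| → Ψ s = c * |s|
  p_nonneg : ∀ s, 0 ≤ Ψ s - s * deriv Ψ s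
  k_nonneg : ∀ s, 0 ≤ deriv (deriv Ψ) s
  inner : ∀ s, |s| ≤ 24 / 25 →
    1 ≤ Ψ s - s * deriv Ψ s ∧ δ ≤ deriv (deriv Ψ) s ∧ deriv (deriv Ψ) s ≤ 2 * δ
  outer : ∀ s, 49 / 50 ≤ |s| → |s| ≤ 1 →
    Ψ s - s * deriv Ψ s ≤ η ∧ M * (Ψ s - s * deriv Ψ s) ≤ deriv (deriv Ψ) s
  p_pos : ∃ p : ℝ, 0 < p ∧ ∀ s, |s| ≤ 1 → p ≤ Ψ s - s * deriv Ψ s

/-- the support function built from `ν`, `Ψ`, `ε` -/
structure FSpec (ν : Eu 10 → ℝ) (Ψ : ℝ → ℝ) (ε : ℝ) (f : Eu 10 → ℝ) : Prop where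
  smooth : ContDiffOn ℝ ∞ f {0}ᶜ
  hom : Hom1 f
  inv : Inv GG f
  pos : ∀ x, ‖x‖ = 1 → ∀ v, ε * ‖v‖ ^ 2 ≤ D2 f x v v + inner ℝ x v ^ 2
  d1 : ∀ x, ‖x‖ = 1 → Y x ≠ 0 → ∀ v, fderiv ℝ f x v =
    (Ψ (x 0 / ν x) - x 0 / ν x * deriv Ψ (x 0 / ν x)) * fderiv ℝ ν x v
      + deriv Ψ (x 0 / ν x) * v 0 + ε * inner ℝ x v
  d2 : ∀ x, ‖x‖ = 1 → Y x ≠ 0 → ∀ v, D2 f x v v =
    (Ψ (x 0 / ν x) - x 0 / ν x * deriv Ψ (x 0 / ν x)) * D2 ν x v v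
      + deriv (deriv Ψ) (x 0 / ν x) / ν x ^ 3 * (ν x * v 0 - x 0 * fderiv ℝ ν x v) ^ 2
      + ε * (‖v‖ ^ 2 - inner ℝ x v ^ 2)

theorem Y_symm (x : Eu 10) : (Y x)ᵀ = Y x := by
  ext i j; fin_cases i <;> fin_cases j <;> rfl

theorem Y_trace (x : Eu 10) : (Y x).trace = 0 := by
  simp [Y, Matrix.trace, Fin.sum_univ_four]; ring

theorem Y_add (x z : Eu 10) : Y (x + z) = Y x + Y z := by
  ext i j; fin_cases i <;> fin_cases j <;> simp [Y] <;> ring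

theorem Y_smul (c : ℝ) (x : Eu 10) : Y (c • x) = c • Y x := by
  ext i j; fin_cases i <;> fin_cases j <;> simp [Y] <;> ring

theorem Y_neg (x : Eu 10) : Y (-x) = -Y x := by
  rw [← neg_one_smul ℝ x, Y_smul, neg_one_smul]

theorem Y_zero : Y 0 = 0 := by
  rw [← zero_smul ℝ (0 : Eu 10), Y_smul, zero_smul]

theorem Y_e0 : Y e0 = 0 := by
  ext i j; fin_cases i <;> fin_cases j <;> simp [Y, e0]

@[simp] theorem lift_zero (t : ℝ) (A : Matrix (Fin 4) (Fin 4) ℝ) : lift t A 0 = t := rfl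

theorem Y_lift (t : ℝ) {A : Matrix (Fin 4) (Fin 4) ℝ} (hA : Aᵀ = A) (ht : A.trace = 0) :
    Y (lift t A) = A := by
  have h2 : (√2 : ℝ) ≠ 0 := by positivity
  have hs : ∀ i j, A j i = A i j := fun i j => by
    conv_rhs => rw [← hA]
    rfl
  simp only [Matrix.trace, Matrix.diag, Fin.sum_univ_four] at ht
  ext i j
  fin_cases i <;> fin_cases j <;> simp [Y, lift] <;>
    first | linarith | exact hs _ _

theorem lift_Y (x : Eu 10) : lift (x 0) (Y x) = x := by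
  have h2 : (√2 : ℝ) ≠ 0 := by positivity
  ext i
  fin_cases i <;> simp [Y, lift] <;> first | ring1 | field_simp

theorem inner_eq (x z : Eu 10) : inner ℝ x z = x 0 * z 0 + (Y x * Y z).trace := by
  have h2 : (√2 : ℝ) ≠ 0 := by positivity
  have h3 : (√2 : ℝ) ^ 2 = 2 := Real.sq_sqrt (by norm_num)
  simp only [PiLp.inner_apply, Matrix.trace, Matrix.diag, Matrix.mul_apply, Fin.sum_univ_four]
  simp [Y, Fin.sum_univ_succ]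
  field_simp
  rw [h3]
  ring

end ten

end Pool.Agent.P.MP_4a4b50_gt.CE
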