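import Pool.Agent.P.MP_4a4b50_gt.CGlue1
import Pool.Agent.P.MP_4a4b50_gt.CAbs

set_option autoImplicit false

namespace Pool.Agent.P.MP_4a4b50_gt.CE

open scoped ContDiff Topology
open Pool.Agent.P.MP_f97e06_gt (Eu)
open Matrix Set Filter

section algebra
variable {n : ℕ} {A : Type} [NormedCommRing A] [NormedAlgebra ℝ A]

theorem contDiff_det {P : Type} [NormedAddCommGroup P] [NormedSpace ℝ P] {k : WithTop ℕ∞}
    {M : P → Matrix (Fin n) (Fin n) A} (h : ∀ i j, ContDiff ℝ k (fun p => M p i j)) :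
    ContDiff ℝ k (fun p => (M p).det) := by
  simp only [Matrix.det_apply']
  exact ContDiff.sum fun σ _ => contDiff_const.mul (contDiff_prod fun i _ => h _ _)

theorem det_mem_subalgebra (T : Subalgebra ℝ A) {M : Matrix (Fin n) (Fin n) A}
    (h : ∀ i j, M i j ∈ T) : M.det ∈ T := by
  rw [Matrix.det_apply']
  exact T.sum_mem fun σ _ => T.mul_mem (intCast_mem T _) (T.prod_mem fun i _ => h _ _)

theorem adjugate_mem_subalgebra (T : Subalgebra ℝ A) {M : Matrix (Fin n) (Fin n) A}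
    (h : ∀ i j, M i j ∈ T) (i j : Fin n) : M.adjugate i j ∈ T := by
  rw [Matrix.adjugate_apply]
  refine det_mem_subalgebra T fun a b => ?_
  rw [Matrix.updateRow_apply]
  split_ifs
  · rw [Pi.single_apply]
    split_ifs
    · exact T.one_mem
    · exact T.zero_mem
  · exact h _ _

end algebra

section glue
variable {n N : ℕ} {H A : Type} [NormedAddCommGroup H] [InnerProductSpace ℝ H]
  [NormedCommRing A] [NormedAlgebra ℝ A] (S : Sob n N H A)

/-- evaluation at a point of the sphere -/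
noncomputable def Sob.evx (x : Sph n) : A →ₐ[ℝ] ℝ :=
  (ContinuousMap.evalAlgHom ℝ ℝ x).comp S.ev

theorem Sob.evx_apply (x : Sph n) (a : A) : S.evx x a = S.ev a x := rfl

/-- evaluation at a point of the sphere as a continuous linear map -/
noncomputable def Sob.evL (x : Sph n) : A →L[ℝ] ℝ :=
  ⟨(S.evx x).toLinearMap, (continuous_eval_const x).comp S.ev_cont⟩

theorem Sob.evL_apply (x : Sph n) (a : A) : S.evL x a = S.evx x a := rfl

theorem Sob.continuous_evx (x : Sph n) : Continuous (S.evx x) := (S.evL x).continuous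

theorem Sob.eq_of_evx {a b : A} (h : ∀ x, S.evx x a = S.evx x b) : a = b :=
  S.ev_inj (ContinuousMap.ext h)

/-- elements whose values extend smoothly off the origin -/
def Sob.smA : Subalgebra ℝ A where
  carrier := {a | ∃ h : Eu n → ℝ, ContDiffOn ℝ ∞ h {0}ᶜ ∧ ∀ x : Sph n, S.evx x a = h x}
  mul_mem' := by
    rintro a b ⟨h, hh, e⟩ ⟨k, hk, e'⟩
    exact ⟨fun z => h z * k z, hh.mul hk, fun x => by rw [map_mul, e, e']⟩
  add_mem' := by
    rintro a b ⟨h, hh, e⟩ ⟨k, hk, e'⟩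
    exact ⟨fun z => h z + k z, hh.add hk, fun x => by rw [map_add, e, e']⟩
  algebraMap_mem' := fun c => ⟨fun _ => c, contDiffOn_const, fun x => by simp⟩

/-- the Hessian matrix over `A` -/
noncomputable def Sob.Hs (w : H) : Matrix (Fin n) (Fin n) A := Matrix.of fun k j => S.Hess k j w

theorem Sob.Hs_map (w : H) (x : Sph n) : (S.Hs w).map (S.evx x) = hessM (S.ext w) x := by
  ext k j
  simp [Sob.Hs, S.ext_hess, Sob.evx_apply]

theorem Sob.Hs_smul (r : ℝ) (w : H) : S.Hs (r • w) = r • S.Hs w := by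
  ext k j
  simp [Sob.Hs]

theorem Sob.Hs_zero : S.Hs 0 = 0 := by
  ext k j
  simp [Sob.Hs]

theorem Sob.exists_small : ∃ K : ℝ, 0 < K ∧ ∀ w x, ‖x‖ = 1 → ∀ k j,
    |hessM (S.ext w) x k j| ≤ K * ‖w‖ := by
  let evC : A →L[ℝ] C(Sph n, ℝ) := ⟨S.ev.toLinearMap, S.ev_cont⟩
  refine ⟨‖evC‖ * ∑ k, ∑ j, ‖S.Hess k j‖ + 1, by positivity, fun w x hx k j => ?_⟩
  have e := S.ext_hess w ⟨x, by simpa using hx⟩ k j
  simp only at e
  rw [e]
  have h1 : ‖S.Hess k j‖ ≤ ∑ k, ∑ j, ‖S.Hess k j‖ :=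
    (Finset.single_le_sum (f := fun j => ‖S.Hess k j‖) (fun _ _ => norm_nonneg _)
      (Finset.mem_univ j)).trans
      (Finset.single_le_sum (f := fun k => ∑ j, ‖S.Hess k j‖)
        (fun _ _ => Finset.sum_nonneg fun _ _ => norm_nonneg _) (Finset.mem_univ k))
  calc _ ≤ ‖evC (S.Hess k j w)‖ := (evC (S.Hess k j w)).norm_coe_le_norm _
    _ ≤ ‖evC‖ * (‖S.Hess k j‖ * ‖w‖) :=
        (evC.le_opNorm _).trans (by gcongr; exact (S.Hess k j).le_opNorm w)
    _ ≤ ‖evC‖ * ((∑ k, ∑ j, ‖S.Hess k j‖) * ‖w‖) := by gcongr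
    _ ≤ _ := by nlinarith [norm_nonneg w]

/-- the homotopy of coefficient matrices -/
noncomputable def homM (a : Matrix (Fin n) (Fin n) A) (τ : ℝ) : Matrix (Fin n) (Fin n) A :=
  (1 - τ) • (1 : Matrix (Fin n) (Fin n) A) + τ • a

theorem homM_zero (a : Matrix (Fin n) (Fin n) A) : homM a 0 = 1 := by simp [homM]

theorem homM_map (a : Matrix (Fin n) (Fin n) A) (τ : ℝ) (e : A →ₐ[ℝ] ℝ) :
    (homM a τ).map e = (1 - τ) • (1 : Matrix (Fin n) (Fin n) ℝ) + τ • a.map e := by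
  ext k j
  simp only [homM, Matrix.map_apply, Matrix.add_apply, Matrix.smul_apply, map_add, map_smul,
    Matrix.one_apply]
  split_ifs <;> simp

theorem homM_mem (T : Subalgebra ℝ A) {a : Matrix (Fin n) (Fin n) A} (h : ∀ k j, a k j ∈ T)
    (τ : ℝ) (k j : Fin n) : homM a τ k j ∈ T := by
  simp only [homM, Matrix.add_apply, Matrix.smul_apply, Matrix.one_apply]
  refine T.add_mem (T.smul_mem ?_ _) (T.smul_mem (h _ _) _)
  split_ifs
  · exact T.one_mem
  · exact T.zero_mem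

/-- the nonlinear operator -/
noncomputable def Sob.Eq (a b : Matrix (Fin n) (Fin n) A) (p : ℝ × H) : A :=
  (homM a p.1 + S.Hs p.2).det * (homM b p.1).det - (homM b p.1 - S.Hs p.2).det * (homM a p.1).det

/-- coefficients of the linearisation -/
noncomputable def coefL (a b : Matrix (Fin n) (Fin n) A) (τ : ℝ) (k j : Fin n) : A :=
  (homM a τ).adjugate j k * (homM b τ).det + (homM b τ).adjugate j k * (homM a τ).det

/-- the linearisation -/
noncomputable def Sob.Lin (a b : Matrix (Fin n) (Fin n) A) (τ : ℝ) : H →L[ℝ] A :=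
  ∑ k, ∑ j, (ContinuousLinearMap.mul ℝ A (coefL a b τ k j)).comp (S.Hess k j)

theorem Sob.Lin_apply (a b : Matrix (Fin n) (Fin n) A) (τ : ℝ) (w : H) :
    S.Lin a b τ w = ∑ k, ∑ j, coefL a b τ k j * S.Hess k j w := by
  simp [Sob.Lin]

theorem Sob.contDiff_Eq (a b : Matrix (Fin n) (Fin n) A) : ContDiff ℝ 1 (S.Eq a b) := by
  have h1 : ∀ (c : Matrix (Fin n) (Fin n) A) k j,
      ContDiff ℝ 1 (fun p : ℝ × H => homM c p.1 k j) := fun c k j => by
    simp only [homM, Matrix.add_apply, Matrix.smul_apply]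
    exact ((contDiff_const.sub contDiff_fst).smul contDiff_const).add
      (contDiff_fst.smul contDiff_const)
  have h2 : ∀ k j, ContDiff ℝ 1 (fun p : ℝ × H => S.Hs p.2 k j) := fun k j =>
    (S.Hess k j).contDiff.comp contDiff_snd
  exact ((contDiff_det fun k j => (h1 a k j).add (h2 k j)).mul (contDiff_det (h1 b))).sub
    ((contDiff_det fun k j => (h1 b k j).sub (h2 k j)).mul (contDiff_det (h1 a)))

theorem Sob.Eq_zero (a b : Matrix (Fin n) (Fin n) A) (τ : ℝ) : S.Eq a b (τ, 0) = 0 := by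
  simp [Sob.Eq, S.Hs_zero, mul_comm]

theorem algHom_det (e : A →ₐ[ℝ] ℝ) (M : Matrix (Fin n) (Fin n) A) : e M.det = (M.map e).det :=
  AlgHom.map_det e M

theorem algHom_adj (e : A →ₐ[ℝ] ℝ) (M : Matrix (Fin n) (Fin n) A) (i j : Fin n) :
    e (M.adjugate i j) = (M.map e).adjugate i j :=
  congrFun (congrFun (AlgHom.map_adjugate e M) i) j

theorem Sob.evx_Eq (a b : Matrix (Fin n) (Fin n) A) (τ : ℝ) (w : H) (x : Sph n) :
    S.evx x (S.Eq a b (τ, w)) =
      Eop ((homM a τ).map (S.evx x)) ((homM b τ).map (S.evx x)) ((S.Hs w).map (S.evx x)) := by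
  simp only [Sob.Eq, Eop, map_sub, map_mul, algHom_det]
  rw [Matrix.map_add _ (map_add _), Matrix.map_sub _ (map_sub _)]

theorem evx_coefL (e : A →ₐ[ℝ] ℝ) (a b : Matrix (Fin n) (Fin n) A) (τ : ℝ) (k j : Fin n) :
    e (coefL a b τ k j) = ((homM a τ).map e).adjugate j k * ((homM b τ).map e).det +
      ((homM b τ).map e).adjugate j k * ((homM a τ).map e).det := by
  simp only [coefL, map_add, map_mul, algHom_det, algHom_adj]

theorem Sob.hasFDerivAt_Eq (a b : Matrix (Fin n) (Fin n) A) (τ : ℝ) :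
    HasFDerivAt (fun w => S.Eq a b (τ, w)) (S.Lin a b τ) 0 := by
  have hd : DifferentiableAt ℝ (fun w => S.Eq a b (τ, w)) 0 :=
    (((S.contDiff_Eq a b).comp (contDiff_prodMk_right τ)).differentiable one_ne_zero) 0
  convert hd.hasFDerivAt using 1
  ext w
  refine S.eq_of_evx fun x => ?_
  have h0 : HasDerivAt (fun r : ℝ => r • w) w 0 := by
    simpa using (hasDerivAt_id (0 : ℝ)).smul_const w
  have h1 : HasFDerivAt (fun w => S.Eq a b (τ, w)) (fderiv ℝ (fun w => S.Eq a b (τ, w)) 0)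
      ((fun r : ℝ => r • w) 0) := by simpa using hd.hasFDerivAt
  have h2 := (S.evL x).hasFDerivAt.comp_hasDerivAt (0 : ℝ) (h1.comp_hasDerivAt (0 : ℝ) h0)
  have h3 := hasDerivAt_Eop ((homM a τ).map (S.evx x)) ((homM b τ).map (S.evx x))
    ((S.Hs w).map (S.evx x))
  have e : (fun r : ℝ => Eop ((homM a τ).map (S.evx x)) ((homM b τ).map (S.evx x))
      (r • (S.Hs w).map (S.evx x))) =
      (S.evL x) ∘ ((fun w => S.Eq a b (τ, w)) ∘ fun r : ℝ => r • w) := by
    funext r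
    simp only [Function.comp, Sob.evL_apply, S.evx_Eq, S.Hs_smul]
    rw [Matrix.map_smul _ _ (map_smul _ _)]
  rw [e] at h3
  rw [← Sob.evL_apply S x (fderiv ℝ _ _ w), h2.unique h3, S.Lin_apply]
  simp only [map_sum, map_mul, evx_coefL]
  rfl

theorem Sob.Lin_zero (a b : Matrix (Fin n) (Fin n) A) (w : H) :
    S.Lin a b 0 w = (2 : ℝ) • ∑ k, S.Hess k k w := by
  rw [S.Lin_apply, Finset.smul_sum]
  refine Finset.sum_congr rfl fun k _ => ?_
  rw [Finset.sum_eq_single k]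
  · simp [coefL, homM_zero, two_smul, add_mul]
  · intro j _ hj
    simp [coefL, homM_zero, Matrix.one_apply_ne hj]
  · simp

/-- the cone of odd invariant elements that are nonnegative where `φ` is positive -/
def Sob.cone (G : Set (Eu n ≃ₗᵢ[ℝ] Eu n)) (φ : Eu n → ℝ) : Set A :=
  {a | (∀ x y : Sph n, (y : Eu n) = -x → S.evx y a = -S.evx x a) ∧
    (∀ g ∈ G, ∀ x y : Sph n, (y : Eu n) = g x → S.evx y a = S.evx x a) ∧
    ∀ x : Sph n, 0 < φ x → 0 ≤ S.evx x a}

variable {G : Set (Eu n ≃ₗᵢ[ℝ] Eu n)} {φ : Eu n → ℝ}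

theorem Sob.isClosed_cone : IsClosed (S.cone G φ) := by
  simp only [Sob.cone, ofPred_and, ofPred_forall]
  refine IsClosed.inter ?_ (IsClosed.inter ?_ ?_)
  · exact isClosed_iInter fun x => isClosed_iInter fun y => isClosed_iInter fun _ =>
      isClosed_eq (S.continuous_evx y) (S.continuous_evx x).neg
  · exact isClosed_iInter fun g => isClosed_iInter fun _ => isClosed_iInter fun x =>
      isClosed_iInter fun y => isClosed_iInter fun _ =>
      isClosed_eq (S.continuous_evx y) (S.continuous_evx x)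
  · exact isClosed_iInter fun x => isClosed_iInter fun _ =>
      isClosed_le continuous_const (S.continuous_evx x)

theorem Sob.mem_cone_iff {a : A} {r : Eu n → ℝ} (h : ∀ x : Sph n, S.evx x a = r x) :
    a ∈ S.cone G φ ↔ (∀ x, ‖x‖ = 1 → r (-x) = -r x) ∧ (∀ g ∈ G, ∀ x, ‖x‖ = 1 → r (g x) = r x) ∧
      ∀ x, ‖x‖ = 1 → 0 < φ x → 0 ≤ r x := by
  simp only [Sob.cone, mem_ofPred_eq, h]
  constructor
  · rintro ⟨h1, h2, h3⟩
    exact ⟨fun x hx => h1 ⟨x, by simpa using hx⟩ ⟨-x, by simpa using hx⟩ rfl,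
      fun g hg x hx => h2 g hg ⟨x, by simpa using hx⟩ ⟨g x, by simpa using hx⟩ rfl,
      fun x hx => h3 ⟨x, by simpa using hx⟩⟩
  · rintro ⟨h1, h2, h3⟩
    exact ⟨fun x y e => by rw [e]; exact h1 x (by simp),
      fun g hg x y e => by rw [e]; exact h2 g hg x (by simp),
      fun x => h3 x (by simp)⟩

theorem Sob.i_mem_cone_iff (w : H) : S.i w ∈ S.cone G φ ↔
    (∀ x, S.ext w (-x) = -S.ext w x) ∧ Inv G (S.ext w) ∧
      ∀ x, ‖x‖ = 1 → 0 < φ x → 0 ≤ S.ext w x := by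
  rw [S.mem_cone_iff (r := S.ext w) fun x => (S.ext_eq w x).symm]
  have h1 := S.ext_hom w
  constructor
  · rintro ⟨a1, a2, a3⟩
    refine ⟨fun x => ?_, fun g hg => (h1.comp_isometry g).ext_sphere h1 (a2 g hg), a3⟩
    have := h1.neg_neg.ext_sphere h1 (fun x hx => by rw [a1 x hx, neg_neg]) x
    linarith
  · rintro ⟨a1, a2, a3⟩
    exact ⟨fun x _ => a1 x, fun g hg x _ => a2 g hg x, a3⟩

end glue

theorem exists_sol {n N : ℕ} (hN : 2 ≤ N) {H A : Type} [NormedAddCommGroup H]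
    [InnerProductSpace ℝ H] [CompleteSpace H] [NormedCommRing A] [NormedAlgebra ℝ A]
    [CompleteSpace A] (S : Sob n N H A) {G : Set (Eu n ≃ₗᵢ[ℝ] Eu n)} {φ f : Eu n → ℝ}
    (hg : Geom G φ f) : ∃ h d : Eu n → ℝ, Sol N G h d := by
  have hf2 : ContDiffOn ℝ 2 f {0}ᶜ := hg.f_smooth.of_le (WithTop.coe_le_coe.2 (le_top : (2 : ℕ∞) ≤ ⊤))
  have hw2 : ∀ w, ContDiffOn ℝ 2 (S.ext w) {0}ᶜ := fun w =>
    (S.ext_smooth w).of_le (by exact_mod_cast hN)
  have hunit : ∀ x : Sph n, ‖(x : Eu n)‖ = 1 := fun x => by simp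
  choose a ha using fun k j => S.emb _ (contDiffOn_hatM hg.f_smooth k j)
  choose b hb using fun k j => S.emb _ (contDiffOn_comp_neg (contDiffOn_hatM hg.f_smooth k j))
  obtain ⟨p, hp⟩ := S.emb φ hg.om_smooth.contDiffOn
  have hXa : ∀ τ (x : Sph n), (homM (Matrix.of a) τ).map (S.evx x) = hatM (fh f τ) x := by
    intro τ x
    rw [homM_map, hatM_fh hf2 τ (hunit x)]
    congr 2
    ext k j
    exact ha k j x
  have hYb : ∀ τ (x : Sph n), (homM (Matrix.of b) τ).map (S.evx x) = hatM (fh f τ) (-x) := by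
    intro τ x
    rw [homM_map, hatM_fh hf2 τ (by simp)]
    congr 2
    ext k j
    exact hb k j x
  have hE : ∀ τ w (x : Sph n), S.evx x (S.Eq (Matrix.of a) (Matrix.of b) (τ, w)) =
      Eop (hatM (fh f τ) x) (hatM (fh f τ) (-x)) (hessM (S.ext w) x) := by
    intro τ w x
    rw [S.evx_Eq, hXa, hYb, S.Hs_map]
  obtain ⟨l, R, hl, hUB⟩ := exists_UB hf2 hg.f_pos
  obtain ⟨δ, C, hδ, hC0, hδl, hT⟩ := exists_touch n hl R
  obtain ⟨K, hK, hKb⟩ := S.exists_small
  have hsm : ∀ w, ‖w‖ ≤ δ / ((n ^ 2 + 1) * K) → SmallH δ (S.ext w) := by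
    intro w hw x hx v v'
    refine (smallH_of_entry (hKb w) x hx v v').trans ?_
    rw [le_div_iff₀ (by positivity)] at hw
    have : (n : ℝ) ^ 2 * (K * ‖w‖) ≤ δ := by nlinarith [mul_nonneg hK.le (norm_nonneg w)]
    gcongr
  have hpos : ∀ τ ∈ Icc (0 : ℝ) 1, ∀ x, ‖x‖ = 1 → (hatM (fh f τ) x).PosDef := fun τ hτ x hx =>
    posDef_of_sub hl (hUB τ hτ x hx).1
  obtain ⟨δs, hδs, hsub⟩ := hg.sub
  have key : ∃ τ ∈ Icc (0 : ℝ) 1, ∃ w, ‖w‖ ≤ δ / ((n ^ 2 + 1) * K) ∧ S.i w ≠ 0 ∧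
      S.i w ∈ S.cone G φ ∧ S.Eq (Matrix.of a) (Matrix.of b) (τ, w) = 0 := by
    refine abstract_bifurcation S.i S.i_compact S.B S.B_sep S.B_i
      (S.Eq (Matrix.of a) (Matrix.of b)) (S.contDiff_Eq _ _) (S.Eq_zero _ _)
      (S.Lin (Matrix.of a) (Matrix.of b)) (S.hasFDerivAt_Eq _ _) ?hG (S.cone G φ) S.isClosed_cone
      ?h0 ?hadd ?hsmul p ?hp ?hpt ?hMP ?hh0 ?hh1 (ε := δ / ((n ^ 2 + 1) * K)) (by positivity)
    case hG =>
      intro τ hτ
      simp only [S.Lin_apply]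
      have ma : ∀ k j, homM (Matrix.of a) τ k j ∈ S.smA :=
        homM_mem S.smA (a := Matrix.of a) (fun k j => ⟨_, contDiffOn_hatM hg.f_smooth k j, ha k j⟩) τ
      have mb : ∀ k j, homM (Matrix.of b) τ k j ∈ S.smA :=
        homM_mem S.smA (a := Matrix.of b) (fun k j => ⟨_, contDiffOn_comp_neg (contDiffOn_hatM hg.f_smooth k j),
          hb k j⟩) τ
      refine S.garding _ (fun k j => ?_) fun x => ?_
      · exact S.smA.add_mem
          (S.smA.mul_mem (adjugate_mem_subalgebra _ ma j k) (det_mem_subalgebra _ mb))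
          (S.smA.mul_mem (adjugate_mem_subalgebra _ mb j k) (det_mem_subalgebra _ ma))
      · simp only [← S.evx_apply, evx_coefL, hXa, hYb]
        exact posDef_adj_comb (hpos τ hτ x (hunit x)) (hpos τ hτ _ (by simp))
    case h0 => simp [Sob.cone]
    case hadd =>
      rintro u ⟨u1, u2, u3⟩ v ⟨v1, v2, v3⟩
      refine ⟨fun x y e => ?_, fun g hg x y e => ?_, fun x hx => ?_⟩
      · rw [map_add, map_add, u1 x y e, v1 x y e]; ring
      · rw [map_add, map_add, u2 g hg x y e, v2 g hg x y e]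
      · rw [map_add]; exact add_nonneg (u3 x hx) (v3 x hx)
    case hsmul =>
      rintro u ⟨u1, u2, u3⟩ t ht
      refine ⟨fun x y e => ?_, fun g hg x y e => ?_, fun x hx => ?_⟩
      · rw [map_smul, map_smul, u1 x y e]; simp
      · rw [map_smul, map_smul, u2 g hg x y e]
      · rw [map_smul]; exact smul_nonneg ht (u3 x hx)
    case hp =>
      exact (S.mem_cone_iff (r := φ) hp).2
        ⟨fun x _ => hg.om_odd x, fun g hG x _ => hg.om_inv g hG x, fun x _ hx => hx.le⟩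
    case hpt =>
      rintro u ⟨-, -, u3⟩ e
      obtain ⟨x, hx, hφ⟩ := hg.om_pos
      have e1 := congrArg (S.evx ⟨x, by simpa using hx⟩) e
      rw [map_add, map_zero, S.evx_apply _ p, hp] at e1
      have := u3 ⟨x, by simpa using hx⟩ hφ
      simp only at e1
      linarith
    case hMP =>
      refine ⟨C + 1, δ / ((n ^ 2 + 1) * K), by positivity, fun μ hμ τ hτ w hw hm => ?_⟩
      rw [S.mem_cone_iff (r := fun x => μ * S.ext w x -
        Eop (hatM (fh f τ) x) (hatM (fh f τ) (-x)) (hessM (S.ext w) x))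
        (fun x => by rw [map_sub, map_smul, hE, S.ext_eq]; rfl)] at hm
      rw [S.i_mem_cone_iff]
      exact (hT _ (hUB τ hτ)).maxPrinciple hδ.le (μ := μ) (by linarith) hg.om_smooth.continuous
        hg.om_zero (fh_inv hg.f_inv τ) (hw2 w) (S.ext_hom w) (hsm w hw) (fun _ _ => rfl)
        hm.1 hm.2.1 hm.2.2
    case hh0 =>
      obtain ⟨c, hc, hgap⟩ := S.gap G hg.nofix
      refine ⟨2 * c, by positivity, fun w hw => ?_⟩
      rw [S.i_mem_cone_iff] at hw
      have := hgap w hw.1 hw.2.1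
      rw [S.Lin_zero, ← smul_neg, map_smul]
      simp only [_root_.smul_apply, smul_eq_mul]
      linarith
    case hh1 =>
      refine ⟨min (δ / ((n ^ 2 + 1) * K)) (δs / K), by positivity, fun w hw hiw η hη hm => ?_⟩
      rw [S.i_mem_cone_iff] at hiw
      refine hsub (S.ext w) (hw2 w) (S.ext_hom w) hiw.2.1 (fun x hx i j => ?_) fun x hx hφ => ?_
      · refine (hKb w x hx i j).trans ?_
        have := hw.trans (min_le_right _ _)
        rw [le_div_iff₀ hK] at this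
        linarith
      · have h1 := hm.2.2 ⟨x, by simpa using hx⟩ hφ
        rw [map_sub, map_neg, map_smul, hE, S.evx_apply _ p, hp, fh_one] at h1
        simp only [smul_eq_mul] at h1
        have h2 : Eop (hatM f x) (hatM f (-x)) (hessM (S.ext w) x) < 0 := by
          nlinarith [mul_pos hη hφ]
        have hT1 := hT _ (hUB 1 ⟨zero_le_one, le_rfl⟩)
        rw [fh_one] at hT1
        exact ⟨hT1.pos_of_neg hδ.le hg.om_smooth.continuous (hw2 w) (S.ext_hom w)
          (hsm w (hw.trans (min_le_left _ _))) hiw.2.2 hx hφ h2, h2⟩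
  obtain ⟨τ, hτ, w, hw, hi0, hiC, hE0⟩ := key
  rw [S.i_mem_cone_iff] at hiC
  refine ⟨fh f τ, S.ext w, fh_smooth (hg.f_smooth.of_le (by exact_mod_cast le_top)) τ,
    S.ext_smooth w, fh_hom hg.f_hom τ, S.ext_hom w, hiC.1, hiC.2.1, ?_, hpos τ hτ,
    fun x hx => ?_, fun x hx => ?_⟩
  · by_contra hne
    push Not at hne
    exact hi0 (S.eq_of_evx fun x => by rw [map_zero, S.evx_apply, ← S.ext_eq, hne])
  · exact posDef_of_sub (half_pos hl) (psd_add_small hδl (hUB τ hτ x hx).1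
      (hessM_symm (contDiffAt_of_unit (hw2 w) hx)) ((hsm w hw).entry hx))
  · have := hE τ w ⟨x, by simpa using hx⟩
    rw [hE0, map_zero] at this
    exact this.symm

end Pool.Agent.P.MP_4a4b50_gt.CE
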