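import Pool.Agent.P.MP_4a4b50_gt.CMat
import Pool.Agent.P.MP_4a4b50_gt.CCalc

/-! Maximum principle for the curvature ratio equation on the sphere. -/

set_option autoImplicit false

namespace Pool.Agent.P.MP_4a4b50_gt.CE

open scoped ContDiff Topology
open Pool.Agent.P.MP_f97e06_gt (Eu)
open Matrix Set Filter

variable {n : ℕ}

theorem contDiffAt_of_unit {k : WithTop ℕ∞} {d : Eu n → ℝ} (hd : ContDiffOn ℝ k d {0}ᶜ) {x : Eu n}
    (hx : ‖x‖ = 1) : ContDiffAt ℝ k d x := by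
  refine hd.contDiffAt (isOpen_compl_singleton.mem_nhds ?_)
  rintro rfl
  simp at hx

theorem Hom1.ext_sphere {d₁ d₂ : Eu n → ℝ} (h₁ : Hom1 d₁) (h₂ : Hom1 d₂)
    (h : ∀ x, ‖x‖ = 1 → d₁ x = d₂ x) (x : Eu n) : d₁ x = d₂ x := by
  by_cases hx : x = 0
  · rw [hx, h₁.zero, h₂.zero]
  · have hp : 0 < ‖x‖ := norm_pos_iff.2 hx
    have hu : ‖‖x‖⁻¹ • x‖ = 1 := by
      rw [norm_smul, norm_inv, norm_norm, inv_mul_cancel₀ hp.ne']
    have e : x = ‖x‖ • (‖x‖⁻¹ • x) := by rw [smul_smul, mul_inv_cancel₀ hp.ne', one_smul]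
    rw [e, h₁ _ hp, h₂ _ hp, h _ hu]

theorem Hom1.comp_isometry {d : Eu n → ℝ} (h : Hom1 d) (g : Eu n ≃ₗᵢ[ℝ] Eu n) :
    Hom1 (fun z => d (g z)) := fun t ht x => by
  simp only [map_smul]; exact h t ht _

theorem Hom1.neg_neg {d : Eu n → ℝ} (h : Hom1 d) : Hom1 (fun z => -d (-z)) := fun t ht x => by
  simp only
  rw [← smul_neg, h t ht]; ring

theorem contDiffOn_comp_isometry {k : WithTop ℕ∞} {d : Eu n → ℝ} (hd : ContDiffOn ℝ k d {0}ᶜ)
    (g : Eu n ≃ₗᵢ[ℝ] Eu n) : ContDiffOn ℝ k (fun z => d (g z)) {0}ᶜ :=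
  hd.comp g.contDiff.contDiffOn fun z hz => by simpa using hz

theorem contDiffOn_comp_neg {k : WithTop ℕ∞} {d : Eu n → ℝ} (hd : ContDiffOn ℝ k d {0}ᶜ) :
    ContDiffOn ℝ k (fun z => d (-z)) {0}ᶜ :=
  hd.comp contDiff_neg.contDiffOn fun z hz => by simpa using hz

/-- the Hessian form is bounded by `δ` on the sphere -/
def SmallH (δ : ℝ) (d : Eu n → ℝ) : Prop :=
  ∀ x, ‖x‖ = 1 → ∀ v w, |D2 d x v w| ≤ δ * ‖v‖ * ‖w‖

theorem SmallH.entry {δ : ℝ} {d : Eu n → ℝ} (h : SmallH δ d) {x : Eu n} (hx : ‖x‖ = 1)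
    (i j : Fin n) : |hessM d x i j| ≤ δ := by
  have := h x hx (EuclideanSpace.single i 1) (EuclideanSpace.single j 1)
  simpa [hessM] using this

theorem smallH_of_entry {ε : ℝ} {d : Eu n → ℝ}
    (h : ∀ x, ‖x‖ = 1 → ∀ i j, |hessM d x i j| ≤ ε) : SmallH ((n : ℝ) ^ 2 * ε) d := by
  intro x hx v w
  rw [← hessM_form]
  simp only [dotProduct, mulVec]
  have hv : ∀ i, |v.ofLp i| ≤ ‖v‖ := fun i => by
    simpa using PiLp.norm_apply_le v i
  have hw : ∀ i, |w.ofLp i| ≤ ‖w‖ := fun i => by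
    simpa using PiLp.norm_apply_le w i
  calc |∑ i, v.ofLp i * ∑ j, hessM d x i j * w.ofLp j|
      ≤ ∑ i, |v.ofLp i * ∑ j, hessM d x i j * w.ofLp j| := Finset.abs_sum_le_sum_abs _ _
    _ ≤ ∑ _i : Fin n, ‖v‖ * ∑ _j : Fin n, ε * ‖w‖ := by
        refine Finset.sum_le_sum fun i _ => ?_
        rw [abs_mul]
        refine mul_le_mul (hv i) ?_ (abs_nonneg _) (norm_nonneg _)
        refine (Finset.abs_sum_le_sum_abs _ _).trans (Finset.sum_le_sum fun j _ => ?_)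
        rw [abs_mul]
        exact mul_le_mul (h x hx i j) (hw j) (abs_nonneg _) ((abs_nonneg _).trans (h x hx i j))
    _ = _ := by simp; ring

theorem SmallH.comp_isometry {δ : ℝ} {d : Eu n → ℝ} (h : SmallH δ d) (g : Eu n ≃ₗᵢ[ℝ] Eu n) :
    SmallH δ (fun z => d (g z)) := by
  intro x hx v w
  rw [D2_comp_isometry]
  simpa using h (g x) (by simpa using hx) (g v) (g w)

theorem SmallH.neg_neg {δ : ℝ} {d : Eu n → ℝ} (h : SmallH δ d) :
    SmallH δ (fun z => -d (-z)) := by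
  intro x hx v w
  rw [← hessM_form, hessM_neg_neg, neg_mulVec, dotProduct_neg, hessM_form, abs_neg]
  exact h (-x) (by simpa using hx) v w

theorem smallH_zero {δ : ℝ} (hδ : 0 ≤ δ) : SmallH δ (fun _ : Eu n => (0 : ℝ)) := by
  intro x _ v w
  have : D2 (fun _ : Eu n => (0 : ℝ)) x = 0 := by
    simp [D2]
  rw [this]
  simp only [_root_.zero_apply, abs_zero]
  positivity

theorem hessM_zero (x : Eu n) : hessM (fun _ : Eu n => (0 : ℝ)) x = 0 := by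
  ext i j
  simp [hessM, D2]

theorem Eop_zero (X Y : Matrix (Fin n) (Fin n) ℝ) : Eop X Y 0 = 0 := by
  simp [Eop, mul_comm]

/-- uniform bounds for a matrix field on the sphere -/
def UB (l R : ℝ) (F : Eu n → Matrix (Fin n) (Fin n) ℝ) : Prop :=
  ∀ x, ‖x‖ = 1 → (F x - l • (1 : Matrix (Fin n) (Fin n) ℝ)).PosSemidef ∧ ∀ i j, |F x i j| ≤ R

theorem posDef_of_sub {X : Matrix (Fin n) (Fin n) ℝ} {l : ℝ} (hl : 0 < l)
    (h : (X - l • (1 : Matrix (Fin n) (Fin n) ℝ)).PosSemidef) : X.PosDef := by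
  have := Matrix.PosDef.posSemidef_add h (Matrix.PosDef.one.smul hl)
  simpa using this

theorem psd_add_small {X D : Matrix (Fin n) (Fin n) ℝ} {l δ : ℝ} (hδ : (n : ℝ) * δ ≤ l / 2)
    (h : (X - l • (1 : Matrix (Fin n) (Fin n) ℝ)).PosSemidef) (hD : Dᵀ = D)
    (hs : ∀ i j, |D i j| ≤ δ) :
    (X + D - (l / 2) • (1 : Matrix (Fin n) (Fin n) ℝ)).PosSemidef := by
  have h1 := posSemidef_add_of_small hD hs
  have h2 : (((l / 2 - n * δ)) • (1 : Matrix (Fin n) (Fin n) ℝ)).PosSemidef :=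
    Matrix.PosSemidef.one.smul (by linarith)
  convert (h.add h1).add h2 using 1
  ext i j
  simp only [Matrix.sub_apply, Matrix.add_apply, Matrix.smul_apply, smul_eq_mul]
  ring

theorem psd_sub_small {X D : Matrix (Fin n) (Fin n) ℝ} {l δ : ℝ} (hδ : (n : ℝ) * δ ≤ l / 2)
    (h : (X - l • (1 : Matrix (Fin n) (Fin n) ℝ)).PosSemidef) (hD : Dᵀ = D)
    (hs : ∀ i j, |D i j| ≤ δ) :
    (X - D - (l / 2) • (1 : Matrix (Fin n) (Fin n) ℝ)).PosSemidef := by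
  have := psd_add_small (D := -D) hδ h (by rw [transpose_neg, hD]) (fun i j => by simpa using hs i j)
  rwa [← sub_eq_add_neg] at this

/-- the touching inequality -/
def Touch (δ C : ℝ) (F : Eu n → Matrix (Fin n) (Fin n) ℝ) : Prop :=
  ∀ d₁ d₂ : Eu n → ℝ, ContDiffOn ℝ 2 d₁ {0}ᶜ → ContDiffOn ℝ 2 d₂ {0}ᶜ → Hom1 d₁ → Hom1 d₂ →
    SmallH δ d₁ → SmallH δ d₂ → ∀ x, ‖x‖ = 1 → d₂ x ≤ d₁ x →
    (∀ᶠ z in 𝓝 x, ‖z‖ = 1 → d₂ x - d₁ x ≤ d₂ z - d₁ z) →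
    Eop (F x) (F (-x)) (hessM d₁ x) ≤ Eop (F x) (F (-x)) (hessM d₂ x) + C * (d₁ x - d₂ x)

theorem exists_touch (n : ℕ) {l : ℝ} (hl : 0 < l) (R : ℝ) : ∃ δ C : ℝ, 0 < δ ∧ 0 ≤ C ∧
    (n : ℝ) * δ ≤ l / 2 ∧
    ∀ F : Eu n → Matrix (Fin n) (Fin n) ℝ, UB l R F → Touch δ C F := by
  obtain ⟨C, hC0, hC⟩ := Eop_compare n (half_pos hl) (max R l)
  have hn : (0 : ℝ) ≤ n := Nat.cast_nonneg _
  have hδ : (n : ℝ) * (l / (2 * (n + 1))) ≤ l / 2 := by
    rw [← mul_div_assoc, div_le_div_iff₀ (by positivity) (by positivity)]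
    nlinarith
  have hδl : l / (2 * (n + 1)) ≤ l := by
    rw [div_le_iff₀ (by positivity)]
    nlinarith
  refine ⟨l / (2 * (n + 1)), C, by positivity, hC0, hδ, ?_⟩
  intro F hF d₁ d₂ hd₁ hd₂ h₁ h₂ s₁ s₂ x hx hle hmin
  have hx' : ‖-x‖ = 1 := by simpa using hx
  have c₁ := contDiffAt_of_unit hd₁ hx
  have c₂ := contDiffAt_of_unit hd₂ hx
  have hu : ContDiffOn ℝ 2 (fun z => 1 * d₂ z + (-1) * d₁ z) {0}ᶜ :=
    (contDiffOn_const.mul hd₂).add (contDiffOn_const.mul hd₁)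
  have hu1 : Hom1 (fun z => 1 * d₂ z + (-1) * d₁ z) := fun t ht z => by
    simp only
    rw [h₁ t ht, h₂ t ht]; ring
  have hs := sphere_min_test hu hu1 hx (hmin.mono fun z hz hz1 => by
    have := hz hz1
    linarith)
  rw [hessM_lin c₂ c₁] at hs
  have hxx : (vecMulVec x.ofLp x.ofLp).PosSemidef := by
    simpa using Matrix.posSemidef_vecMulVec_self_star x.ofLp
  have hm : 0 ≤ d₁ x - d₂ x := by linarith
  refine hC (F x) (F (-x)) (hessM d₁ x) (hessM d₂ x) (posDef_of_sub hl (hF x hx).1)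
    (posDef_of_sub hl (hF _ hx').1)
    (psd_add_small hδ (hF x hx).1 (hessM_symm c₁) (s₁.entry hx))
    (psd_add_small hδ (hF x hx).1 (hessM_symm c₂) (s₂.entry hx))
    (psd_sub_small hδ (hF _ hx').1 (hessM_symm c₁) (s₁.entry hx))
    (psd_sub_small hδ (hF _ hx').1 (hessM_symm c₂) (s₂.entry hx))
    (fun i j => ((hF x hx).2 i j).trans (le_max_left _ _))
    (fun i j => ((hF _ hx').2 i j).trans (le_max_left _ _))
    (fun i j => ((s₁.entry hx i j).trans hδl).trans (le_max_right _ _))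
    (fun i j => ((s₂.entry hx i j).trans hδl).trans (le_max_right _ _)) _ hm ?_
  convert hs.add (hxx.smul hm) using 1
  ext i j
  simp only [Matrix.sub_apply, Matrix.add_apply, Matrix.smul_apply, smul_eq_mul]
  ring

theorem Touch.compare {δ C μ : ℝ} {F : Eu n → Matrix (Fin n) (Fin n) ℝ} (hT : Touch δ C F)
    (hμ : C < μ) {d₁ d₂ : Eu n → ℝ} (hd₁ : ContDiffOn ℝ 2 d₁ {0}ᶜ) (hd₂ : ContDiffOn ℝ 2 d₂ {0}ᶜ)
    (h₁ : Hom1 d₁) (h₂ : Hom1 d₂) (s₁ : SmallH δ d₁) (s₂ : SmallH δ d₂)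
    (he : ∀ x, ‖x‖ = 1 → μ * d₁ x - Eop (F x) (F (-x)) (hessM d₁ x) =
      μ * d₂ x - Eop (F x) (F (-x)) (hessM d₂ x)) (x : Eu n) (hx : ‖x‖ = 1) : d₁ x ≤ d₂ x := by
  have hsub : Metric.sphere (0 : Eu n) 1 ⊆ {0}ᶜ := by
    rintro z hz rfl
    simp at hz
  obtain ⟨x₀, hx₀, hmin⟩ := (isCompact_sphere (0 : Eu n) 1).exists_isMinOn
    ⟨x, by simpa using hx⟩ ((hd₂.continuousOn.sub hd₁.continuousOn).mono hsub)
  have hx₀' : ‖x₀‖ = 1 := by simpa using hx₀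
  have hm : ∀ z, ‖z‖ = 1 → d₂ x₀ - d₁ x₀ ≤ d₂ z - d₁ z := fun z hz =>
    hmin (show z ∈ Metric.sphere (0 : Eu n) 1 by simpa using hz)
  by_contra hlt
  have h3 := hm x hx
  have hneg : d₂ x₀ < d₁ x₀ := by linarith [not_le.1 hlt]
  have h4 := hT d₁ d₂ hd₁ hd₂ h₁ h₂ s₁ s₂ x₀ hx₀' hneg.le (Eventually.of_forall hm)
  have h5 := he x₀ hx₀'
  nlinarith

/-- the maximum principle -/
theorem Touch.maxPrinciple {δ C μ : ℝ} (hδ : 0 ≤ δ) {G : Set (Eu n ≃ₗᵢ[ℝ] Eu n)} {φ h : Eu n → ℝ}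
    (hT : Touch δ C (hatM h)) (hμ : C < μ) (hφ : Continuous φ)
    (hz : ∀ x, ‖x‖ = 1 → φ x = 0 → ∃ g ∈ G, g x = -x) (hinv : Inv G h)
    {d : Eu n → ℝ} (hd : ContDiffOn ℝ 2 d {0}ᶜ) (h1 : Hom1 d) (hs : SmallH δ d)
    {r : Eu n → ℝ} (hr : ∀ x, ‖x‖ = 1 → r x = μ * d x - Eop (hatM h x) (hatM h (-x)) (hessM d x))
    (hro : ∀ x, ‖x‖ = 1 → r (-x) = -r x) (hri : ∀ g ∈ G, ∀ x, ‖x‖ = 1 → r (g x) = r x)
    (hrp : ∀ x, ‖x‖ = 1 → 0 < φ x → 0 ≤ r x) :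
    (∀ x, d (-x) = -d x) ∧ Inv G d ∧ ∀ x, ‖x‖ = 1 → 0 < φ x → 0 ≤ d x := by
  have hodd : ∀ x, d (-x) = -d x := by
    have e : ∀ x, ‖x‖ = 1 → μ * (-d (-x)) - Eop (hatM h x) (hatM h (-x))
        (hessM (fun z => -d (-z)) x) = μ * d x - Eop (hatM h x) (hatM h (-x)) (hessM d x) := by
      intro x hx
      have hx' : ‖-x‖ = 1 := by simpa using hx
      have e1 := hr (-x) hx'
      rw [_root_.neg_neg] at e1
      rw [hessM_neg_neg, Eop_swap, ← hr x hx]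
      linarith [hro x hx]
    have hd' : ContDiffOn ℝ 2 (fun z => -d (-z)) {0}ᶜ := (contDiffOn_comp_neg hd).neg
    have a1 := hT.compare hμ hd' hd h1.neg_neg h1 hs.neg_neg hs e
    have a2 := hT.compare hμ hd hd' h1 h1.neg_neg hs hs.neg_neg fun x hx => (e x hx).symm
    intro x
    have := h1.neg_neg.ext_sphere h1 (fun x hx => le_antisymm (a1 x hx) (a2 x hx)) x
    linarith
  have hG : Inv G d := by
    intro g hg
    have e : ∀ x, ‖x‖ = 1 → μ * d (g x) - Eop (hatM h x) (hatM h (-x))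
        (hessM (fun z => d (g z)) x) = μ * d x - Eop (hatM h x) (hatM h (-x)) (hessM d x) := by
      intro x hx
      rw [Eop_isometry d g (hinv g hg), ← hr x hx, ← hr (g x) (by simpa using hx), hri g hg x hx]
    have hd' := contDiffOn_comp_isometry hd g
    have a1 := hT.compare hμ hd' hd (h1.comp_isometry g) h1 (hs.comp_isometry g) hs e
    have a2 := hT.compare hμ hd hd' h1 (h1.comp_isometry g) hs (hs.comp_isometry g)
      fun x hx => (e x hx).symm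
    exact (h1.comp_isometry g).ext_sphere h1 fun x hx => le_antisymm (a1 x hx) (a2 x hx)
  refine ⟨hodd, hG, fun x hx hp => ?_⟩
  by_contra hlt
  have hK : IsCompact (Metric.sphere (0 : Eu n) 1 ∩ {z | 0 ≤ φ z}) :=
    (isCompact_sphere _ _).inter_right (isClosed_le continuous_const hφ)
  have hsub : Metric.sphere (0 : Eu n) 1 ∩ {z | 0 ≤ φ z} ⊆ {0}ᶜ := by
    rintro z ⟨hz, -⟩ rfl
    simp at hz
  obtain ⟨x₀, ⟨hx₀, hφ₀⟩, hmin⟩ := hK.exists_isMinOn ⟨x, by simpa using hx, hp.le⟩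
    (hd.continuousOn.mono hsub)
  have hx₀' : ‖x₀‖ = 1 := by simpa using hx₀
  have hm : ∀ z, ‖z‖ = 1 → 0 ≤ φ z → d x₀ ≤ d z := fun z hz hz' =>
    hmin (show z ∈ Metric.sphere (0 : Eu n) 1 ∩ {z | 0 ≤ φ z} from ⟨by simpa using hz, hz'⟩)
  have hneg : d x₀ < 0 := (hm x hx hp.le).trans_lt (not_le.1 hlt)
  have hpos : 0 < φ x₀ := by
    refine lt_of_le_of_ne hφ₀ fun e => ?_
    obtain ⟨g, hg, hgx⟩ := hz x₀ hx₀' e.symm
    have e1 := hG g hg x₀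
    rw [hgx, hodd] at e1
    linarith
  have hev : ∀ᶠ z in 𝓝 x₀, 0 < φ z := hφ.continuousAt.eventually (lt_mem_nhds hpos)
  have h4 := hT (fun _ => 0) d contDiffOn_const hd (fun t _ z => by simp) h1 (smallH_zero hδ) hs
    x₀ hx₀' hneg.le (hev.mono fun z hz hz1 => by simpa using hm z hz1 hz.le)
  rw [hessM_zero, Eop_zero] at h4
  have h5 := hrp x₀ hx₀' hpos
  rw [hr x₀ hx₀'] at h5
  nlinarith

/-- strict positivity of a nonnegative strict supersolution -/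
theorem Touch.pos_of_neg {δ C : ℝ} (hδ : 0 ≤ δ) {φ : Eu n → ℝ}
    {F : Eu n → Matrix (Fin n) (Fin n) ℝ} (hT : Touch δ C F) (hφ : Continuous φ)
    {d : Eu n → ℝ} (hd : ContDiffOn ℝ 2 d {0}ᶜ) (h1 : Hom1 d) (hs : SmallH δ d)
    (hp : ∀ x, ‖x‖ = 1 → 0 < φ x → 0 ≤ d x) {x : Eu n} (hx : ‖x‖ = 1) (hφx : 0 < φ x)
    (hE : Eop (F x) (F (-x)) (hessM d x) < 0) : 0 < d x := by
  refine lt_of_le_of_ne (hp x hx hφx) fun e => ?_
  have hev : ∀ᶠ z in 𝓝 x, 0 < φ z := hφ.continuousAt.eventually (lt_mem_nhds hφx)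
  have h4 := hT (fun _ => 0) d contDiffOn_const hd (fun t _ z => by simp) h1 (smallH_zero hδ) hs
    x hx e.ge (hev.mono fun z hz hz1 => by simpa [← e] using hp z hz1 hz)
  rw [hessM_zero, Eop_zero, ← e] at h4
  simp at h4
  linarith

/-- the homotopy from the norm to `f` -/
noncomputable def fh (f : Eu n → ℝ) (τ : ℝ) (z : Eu n) : ℝ := (1 - τ) * ‖z‖ + τ * f z

theorem contDiffOn_norm' {k : WithTop ℕ∞} : ContDiffOn ℝ k (fun z : Eu n => ‖z‖) {0}ᶜ :=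
  fun _ hz => (contDiffAt_norm ℝ hz).contDiffWithinAt

theorem fh_smooth {k : WithTop ℕ∞} {f : Eu n → ℝ} (hf : ContDiffOn ℝ k f {0}ᶜ) (τ : ℝ) :
    ContDiffOn ℝ k (fh f τ) {0}ᶜ :=
  (contDiffOn_const.mul contDiffOn_norm').add (contDiffOn_const.mul hf)

theorem fh_hom {f : Eu n → ℝ} (hf : Hom1 f) (τ : ℝ) : Hom1 (fh f τ) := fun t ht z => by
  simp only [fh]
  rw [hf t ht, norm_smul, Real.norm_of_nonneg ht.le]; ring

theorem fh_inv {G : Set (Eu n ≃ₗᵢ[ℝ] Eu n)} {f : Eu n → ℝ} (hf : Inv G f) (τ : ℝ) :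
    Inv G (fh f τ) := fun g hg z => by
  simp only [fh]
  rw [hf g hg, g.norm_map]

theorem fh_one (f : Eu n → ℝ) : fh f 1 = f := by
  funext z; simp [fh]

theorem hatM_fh {f : Eu n → ℝ} (hf : ContDiffOn ℝ 2 f {0}ᶜ) (τ : ℝ) {x : Eu n} (hx : ‖x‖ = 1) :
    hatM (fh f τ) x = (1 - τ) • (1 : Matrix (Fin n) (Fin n) ℝ) + τ • hatM f x := by
  have e := hessM_lin (contDiffAt_of_unit contDiffOn_norm' hx) (contDiffAt_of_unit hf hx) (1 - τ) τ
  rw [← hatM_norm_unit hx]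
  simp only [hatM]
  rw [show fh f τ = fun z => (1 - τ) * ‖z‖ + τ * f z from rfl, e]
  ext i j
  simp only [Matrix.add_apply, Matrix.smul_apply, smul_eq_mul]
  ring

theorem exists_UB {f : Eu n → ℝ} (hf : ContDiffOn ℝ 2 f {0}ᶜ)
    (hp : ∀ x, ‖x‖ = 1 → (hatM f x).PosDef) :
    ∃ l R : ℝ, 0 < l ∧ ∀ τ ∈ Icc (0 : ℝ) 1, UB l R (hatM (fh f τ)) := by
  obtain ⟨l, R, hl, h⟩ := uniform_pos hf hp
  refine ⟨min l 1, |R| + 1, lt_min hl one_pos, fun τ hτ x hx => ?_⟩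
  rw [hatM_fh hf τ hx]
  have h1 : 0 ≤ 1 - τ := by linarith [hτ.2]
  constructor
  · have a1 : (((1 - τ) * (1 - min l 1) + τ * (l - min l 1)) •
        (1 : Matrix (Fin n) (Fin n) ℝ)).PosSemidef :=
      Matrix.PosSemidef.one.smul (add_nonneg (mul_nonneg h1 (by linarith [min_le_right l 1]))
        (mul_nonneg hτ.1 (by linarith [min_le_left l 1])))
    convert a1.add ((h x hx).1.smul hτ.1) using 1
    ext i j
    simp only [Matrix.sub_apply, Matrix.add_apply, Matrix.smul_apply, smul_eq_mul]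
    ring
  · intro i j
    simp only [Matrix.add_apply, Matrix.smul_apply, smul_eq_mul]
    have b1 : |(1 : Matrix (Fin n) (Fin n) ℝ) i j| ≤ 1 := by
      rw [Matrix.one_apply]; split_ifs <;> simp
    have b2 : |hatM f x i j| ≤ |R| := ((h x hx).2 i j).trans (le_abs_self _)
    calc _ ≤ |(1 - τ) * (1 : Matrix (Fin n) (Fin n) ℝ) i j| + |τ * hatM f x i j| := abs_add_le _ _
      _ = (1 - τ) * |(1 : Matrix (Fin n) (Fin n) ℝ) i j| + τ * |hatM f x i j| := by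
          rw [abs_mul, abs_mul, abs_of_nonneg h1, abs_of_nonneg hτ.1]
      _ ≤ 1 * 1 + 1 * |R| := by
          gcongr
          · linarith [hτ.1]
          · exact hτ.2
      _ = _ := by ring

theorem contDiffOn_hatM {f : Eu n → ℝ} (hf : ContDiffOn ℝ ∞ f {0}ᶜ) (k j : Fin n) :
    ContDiffOn ℝ ∞ (fun x => hatM f x k j) {0}ᶜ := by
  have h1 : ContDiffOn ℝ ∞ (fderiv ℝ f) {0}ᶜ :=
    hf.fderiv_of_isOpen isOpen_compl_singleton (by simp)
  have h2 : ContDiffOn ℝ ∞ (fderiv ℝ (fderiv ℝ f)) {0}ᶜ :=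
    h1.fderiv_of_isOpen isOpen_compl_singleton (by simp)
  have h3 : ∀ i : Fin n, ContDiff ℝ ∞ (fun x : Eu n => x.ofLp i) := fun i =>
    (EuclideanSpace.proj (𝕜 := ℝ) i).contDiff
  simp only [hatM, hessM, Matrix.add_apply, Matrix.of_apply, vecMulVec_apply]
  exact ((h2.clm_apply contDiffOn_const).clm_apply contDiffOn_const).add
    ((h3 k).mul (h3 j)).contDiffOn

end Pool.Agent.P.MP_4a4b50_gt.CE
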