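import Pool.Agent.P.MP_4a4b50_gt.CDefs
import Pool.Agent.P.MP_4a4b50_gt.Pde

set_option autoImplicit false

namespace Pool.Agent.P.MP_4a4b50_gt.CE

open scoped ContDiff Topology
open Pool.Agent.P.MP_f97e06_gt (Eu)
open Matrix Set Filter

theorem ext_Y {x z : Eu 10} (h0 : x 0 = z 0) (h : Y x = Y z) : x = z := by
  rw [← lift_Y x, ← lift_Y z, h0, h]

theorem lift_add (s t : ℝ) (A B : Matrix (Fin 4) (Fin 4) ℝ) :
    lift (s + t) (A + B) = lift s A + lift t B := by
  ext i
  fin_cases i <;> simp [lift] <;> ring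

theorem lift_smul (c t : ℝ) (A : Matrix (Fin 4) (Fin 4) ℝ) :
    lift (c * t) (c • A) = c • lift t A := by
  ext i
  fin_cases i <;> simp [lift] <;> ring

/-- `lift 0` as a linear map -/
noncomputable def liftL : Matrix (Fin 4) (Fin 4) ℝ →ₗ[ℝ] Eu 10 where
  toFun A := lift 0 A
  map_add' A B := by rw [← lift_add, add_zero]
  map_smul' c A := by rw [RingHom.id_apply, ← lift_smul, mul_zero]

theorem liftL_apply (A : Matrix (Fin 4) (Fin 4) ℝ) : liftL A = lift 0 A := rfl

theorem lift_eq (t : ℝ) (A : Matrix (Fin 4) (Fin 4) ℝ) : lift t A = t • e0 + liftL A := by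
  ext i
  fin_cases i <;> simp [lift, liftL, e0]

/-- `Y` as a linear map -/
noncomputable def YL : Eu 10 →ₗ[ℝ] Matrix (Fin 4) (Fin 4) ℝ where
  toFun := Y
  map_add' := Y_add
  map_smul' := Y_smul

theorem conj_symm (O : Matrix (Fin 4) (Fin 4) ℝ) (x : Eu 10) :
    (O * Y x * Oᵀ)ᵀ = O * Y x * Oᵀ := by
  rw [transpose_mul, transpose_mul, transpose_transpose, Y_symm, Matrix.mul_assoc]

theorem conj_trace {O : Matrix (Fin 4) (Fin 4) ℝ} (hO : O * Oᵀ = 1)
    (A : Matrix (Fin 4) (Fin 4) ℝ) : (O * A * Oᵀ).trace = A.trace := by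
  have h' : Oᵀ * O = 1 := mul_eq_one_comm.1 hO
  rw [trace_mul_comm, ← Matrix.mul_assoc, h', Matrix.one_mul]

theorem conj_mul {O : Matrix (Fin 4) (Fin 4) ℝ} (hO : O * Oᵀ = 1)
    (A B : Matrix (Fin 4) (Fin 4) ℝ) : (O * A * Oᵀ) * (O * B * Oᵀ) = O * (A * B) * Oᵀ := by
  have h' : Oᵀ * O = 1 := mul_eq_one_comm.1 hO
  calc (O * A * Oᵀ) * (O * B * Oᵀ) = O * A * (Oᵀ * O) * B * Oᵀ := by
        simp only [Matrix.mul_assoc]
    _ = O * (A * B) * Oᵀ := by rw [h', Matrix.mul_one]; simp only [Matrix.mul_assoc]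

theorem Y_conj {O : Matrix (Fin 4) (Fin 4) ℝ} (hO : O * Oᵀ = 1) (t : ℝ) (x : Eu 10) :
    Y (lift t (O * Y x * Oᵀ)) = O * Y x * Oᵀ :=
  Y_lift t (conj_symm O x) (by rw [conj_trace hO, Y_trace])

theorem exists_mem_GG {O : Matrix (Fin 4) (Fin 4) ℝ} (hO : O * Oᵀ = 1) {σ : ℝ}
    (hσ : σ = 1 ∨ σ = -1) : ∃ g ∈ GG, ∀ x, Y (g x) = O * Y x * Oᵀ ∧ g x 0 = σ * x 0 := by
  let L : Eu 10 →ₗ[ℝ] Eu 10 :=
    { toFun := fun x => lift (σ * x 0) (O * Y x * Oᵀ)
      map_add' := fun x z => by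
        rw [← lift_add, Y_add, Matrix.mul_add, Matrix.add_mul, PiLp.add_apply, mul_add]
      map_smul' := fun c x => by
        rw [RingHom.id_apply, ← lift_smul, Y_smul, Matrix.mul_smul, Matrix.smul_mul,
          PiLp.smul_apply, smul_eq_mul, mul_left_comm] }
  have hL : ∀ x, Y (L x) = O * Y x * Oᵀ ∧ L x 0 = σ * x 0 := fun x =>
    ⟨Y_conj hO _ x, rfl⟩
  have hσ2 : σ * σ = 1 := by rcases hσ with h | h <;> rw [h] <;> norm_num
  have hin : ∀ x z, inner ℝ (L x) (L z) = inner ℝ x z := by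
    intro x z
    rw [inner_eq, inner_eq, (hL x).1, (hL z).1, (hL x).2, (hL z).2, conj_mul hO, conj_trace hO]
    have : σ * x 0 * (σ * z 0) = (σ * σ) * (x 0 * z 0) := by ring
    rw [this, hσ2, one_mul]
  let g : Eu 10 ≃ₗᵢ[ℝ] Eu 10 := (L.isometryOfInner hin).toLinearIsometryEquiv rfl
  have hg : ∀ x, g x = L x := fun x => rfl
  refine ⟨g, ⟨O, σ, hO, hσ, fun x => ?_⟩, fun x => ?_⟩
  · rw [hg]; exact hL x
  · rw [hg]; exact hL x

theorem perm_conj (π : Equiv.Perm (Fin 4)) (A : Matrix (Fin 4) (Fin 4) ℝ) :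
    π.permMatrix ℝ * A * (π.permMatrix ℝ)ᵀ = A.submatrix π π := by
  rw [transpose_permMatrix, Equiv.Perm.permMatrix, Equiv.Perm.permMatrix,
    PEquiv.toMatrix_toPEquiv_mul, PEquiv.mul_toMatrix_toPEquiv]
  ext i j
  simp [Equiv.Perm.inv_def]

theorem perm_orth (π : Equiv.Perm (Fin 4)) :
    π.permMatrix ℝ * (π.permMatrix ℝ)ᵀ = (1 : Matrix (Fin 4) (Fin 4) ℝ) := by
  have := perm_conj π 1
  rwa [Matrix.mul_one, submatrix_one_equiv] at this

theorem nofix_GG : NoFix GG := by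
  intro v hv
  have key : ∀ O : Matrix (Fin 4) (Fin 4) ℝ, O * Oᵀ = 1 → O * Y v * Oᵀ = Y v := by
    intro O hO
    obtain ⟨g, hg, h⟩ := exists_mem_GG hO (σ := 1) (Or.inl rfl)
    rw [← (h v).1, hv g hg]
  have h0 : v 0 = 0 := by
    obtain ⟨g, hg, h⟩ := exists_mem_GG (O := 1) (by simp) (σ := -1) (Or.inr rfl)
    have := (h v).2
    rw [hv g hg] at this
    linarith
  have hoff : ∀ i j, i ≠ j → Y v i j = 0 := by
    intro i j hij
    let s : Fin 4 → ℝ := fun k => if k = i then -1 else 1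
    have hs : diagonal s * (diagonal s)ᵀ = 1 := by
      rw [diagonal_transpose, diagonal_mul_diagonal, ← diagonal_one]
      congr 1
      funext k
      by_cases hk : k = i <;> simp [s, hk]
    have := congrFun (congrFun (key _ hs) i) j
    rw [diagonal_transpose, mul_diagonal, diagonal_mul] at this
    simp only [s, if_true, if_neg hij.symm] at this
    linarith
  have hdiag : ∀ i, Y v i i = Y v 0 0 := by
    intro i
    have := congrFun (congrFun (key _ (perm_orth (Equiv.swap 0 i))) 0) 0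
    rw [perm_conj] at this
    simpa using this
  have htr := Y_trace v
  simp only [Matrix.trace, Matrix.diag, Fin.sum_univ_four] at htr
  have h00 : Y v 0 0 = 0 := by
    have h1 := hdiag 1
    have h2 := hdiag 2
    have h3 := hdiag 3
    linarith
  refine ext_Y (by simpa using h0) ?_
  rw [Y_zero]
  ext i j
  by_cases hij : i = j
  · subst hij; rw [hdiag, h00]; rfl
  · exact hoff i j hij

theorem contDiff_Y (i j : Fin 4) : ContDiff ℝ ∞ fun x : Eu 10 => Y x i j := by
  let L : Eu 10 →ₗ[ℝ] ℝ :=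
    { toFun := fun x => Y x i j
      map_add' := fun x z => by rw [Y_add]; rfl
      map_smul' := fun c x => by rw [Y_smul]; rfl }
  exact (LinearMap.toContinuousLinearMap L).contDiff

theorem om_smooth : ContDiff ℝ ∞ om := by
  have : om = fun x => ∑ i, ∑ k, (∑ j, Y x i j * Y x j k) * Y x k i := by
    funext x
    simp only [om, Matrix.trace, Matrix.diag, Matrix.mul_apply]
  rw [this]
  refine ContDiff.sum fun i _ => ContDiff.sum fun k _ => ?_
  exact (ContDiff.sum fun j _ => (contDiff_Y i j).mul (contDiff_Y j k)).mul (contDiff_Y k i)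

theorem om_odd (x : Eu 10) : om (-x) = -om x := by
  simp [om, Y_neg]

theorem om_inv : Inv GG om := by
  rintro g ⟨O, σ, hO, -, h⟩ x
  rw [om, om, (h x).1, conj_mul hO, conj_mul hO, conj_trace hO]

theorem exists_orth_diag (x : Eu 10) : ∃ (O : Matrix (Fin 4) (Fin 4) ℝ) (a : Fin 4 → ℝ),
    O * Oᵀ = 1 ∧ O * Y x * Oᵀ = diagonal a := by
  have hA : (Y x).IsHermitian := by
    rw [IsHermitian, conjTranspose_eq_transpose_of_trivial, Y_symm]
  refine ⟨(star hA.eigenvectorUnitary : Matrix (Fin 4) (Fin 4) ℝ), hA.eigenvalues, ?_, ?_⟩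
  · rw [← conjTranspose_eq_transpose_of_trivial, ← star_eq_conjTranspose, star_star]
    exact hA.eigenvectorUnitary.2.1
  · have := hA.conjStarAlgAut_star_eigenvectorUnitary
    rw [Unitary.conjStarAlgAut_star_apply] at this
    rw [← conjTranspose_eq_transpose_of_trivial, ← star_eq_conjTranspose, star_star, this]
    rfl

/-- diagonalisation with the largest eigenvalue first -/
theorem exists_diag (x : Eu 10) : ∃ g ∈ GG, ∃ a : Fin 4 → ℝ, Y (g x) = diagonal a ∧ g x 0 = x 0 ∧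
    ∀ q : Fin 4 → ℝ, q ⬝ᵥ q = 1 → q ⬝ᵥ Y x *ᵥ q ≤ a 0 := by
  obtain ⟨O, b, hO, hb⟩ := exists_orth_diag x
  obtain ⟨m, -, hm⟩ := Finset.exists_max_image Finset.univ b Finset.univ_nonempty
  let π : Equiv.Perm (Fin 4) := Equiv.swap 0 m
  have hO' : (π.permMatrix ℝ * O) * (π.permMatrix ℝ * O)ᵀ = 1 := by
    rw [transpose_mul, Matrix.mul_assoc, ← Matrix.mul_assoc O, hO, Matrix.one_mul, perm_orth]
  obtain ⟨g, hg, h⟩ := exists_mem_GG hO' (σ := 1) (Or.inl rfl)
  refine ⟨g, hg, b ∘ π, ?_, by rw [(h x).2, one_mul], ?_⟩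
  · rw [(h x).1, transpose_mul, ← submatrix_diagonal_equiv, ← perm_conj, ← hb]
    simp only [Matrix.mul_assoc]
  · intro q hq
    have h' : Oᵀ * O = 1 := mul_eq_one_comm.1 hO
    have hY : Y x = Oᵀ * diagonal b * O := by
      rw [← hb]
      calc Y x = (Oᵀ * O) * Y x * (Oᵀ * O) := by rw [h', Matrix.one_mul, Matrix.mul_one]
        _ = _ := by simp only [Matrix.mul_assoc]
    set p := O *ᵥ q with hp
    have hpp : p ⬝ᵥ p = 1 := by
      rw [hp, dotProduct_mulVec, ← mulVec_transpose, mulVec_mulVec, h', one_mulVec, hq]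
    have hq' : q ⬝ᵥ Y x *ᵥ q = p ⬝ᵥ diagonal b *ᵥ p := by
      rw [hY, ← mulVec_mulVec, ← mulVec_mulVec, dotProduct_mulVec, vecMul_transpose]
    have hb0 : (b ∘ π) 0 = b m := by simp [π]
    rw [hq', hb0]
    calc p ⬝ᵥ diagonal b *ᵥ p = ∑ i, b i * (p i * p i) := by
          simp only [dotProduct, mulVec_diagonal]
          exact Finset.sum_congr rfl fun i _ => by ring
      _ ≤ ∑ i, b m * (p i * p i) :=
          Finset.sum_le_sum fun i _ =>
            mul_le_mul_of_nonneg_right (hm i (Finset.mem_univ i)) (mul_self_nonneg _)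
      _ = b m := by rw [← Finset.mul_sum]; change b m * (p ⬝ᵥ p) = _; rw [hpp, mul_one]

theorem sum_diag {x : Eu 10} {a : Fin 4 → ℝ} (h : Y x = diagonal a) :
    a 0 + a 1 + a 2 + a 3 = 0 := by
  have := Y_trace x
  rwa [h, trace_diagonal, Fin.sum_univ_four] at this

theorem om_diag {x : Eu 10} {a : Fin 4 → ℝ} (h : Y x = diagonal a) :
    om x = 3 * (a 0 + a 1) * (a 0 + a 2) * (a 0 + a 3) := by
  have hs := sum_diag h
  have h3 : a 3 = -(a 0 + a 1 + a 2) := by linarith
  rw [om, h, diagonal_mul_diagonal, diagonal_mul_diagonal, trace_diagonal, Fin.sum_univ_four, h3]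
  ring

theorem om_zero (x : Eu 10) (h : om x = 0) : ∃ g ∈ GG, g x = -x := by
  obtain ⟨O, a, hO, ha⟩ := exists_orth_diag x
  have h' : Oᵀ * O = 1 := mul_eq_one_comm.1 hO
  obtain ⟨g, hg, hgx⟩ := exists_mem_GG hO (σ := 1) (Or.inl rfl)
  have hY : Y (g x) = diagonal a := by rw [(hgx x).1, ha]
  have hs := sum_diag hY
  have h0 : 3 * (a 0 + a 1) * (a 0 + a 2) * (a 0 + a 3) = 0 := by
    rw [← om_diag hY, om_inv g hg, h]
  have hπ : ∃ π : Equiv.Perm (Fin 4), ∀ i, a (π i) = -a i := by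
    rcases mul_eq_zero.1 h0 with h0 | h3
    · rcases mul_eq_zero.1 h0 with h0 | h2
      · refine ⟨Equiv.swap 0 1 * Equiv.swap 2 3, fun i => ?_⟩
        fin_cases i <;> simp [Equiv.swap_apply_def] <;> linarith
      · refine ⟨Equiv.swap 0 2 * Equiv.swap 1 3, fun i => ?_⟩
        fin_cases i <;> simp [Equiv.swap_apply_def] <;> linarith
    · refine ⟨Equiv.swap 0 3 * Equiv.swap 1 2, fun i => ?_⟩
      fin_cases i <;> simp [Equiv.swap_apply_def] <;> linarith
  obtain ⟨π, hπ⟩ := hπ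
  have hP : π.permMatrix ℝ * diagonal a * (π.permMatrix ℝ)ᵀ = -diagonal a := by
    rw [perm_conj, submatrix_diagonal_equiv, diagonal_neg]
    congr 1
    funext i
    exact hπ i
  have hO2 : (Oᵀ * π.permMatrix ℝ * O) * (Oᵀ * π.permMatrix ℝ * O)ᵀ = 1 := by
    rw [transpose_mul, transpose_mul, transpose_transpose]
    calc _ = Oᵀ * (π.permMatrix ℝ * (O * Oᵀ) * (π.permMatrix ℝ)ᵀ) * O := by
          simp only [Matrix.mul_assoc]
      _ = 1 := by rw [hO, Matrix.mul_one, perm_orth, Matrix.mul_one, h']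
  obtain ⟨g', hg', hx'⟩ := exists_mem_GG hO2 (σ := -1) (Or.inr rfl)
  refine ⟨g', hg', ext_Y (by rw [(hx' x).2]; simp) ?_⟩
  rw [(hx' x).1, Y_neg, transpose_mul, transpose_mul, transpose_transpose]
  calc _ = Oᵀ * (π.permMatrix ℝ * (O * Y x * Oᵀ) * (π.permMatrix ℝ)ᵀ) * O := by
        simp only [Matrix.mul_assoc]
    _ = -((Oᵀ * O) * Y x * (Oᵀ * O)) := by
        rw [ha, hP, ← ha]
        simp only [Matrix.mul_assoc, Matrix.mul_neg, Matrix.neg_mul]
    _ = -Y x := by rw [h', Matrix.one_mul, Matrix.mul_one]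

theorem Y_Hv {j : Fin 4} (hj : j ≠ 0) : Y (Hv j) = Matrix.single 0 j 1 + Matrix.single j 0 1 := by
  refine Y_lift 0 ?_ ?_
  · rw [transpose_add, transpose_single, transpose_single, add_comm]
  · rw [trace_add, trace_single_eq_of_ne _ _ _ hj.symm, trace_single_eq_of_ne _ _ _ hj, add_zero]

theorem Y_Dv (j : Fin 4) : Y (Dv j) = Matrix.single 0 0 1 - Matrix.single j j 1 := by
  refine Y_lift 0 ?_ ?_
  · rw [transpose_sub, transpose_single, transpose_single]
  · rw [trace_sub, trace_single_eq_same, trace_single_eq_same, sub_self]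

theorem Y_H0 : Y H0 = diagonal ![3, -1, -1, -1] := by
  refine Y_lift 0 (diagonal_transpose _) ?_
  rw [trace_diagonal, Fin.sum_univ_four]
  simp
  norm_num

theorem sum_Dv : Dv 1 + Dv 2 + Dv 3 = H0 := by
  refine ext_Y (by simp [Dv, H0]) ?_
  rw [Y_add, Y_add, Y_Dv, Y_Dv, Y_Dv, Y_H0]
  ext i j
  fin_cases i <;> fin_cases j <;> simp [Matrix.single] <;> norm_num

theorem norm_H0_sq : ‖H0‖ ^ 2 = 12 := by
  rw [← real_inner_self_eq_norm_sq, inner_eq, Y_H0, diagonal_mul_diagonal, trace_diagonal,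
    Fin.sum_univ_four]
  simp [H0]
  norm_num

theorem om_pos : ∃ x : Eu 10, ‖x‖ = 1 ∧ 0 < om x := by
  have hn : 0 < ‖H0‖ := by
    rcases (norm_nonneg H0).lt_or_eq with h | h
    · exact h
    · have := norm_H0_sq
      rw [← h] at this
      norm_num at this
  refine ⟨‖H0‖⁻¹ • H0, by rw [norm_smul, norm_inv, norm_norm, inv_mul_cancel₀ hn.ne'], ?_⟩
  have hY : Y (‖H0‖⁻¹ • H0) = Matrix.diagonal (‖H0‖⁻¹ • (![3, -1, -1, -1] : Fin 4 → ℝ)) := by
    rw [Y_smul, Y_H0, Matrix.diagonal_smul]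
  rw [om_diag hY]
  have hc : 0 < ‖H0‖⁻¹ := inv_pos.2 hn
  generalize ‖H0‖⁻¹ = c at hc
  have h2 : c * 3 + -c = 2 * c := by ring
  simp [h2]
  positivity

/-- infinitesimal invariance under a rotation -/
theorem fderiv_rot {f : Eu 10 → ℝ} (hi : Inv GG f) {A P : Matrix (Fin 4) (Fin 4) ℝ}
    (hA : Aᵀ = -A) (hP : Pᵀ = P) (hAA : A * A = -P) (hPP : P * P = P) (hAP : A * P = A)
    (hPA : P * A = A) {z : Eu 10} (hz : DifferentiableAt ℝ f z) :
    fderiv ℝ f z (liftL (A * Y z - Y z * A)) = 0 := by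
  let O : ℝ → Matrix (Fin 4) (Fin 4) ℝ := fun t => 1 + Real.sin t • A + (Real.cos t - 1) • P
  have hOt : ∀ t, (O t)ᵀ = 1 - Real.sin t • A + (Real.cos t - 1) • P := by
    intro t
    simp only [O, transpose_add, transpose_smul, transpose_one, hA, hP, smul_neg, sub_eq_add_neg]
  have hO : ∀ t, O t * (O t)ᵀ = 1 := by
    intro t
    have h1 := Real.sin_sq_add_cos_sq t
    have h2 : Real.sin t * Real.sin t + (Real.cos t - 1) + (Real.cos t - 1)
        + (Real.cos t - 1) * (Real.cos t - 1) = 0 := by nlinarith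
    rw [hOt]
    simp only [O, Matrix.mul_add, Matrix.add_mul, Matrix.mul_sub, Matrix.one_mul, Matrix.mul_one,
      Matrix.smul_mul, Matrix.mul_smul, hAA, hPP, hAP, hPA]
    have : (Real.sin t * Real.sin t + (Real.cos t - 1) + (Real.cos t - 1)
        + (Real.cos t - 1) * (Real.cos t - 1)) • P = 0 := by rw [h2, zero_smul]
    linear_combination (norm := module) this
  let γ : ℝ → Eu 10 := fun t => z + Real.sin t • liftL (A * Y z - Y z * A)
    + (Real.cos t - 1) • liftL (P * Y z + Y z * P)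
    + (Real.sin t * Real.sin t) • liftL (-(A * Y z * A))
    + (Real.sin t * (Real.cos t - 1)) • liftL (A * Y z * P - P * Y z * A)
    + ((Real.cos t - 1) * (Real.cos t - 1)) • liftL (P * Y z * P)
  have hγ : ∀ t, γ t = lift (z 0) (O t * Y z * (O t)ᵀ) := by
    intro t
    have hz' : z = z 0 • e0 + liftL (Y z) := by rw [← lift_eq, lift_Y]
    have hm : O t * Y z * (O t)ᵀ = Y z + Real.sin t • (A * Y z - Y z * A)
        + (Real.cos t - 1) • (P * Y z + Y z * P)
        + (Real.sin t * Real.sin t) • (-(A * Y z * A))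
        + (Real.sin t * (Real.cos t - 1)) • (A * Y z * P - P * Y z * A)
        + ((Real.cos t - 1) * (Real.cos t - 1)) • (P * Y z * P) := by
      rw [hOt]
      simp only [O, Matrix.mul_add, Matrix.add_mul, Matrix.mul_sub, Matrix.one_mul,
        Matrix.mul_one, Matrix.smul_mul, Matrix.mul_smul]
      module
    rw [lift_eq, hm]
    simp only [map_add, map_smul, γ]
    conv_lhs => rw [hz']
    simp only [add_assoc]
    rw [← hz']
  have hconst : (fun t => f (γ t)) = fun _ => f z := by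
    funext t
    obtain ⟨g, hg, h⟩ := exists_mem_GG (hO t) (σ := 1) (Or.inl rfl)
    have : γ t = g z := by
      rw [hγ]
      exact ext_Y (by rw [(h z).2, one_mul]; rfl) (by rw [Y_conj (hO t), (h z).1])
    rw [this, hi g hg]
  have hs : HasDerivAt Real.sin 1 0 := by simpa using Real.hasDerivAt_sin 0
  have hc : HasDerivAt (fun t => Real.cos t - 1) 0 0 := by
    simpa using (Real.hasDerivAt_cos 0).sub_const 1
  have hd : HasDerivAt γ (liftL (A * Y z - Y z * A)) 0 := by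
    have := ((((((hasDerivAt_const (0 : ℝ) z).add (hs.smul_const (liftL (A * Y z - Y z * A)))).add
      (hc.smul_const (liftL (P * Y z + Y z * P)))).add
      ((hs.mul hs).smul_const (liftL (-(A * Y z * A))))).add
      ((hs.mul hc).smul_const (liftL (A * Y z * P - P * Y z * A)))).add
      ((hc.mul hc).smul_const (liftL (P * Y z * P))))
    exact (this.congr_deriv (by simp)).congr_of_eventuallyEq (Eventually.of_forall fun _ => rfl)
  have h0 : γ 0 = z := by simp [γ]
  have hz0 : HasFDerivAt f (fderiv ℝ f z) (γ 0) := by rw [h0]; exact hz.hasFDerivAt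
  have h1 := hz0.comp_hasDerivAt (0 : ℝ) hd
  have h2 : HasDerivAt (f ∘ γ) 0 0 := by
    have : f ∘ γ = fun _ => f z := hconst
    rw [this]
    exact hasDerivAt_const _ _
  exact h1.unique h2

/-- off-diagonal Hessian entries of an invariant function at a diagonal point -/
theorem offdiag_hess {f : Eu 10 → ℝ} (hf : ContDiffOn ℝ 2 f {0}ᶜ) (hi : Inv GG f) {x : Eu 10}
    (hx : x ≠ 0) {a : Fin 4 → ℝ} (ha : Y x = diagonal a) {j : Fin 4} (hj : j ≠ 0) :
    (a 0 - a j) * D2 f x (Hv j) (Hv j) = 2 * fderiv ℝ f x (Dv j) := by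
  let A : Matrix (Fin 4) (Fin 4) ℝ := Matrix.single 0 j 1 - Matrix.single j 0 1
  let P : Matrix (Fin 4) (Fin 4) ℝ := Matrix.single 0 0 1 + Matrix.single j j 1
  have hA : Aᵀ = -A := by simp only [A, transpose_sub, transpose_single, neg_sub]
  have hP : Pᵀ = P := by simp only [P, transpose_add, transpose_single]
  have hAA : A * A = -P := by
    simp [A, P, Matrix.mul_sub, Matrix.sub_mul, single_mul_single_of_ne, hj, hj.symm]
    abel
  have hPP : P * P = P := by
    simp [P, Matrix.mul_add, Matrix.add_mul, single_mul_single_of_ne, hj, hj.symm]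
  have hAP : A * P = A := by
    simp [A, P, Matrix.mul_add, Matrix.sub_mul, single_mul_single_of_ne, hj, hj.symm]
    abel
  have hPA : P * A = A := by
    simp [A, P, Matrix.mul_sub, Matrix.add_mul, single_mul_single_of_ne, hj, hj.symm]
  let aL : Eu 10 →ₗ[ℝ] Eu 10 :=
    liftL ∘ₗ (LinearMap.mulLeft ℝ A - LinearMap.mulRight ℝ A) ∘ₗ YL
  have haL : ∀ z, aL z = liftL (A * Y z - Y z * A) := fun z => rfl
  let aC : Eu 10 →L[ℝ] Eu 10 := LinearMap.toContinuousLinearMap aL
  have haC : ∀ z, aC z = liftL (A * Y z - Y z * A) := fun z => rfl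
  have hopen : IsOpen ({0}ᶜ : Set (Eu 10)) := isOpen_compl_singleton
  have hzero : (fun z => fderiv ℝ f z (aC z)) =ᶠ[𝓝 x] fun _ => 0 := by
    filter_upwards [hopen.mem_nhds hx] with z hz
    rw [haC]
    exact fderiv_rot hi hA hP hAA hPP hAP hPA
      ((hf.contDiffAt (hopen.mem_nhds hz)).differentiableAt (by norm_num))
  have hf2 : DifferentiableAt ℝ (fderiv ℝ f) x :=
    ((hf.contDiffAt (hopen.mem_nhds hx)).fderiv_right (m := 1) (by norm_num)).differentiableAt
      (by norm_num)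
  have h1 := hf2.hasFDerivAt.clm_apply aC.hasFDerivAt (x := x)
  have h2 : HasFDerivAt (fun z => fderiv ℝ f z (aC z)) (0 : Eu 10 →L[ℝ] ℝ) x :=
    (hasFDerivAt_const (0 : ℝ) x).congr_of_eventuallyEq hzero
  have h3 := congrArg (fun L : Eu 10 →L[ℝ] ℝ => L (Hv j)) (h1.unique h2)
  have hax : aC x = (a j - a 0) • Hv j := by
    rw [haC, ha, Hv, ← liftL_apply, ← map_smul]
    congr 1
    ext k l
    simp only [A, Matrix.sub_apply, mul_diagonal, diagonal_mul, Matrix.smul_apply,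
      Matrix.add_apply, Matrix.single, Matrix.of_apply, smul_eq_mul]
    by_cases h1 : 0 = k ∧ j = l
    · obtain ⟨rfl, rfl⟩ := h1
      simp [hj]
    · by_cases h2 : j = k ∧ 0 = l
      · obtain ⟨rfl, rfl⟩ := h2
        simp [hj, hj.symm]
        ring
      · simp [h1, h2]
  have haH : aC (Hv j) = (2 : ℝ) • Dv j := by
    rw [haC, Y_Hv hj, Dv, ← liftL_apply, ← map_smul]
    congr 1
    simp [A, Matrix.mul_add, Matrix.add_mul, Matrix.mul_sub, Matrix.sub_mul,
      single_mul_single_of_ne, hj, hj.symm]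
    module
  have h4 : fderiv ℝ f x (aC (Hv j)) + fderiv ℝ (fderiv ℝ f) x (Hv j) (aC x) = 0 := h3
  rw [hax, haH, map_smul, map_smul, smul_eq_mul, smul_eq_mul] at h4
  change (a 0 - a j) * fderiv ℝ (fderiv ℝ f) x (Hv j) (Hv j) = _
  linarith

end Pool.Agent.P.MP_4a4b50_gt.CE
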