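import Pool.Agent.P.MP_4a4b50_gt.CDefs

set_option autoImplicit false

namespace Pool.Agent.P.MP_4a4b50_gt.CE

open scoped ContDiff Topology
open Pool.Agent.P.MP_f97e06_gt (Eu)
open Matrix Set Filter

variable {n : ℕ}

open scoped MatrixOrder in
theorem cm_factor {A : Matrix (Fin n) (Fin n) ℝ} (hA : A.PosSemidef) :
    ∃ T : Matrix (Fin n) (Fin n) ℝ, A = Tᴴ * T := by
  obtain ⟨B, hB⟩ := CStarAlgebra.nonneg_iff_eq_star_mul_self.mp hA.nonneg
  exact ⟨B, hB⟩

theorem cm_symm {A : Matrix (Fin n) (Fin n) ℝ} (hA : A.IsHermitian) (u v : Fin n → ℝ) :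
    u ⬝ᵥ A *ᵥ v = v ⬝ᵥ A *ᵥ u := by
  have h : Aᵀ = A := by
    have := hA.eq
    rwa [conjTranspose_eq_transpose_of_trivial] at this
  rw [dotProduct_mulVec, ← h, vecMul_transpose, dotProduct_comm, h]

theorem cm_nonneg {A : Matrix (Fin n) (Fin n) ℝ} (hA : A.PosSemidef) (v : Fin n → ℝ) :
    0 ≤ v ⬝ᵥ A *ᵥ v := by
  simpa using hA.dotProduct_mulVec_nonneg v

theorem cm_pos {A : Matrix (Fin n) (Fin n) ℝ} (hA : A.PosDef) {v : Fin n → ℝ} (hv : v ≠ 0) :
    0 < v ⬝ᵥ A *ᵥ v := by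
  simpa using hA.dotProduct_mulVec_pos hv

theorem cm_mul_inv {A : Matrix (Fin n) (Fin n) ℝ} (hA : A.PosDef) : A * A⁻¹ = 1 :=
  Matrix.mul_nonsing_inv A (Ne.isUnit hA.det_pos.ne')

theorem cm_inv_mul {A : Matrix (Fin n) (Fin n) ℝ} (hA : A.PosDef) : A⁻¹ * A = 1 :=
  Matrix.nonsing_inv_mul A (Ne.isUnit hA.det_pos.ne')

theorem cm_det_le_exp_one {B : Matrix (Fin n) (Fin n) ℝ} (hB : B.PosSemidef) :
    B.det ≤ Real.exp (B.trace - n) := by
  rw [hB.1.det_eq_prod_eigenvalues, hB.1.trace_eq_sum_eigenvalues]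
  have h1 : (∑ i, hB.1.eigenvalues i) - (n : ℝ) = ∑ i, (hB.1.eigenvalues i - 1) := by
    simp [Finset.sum_sub_distrib]
  simp only [RCLike.ofReal_real_eq_id, id]
  rw [h1, Real.exp_sum]
  refine Finset.prod_le_prod (fun i _ => hB.eigenvalues_nonneg i) fun i _ => ?_
  have := Real.add_one_le_exp (hB.1.eigenvalues i - 1)
  linarith

theorem det_le_exp {A B : Matrix (Fin n) (Fin n) ℝ} (hA : A.PosDef) (hB : B.PosDef) :
    B.det ≤ A.det * Real.exp ((A⁻¹ * (B - A)).trace) := by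
  obtain ⟨T, hT⟩ := cm_factor hA.inv.posSemidef
  have h1 : (T * B * Tᴴ).PosSemidef := hB.posSemidef.mul_mul_conjTranspose_same T
  have h2 := cm_det_le_exp_one h1
  have h3 : (T * B * Tᴴ).trace = (A⁻¹ * B).trace := by
    rw [Matrix.trace_mul_comm, ← Matrix.mul_assoc, ← hT]
  have h4 : (T * B * Tᴴ).det = (A⁻¹).det * B.det := by
    rw [hT]
    simp only [Matrix.det_mul]
    ring
  have h5 : (A⁻¹ * (B - A)).trace = (A⁻¹ * B).trace - n := by
    rw [Matrix.mul_sub, cm_inv_mul hA, Matrix.trace_sub, Matrix.trace_one]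
    simp
  have h6 : A.det * (A⁻¹).det = 1 := by
    rw [← Matrix.det_mul, cm_mul_inv hA, Matrix.det_one]
  rw [h3, h4] at h2
  rw [h5]
  calc B.det = A.det * ((A⁻¹).det * B.det) := by rw [← mul_assoc, h6, one_mul]
    _ ≤ _ := mul_le_mul_of_nonneg_left h2 hA.det_pos.le

theorem trace_inv_mul_nonneg {A P : Matrix (Fin n) (Fin n) ℝ} (hA : A.PosDef)
    (hP : P.PosSemidef) : 0 ≤ (A⁻¹ * P).trace := by
  obtain ⟨T, hT⟩ := cm_factor hA.inv.posSemidef
  have h1 : (T * P * Tᴴ).PosSemidef := hP.mul_mul_conjTranspose_same T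
  have h3 : (T * P * Tᴴ).trace = (A⁻¹ * P).trace := by
    rw [Matrix.trace_mul_comm, ← Matrix.mul_assoc, ← hT]
  rw [← h3]
  exact h1.trace_nonneg

theorem cm_trace_vecMulVec (M : Matrix (Fin n) (Fin n) ℝ) (z : Fin n → ℝ) :
    (M * vecMulVec z z).trace = z ⬝ᵥ M *ᵥ z := by
  simp only [Matrix.trace, Matrix.diag, Matrix.mul_apply, vecMulVec_apply, dotProduct, mulVec,
    Finset.mul_sum]
  refine Finset.sum_congr rfl fun i _ => Finset.sum_congr rfl fun j _ => ?_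
  ring

theorem cm_form_vecMulVec (z w : Fin n → ℝ) :
    w ⬝ᵥ (vecMulVec z z) *ᵥ w = (z ⬝ᵥ w) ^ 2 := by
  simp only [vecMulVec_apply, dotProduct, mulVec, Finset.mul_sum, sq, Finset.sum_mul]
  refine Finset.sum_congr rfl fun i _ => Finset.sum_congr rfl fun j _ => ?_
  ring

theorem cm_herm_vecMulVec (z : Fin n → ℝ) : (vecMulVec z z).IsHermitian := by
  ext i j
  simp [vecMulVec_apply, mul_comm]

theorem trace_le_rank {A P : Matrix (Fin n) (Fin n) ℝ} (hA : A.PosDef) {c : ℝ}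
    (hc : (A - c • P).PosSemidef) {u v : Fin n → ℝ} (hu : u ≠ 0) (hv : v ≠ 0)
    (huv : u ⬝ᵥ A *ᵥ v = 0) (hPu : P *ᵥ u = 0) (hPv : P *ᵥ v = 0) :
    c * (A⁻¹ * P).trace ≤ (n : ℝ) - 2 := by
  have hau := cm_pos hA hu
  have hav := cm_pos hA hv
  set a := u ⬝ᵥ A *ᵥ u with ha
  set b := v ⬝ᵥ A *ᵥ v with hb
  set Q := A - c • P with hQ
  have hQu : Q *ᵥ u = A *ᵥ u := by rw [hQ, sub_mulVec, smul_mulVec, hPu]; simp
  have hQv : Q *ᵥ v = A *ᵥ v := by rw [hQ, sub_mulVec, smul_mulVec, hPv]; simp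
  have hvu : v ⬝ᵥ A *ᵥ u = 0 := by rw [cm_symm hA.1, huv]
  have hW : (Q - a⁻¹ • vecMulVec (A *ᵥ u) (A *ᵥ u)
      - b⁻¹ • vecMulVec (A *ᵥ v) (A *ᵥ v)).PosSemidef := by
    refine PosSemidef.of_dotProduct_mulVec_nonneg ?_ fun z => ?_
    · exact (hc.1.sub ((cm_herm_vecMulVec _).smul (IsSelfAdjoint.all _))).sub
        ((cm_herm_vecMulVec _).smul (IsSelfAdjoint.all _))
    · set p := z ⬝ᵥ A *ᵥ u with hp
      set q := z ⬝ᵥ A *ᵥ v with hq
      have h0 := cm_nonneg hc (z - (p / a) • u - (q / b) • v)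
      have e1 : u ⬝ᵥ Q *ᵥ z = p := by rw [cm_symm hc.1, hQu]
      have e2 : v ⬝ᵥ Q *ᵥ z = q := by rw [cm_symm hc.1, hQv]
      simp only [mulVec_sub, mulVec_smul, hQu, hQv, dotProduct_sub, sub_dotProduct,
        dotProduct_smul, smul_dotProduct, smul_eq_mul, e1, e2, huv, hvu, ← ha, ← hb, ← hp,
        ← hq] at h0
      simp only [star_trivial, sub_mulVec, smul_mulVec, dotProduct_sub, dotProduct_smul,
        cm_form_vecMulVec, smul_eq_mul]
      rw [dotProduct_comm (A *ᵥ u) z, dotProduct_comm (A *ᵥ v) z, ← hp, ← hq]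
      refine le_of_le_of_eq h0 ?_
      field_simp
      ring
  have h1 := trace_inv_mul_nonneg hA hW
  have eu : (A *ᵥ u) ⬝ᵥ A⁻¹ *ᵥ (A *ᵥ u) = a := by
    rw [mulVec_mulVec, cm_inv_mul hA, one_mulVec, dotProduct_comm]
  have ev : (A *ᵥ v) ⬝ᵥ A⁻¹ *ᵥ (A *ᵥ v) = b := by
    rw [mulVec_mulVec, cm_inv_mul hA, one_mulVec, dotProduct_comm]
  simp only [hQ, Matrix.mul_sub, Matrix.mul_smul, Matrix.trace_sub, Matrix.trace_smul,
    cm_trace_vecMulVec, eu, ev, cm_inv_mul hA, Matrix.trace_one, smul_eq_mul, Fintype.card_fin]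
    at h1
  rw [inv_mul_cancel₀ hau.ne', inv_mul_cancel₀ hav.ne'] at h1
  linarith

theorem trace_inv_vecMulVec (A : Matrix (Fin n) (Fin n) ℝ) (z : Fin n → ℝ) :
    (A⁻¹ * vecMulVec z z).trace = z ⬝ᵥ A⁻¹ *ᵥ z :=
  cm_trace_vecMulVec _ z

theorem inv_form_lower {A : Matrix (Fin n) (Fin n) ℝ} (hA : A.PosDef) (z v : Fin n → ℝ) :
    2 * (z ⬝ᵥ v) - v ⬝ᵥ A *ᵥ v ≤ z ⬝ᵥ A⁻¹ *ᵥ z := by
  have h0 := cm_nonneg hA.posSemidef (v - A⁻¹ *ᵥ z)
  have e1 : A *ᵥ (A⁻¹ *ᵥ z) = z := by rw [mulVec_mulVec, cm_mul_inv hA, one_mulVec]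
  have e2 : (A⁻¹ *ᵥ z) ⬝ᵥ A *ᵥ v = z ⬝ᵥ v := by
    rw [cm_symm hA.1, e1, dotProduct_comm]
  simp only [mulVec_sub, dotProduct_sub, sub_dotProduct, e1, e2] at h0
  rw [dotProduct_comm v z, dotProduct_comm (A⁻¹ *ᵥ z) z] at h0
  linarith

theorem inv_form_upper {A : Matrix (Fin n) (Fin n) ℝ} (hA : A.PosDef) (z : Fin n → ℝ) {c : ℝ}
    (hc : 0 ≤ c) (h : ∀ v, (z ⬝ᵥ v) ^ 2 ≤ c * (v ⬝ᵥ A *ᵥ v)) : z ⬝ᵥ A⁻¹ *ᵥ z ≤ c := by
  have h0 := h (A⁻¹ *ᵥ z)
  have e1 : A *ᵥ (A⁻¹ *ᵥ z) = z := by rw [mulVec_mulVec, cm_mul_inv hA, one_mulVec]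
  rw [e1, dotProduct_comm (A⁻¹ *ᵥ z) z] at h0
  by_contra hcon
  push Not at hcon
  nlinarith

theorem Eop_neg {X Y D : Matrix (Fin n) (Fin n) ℝ} (hX : X.PosDef) (hY : Y.PosDef)
    (hXD : (X + D).PosDef) (hYD : (Y - D).PosDef) (h : Eop X Y D < 0) :
    ((X + D)⁻¹ * D).trace + (Y⁻¹ * D).trace < 0 := by
  have h1 := det_le_exp hXD hX
  have h2 := det_le_exp hY hYD
  have e1 : X - (X + D) = -D := by abel
  have e2 : Y - D - Y = -D := by abel
  rw [e1, Matrix.mul_neg, Matrix.trace_neg] at h1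
  rw [e2, Matrix.mul_neg, Matrix.trace_neg] at h2
  by_contra hcon
  push Not at hcon
  set s := ((X + D)⁻¹ * D).trace
  set t := (Y⁻¹ * D).trace
  have h3 : (Y - D).det * X.det ≤ (Y.det * Real.exp (-t)) * ((X + D).det * Real.exp (-s)) :=
    mul_le_mul h2 h1 hX.det_pos.le (mul_pos hY.det_pos (Real.exp_pos _)).le
  have h4 : Real.exp (-t) * Real.exp (-s) ≤ 1 := by
    rw [← Real.exp_add, Real.exp_le_one_iff]
    linarith
  have h5 : 0 < (X + D).det * Y.det := mul_pos hXD.det_pos hY.det_pos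
  unfold Eop at h
  nlinarith

theorem cm_posDef_of_sub {A : Matrix (Fin n) (Fin n) ℝ} {l : ℝ} (hl : 0 < l)
    (h : (A - l • (1 : Matrix (Fin n) (Fin n) ℝ)).PosSemidef) : A.PosDef := by
  have h1 : (l • (1 : Matrix (Fin n) (Fin n) ℝ)).PosDef := PosDef.one.smul hl
  have := h1.add_posSemidef h
  simpa using this

theorem cm_trace_inv_le {A : Matrix (Fin n) (Fin n) ℝ} {l : ℝ} (hl : 0 < l)
    (h : (A - l • (1 : Matrix (Fin n) (Fin n) ℝ)).PosSemidef) : (A⁻¹).trace ≤ n / l := by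
  have hA := cm_posDef_of_sub hl h
  have h1 := trace_inv_mul_nonneg hA h
  simp only [Matrix.mul_sub, Matrix.mul_smul, Matrix.trace_sub, Matrix.trace_smul,
    cm_inv_mul hA, Matrix.trace_one, smul_eq_mul, Fintype.card_fin, Matrix.mul_one] at h1
  rw [le_div_iff₀ hl]
  linarith

theorem cm_det_le {A : Matrix (Fin n) (Fin n) ℝ} {R : ℝ} (h : ∀ i j, |A i j| ≤ R) :
    |A.det| ≤ (n.factorial : ℝ) * R ^ n := by
  have := Matrix.det_le (A := A) (abv := AbsoluteValue.abs) (x := R) h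
  simpa using this

/-- one-sided comparison of determinants -/
theorem cm_det_cmp {A B : Matrix (Fin n) (Fin n) ℝ} {l m K : ℝ} (hl : 0 < l)
    (hA : (A - l • (1 : Matrix (Fin n) (Fin n) ℝ)).PosSemidef) (hB : B.PosDef)
    (hm : 0 ≤ m) (hAK : A.det ≤ K) (hBK : B.det ≤ K)
    (h : (A + m • (1 : Matrix (Fin n) (Fin n) ℝ) - B).PosSemidef) :
    B.det ≤ A.det + K * (1 + n / l * Real.exp (n / l)) * m := by
  have hA' := cm_posDef_of_sub hl hA
  have hK : 0 ≤ K := hA'.det_pos.le.trans hAK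
  have hy : (0 : ℝ) ≤ n / l := by positivity
  have hE : 0 ≤ n / l * Real.exp (n / l) := by positivity
  rcases le_total 1 m with h1 | h1
  · have h2 : K ≤ K * (1 + n / l * Real.exp (n / l)) * m := by
      have : 1 ≤ (1 + n / l * Real.exp (n / l)) * m := by nlinarith
      nlinarith
    linarith [hA'.det_pos]
  · have h2 := det_le_exp hA' hB
    have h3 := trace_inv_mul_nonneg hA' h
    have e : A + m • (1 : Matrix (Fin n) (Fin n) ℝ) - B = m • 1 - (B - A) := by abel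
    rw [e, Matrix.mul_sub, Matrix.mul_smul, Matrix.mul_one, Matrix.trace_sub,
      Matrix.trace_smul, smul_eq_mul] at h3
    have h4 := cm_trace_inv_le hl hA
    have h5 : (A⁻¹ * (B - A)).trace ≤ m * (n / l) := by nlinarith
    have h6 : Real.exp (m * (n / l)) ≤ 1 + m * (n / l) * Real.exp (n / l) := by
      have h7 := Real.add_one_le_exp (-(m * (n / l)))
      have h8 : Real.exp (m * (n / l)) * Real.exp (-(m * (n / l))) = 1 := by
        rw [← Real.exp_add]; simp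
      have h9 : Real.exp (m * (n / l)) ≤ Real.exp (n / l) := by
        apply Real.exp_le_exp.2; nlinarith
      have h10 : 0 ≤ m * (n / l) := by positivity
      have h11 := Real.exp_pos (m * (n / l))
      nlinarith
    have h7 : Real.exp ((A⁻¹ * (B - A)).trace) ≤ 1 + m * (n / l) * Real.exp (n / l) :=
      (Real.exp_le_exp.2 h5).trans h6
    have h8 := mul_le_mul_of_nonneg_left h7 hA'.det_pos.le
    have h9 : A.det * (m * (n / l) * Real.exp (n / l)) ≤ K * (m * (n / l) * Real.exp (n / l)) :=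
      mul_le_mul_of_nonneg_right hAK (by positivity)
    have h10 : 0 ≤ K * m := by positivity
    nlinarith

theorem Eop_compare (n : ℕ) {l : ℝ} (hl : 0 < l) (R : ℝ) : ∃ C : ℝ, 0 ≤ C ∧
    ∀ X Y D₁ D₂ : Matrix (Fin n) (Fin n) ℝ, X.PosDef → Y.PosDef →
      (X + D₁ - l • (1 : Matrix (Fin n) (Fin n) ℝ)).PosSemidef →
      (X + D₂ - l • (1 : Matrix (Fin n) (Fin n) ℝ)).PosSemidef →
      (Y - D₁ - l • (1 : Matrix (Fin n) (Fin n) ℝ)).PosSemidef →
      (Y - D₂ - l • (1 : Matrix (Fin n) (Fin n) ℝ)).PosSemidef →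
      (∀ i j, |X i j| ≤ R) → (∀ i j, |Y i j| ≤ R) → (∀ i j, |D₁ i j| ≤ R) → (∀ i j, |D₂ i j| ≤ R) →
      ∀ m : ℝ, 0 ≤ m → (D₂ + m • (1 : Matrix (Fin n) (Fin n) ℝ) - D₁).PosSemidef →
      Eop X Y D₁ ≤ Eop X Y D₂ + C * m := by
  set K : ℝ := (n.factorial : ℝ) * (2 * |R|) ^ n with hK
  have hK0 : 0 ≤ K := by positivity
  set c : ℝ := K * (1 + n / l * Real.exp (n / l)) with hc
  have hc0 : 0 ≤ c := by positivity
  refine ⟨2 * (c * K), by positivity, ?_⟩
  intro X Y D₁ D₂ hX hY h1 h2 h3 h4 bX bY b1 b2 m hm hD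
  have hR := le_abs_self R
  have hR0 := abs_nonneg R
  have hadd : ∀ U V : Matrix (Fin n) (Fin n) ℝ, (∀ i j, |U i j| ≤ R) → (∀ i j, |V i j| ≤ R) →
      (U + V).det ≤ K := fun U V hU hV =>
    (le_abs_self _).trans (cm_det_le fun i j => by
      have := abs_add_le (U i j) (V i j)
      have := hU i j
      have := hV i j
      simp only [Matrix.add_apply]
      linarith)
  have hsub : ∀ U V : Matrix (Fin n) (Fin n) ℝ, (∀ i j, |U i j| ≤ R) → (∀ i j, |V i j| ≤ R) →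
      (U - V).det ≤ K := fun U V hU hV =>
    (le_abs_self _).trans (cm_det_le fun i j => by
      have := abs_sub (U i j) (V i j)
      have := hU i j
      have := hV i j
      simp only [Matrix.sub_apply]
      linarith)
  have hone : ∀ U : Matrix (Fin n) (Fin n) ℝ, (∀ i j, |U i j| ≤ R) → U.det ≤ K := fun U hU =>
    (le_abs_self _).trans (cm_det_le fun i j => by
      have := hU i j
      linarith)
  have k1 : (X + D₁).det ≤ (X + D₂).det + c * m := by
    refine cm_det_cmp hl h2 (cm_posDef_of_sub hl h1) hm (hadd _ _ bX b2) (hadd _ _ bX b1) ?_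
    have e : X + D₂ + m • (1 : Matrix (Fin n) (Fin n) ℝ) - (X + D₁) = D₂ + m • 1 - D₁ := by abel
    rw [e]; exact hD
  have k2 : (Y - D₂).det ≤ (Y - D₁).det + c * m := by
    refine cm_det_cmp hl h3 (cm_posDef_of_sub hl h4) hm (hsub _ _ bY b1) (hsub _ _ bY b2) ?_
    have e : Y - D₁ + m • (1 : Matrix (Fin n) (Fin n) ℝ) - (Y - D₂) = D₂ + m • 1 - D₁ := by abel
    rw [e]; exact hD
  have k3 := mul_le_mul_of_nonneg_right k1 hY.det_pos.le
  have k4 := mul_le_mul_of_nonneg_right k2 hX.det_pos.le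
  have hcm : 0 ≤ c * m := by positivity
  have k5 := mul_le_mul_of_nonneg_left (hone Y bY) hcm
  have k6 := mul_le_mul_of_nonneg_left (hone X bX) hcm
  unfold Eop
  nlinarith

/-- a symmetric matrix with small entries is dominated by a multiple of the identity -/
theorem posSemidef_add_of_small {D : Matrix (Fin n) (Fin n) ℝ} (hD : Dᵀ = D) {δ : ℝ}
    (h : ∀ i j, |D i j| ≤ δ) :
    (D + ((n : ℝ) * δ) • (1 : Matrix (Fin n) (Fin n) ℝ)).PosSemidef := by
  refine PosSemidef.of_dotProduct_mulVec_nonneg ?_ fun z => ?_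
  · refine IsHermitian.add ?_ (isHermitian_one.smul (IsSelfAdjoint.all _))
    unfold Matrix.IsHermitian
    rw [conjTranspose_eq_transpose_of_trivial, hD]
  · simp only [star_trivial, add_mulVec, smul_mulVec, one_mulVec, dotProduct_add,
      dotProduct_smul, smul_eq_mul]
    have h1 : z ⬝ᵥ D *ᵥ z = ∑ i, ∑ j, z i * (D i j * z j) := by
      simp only [dotProduct, mulVec, Finset.mul_sum]
    have h2 : (n : ℝ) * δ * (z ⬝ᵥ z) = ∑ i, ∑ j, δ * ((z i * z i + z j * z j) / 2) := by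
      simp only [dotProduct, add_div, mul_add, Finset.sum_add_distrib, Finset.sum_const,
        Finset.card_univ, Fintype.card_fin, nsmul_eq_mul, ← Finset.mul_sum, ← Finset.sum_div]
      ring
    rw [h1, h2, ← Finset.sum_add_distrib]
    refine Finset.sum_nonneg fun i _ => ?_
    rw [← Finset.sum_add_distrib]
    refine Finset.sum_nonneg fun j _ => ?_
    obtain ⟨h3, h4⟩ := abs_le.1 (h i j)
    have h5 := mul_nonneg (sub_nonneg.2 h4) (sq_nonneg (z i - z j))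
    have h6 := mul_nonneg (show 0 ≤ δ + D i j by linarith) (sq_nonneg (z i + z j))
    nlinarith

theorem cm_hasDerivAt_det (X D : Matrix (Fin n) (Fin n) ℝ) :
    HasDerivAt (fun r : ℝ => (X + r • D).det) (∑ k, ∑ j, X.adjugate j k * D k j) 0 := by
  have h1 : ∀ c, ∑ b, X.adjugate c b * D b c = (X.updateCol c fun b => D b c).det := by
    intro c
    rw [← Matrix.cramer_apply, Matrix.cramer_eq_adjugate_mulVec]
    rfl
  rw [Finset.sum_comm]
  simp only [h1, Matrix.det_apply']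
  rw [Finset.sum_comm]
  refine HasDerivAt.fun_sum fun σ _ => ?_
  rw [← Finset.mul_sum]
  refine HasDerivAt.const_mul _ ?_
  have h2 : ∀ i ∈ (Finset.univ : Finset (Fin n)),
      HasDerivAt (fun r : ℝ => (X + r • D) (σ i) i) (D (σ i) i) 0 := by
    intro i _
    simpa using ((hasDerivAt_id (0 : ℝ)).mul_const (D (σ i) i)).const_add (X (σ i) i)
  have h3 := HasDerivAt.fun_finsetProd h2
  convert h3 using 1
  refine Finset.sum_congr rfl fun c _ => ?_
  rw [← Finset.mul_prod_erase Finset.univ _ (Finset.mem_univ c), Matrix.updateCol_self,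
    smul_eq_mul, mul_comm]
  congr 1
  refine Finset.prod_congr rfl fun j hj => ?_
  rw [Matrix.updateCol_ne (Finset.ne_of_mem_erase hj)]
  simp

/-- derivative of the equation at `D = 0` -/
theorem hasDerivAt_Eop (X Y D : Matrix (Fin n) (Fin n) ℝ) :
    HasDerivAt (fun r : ℝ => Eop X Y (r • D))
      (∑ k, ∑ j, (X.adjugate j k * Y.det + Y.adjugate j k * X.det) * D k j) 0 := by
  have h1 := (cm_hasDerivAt_det X D).mul_const Y.det
  have h2 := (cm_hasDerivAt_det Y (-D)).mul_const X.det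
  have h3 := h1.fun_sub h2
  have e1 : (fun r : ℝ => Eop X Y (r • D)) =
      fun y : ℝ => (X + y • D).det * Y.det - (Y + y • -D).det * X.det := by
    funext r
    simp [Eop, sub_eq_add_neg]
  have e2 : (∑ k, ∑ j, (X.adjugate j k * Y.det + Y.adjugate j k * X.det) * D k j) =
      (∑ k, ∑ j, X.adjugate j k * D k j) * Y.det
        - (∑ k, ∑ j, Y.adjugate j k * (-D) k j) * X.det := by
    simp only [Finset.sum_mul, ← Finset.sum_sub_distrib, Matrix.neg_apply]
    refine Finset.sum_congr rfl fun k _ => Finset.sum_congr rfl fun j _ => ?_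
    ring
  rw [e1, e2]
  exact h3

theorem cm_posDef_adj {X : Matrix (Fin n) (Fin n) ℝ} (hX : X.PosDef) : X.adjugate.PosDef := by
  have h : X.adjugate = X.det • X⁻¹ := by
    rw [Matrix.inv_def, Ring.inverse_eq_inv', smul_smul, mul_inv_cancel₀ hX.det_pos.ne', one_smul]
  rw [h]
  exact hX.inv.smul hX.det_pos

theorem posDef_adj_comb {X Y : Matrix (Fin n) (Fin n) ℝ} (hX : X.PosDef) (hY : Y.PosDef) :
    (Matrix.of fun k j => X.adjugate j k * Y.det + Y.adjugate j k * X.det).PosDef := by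
  have h : (Matrix.of fun k j => X.adjugate j k * Y.det + Y.adjugate j k * X.det) =
      Y.det • X.adjugateᵀ + X.det • Y.adjugateᵀ := by
    ext k j
    simp [mul_comm]
  rw [h]
  exact ((cm_posDef_adj hX).transpose.smul hY.det_pos).add
    ((cm_posDef_adj hY).transpose.smul hX.det_pos)

end Pool.Agent.P.MP_4a4b50_gt.CE
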