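import Pool.Agent.P.MP_4a4b50_gt.CDefs

/-! The function `tr ((ρ - Y) ^ 256) ^ (1 / 256) - ρ` is sublinear. -/

set_option autoImplicit false

namespace Pool.Agent.P.MP_4a4b50_gt.CE.Nu

open scoped ContDiff Topology
open Pool.Agent.P.MP_f97e06_gt (Eu)
open Matrix Set Filter

abbrev M4 := Matrix (Fin 4) (Fin 4) ℝ

lemma cs (u v : Fin 4 → ℝ) : (u ⬝ᵥ v) ^ 2 ≤ (u ⬝ᵥ u) * (v ⬝ᵥ v) := by
  simpa [dotProduct, sq] using Finset.sum_mul_sq_le_sq_mul_sq Finset.univ u v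

lemma form_sq {A : M4} (hA : Aᵀ = A) (q : Fin 4 → ℝ) :
    q ⬝ᵥ (A * A) *ᵥ q = (A *ᵥ q) ⬝ᵥ (A *ᵥ q) := by
  rw [← mulVec_mulVec, dotProduct_mulVec, ← mulVec_transpose, hA]

lemma sq_le_form {A : M4} (hA : Aᵀ = A) {q : Fin 4 → ℝ} (hq : q ⬝ᵥ q = 1) :
    (q ⬝ᵥ A *ᵥ q) ^ 2 ≤ q ⬝ᵥ (A * A) *ᵥ q := by
  rw [form_sq hA]; simpa [hq] using cs q (A *ᵥ q)

lemma form_le_trace {A : M4} (hA : Aᵀ = A) {q : Fin 4 → ℝ} (hq : q ⬝ᵥ q = 1) :
    q ⬝ᵥ (A * A) *ᵥ q ≤ (A * A).trace := by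
  rw [form_sq hA]
  refine Finset.sum_le_sum fun i _ => ?_
  have h := cs (A i) q
  rw [hq, mul_one] at h
  have h2 : (A * A).diag i = A i ⬝ᵥ A i := by
    simp only [diag, mul_apply, dotProduct]
    refine Finset.sum_congr rfl fun j _ => ?_
    rw [show A j i = A i j from congrFun (congrFun hA i) j]
  rw [h2, ← sq]; exact h

lemma pow_symm {A : M4} (hA : Aᵀ = A) (k : ℕ) : (A ^ k)ᵀ = A ^ k := by rw [transpose_pow, hA]

lemma pow_le_form {A : M4} (hA : Aᵀ = A) {q : Fin 4 → ℝ} (hq : q ⬝ᵥ q = 1) (k : ℕ) :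
    |q ⬝ᵥ A *ᵥ q| ^ (2 ^ k) ≤ |q ⬝ᵥ (A ^ (2 ^ k)) *ᵥ q| := by
  induction k with
  | zero => simp
  | succ k ih =>
    rw [pow_succ, pow_mul, pow_mul, sq (A ^ _)]
    calc _ ≤ |q ⬝ᵥ (A ^ (2 ^ k)) *ᵥ q| ^ 2 := by gcongr
      _ = (q ⬝ᵥ (A ^ (2 ^ k)) *ᵥ q) ^ 2 := sq_abs _
      _ ≤ _ := (sq_le_form (pow_symm hA _) hq).trans (le_abs_self _)

lemma pow256 (A : M4) : A ^ 256 = A ^ 128 * A ^ 128 := by rw [← pow_add]

lemma form256 {A : M4} (hA : Aᵀ = A) {q : Fin 4 → ℝ} (hq : q ⬝ᵥ q = 1) :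
    |q ⬝ᵥ A *ᵥ q| ^ 256 ≤ q ⬝ᵥ (A ^ 256) *ᵥ q := by
  have h := pow_le_form hA hq 8
  have h0 : 0 ≤ q ⬝ᵥ (A ^ 256) *ᵥ q := by
    rw [pow256]; exact (sq_nonneg _).trans (sq_le_form (pow_symm hA _) hq)
  rwa [show 2 ^ 8 = 256 from rfl, abs_of_nonneg h0] at h

/-- the Schatten norm -/
noncomputable def SN (A : M4) : ℝ := (A ^ 256).trace ^ (1 / 256 : ℝ)

lemma root_pow {a : ℝ} (ha : 0 ≤ a) : (a ^ 256) ^ (1 / 256 : ℝ) = a := by
  rw [one_div]; exact Real.pow_rpow_inv_natCast ha (n := 256) (by norm_num)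

lemma pow_root {a : ℝ} (ha : 0 ≤ a) : (a ^ (1 / 256 : ℝ)) ^ 256 = a := by
  rw [one_div]; exact Real.rpow_inv_natCast_pow ha (n := 256) (by norm_num)

lemma root_le {a b : ℝ} (ha : 0 ≤ a) (h : a ≤ b) : a ^ (1 / 256 : ℝ) ≤ b ^ (1 / 256 : ℝ) :=
  Real.rpow_le_rpow ha h (by norm_num)

lemma form_le_SN {A : M4} (hA : Aᵀ = A) {q : Fin 4 → ℝ} (hq : q ⬝ᵥ q = 1) :
    |q ⬝ᵥ A *ᵥ q| ≤ SN A := by
  rw [← root_pow (abs_nonneg (q ⬝ᵥ A *ᵥ q)), SN]
  refine root_le (pow_nonneg (abs_nonneg _) _) ((form256 hA hq).trans ?_)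
  rw [pow256]; exact form_le_trace (pow_symm hA _) hq

lemma trace_nonneg {A : M4} (hA : Aᵀ = A) : 0 ≤ (A ^ 256).trace := by
  have hq : (Pi.single 0 1 : Fin 4 → ℝ) ⬝ᵥ Pi.single 0 1 = 1 := by simp
  refine le_trans (pow_nonneg (abs_nonneg _) _) ((form256 hA hq).trans ?_)
  rw [pow256]; exact form_le_trace (pow_symm hA _) hq

lemma conj_pow {O : M4} (hO : O * Oᵀ = 1) (A : M4) (k : ℕ) :
    (O * A * Oᵀ) ^ k = O * A ^ k * Oᵀ := by
  have hO' : Oᵀ * O = 1 := mul_eq_one_comm.1 hO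
  induction k with
  | zero => simp [hO]
  | succ k ih =>
    rw [pow_succ, ih, pow_succ]
    calc O * A ^ k * Oᵀ * (O * A * Oᵀ) = O * A ^ k * (Oᵀ * O) * A * Oᵀ := by
          simp only [Matrix.mul_assoc]
      _ = _ := by rw [hO']; simp only [Matrix.mul_assoc, Matrix.mul_one]

lemma trace_conj' {O : M4} (hO : O * Oᵀ = 1) (A : M4) : (O * A * Oᵀ).trace = A.trace := by
  rw [trace_mul_cycle, mul_eq_one_comm.1 hO, Matrix.one_mul]

lemma SN_conj {O : M4} (hO : O * Oᵀ = 1) (A : M4) : SN (O * A * Oᵀ) = SN A := by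
  rw [SN, conj_pow hO, trace_conj' hO, SN]

lemma conj_diag (O A : M4) (i : Fin 4) : (O * A * Oᵀ) i i = O i ⬝ᵥ A *ᵥ O i := by
  simp only [mul_apply, transpose_apply, dotProduct, mulVec, Finset.sum_mul, Finset.mul_sum]
  rw [Finset.sum_comm]
  simp only [mul_assoc]

lemma row_unit {O : M4} (hO : O * Oᵀ = 1) (i : Fin 4) : O i ⬝ᵥ O i = 1 := by
  simpa [mul_apply, dotProduct] using congrFun (congrFun hO i) i

lemma sum_le_SN {O A : M4} (hO : O * Oᵀ = 1) (hA : Aᵀ = A) :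
    (∑ i, |O i ⬝ᵥ A *ᵥ O i| ^ (256 : ℝ)) ^ (1 / 256 : ℝ) ≤ SN A := by
  rw [SN, ← trace_conj' hO]
  refine root_le (Finset.sum_nonneg fun i _ => Real.rpow_nonneg (abs_nonneg _) _)
    (Finset.sum_le_sum fun i _ => ?_)
  rw [diag, conj_diag, show (256 : ℝ) = ((256 : ℕ) : ℝ) by norm_num, Real.rpow_natCast]
  exact form256 hA (row_unit hO i)

lemma exists_diag' {A : M4} (hA : Aᵀ = A) :
    ∃ (O : M4) (a : Fin 4 → ℝ), O * Oᵀ = 1 ∧ O * A * Oᵀ = diagonal a := by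
  have h : A.IsHermitian := hA
  refine ⟨star (h.eigenvectorUnitary : M4), h.eigenvalues, ?_, ?_⟩
  · have := h.eigenvectorUnitary.2.1
    simpa [star_eq_conjTranspose] using this
  · have := h.conjStarAlgAut_star_eigenvectorUnitary
    simpa [star_eq_conjTranspose, Unitary.conjStarAlgAut_apply] using this

lemma shift_le {a : Fin 4 → ℝ} (ha : ∀ i, 0 ≤ a i) {δ : ℝ} (hδ : 0 ≤ δ) :
    (∑ i, a i ^ 256) ^ (1 / 256 : ℝ) + δ ≤ (∑ i, (a i + δ) ^ 256) ^ (1 / 256 : ℝ) := by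
  set n := (∑ i, a i ^ 256) ^ (1 / 256 : ℝ) with hn
  have hs : 0 ≤ ∑ i, a i ^ 256 := Finset.sum_nonneg fun i _ => pow_nonneg (ha i) _
  have hn0 : 0 ≤ n := Real.rpow_nonneg hs _
  have hnp : n ^ 256 = ∑ i, a i ^ 256 := pow_root hs
  have hi : ∀ i, a i ≤ n := fun i => by
    rw [← root_pow (ha i), hn]
    exact root_le (pow_nonneg (ha i) _) (Finset.single_le_sum (f := fun i => a i ^ 256)
      (fun i _ => pow_nonneg (ha i) _) (Finset.mem_univ i))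
  rw [← root_pow (add_nonneg hn0 hδ)]
  refine root_le (pow_nonneg (add_nonneg hn0 hδ) _) ?_
  clear_value n
  rcases hn0.eq_or_lt with h0 | h0
  · have : a 0 = 0 := le_antisymm (h0 ▸ hi 0) (ha 0)
    rw [← h0, ← this]
    exact Finset.single_le_sum (f := fun i => (a i + δ) ^ 256)
      (fun i _ => pow_nonneg (add_nonneg (ha i) hδ) _) (Finset.mem_univ 0)
  · have h1 : n + δ = n * (1 + δ / n) := by field_simp
    rw [h1, mul_pow, hnp, Finset.sum_mul]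
    refine Finset.sum_le_sum fun i _ => ?_
    rw [← mul_pow]
    have h2 : a i * (δ / n) ≤ δ := by
      rw [mul_div_assoc', div_le_iff₀ h0, mul_comm]
      exact mul_le_mul_of_nonneg_left (hi i) hδ
    exact pow_le_pow_left₀ (mul_nonneg (ha i) (by positivity)) (by linarith) _

/-- the projection killing the zeroth coordinate -/
noncomputable def Pr : Eu 10 →L[ℝ] Eu 10 :=
  ContinuousLinearMap.id ℝ _ - (EuclideanSpace.proj (0 : Fin 10)).smulRight e0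

lemma Pr_apply (x : Eu 10) : Pr x = x - x 0 • e0 := rfl

lemma e0_zero : e0 0 = 1 := by simp [e0]

lemma Pr_zero (x : Eu 10) : Pr x 0 = 0 := by simp [Pr_apply, e0_zero]

lemma Y_shift (x : Eu 10) (s : ℝ) : Y (x + s • e0) = Y x := by
  rw [Y_add, Y_smul, Y_e0, smul_zero, add_zero]

lemma Y_Pr (x : Eu 10) : Y (Pr x) = Y x := by
  rw [Pr_apply, sub_eq_add_neg, ← neg_smul, Y_shift]

/-- the Frobenius norm of `Y x` -/
noncomputable def rho (x : Eu 10) : ℝ := ‖Pr x‖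

lemma rho_sq (x : Eu 10) : rho x ^ 2 = (Y x * Y x).trace := by
  rw [rho, ← real_inner_self_eq_norm_sq, inner_eq, Pr_zero, Y_Pr]; simp

lemma rho_nonneg (x : Eu 10) : 0 ≤ rho x := norm_nonneg _

lemma rho_eq (x : Eu 10) : rho x = √((Y x * Y x).trace) := by
  rw [← rho_sq, Real.sqrt_sq (rho_nonneg x)]

lemma Pr_ne {x : Eu 10} (h : Y x ≠ 0) : Pr x ≠ 0 := fun h0 => h (by rw [← Y_Pr, h0, Y_zero])

lemma rho_pos {x : Eu 10} (h : Y x ≠ 0) : 0 < rho x := norm_pos_iff.2 (Pr_ne h)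

lemma form_le_rho (x : Eu 10) {q : Fin 4 → ℝ} (hq : q ⬝ᵥ q = 1) : q ⬝ᵥ Y x *ᵥ q ≤ rho x :=
  le_of_sq_le_sq_of_nonneg' x hq
where
  le_of_sq_le_sq_of_nonneg' (x : Eu 10) {q : Fin 4 → ℝ} (hq : q ⬝ᵥ q = 1) :
      q ⬝ᵥ Y x *ᵥ q ≤ rho x := by
    refine le_of_abs_le (abs_le_of_sq_le_sq' ?_ (rho_nonneg x) |> abs_le.2)
    rw [rho_sq]
    exact (sq_le_form (Y_symm x) hq).trans (form_le_trace (Y_symm x) hq)

noncomputable def MM (x : Eu 10) : M4 := rho x • (1 : M4) - Y x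

lemma MM_symm (x : Eu 10) : (MM x)ᵀ = MM x := by simp [MM, Y_symm]

lemma MM_form (x : Eu 10) {q : Fin 4 → ℝ} (hq : q ⬝ᵥ q = 1) :
    q ⬝ᵥ MM x *ᵥ q = rho x - q ⬝ᵥ Y x *ᵥ q := by
  simp [MM, sub_mulVec, smul_mulVec, hq]

noncomputable def nu0 (x : Eu 10) : ℝ := SN (MM x) - rho x

lemma nu0_lower (x : Eu 10) {q : Fin 4 → ℝ} (hq : q ⬝ᵥ q = 1) : -(q ⬝ᵥ Y x *ᵥ q) ≤ nu0 x := by
  have := (le_abs_self _).trans (form_le_SN (MM_symm x) hq)
  rw [MM_form x hq] at this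
  unfold nu0; linarith

lemma nu0_nonneg (x : Eu 10) : 0 ≤ nu0 x := by
  have h : ∀ i, -Y x i i ≤ nu0 x := fun i => by
    simpa using nu0_lower x (q := Pi.single i 1) (by simp)
  have ht := Y_trace x
  simp only [trace, diag, Fin.sum_univ_four] at ht
  linarith [h 0, h 1, h 2, h 3]

lemma nu0_add (x z : Eu 10) : nu0 (x + z) ≤ nu0 x + nu0 z := by
  obtain ⟨O, a, hO, ha⟩ := exists_diag' (MM_symm (x + z))
  have hu := row_unit hO
  have ha' : ∀ i, a i = rho (x + z) - O i ⬝ᵥ Y (x + z) *ᵥ O i := fun i => by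
    rw [← MM_form _ (hu i), ← conj_diag, ha, diagonal_apply_eq]
  have ha0 : ∀ i, 0 ≤ a i := fun i => by rw [ha']; linarith [form_le_rho (x + z) (hu i)]
  have hδ : 0 ≤ rho x + rho z - rho (x + z) := by
    unfold rho; rw [map_add]; linarith [norm_add_le (Pr x) (Pr z)]
  have h1 : SN (MM (x + z)) = (∑ i, a i ^ 256) ^ (1 / 256 : ℝ) := by
    rw [← SN_conj hO, ha, SN, diagonal_pow, trace_diagonal]; rfl
  have h2 := shift_le ha0 hδ
  have h3 := Real.Lp_add_le Finset.univ (fun i => O i ⬝ᵥ MM x *ᵥ O i) (fun i => O i ⬝ᵥ MM z *ᵥ O i)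
    (p := 256) (by norm_num)
  have h4 : ∀ i, |O i ⬝ᵥ MM x *ᵥ O i + O i ⬝ᵥ MM z *ᵥ O i| ^ (256 : ℝ) =
      (a i + (rho x + rho z - rho (x + z))) ^ 256 := fun i => by
    rw [← abs_of_nonneg (add_nonneg (ha0 i) hδ), ha', MM_form _ (hu i), MM_form _ (hu i), Y_add,
      add_mulVec, dotProduct_add, ← Real.rpow_natCast]
    congr 2; ring
  simp only [h4] at h3
  have h5 := sum_le_SN hO (MM_symm x)
  have h6 := sum_le_SN hO (MM_symm z)
  unfold nu0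
  linarith

lemma rho_smul {t : ℝ} (ht : 0 < t) (x : Eu 10) : rho (t • x) = t * rho x := by
  rw [rho, map_smul, norm_smul, Real.norm_eq_abs, abs_of_pos ht, rho]

lemma nu0_hom : Hom1 nu0 := by
  intro t ht x
  have h : MM (t • x) = t • MM x := by rw [MM, MM, rho_smul ht, Y_smul, smul_sub, smul_smul]
  rw [nu0, nu0, h, rho_smul ht, SN, SN, smul_pow, trace_smul, smul_eq_mul,
    Real.mul_rpow (by positivity) (trace_nonneg (MM_symm x)), root_pow ht.le]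
  ring

lemma rho_congr {x z : Eu 10} (h : Y x = Y z) : rho x = rho z := by rw [rho_eq, rho_eq, h]

lemma nu0_congr {x z : Eu 10} (h : Y x = Y z) : nu0 x = nu0 z := by
  rw [nu0, nu0, MM, MM, rho_congr h, h]

lemma rho_inv : Inv GG rho := by
  rintro g ⟨O, σ, hO, -, hg⟩ x
  rw [rho_eq, rho_eq, (hg x).1, ← sq, conj_pow hO, trace_conj' hO, sq]

lemma nu0_inv : Inv GG nu0 := by
  rintro g ⟨O, σ, hO, hσ, hg⟩ x
  have h := rho_inv g ⟨O, σ, hO, hσ, hg⟩ x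
  have h2 : MM (g x) = O * MM x * Oᵀ := by
    rw [MM, MM, h, (hg x).1, Matrix.mul_sub, Matrix.sub_mul, Matrix.mul_smul, Matrix.smul_mul,
      Matrix.mul_one, hO]
  rw [nu0, nu0, h, h2, SN_conj hO]

lemma contDiff_Y (i j : Fin 4) : ContDiff ℝ ∞ fun x : Eu 10 => Y x i j := by
  fin_cases i <;> fin_cases j <;> simp [Y] <;> fun_prop

lemma rho_smooth {x : Eu 10} (h : Y x ≠ 0) : ContDiffAt ℝ ∞ rho x :=
  (contDiffAt_norm ℝ (Pr_ne h)).comp x Pr.contDiff.contDiffAt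

lemma rho_cont : Continuous rho := Pr.continuous.norm

lemma pow_smooth {A : Eu 10 → M4} {x : Eu 10} (h : ∀ i j, ContDiffAt ℝ ∞ (fun z => A z i j) x)
    (k : ℕ) : ∀ i j, ContDiffAt ℝ ∞ (fun z => (A z ^ k) i j) x := by
  induction k with
  | zero => intro i j; simpa using contDiffAt_const
  | succ k ih =>
    intro i j
    simp only [pow_succ, mul_apply]
    exact ContDiffAt.sum fun l _ => (ih i l).mul (h l j)

lemma nu0_smooth {x : Eu 10} (h : Y x ≠ 0) : ContDiffAt ℝ ∞ nu0 x := by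
  refine ContDiffAt.sub (ContDiffAt.rpow_const_of_ne ?_ ?_) (rho_smooth h)
  · refine ContDiffAt.sum fun i _ => pow_smooth (fun i j => ?_) 256 i i
    simp only [MM, Matrix.sub_apply, Matrix.smul_apply, smul_eq_mul]
    exact ((rho_smooth h).mul contDiffAt_const).sub (contDiff_Y i j).contDiffAt
  · intro h0
    have h1 := nu0_nonneg x
    rw [nu0, SN, h0, Real.zero_rpow (by norm_num)] at h1
    linarith [rho_pos h]

lemma nu0_cont : Continuous nu0 := by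
  have hY : Continuous Y := continuous_matrix fun i j => (contDiff_Y i j).continuous
  have hM : Continuous MM := (rho_cont.smul continuous_const).sub hY
  exact ((hM.pow 256).matrix_trace.rpow_const fun _ => Or.inr (by norm_num)).sub rho_cont

lemma nu0_H0 : nu0 H0 + rho H0 / 500 ≤ 26 / 25 := by
  have hY : Y H0 = diagonal ![3, -1, -1, -1] := Y_lift 0 (diagonal_transpose _) (by
    simp [trace, Fin.sum_univ_four]; norm_num)
  have h1 : rho H0 ^ 2 = 12 := by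
    rw [rho_sq, hY, diagonal_mul_diagonal, trace_diagonal]; simp [Fin.sum_univ_four]; norm_num
  have h0 := rho_nonneg H0
  have h2 : rho H0 ≤ 7 / 2 := by nlinarith
  have h3 : 3 ≤ rho H0 := by nlinarith
  have h4 : MM H0 = diagonal ![rho H0 - 3, rho H0 + 1, rho H0 + 1, rho H0 + 1] := by
    rw [MM, hY]
    ext i j; fin_cases i <;> fin_cases j <;> simp
  have h5 : SN (MM H0) ≤ 2011 / 2000 * (rho H0 + 1) := by
    rw [← root_pow (a := 2011 / 2000 * (rho H0 + 1)) (by positivity), SN]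
    refine root_le (trace_nonneg (MM_symm _)) ?_
    rw [h4, diagonal_pow, trace_diagonal, mul_pow]
    have h6 : (rho H0 - 3) ^ 256 ≤ (rho H0 + 1) ^ 256 :=
      pow_le_pow_left₀ (by linarith) (by linarith) _
    have h7 : (4 : ℝ) ≤ (2011 / 2000) ^ 256 := by norm_num
    have h8 : 0 ≤ (rho H0 + 1) ^ 256 := pow_nonneg (by linarith) _
    have h9 := mul_le_mul_of_nonneg_right h7 h8
    rw [Fin.sum_univ_four]
    change (rho H0 - 3) ^ 256 + (rho H0 + 1) ^ 256 + (rho H0 + 1) ^ 256 + (rho H0 + 1) ^ 256 ≤ _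
    generalize (rho H0 + 1) ^ 256 = a at *
    generalize (rho H0 - 3) ^ 256 = b at *
    generalize ((2011 : ℝ) / 2000) ^ 256 = c at *
    linarith
  unfold nu0
  linarith

end Pool.Agent.P.MP_4a4b50_gt.CE.Nu
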