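import Pool.Agent.P.MP_4a4b50_gt.CCalc
import Pool.Agent.P.MP_4a4b50_gt.CNu1

set_option autoImplicit false

namespace Pool.Agent.P.MP_4a4b50_gt.CE

open scoped ContDiff Topology
open Pool.Agent.P.MP_f97e06_gt (Eu)
open Matrix Set Filter

namespace Nu

lemma D2_comp {f : Eu 10 → ℝ} (L : Eu 10 →L[ℝ] Eu 10) {x : Eu 10} (hf : ContDiffAt ℝ 2 f (L x))
    (v w : Eu 10) : D2 (fun z => f (L z)) x v w = D2 f (L x) (L v) (L w) := by
  have e1 : fderiv ℝ (fun z => f (L z)) =ᶠ[𝓝 x] fun z => (fderiv ℝ f (L z)).comp L := by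
    filter_upwards [L.continuous.continuousAt.eventually (Calc.ev_diff hf)] with z hz
    exact (hz.hasFDerivAt.comp z L.hasFDerivAt).fderiv
  have e2 := (((Calc.diff_fderiv hf).hasFDerivAt.comp x L.hasFDerivAt).clm_comp
    (hasFDerivAt_const L x)).fderiv
  unfold D2
  rw [e1.fderiv_eq]
  have e3 := congrArg (fun T => T v w) e2
  simpa using e3

lemma sublin {g : Eu 10 → ℝ} (hg : Hom1 g) (ha : ∀ x z, g (x + z) ≤ g x + g z) {x : Eu 10}
    (hd : DifferentiableAt ℝ g x) (v : Eu 10) : fderiv ℝ g x v ≤ g v := by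
  have h1 := (hd.hasFDerivAt.hasLineDerivAt v).tendsto_slope_zero_right
  refine le_of_tendsto h1 ?_
  filter_upwards [self_mem_nhdsWithin] with t ht
  have ht' : 0 < t := ht
  have := ha x (t • v)
  rw [hg t ht'] at this
  rw [smul_eq_mul, inv_mul_le_iff₀ ht']
  linarith

lemma psd {g : Eu 10 → ℝ} (hg : Hom1 g) (ha : ∀ x z, g (x + z) ≤ g x + g z) {x : Eu 10}
    (hd : ContDiffAt ℝ 2 g x) (v : Eu 10) : 0 ≤ D2 g x v v := by
  have hd1 := hd.differentiableAt (by simp)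
  have := line_test hd v (b := 0) (p₁ := fderiv ℝ g x v) (p₂ := 0) (p₃ := 0)
    (Eventually.of_forall fun r => by
      have h1 := sublin hg ha hd1 (x + r • v)
      rw [map_add, map_smul, hg.euler hd1, smul_eq_mul] at h1
      linarith)
  linarith

lemma rho_hom : Hom1 rho := fun _ ht x => rho_smul ht x

lemma rho_add (x z : Eu 10) : rho (x + z) ≤ rho x + rho z := by
  unfold rho; rw [map_add]; exact norm_add_le _ _

noncomputable def nu (x : Eu 10) : ℝ := 1 * nu0 x + 1 / 500 * rho x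

lemma nu_hom : Hom1 nu := fun t ht x => by rw [nu, nu, nu0_hom t ht, rho_hom t ht]; ring

lemma nu_add (x z : Eu 10) : nu (x + z) ≤ nu x + nu z := by
  unfold nu; linarith [nu0_add x z, rho_add x z]

lemma nu_congr {x z : Eu 10} (h : Y x = Y z) : nu x = nu z := by
  rw [nu, nu, nu0_congr h, rho_congr h]

lemma nu_smooth {x : Eu 10} (h : Y x ≠ 0) : ContDiffAt ℝ ∞ nu x :=
  (contDiffAt_const.mul (nu0_smooth h)).add (contDiffAt_const.mul (rho_smooth h))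

lemma two_le : (2 : WithTop ℕ∞) ≤ ∞ := WithTop.coe_le_coe.2 (le_top : (2 : ℕ∞) ≤ ⊤)

lemma nu_two {x : Eu 10} (h : Y x ≠ 0) : ContDiffAt ℝ 2 nu x := (nu_smooth h).of_le two_le

lemma nu_diff {x : Eu 10} (h : Y x ≠ 0) : DifferentiableAt ℝ nu x :=
  (nu_two h).differentiableAt (by simp)

lemma nu_Pr : (fun z => nu (Pr z)) = nu := funext fun z => nu_congr (Y_Pr z)

lemma Pr_of {x : Eu 10} (h : x 0 = 0) : Pr x = x := by rw [Pr_apply, h, zero_smul, sub_zero]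

/-- the unit sphere of the traceless matrices -/
def S : Set (Eu 10) := {y | y 0 = 0 ∧ ‖y‖ = 1}

lemma S_ne {y : Eu 10} (hy : y ∈ S) : Y y ≠ 0 := fun h => by
  have h1 := rho_sq y
  rw [h, rho, Pr_of hy.1, hy.2] at h1
  simp at h1

lemma S_neg {y : Eu 10} (hy : y ∈ S) : -y ∈ S := ⟨by simp [hy.1], by rw [norm_neg, hy.2]⟩

lemma S_compact : IsCompact S := by
  refine (isCompact_sphere (0 : Eu 10) 1).of_isClosed_subset ?_ fun y hy => by simpa using hy.2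
  exact (isClosed_eq (by fun_prop) continuous_const).inter
    (isClosed_eq continuous_norm continuous_const)

lemma exists_bound : ∃ K : ℝ, 0 < K ∧ ∀ y ∈ S,
    ‖D2 nu y‖ ≤ K ∧ ‖fderiv ℝ nu y‖ ≤ K ∧ |nu y| ≤ K := by
  have h : ContinuousOn (fun y => ‖D2 nu y‖ + ‖fderiv ℝ nu y‖ + |nu y|) S := fun y hy => by
    have h0 := nu_smooth (S_ne hy)
    have h1 : ContDiffAt ℝ 1 (fderiv ℝ nu) y := h0.fderiv_right two_le
    have h2 : ContDiffAt ℝ 0 (D2 nu) y := h1.fderiv_right (by simp)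
    have h3 : ContinuousAt (fun y => ‖D2 nu y‖) y :=
      ContinuousAt.norm (E := Eu 10 →L[ℝ] Eu 10 →L[ℝ] ℝ) (f := D2 nu) h2.continuousAt
    exact ((h3.add h1.continuousAt.norm).add
      h0.continuousAt.abs).continuousWithinAt
  obtain ⟨K, hK⟩ := S_compact.exists_bound_of_continuousOn h
  refine ⟨max K 1, by positivity, fun y hy => ?_⟩
  have h1 := (le_abs_self _).trans ((hK y hy).trans (le_max_left K 1))
  have := norm_nonneg (D2 nu y)
  have := norm_nonneg (fderiv ℝ nu y)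
  have := abs_nonneg (nu y)
  refine ⟨by linarith, by linarith, by linarith⟩

lemma D2_lower {y w : Eu 10} (hy : y ∈ S) (hw : w 0 = 0) (hi : inner ℝ y w = 0) :
    ‖w‖ ^ 2 / 500 ≤ D2 nu y w w := by
  have h0 := (nu0_smooth (S_ne hy)).of_le two_le
  have h1 := Calc.D2_lin h0 ((rho_smooth (S_ne hy)).of_le two_le) 1 (1 / 500)
  have h2 := psd nu0_hom nu0_add h0 w
  have h3 : D2 rho y w w = ‖w‖ ^ 2 := by
    have := D2_comp (f := fun z => ‖z‖) Pr (contDiffAt_norm ℝ (Pr_ne (S_ne hy))) w w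
    rw [Pr_of hy.1, Pr_of hw, D2_norm_unit hy.2, hi, real_inner_self_eq_norm_sq] at this
    exact this.trans (by ring)
  have h4 : D2 nu y w w = 1 * D2 nu0 y w w + 1 / 500 * D2 rho y w w :=
    congrArg (fun T => T w w) h1
  linarith

lemma D2_red {y : Eu 10} (hy : Y y ≠ 0) (w : Eu 10) (c : ℝ) :
    D2 nu y (w + c • y) (w + c • y) = D2 nu y w w := by
  simp [(nu_hom.D2_self (nu_two hy) w).1, (nu_hom.D2_self (nu_two hy) w).2,
    (nu_hom.D2_self (nu_two hy) y).1]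

lemma cmp_S : ∃ C : ℝ, 0 < C ∧ ∀ y ∈ S, ∀ u : Eu 10, u 0 = 0 →
    D2 nu y u u ≤ C * D2 nu (-y) u u ∧
    (nu (-y) * fderiv ℝ nu y u + nu y * fderiv ℝ nu (-y) u) ^ 2 ≤ C * D2 nu (-y) u u := by
  obtain ⟨K, hK0, hK⟩ := exists_bound
  refine ⟨500 * (K + (2 * K * K) ^ 2), by positivity, fun y hy u hu => ?_⟩
  obtain ⟨w, c, rfl, hw, hi⟩ : ∃ (w : Eu 10) (c : ℝ), u = w + c • y ∧ w 0 = 0 ∧
      inner ℝ y w = 0 :=
    ⟨u - inner ℝ y u • y, inner ℝ y u, by simp, by simp [hu, hy.1], by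
      rw [inner_sub_right, real_inner_smul_right, real_inner_self_eq_norm_sq, hy.2]; ring⟩
  have hy' := S_neg hy
  have h1 : D2 nu (-y) (w + c • y) (w + c • y) = D2 nu (-y) w w := by
    rw [← D2_red (S_ne hy') w (-c), neg_smul_neg]
  have h2 := D2_lower hy' hw (by rw [inner_neg_left, hi, neg_zero])
  obtain ⟨a1, a2, a3⟩ := hK y hy
  obtain ⟨-, b2, b3⟩ := hK _ hy'
  have h3 : D2 nu y w w ≤ K * ‖w‖ ^ 2 := by
    have := (le_abs_self _).trans ((D2 nu y).le_opNorm₂ w w)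
    nlinarith [sq_nonneg ‖w‖]
  have e1 := nu_hom.euler (nu_diff (S_ne hy))
  have e2 := nu_hom.euler (nu_diff (S_ne hy'))
  rw [map_neg] at e2
  have h4 : nu (-y) * fderiv ℝ nu y (w + c • y) + nu y * fderiv ℝ nu (-y) (w + c • y) =
      nu (-y) * fderiv ℝ nu y w + nu y * fderiv ℝ nu (-y) w := by
    simp only [map_add, map_smul, smul_eq_mul, e1, ← e2]; ring
  have h5 : ∀ z ∈ S, |fderiv ℝ nu z w| ≤ K * ‖w‖ := fun z hz =>
    ((fderiv ℝ nu z).le_opNorm w).trans (mul_le_mul_of_nonneg_right (hK z hz).2.1 (norm_nonneg _))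
  have h6 : |nu (-y) * fderiv ℝ nu y w + nu y * fderiv ℝ nu (-y) w| ≤ 2 * K * K * ‖w‖ := by
    refine (abs_add_le _ _).trans ?_
    rw [abs_mul, abs_mul]
    have c1 := mul_le_mul b3 (h5 y hy) (abs_nonneg _) hK0.le
    have c2 := mul_le_mul a3 (h5 _ hy') (abs_nonneg _) hK0.le
    linarith
  have h7 := pow_le_pow_left₀ (abs_nonneg _) h6 2
  rw [sq_abs, mul_pow] at h7
  rw [D2_red (S_ne hy), h1, h4]
  have h8 : 0 ≤ (2 * K * K) ^ 2 * ‖w‖ ^ 2 := by positivity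
  have h9 : 0 ≤ K * ‖w‖ ^ 2 := by positivity
  have h10 := mul_le_mul_of_nonneg_left h2
    (show 0 ≤ 500 * (K + (2 * K * K) ^ 2) by positivity)
  constructor <;> nlinarith

lemma reduce {x y : Eu 10} {r : ℝ} (hr : 0 < r) (hx : Y x ≠ 0) (h : Pr x = r • y) (v : Eu 10) :
    nu x = r * nu y ∧ fderiv ℝ nu x v = fderiv ℝ nu y (Pr v) ∧
      D2 nu x v v = r⁻¹ * D2 nu y (Pr v) (Pr v) := by
  have hx' : Y (Pr x) ≠ 0 := by rwa [Y_Pr]
  refine ⟨by rw [← nu_hom r hr, ← h, nu_congr (Y_Pr x)], ?_, ?_⟩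
  · have := ((nu_diff hx').hasFDerivAt.comp x Pr.hasFDerivAt).fderiv
    rw [show nu ∘ Pr = nu from nu_Pr, h, nu_hom.fderiv_smul hr] at this
    rw [this]; rfl
  · have := D2_comp Pr (nu_two hx') v v
    rw [nu_Pr, h, nu_hom.D2_smul hr] at this
    exact this

lemma rho_le (x : Eu 10) : rho x ≤ ‖x‖ := by
  refine abs_le_of_sq_le_sq' ?_ (norm_nonneg _) |>.2
  rw [rho_sq, ← real_inner_self_eq_norm_sq, inner_eq]
  nlinarith [mul_self_nonneg (x 0)]

end Nu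

open Nu in
theorem exists_nu : ∃ ν : Eu 10 → ℝ, NuSpec ν := by
  refine ⟨nu, fun x hx => (nu_smooth hx).contDiffWithinAt,
    (continuous_const.mul nu0_cont).add (continuous_const.mul rho_cont), nu_hom,
    fun x s => nu_congr (Y_shift x s), fun g hg x => by rw [nu, nu, nu0_inv g hg, rho_inv g hg],
    fun x hx => ?_, fun x hx => ?_, fun x q hq => ?_, ?_,
    fun x hx v => sublin nu_hom nu_add (nu_diff hx) v,
    fun x hx v => psd nu_hom nu_add (nu_two hx) v, ?_⟩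
  · unfold nu; linarith [nu0_nonneg x, rho_pos hx]
  · rw [nu_congr (hx.trans Y_zero.symm), nu_hom.zero]
  · unfold nu; linarith [nu0_lower x hq, rho_nonneg x]
  · unfold nu; linarith [nu0_H0]
  obtain ⟨C, hC, h⟩ := cmp_S
  refine ⟨C, hC, fun x hx1 hx v => ?_⟩
  have hr := rho_pos hx
  have hr1 : rho x ≤ 1 := hx1 ▸ rho_le x
  have hy : (rho x)⁻¹ • Pr x ∈ S := ⟨by simp [Pr_zero], by
    rw [norm_smul, Real.norm_eq_abs, abs_of_pos (inv_pos.2 hr)]; exact inv_mul_cancel₀ hr.ne'⟩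
  obtain ⟨y, hy, e⟩ : ∃ y ∈ S, Pr x = rho x • y := ⟨_, hy, by rw [smul_inv_smul₀ hr.ne']⟩
  obtain ⟨a1, a2, a3⟩ := reduce hr hx e v
  obtain ⟨b1, b2, b3⟩ := reduce (x := -x) (y := -y) hr (by rwa [Y_neg, neg_ne_zero])
    (by rw [map_neg, e, smul_neg]) v
  obtain ⟨c1, c2⟩ := h y hy (Pr v) (Pr_zero v)
  have c3 := mul_nonneg hC.le (psd nu_hom nu_add (nu_two (S_ne (S_neg hy))) (Pr v))
  have hi : 1 ≤ (rho x)⁻¹ := (one_le_inv₀ hr).2 hr1
  rw [a1, a2, a3, b1, b2, b3]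
  constructor
  · nlinarith [mul_le_mul_of_nonneg_left c1 (inv_pos.2 hr).le]
  · have c4 : rho x ^ 2 ≤ 1 := pow_le_one₀ hr.le hr1
    have c5 := mul_le_mul c4 c2 (sq_nonneg _) zero_le_one
    nlinarith [mul_le_mul_of_nonneg_right hi c3]

end Pool.Agent.P.MP_4a4b50_gt.CE
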