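import Pool.Agent.P.MP_4a4b50_gt.CCalc

set_option autoImplicit false

namespace Pool.Agent.P.MP_4a4b50_gt.CE

open scoped ContDiff Topology
open Pool.Agent.P.MP_f97e06_gt (Eu)
open Matrix Set Filter

theorem exists_cut {a b : ℝ} (hab : a < b) : ∃ χ : ℝ → ℝ, ContDiff ℝ ∞ χ ∧ (∀ u, 0 ≤ χ u) ∧
    (∀ u, deriv χ u ≤ 0) ∧ (∀ u, u < a → χ u = 1 ∧ deriv χ u = 0) ∧
    ∀ u, b < u → χ u = 0 ∧ deriv χ u = 0 := by
  have h0 : 0 < b - a := sub_pos.mpr hab
  have one : ∀ u, u < a → Real.smoothTransition ((b - u) / (b - a)) = 1 := fun u hu =>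
    Real.smoothTransition.one_of_one_le ((one_le_div h0).mpr (by linarith))
  have zero : ∀ u, b < u → Real.smoothTransition ((b - u) / (b - a)) = 0 := fun u hu =>
    Real.smoothTransition.zero_of_nonpos (div_nonpos_of_nonpos_of_nonneg (by linarith) h0.le)
  refine ⟨fun u => Real.smoothTransition ((b - u) / (b - a)),
    Real.smoothTransition.contDiff.comp ((contDiff_const.sub contDiff_id).div_const _),
    fun u => Real.smoothTransition.nonneg _, fun u => Antitone.deriv_nonpos fun u v h =>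
      Real.smoothTransition.monotone (div_le_div_of_nonneg_right (by linarith) h0.le),
    fun u hu => ⟨one u hu, ?_⟩, fun u hu => ⟨zero u hu, ?_⟩⟩
  · have : (fun u => Real.smoothTransition ((b - u) / (b - a))) =ᶠ[𝓝 u] fun _ => 1 :=
      (eventually_lt_nhds hu).mono one
    rw [this.deriv_eq, deriv_const]
  · have : (fun u => Real.smoothTransition ((b - u) / (b - a))) =ᶠ[𝓝 u] fun _ => 0 :=
      (eventually_gt_nhds hu).mono zero
    rw [this.deriv_eq, deriv_const]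

theorem exists_profile {p : ℝ → ℝ} (hp : ContDiff ℝ ∞ p)
    (h4 : ∀ u, 4 ≤ u → p u = 0 ∧ deriv p u = 0) : ∃ Ψ : ℝ → ℝ, ContDiff ℝ ∞ Ψ ∧
      (∀ s, Ψ (-s) = Ψ s) ∧ (∃ c s₀ : ℝ, ∀ s, s₀ ≤ |s| → Ψ s = c * |s|) ∧
      (∀ s, Ψ s - s * deriv Ψ s = p (s ^ 2)) ∧
      ∀ s, deriv (deriv Ψ) s = -2 * deriv p (s ^ 2) := by
  obtain ⟨p1, p2⟩ := contDiff_infty_iff_deriv.mp hp
  set k : ℝ → ℝ := fun s => -2 * deriv p (s ^ 2) with hk
  have k1 : ContDiff ℝ ∞ k := contDiff_const.mul (p2.comp (contDiff_id.pow 2))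
  set I : ℝ → ℝ := fun s => ∫ t in (0 : ℝ)..s, k t with hI
  have i1 : ∀ s, HasDerivAt I (k s) s := fun s =>
    (k1.continuous.integral_hasStrictDerivAt 0 s).hasDerivAt
  have i2 : deriv I = k := funext fun s => (i1 s).deriv
  have i3 : ContDiff ℝ ∞ I :=
    contDiff_infty_iff_deriv.mpr ⟨fun s => (i1 s).differentiableAt, i2 ▸ k1⟩
  have i4 : ∀ s, I (-s) = -I s := by
    intro s
    have := intervalIntegral.integral_comp_neg (a := 0) (b := s) k
    have e : ∀ t, k (-t) = k t := fun t => by simp [hk]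
    simp only [e, neg_zero] at this
    simp only [hI]
    rw [this, intervalIntegral.integral_symm]
  have d1 : deriv (fun s => p (s ^ 2) + s * I s) = I := by
    funext s
    have a := (p1 (s ^ 2)).hasDerivAt.comp s (hasDerivAt_pow 2 s)
    have b := (a.add ((hasDerivAt_id s).mul (i1 s))).deriv
    refine Eq.trans ?_ (b.trans ?_)
    · rfl
    · simp [hk]
      ring
  have ev : ∀ s, p ((-s) ^ 2) + -s * I (-s) = p (s ^ 2) + s * I s := fun s => by
    rw [i4, neg_sq]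
    ring
  refine ⟨fun s => p (s ^ 2) + s * I s, (hp.comp (contDiff_id.pow 2)).add (contDiff_id.mul i3),
    ev, ⟨I 2, 2, fun s hs => ?_⟩, fun s => by rw [d1]; ring, fun s => by rw [d1, i2]⟩
  have far : ∀ s, 2 ≤ s → p (s ^ 2) + s * I s = I 2 * s := by
    intro s hs
    have z : ∫ t in (2 : ℝ)..s, k t = 0 := by
      rw [intervalIntegral.integral_congr (g := fun _ => 0) fun t ht => ?_]
      · simp
      · rw [uIcc_of_le hs] at ht
        simp [hk, (h4 (t ^ 2) (by nlinarith [ht.1])).2]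
    have := intervalIntegral.integral_add_adjacent_intervals (a := 0) (b := 2) (c := s)
      (μ := MeasureTheory.volume) (k1.continuous.intervalIntegrable _ _)
      (k1.continuous.intervalIntegrable _ _)
    rw [z, add_zero] at this
    rw [(h4 (s ^ 2) (by nlinarith)).1]
    simp only [hI]
    rw [← this]
    ring
  rcases le_total 0 s with q | q
  · rw [abs_of_nonneg q] at hs ⊢
    exact far s hs
  · rw [abs_of_nonpos q] at hs ⊢
    exact (ev s).symm.trans (far _ hs)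

theorem exists_psi {δ M η : ℝ} (hδ : 0 < δ) (hM : 0 < M) (hη : 0 < η) :
    ∃ Ψ : ℝ → ℝ, PsiSpec δ M η Ψ := by
  obtain ⟨a, a1, a2, a3, a4, a5⟩ := exists_cut (show (93 / 100 : ℝ) < 96 / 100 by norm_num)
  obtain ⟨b, b1, b2, b3, b4, b5⟩ := exists_cut (show (2 : ℝ) < 3 by norm_num)
  set e := min η (δ / M) with he
  have e0 : 0 < e := lt_min hη (div_pos hδ hM)
  have e1 : e ≤ η := min_le_left _ _
  have e2 : e * M ≤ δ := (le_div_iff₀ hM).mp (min_le_right _ _)
  set p : ℝ → ℝ := fun u => (1 + δ * (1 - u) / 2) * a u + e * Real.exp (-M / 2 * u) * b u with hp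
  have p1 : ContDiff ℝ ∞ p := by
    simp only [hp]
    fun_prop
  have p2 : ∀ u, deriv p u = -δ / 2 * a u + (1 + δ * (1 - u) / 2) * deriv a u +
      e * Real.exp (-M / 2 * u) * (-M / 2 * b u + deriv b u) := by
    intro u
    have x1 := (a1.differentiable (by simp) u).hasDerivAt
    have x2 := (b1.differentiable (by simp) u).hasDerivAt
    have x3 := ((((hasDerivAt_id u).const_sub 1).const_mul δ).div_const 2).const_add 1
    have x4 := (((hasDerivAt_id u).const_mul (-M / 2)).exp).const_mul e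
    have := ((x3.mul x1).add (x4.mul x2)).deriv
    refine Eq.trans ?_ (this.trans ?_)
    · rfl
    · simp
      ring
  have A0 : ∀ u, 0 ≤ (1 + δ * (1 - u) / 2) * a u ∧ (1 + δ * (1 - u) / 2) * deriv a u ≤ 0 := by
    intro u
    rcases le_or_gt u 1 with h | h
    · have : 0 ≤ 1 + δ * (1 - u) / 2 := by
        have := mul_nonneg hδ.le (sub_nonneg.mpr h)
        linarith
      exact ⟨mul_nonneg this (a2 u), mul_nonpos_of_nonneg_of_nonpos this (a3 u)⟩
    · simp [a5 u (by linarith)]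
  have E0 : ∀ u, 0 < e * Real.exp (-M / 2 * u) := fun u => mul_pos e0 (Real.exp_pos _)
  have E1 : ∀ u, 0 ≤ u → e * Real.exp (-M / 2 * u) ≤ e := fun u hu =>
    mul_le_of_le_one_right e0.le (Real.exp_le_one_iff.mpr (by nlinarith))
  obtain ⟨Ψ, q1, q2, q3, q4, q5⟩ := exists_profile p1 fun u hu => by
    rw [p2]
    simp [hp, a5 u (by linarith), b5 u (by linarith)]
  refine ⟨Ψ, q1, q2, q3, fun s => ?_, fun s => ?_, fun s hs => ?_, fun s h1 h2 => ?_,
    e * Real.exp (-M / 2), mul_pos e0 (Real.exp_pos _), fun s hs => ?_⟩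
  · rw [q4]
    exact add_nonneg (A0 _).1 (mul_nonneg (E0 _).le (b2 _))
  · rw [q5, p2]
    have := (A0 (s ^ 2)).2
    have := mul_nonneg hδ.le (a2 (s ^ 2))
    have := mul_nonneg (E0 (s ^ 2)).le (mul_nonneg hM.le (b2 (s ^ 2)))
    have := mul_nonpos_of_nonneg_of_nonpos (E0 (s ^ 2)).le (b3 (s ^ 2))
    nlinarith
  · have u1 : s ^ 2 < 93 / 100 := by
      rw [← sq_abs]
      nlinarith [abs_nonneg s]
    rw [q4, q5, p2]
    simp only [hp, a4 _ u1, b4 (s ^ 2) (by linarith)]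
    have := E0 (s ^ 2)
    have := mul_le_mul_of_nonneg_right (E1 _ (sq_nonneg s)) hM.le
    have := mul_pos (E0 (s ^ 2)) hM
    refine ⟨?_, ?_, ?_⟩ <;> nlinarith
  · have u1 : 96 / 100 < s ^ 2 := by
      rw [← sq_abs]
      nlinarith
    have u2 : s ^ 2 < 2 := by
      rw [← sq_abs]
      nlinarith [abs_nonneg s]
    rw [q4, q5, p2]
    simp only [hp, a5 _ u1, b4 _ u2]
    have := E1 _ (sq_nonneg s)
    constructor <;> nlinarith
  · have u2 : s ^ 2 ≤ 1 := by
      rw [← sq_abs]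
      nlinarith [abs_nonneg s]
    rw [q4]
    have := (A0 (s ^ 2)).1
    have : e * Real.exp (-M / 2) ≤ e * Real.exp (-M / 2 * s ^ 2) :=
      mul_le_mul_of_nonneg_left (Real.exp_le_exp.mpr (by nlinarith)) e0.le
    simp only [hp, b4 (s ^ 2) (by linarith)]
    linarith

theorem continuous_Y : Continuous Y := by
  refine continuous_pi fun i => continuous_pi fun j => ?_
  fin_cases i <;> fin_cases j <;> simp [Y] <;> fun_prop

theorem ev_Y_ne {x : Eu 10} (hx : Y x ≠ 0) : ∀ᶠ z in 𝓝 x, Y z ≠ 0 :=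
  continuous_Y.continuousAt.eventually_ne hx

theorem NuSpec.at {ν : Eu 10 → ℝ} (hν : NuSpec ν) {x : Eu 10} (hx : Y x ≠ 0) :
    ContDiffAt ℝ ∞ ν x := hν.smooth.contDiffAt (ev_Y_ne hx)

theorem contDiff_coord {N : WithTop ℕ∞} : ContDiff ℝ N fun z : Eu 10 => z 0 :=
  (EuclideanSpace.proj (0 : Fin 10) : Eu 10 →L[ℝ] ℝ).contDiff

theorem hasFDerivAt_ratio {ν : Eu 10 → ℝ} (hν : NuSpec ν) {x : Eu 10} (hx : Y x ≠ 0) :
    HasFDerivAt (fun z : Eu 10 => z 0 / ν z)
      ((ν x)⁻¹ • (EuclideanSpace.proj (0 : Fin 10) : Eu 10 →L[ℝ] ℝ) -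
        (x 0 / ν x ^ 2) • fderiv ℝ ν x) x := by
  have n0 := (hν.pos x hx).ne'
  have a := ((hν.at hx).differentiableAt (by simp)).hasFDerivAt
  have b := (EuclideanSpace.proj (0 : Fin 10) : Eu 10 →L[ℝ] ℝ).hasFDerivAt (x := x)
  have c := b.mul ((hasDerivAt_inv n0).comp_hasFDerivAt x a)
  refine (c.congr_fderiv ?_).congr_of_eventuallyEq (Eventually.of_forall fun z => ?_)
  · ext v
    simp
    ring
  · simp [div_eq_mul_inv]

theorem comp_fderiv {ν : Eu 10 → ℝ} (hν : NuSpec ν) {Θ : ℝ → ℝ} (hΘ : Differentiable ℝ Θ)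
    {x : Eu 10} (hx : Y x ≠ 0) : fderiv ℝ (fun z => ν z * Θ (z 0 / ν z)) x =
      (Θ (x 0 / ν x) - x 0 / ν x * deriv Θ (x 0 / ν x)) • fderiv ℝ ν x +
        deriv Θ (x 0 / ν x) • (EuclideanSpace.proj (0 : Fin 10) : Eu 10 →L[ℝ] ℝ) := by
  have n0 := (hν.pos x hx).ne'
  have a := ((hν.at hx).differentiableAt (by simp)).hasFDerivAt
  have c := a.mul ((hΘ _).hasDerivAt.comp_hasFDerivAt x (hasFDerivAt_ratio hν hx))
  refine Eq.trans ?_ (c.fderiv.trans ?_)
  · rfl
  · ext v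
    simp
    field_simp
    ring

/-- first and second derivative of `ν * Θ (x 0 / ν)` -/
theorem comp_deriv {ν : Eu 10 → ℝ} (hν : NuSpec ν) {Θ : ℝ → ℝ} (hΘ : ContDiff ℝ 2 Θ) {x : Eu 10}
    (hx : Y x ≠ 0) (v : Eu 10) :
    ContDiffAt ℝ 2 (fun z => ν z * Θ (z 0 / ν z)) x ∧
    fderiv ℝ (fun z => ν z * Θ (z 0 / ν z)) x v =
      (Θ (x 0 / ν x) - x 0 / ν x * deriv Θ (x 0 / ν x)) * fderiv ℝ ν x v
        + deriv Θ (x 0 / ν x) * v 0 ∧
    D2 (fun z => ν z * Θ (z 0 / ν z)) x v v =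
      (Θ (x 0 / ν x) - x 0 / ν x * deriv Θ (x 0 / ν x)) * D2 ν x v v
        + deriv (deriv Θ) (x 0 / ν x) / ν x ^ 3 * (ν x * v 0 - x 0 * fderiv ℝ ν x v) ^ 2 := by
  have n0 := (hν.pos x hx).ne'
  have n2 : ContDiffAt ℝ 2 ν x := (hν.at hx).of_le (by norm_cast)
  have t1 : Differentiable ℝ Θ := hΘ.differentiable (by simp)
  have t2 : Differentiable ℝ (deriv Θ) :=
    (ContDiff.deriv' (n := 1) hΘ).differentiable (by simp)
  refine ⟨n2.mul (hΘ.contDiffAt.comp x (contDiff_coord.contDiffAt.div n2 n0)), ?_, ?_⟩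
  · rw [comp_fderiv hν t1 hx]
    simp
  · have e := (ev_Y_ne hx).mono fun z hz => comp_fderiv hν t1 hz
    have r := hasFDerivAt_ratio hν hx
    have a1 := (t1 _).hasDerivAt.comp_hasFDerivAt x r
    have a2 := (t2 _).hasDerivAt.comp_hasFDerivAt x r
    have a3 := ((n2.fderiv_right (m := 1) le_rfl).differentiableAt (by simp)).hasFDerivAt
    have a4 := ((a1.sub (r.mul a2)).smul a3).add
      (a2.smul_const (EuclideanSpace.proj (0 : Fin 10) : Eu 10 →L[ℝ] ℝ))
    have a5 := (a4.congr_of_eventuallyEq e).fderiv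
    unfold D2
    rw [a5]
    simp
    field_simp
    ring

theorem D2_add_norm {g : Eu 10 → ℝ} {x : Eu 10} (hg : ContDiffAt ℝ 2 g x) (hx : ‖x‖ = 1) (ε : ℝ)
    (v : Eu 10) : fderiv ℝ (fun z => g z + ε * ‖z‖) x v = fderiv ℝ g x v + ε * inner ℝ x v ∧
      D2 (fun z => g z + ε * ‖z‖) x v v = D2 g x v v + ε * (‖v‖ ^ 2 - inner ℝ x v ^ 2) := by
  have x0 : x ≠ 0 := by
    rintro rfl
    simp at hx
  have n2 : ContDiffAt ℝ 2 (fun z : Eu 10 => ‖z‖) x := contDiffAt_norm ℝ x0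
  constructor
  · have := ((hg.differentiableAt (by simp)).hasFDerivAt.add
      ((n2.differentiableAt (by simp)).hasFDerivAt.const_mul ε)).fderiv
    refine (congrArg (· v) this).trans ?_
    simp [fderiv_norm_unit hx]
  · have := hessM_lin hg n2 1 ε
    simp only [one_mul, one_smul] at this
    rw [← hessM_form, this, add_mulVec, dotProduct_add, smul_mulVec, dotProduct_smul, hessM_form,
      hessM_form, D2_norm_unit hx, real_inner_self_eq_norm_sq, smul_eq_mul, sq (inner ℝ x v)]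

theorem exists_f {ν : Eu 10 → ℝ} (hν : NuSpec ν) {δ M η : ℝ} {Ψ : ℝ → ℝ} (hΨ : PsiSpec δ M η Ψ)
    {ε : ℝ} (hε : 0 < ε) (hε1 : ε ≤ 1) : ∃ f : Eu 10 → ℝ, FSpec ν Ψ ε f := by
  classical
  obtain ⟨c, s₀, hc⟩ := hΨ.far
  set g : Eu 10 → ℝ := fun z => if Y z = 0 then c * |z 0| else ν z * Ψ (z 0 / ν z) with hg
  have g1 : ∀ x, Y x ≠ 0 → g =ᶠ[𝓝 x] fun z => ν z * Ψ (z 0 / ν z) := fun x hx =>
    (ev_Y_ne hx).mono fun z hz => if_neg hz
  have g2 : ∀ x, x ≠ 0 → Y x = 0 → ∃ L : Eu 10 →L[ℝ] ℝ, g =ᶠ[𝓝 x] L := by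
    intro x hx hy
    have x0 : x 0 ≠ 0 := by
      intro e
      apply hx
      rw [← inner_self_eq_zero (𝕜 := ℝ), inner_eq, e, hy]
      simp
    have c0 : Continuous fun z : Eu 10 => z 0 := (contDiff_coord (N := 0)).continuous
    have a1 : ∀ᶠ z in 𝓝 x, s₀ * ν z < |z 0| :=
      (continuous_const.mul hν.cont).continuousAt.eventually_lt c0.abs.continuousAt
        (by simpa [hν.zero x hy] using x0)
    have a2 : g =ᶠ[𝓝 x] fun z => c * |z 0| := a1.mono fun z hz => by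
      by_cases q : Y z = 0
      · exact if_pos q
      · have n0 := hν.pos z q
        simp only [hg, if_neg q]
        rw [hc _ (by rw [abs_div, abs_of_pos n0, le_div_iff₀ n0]; exact hz.le), abs_div,
          abs_of_pos n0]
        field_simp
    rcases lt_or_gt_of_ne x0 with q | q
    · refine ⟨(-c) • EuclideanSpace.proj (0 : Fin 10), a2.trans
        ((c0.continuousAt.eventually_lt continuousAt_const q).mono fun z hz => ?_)⟩
      simp [abs_of_neg hz]
    · refine ⟨c • EuclideanSpace.proj (0 : Fin 10), a2.trans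
        ((continuousAt_const.eventually_lt c0.continuousAt q).mono fun z hz => ?_)⟩
      simp [abs_of_pos hz]
  have g3 : ∀ x, x ≠ 0 → ContDiffAt ℝ ∞ g x := by
    intro x hx
    by_cases q : Y x = 0
    · obtain ⟨L, hL⟩ := g2 x hx q
      exact L.contDiff.contDiffAt.congr_of_eventuallyEq hL
    · exact ((hν.at q).mul (hΨ.smooth.contDiffAt.comp x (contDiff_coord.contDiffAt.div (hν.at q)
        (hν.pos x q).ne'))).congr_of_eventuallyEq (g1 x q)
  have u0 : ∀ x : Eu 10, ‖x‖ = 1 → x ≠ 0 := by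
    rintro x hx rfl
    simp at hx
  have g4 : ∀ x, ‖x‖ = 1 → ContDiffAt ℝ 2 g x := fun x hx => (g3 x (u0 x hx)).of_le (by norm_cast)
  have P2 : ContDiff ℝ 2 Ψ := hΨ.smooth.of_le (by norm_cast)
  have g5 : ∀ x, Y x ≠ 0 → D2 g x = D2 (fun z => ν z * Ψ (z 0 / ν z)) x := fun x hx =>
    (g1 x hx).fderiv.fderiv_eq
  refine ⟨fun z => g z + ε * ‖z‖, fun x hx => ((g3 x hx).add
    (contDiffAt_const.mul (contDiffAt_norm ℝ hx))).contDiffWithinAt, fun t ht x => ?_,
    fun k hk x => ?_, fun x hx v => ?_, fun x hx hy v => ?_, fun x hx hy v => ?_⟩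
  · simp only [hg, Y_smul, smul_eq_zero, ht.ne', false_or, norm_smul, Real.norm_of_nonneg ht.le,
      PiLp.smul_apply, smul_eq_mul, hν.hom t ht, abs_mul, abs_of_pos ht,
      mul_div_mul_left _ _ ht.ne']
    split_ifs <;> ring
  · obtain ⟨O, σ, h1, h2, h3⟩ := id hk
    have y : Y (k x) = 0 ↔ Y x = 0 := by
      rw [(h3 x).1]
      refine ⟨fun e => ?_, fun e => by simp [e]⟩
      have h4 : Oᵀ * O = 1 := mul_eq_one_comm.mp h1
      calc Y x = (Oᵀ * O) * Y x * (Oᵀ * O) := by simp [h4]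
        _ = Oᵀ * (O * Y x * Oᵀ) * O := by simp only [Matrix.mul_assoc]
        _ = 0 := by simp [e]
    simp only [hg, y, hν.inv k hk x, (h3 x).2, LinearIsometryEquiv.norm_map]
    rcases h2 with rfl | rfl
    · simp
    · simp [neg_div, hΨ.even]
  · have a : 0 ≤ D2 g x v v := by
      by_cases q : Y x = 0
      · obtain ⟨L, hL⟩ := g2 x (u0 x hx) q
        have : D2 g x = D2 L x := hL.fderiv.fderiv_eq
        have e : fderiv ℝ L = fun _ => L := funext fun z => L.fderiv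
        rw [this]
        simp [D2, e]
      · rw [g5 x q, (comp_deriv hν P2 q v).2.2]
        have := hν.pos x q
        exact add_nonneg (mul_nonneg (hΨ.p_nonneg _) (hν.psd x q v))
          (mul_nonneg (div_nonneg (hΨ.k_nonneg _) (by positivity)) (sq_nonneg _))
    rw [(D2_add_norm (g4 x hx) hx ε v).2]
    nlinarith [sq_nonneg (inner ℝ x v)]
  · rw [(D2_add_norm (g4 x hx) hx ε v).1, (g1 x hy).fderiv_eq, (comp_deriv hν P2 hy v).2.1]
  · rw [(D2_add_norm (g4 x hx) hx ε v).2, g5 x hy, (comp_deriv hν P2 hy v).2.2]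

end Pool.Agent.P.MP_4a4b50_gt.CE
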