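import Pool.Agent.P.MP_4a4b50_gt.CSob1
import Pool.Agent.P.MP_4a4b50_gt.CDefs

/-! The Sobolev scale on the sphere satisfies the interface `CE.Sob`. -/

set_option autoImplicit false

noncomputable section

open Set Filter Topology Metric
open scoped BoundedContinuousFunction ContDiff

namespace Pool.Agent.P.MP_4a4b50_gt

variable {n : ℕ}

/-- evaluation as an algebra homomorphism -/
def evA (j : ℕ) : AA n j →ₐ[ℝ] C(Sph n, ℝ) where
  toFun a := (ev j a).toContinuousMap
  map_one' := ContinuousMap.ext fun u => map_one (evp j u)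
  map_mul' a b := ContinuousMap.ext fun u => map_mul (evp j u) a b
  map_zero' := ContinuousMap.ext fun u => map_zero (evp j u)
  map_add' a b := ContinuousMap.ext fun u => map_add (evp j u) a b
  commutes' r := ContinuousMap.ext fun u => by
    have h1 : ev j (1 : AA n j) u = 1 := map_one (evp j u)
    rw [Algebra.algebraMap_eq_smul_one, map_smul]
    change r * ev j (1 : AA n j) u = r
    rw [h1, mul_one]

theorem evA_apply (j : ℕ) (a : AA n j) (u : Sph n) : evA j a u = ev j a u := rfl

theorem evA_cont (j : ℕ) : Continuous (evA (n := n) j) :=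
  (ContinuousMap.isometryEquivBoundedOfCompact (Sph n) ℝ).symm.continuous.comp (ev j).continuous

theorem evA_inj (N : ℕ) : Function.Injective (evA (n := n) (2 * N)) := by
  rw [injective_iff_map_eq_zero]
  intro a ha
  apply ev_inj0
  ext u
  exact congrArg (fun F : C(Sph n, ℝ) => F u) ha

/-- the pairing -/
def BB (N : ℕ) : AA n (2 * N) →L[ℝ] LL n →L[ℝ] ℝ :=
  (innerSL ℝ : LL n →L[ℝ] LL n →L[ℝ] ℝ).comp (Phi N)

theorem BB_apply (N : ℕ) (a : AA n (2 * N)) (w : LL n) : BB N a w = inner ℝ (Phi N a) w := rfl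

theorem garding_BB (N : ℕ) (a : Fin n → Fin n → AA n (2 * N))
    (h1 : ∀ k j, ∃ h : EE n → ℝ, ContDiffOn ℝ ∞ h {0}ᶜ ∧ ∀ x : Sph n, evA (2 * N) (a k j) x = h x)
    (h2 : ∀ x : Sph n, (Matrix.of fun k j => evA (2 * N) (a k j) x).PosDef) :
    ∃ μ c : ℝ, 0 < c ∧ ∀ w, c * ‖w‖ ^ 2
      ≤ BB N (μ • opH N 1 w - ∑ k, ∑ j, a k j * opH N (D k j) w) w := by
  choose h hs he using h1
  let s : Matrix (Fin n) (Fin n) (Sm n) := fun k j => ⟨fun u => h k j u, cm_of_smooth (hs k j)⟩
  have e : ∀ k j, a k j = io (2 * N) (s k j) := by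
    intro k j
    apply evA_inj
    ext u
    rw [he, evA_apply, ev_io]
    rfl
  have hell : Ell s := ell_of_posDef fun u => by
    have := h2 u
    simp only [he] at this
    exact this
  obtain ⟨μ, c, hc, hg⟩ := garding_high hell (n + N)
  refine ⟨μ, c, hc, fun w => ?_⟩
  refine (dense_em (n + N + 1)).induction_on w (p := fun w => c * ‖w‖ ^ 2
    ≤ BB N (μ • opH N 1 w - ∑ k, ∑ j, a k j * opH N (D k j) w) w)
    (isClosed_le (continuous_const.mul (continuous_norm.pow 2))
      (((Phi N).continuous.comp (((opH N 1).continuous.const_smul μ).sub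
        (continuous_finsetSum _ fun k _ => continuous_finsetSum _ fun j _ =>
          continuous_const.mul (opH N (D k j)).continuous))).inner continuous_id)) fun f => ?_
  simp only [e, opH_em N (bd_D _ _), ← io_mul, ← map_sum]
  rw [inc_em, ← Op_apply, ← map_smul, ← map_sub, BB_apply, Phi_io, inner_em, norm_em]
  exact hg f

theorem gap_BB (N : ℕ) (G : Set (EE n ≃ₗᵢ[ℝ] EE n)) (hG : ∀ v, (∀ g ∈ G, g v = v) → v = 0) :
    ∃ c : ℝ, 0 < c ∧ ∀ w : LL n,
      (∀ x, lift (ev (2 * N + 2) (kap N w)) (-x) = -lift (ev (2 * N + 2) (kap N w)) x) →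
      (∀ g ∈ G, ∀ x, lift (ev (2 * N + 2) (kap N w)) (g x) = lift (ev (2 * N + 2) (kap N w)) x) →
      c * ‖w‖ ^ 2 ≤ BB N (-∑ k, opH N (D k k) w) w := by
  refine ⟨1 / 2, by norm_num, fun w hodd hinv => ?_⟩
  have h1 := gap_LL N w fun q hq => by
    rw [inner_eq_IIc N, ev_inc]
    refine orth_lin hG (fun u => ?_) (fun g hg u => ?_) (Ep_pow_VV _ hq)
    · have := hodd u
      rw [lift_coe] at this
      exact (lift_coe _ (act (LinearIsometryEquiv.neg ℝ) u)).symm.trans this
    · have := hinv g hg u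
      rw [lift_coe] at this
      exact (lift_coe _ (act g u)).symm.trans this
  rw [BB_apply, map_neg, Phi_sum_D, neg_sub, inner_sub_left, inner_smul_left,
    real_inner_self_eq_norm_sq]
  have h2 := mul_le_mul_of_nonneg_left h1 (show (0 : ℝ) ≤ n by positivity)
  have h3 : (n : ℝ) * (‖w‖ ^ 2 / (2 * n + 1)) ≤ 1 / 2 * ‖w‖ ^ 2 := by
    rw [mul_div_assoc', div_le_iff₀ (by positivity)]
    nlinarith [sq_nonneg ‖w‖]
  simp only [conj_trivial]
  linarith

/-- the Sobolev scale -/
def sobInst (n N : ℕ) : CE.Sob n N (LL n) (AA n (2 * N)) where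
  i := opH N 1
  i_compact := inc_compact N
  B := BB N
  B_sep a h := by
    apply Phi_inj
    have := h (Phi N a)
    rwa [BB_apply, inner_self_eq_zero] at this
  B_i w := by
    refine (dense_em (n + N + 1)).induction_on w (p := fun w => 0 ≤ BB N (opH N 1 w) w)
      (isClosed_le continuous_const
        (((Phi N).continuous.comp (opH N 1).continuous).inner continuous_id)) fun f => ?_
    rw [inc_em, BB_apply, Phi_io, inner_em, pow_succ', Module.End.mul_apply, II_Ep_self]
    exact add_nonneg (sq_nonneg _) (Finset.sum_nonneg fun _ _ => sq_nonneg _)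
  ev := evA (2 * N)
  ev_cont := evA_cont _
  ev_inj := evA_inj N
  emb h hs := ⟨io (2 * N) ⟨fun u => h u, cm_of_smooth hs⟩, fun x => by
    rw [evA_apply, ev_io]
    rfl⟩
  Hess k j := opH N (D k j)
  ext w := lift (ev (2 * N + 2) (kap N w))
  ext_smooth w := (reg N _ (by omega) _).lift
  ext_hom w := lift_hom _
  ext_eq w x := by rw [lift_coe, evA_apply, ev_inc]
  ext_hess w x k j := hess_ev (2 * N) (kap N w) x k j
  garding := garding_BB N
  gap := gap_BB N

theorem exists_sob (n N : ℕ) : Nonempty (CE.Sob n N (LL n) (AA n (2 * N))) := ⟨sobInst n N⟩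

theorem CE.exists_sob {n : ℕ} (_hn : 2 ≤ n) (N : ℕ) : ∃ (H A : Type) (_ : NormedAddCommGroup H)
    (_ : InnerProductSpace ℝ H) (_ : CompleteSpace H) (_ : NormedCommRing A)
    (_ : NormedAlgebra ℝ A) (_ : CompleteSpace A), Nonempty (CE.Sob n N H A) :=
  ⟨LL n, AA n (2 * N), inferInstance, inferInstance, inferInstance, inferInstance, inferInstance,
    inferInstance, ⟨sobInst n N⟩⟩

end Pool.Agent.P.MP_4a4b50_gt
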