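import Pool.Agent.P.MP_4a4b50_gt.Gard

/-! The Hilbert space and the pairing of the Sobolev scale. -/

set_option autoImplicit false

noncomputable section

open Set Filter Topology Metric MeasureTheory
open scoped BoundedContinuousFunction ContDiff

namespace Pool.Agent.P.MP_4a4b50_gt

variable {n : ℕ}

/-- completion for the square integral norm -/
abbrev LL (n : ℕ) : Type := UniformSpace.Completion (S0 n)

/-- a power of `1 - Δ` followed by the inclusion -/
def em (m : ℕ) : Sm n →ₗ[ℝ] LL n :=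
  (UniformSpace.Completion.toComplL : S0 n →L[ℝ] LL n).toLinearMap ∘ₗ toS0.toLinearMap ∘ₗ
    (Ep ^ m : Module.End ℝ (Sm n))

theorem em_apply (m : ℕ) (f : Sm n) : em m f = ((toS0 ((Ep ^ m) f) : S0 n) : LL n) := rfl

theorem norm_em (m : ℕ) (f : Sm n) : ‖em m f‖ = nrm 0 ((Ep ^ m) f) :=
  UniformSpace.Completion.norm_coe _

theorem inner_em (a b : ℕ) (f g : Sm n) :
    inner ℝ (em a f) (em b g) = II ((Ep ^ a) f * (Ep ^ b) g) := by
  rw [em_apply, em_apply, UniformSpace.Completion.inner_coe, inner_S0]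

theorem em_zero (m : ℕ) (f : Sm n) : em m f = em 0 ((Ep ^ m) f) := rfl

theorem em_succ (m : ℕ) (f : Sm n) : em m (Ep f) = em (m + 1) f := by
  rw [em_apply, em_apply, pow_succ, Module.End.mul_apply]

theorem dense_poly (m : ℕ) :
    DenseRange fun s : {s : Sm n // ∃ N, s ∈ VV n N} => em m s.1 := by
  rw [Metric.denseRange_iff]
  intro w ε hε
  obtain ⟨f, hf⟩ := Metric.denseRange_iff.mp (UniformSpace.Completion.denseRange_coe (α := S0 n))
    w (ε / 2) (by positivity)
  obtain ⟨N, q, hq, h⟩ := poly_dense (toS0.symm f) (ε := ε / 2) (by positivity)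
  obtain ⟨s, hs, e⟩ := Ep_pow_surj m hq
  refine ⟨⟨s, N, hs⟩, ?_⟩
  have h2 : dist (f : LL n) (em m s) < ε / 2 := by
    rw [em_apply, e, UniformSpace.Completion.dist_eq, dist_comm, dist_eq_norm]
    exact h
  linarith [dist_triangle w (f : LL n) (em m s)]

theorem dense_em (m : ℕ) : DenseRange (em (n := n) m) :=
  DenseRange.of_comp (g := fun s : {s : Sm n // ∃ N, s ∈ VV n N} => s.1) (dense_poly m)

/-- embedding of the Hilbert space in the algebra of higher order -/
def kap (N : ℕ) : LL n →L[ℝ] AA n (2 * N + 2) := (io (2 * N + 2)).extendOfNorm (em (n + N + 1))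

theorem kap_em (N : ℕ) (f : Sm n) : kap N (em (n + N + 1) f) = io (2 * N + 2) f := by
  apply LinearMap.extendOfNorm_eq (dense_em _)
  obtain ⟨C, hC, h⟩ := apriori_Ep_pow (n := n) (n + N + 1) 0
  refine ⟨cst n (2 * N + 2) * C, fun f => ?_⟩
  rw [norm_io, norm_em, mul_assoc]
  refine mul_le_mul_of_nonneg_left (le_trans (le_of_eq ?_) (h f)) (cst_pos _).le
  congr 2
  omega

/-- the map of the algebra to square integrable functions -/
def Phi (N : ℕ) : AA n (2 * N) →L[ℝ] LL n := (em (n + N)).extendOfNorm (io (2 * N))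

theorem Phi_io (N : ℕ) (f : Sm n) : Phi N (io (2 * N) f) = em (n + N) f := by
  apply LinearMap.extendOfNorm_eq (dense_io _)
  obtain ⟨C, hC, h⟩ := bd_Ep_pow (n := n) (n + N) 0
  have hc := cst_pos (n := n) (2 * N)
  refine ⟨C / cst n (2 * N), fun f => ?_⟩
  rw [norm_io, norm_em, ← mul_assoc, div_mul_cancel₀ _ hc.ne']
  refine (h f).trans (le_of_eq ?_)
  congr 3
  omega

theorem Phi_low (N : ℕ) : ∃ C : ℝ, 0 ≤ C ∧ ∀ a : AA n (2 * N), ‖a‖ ≤ C * ‖Phi N a‖ := by
  obtain ⟨C, hC, h⟩ := apriori_Ep_pow (n := n) (n + N) 0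
  refine ⟨cst n (2 * N) * C, mul_nonneg (cst_pos _).le hC, fun a => ?_⟩
  refine (dense_io (2 * N)).induction_on a (p := fun a => ‖a‖ ≤ cst n (2 * N) * C * ‖Phi N a‖)
    (isClosed_le continuous_norm (continuous_const.mul (Phi N).continuous.norm)) fun f => ?_
  rw [Phi_io, norm_io, norm_em, mul_assoc]
  refine mul_le_mul_of_nonneg_left (le_trans (le_of_eq ?_) (h f)) (cst_pos _).le
  congr 2
  omega

theorem Phi_inj (N : ℕ) {a : AA n (2 * N)} (h : Phi N a = 0) : a = 0 := by
  obtain ⟨C, -, h1⟩ := Phi_low (n := n) N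
  have := h1 a
  rw [h, norm_zero, mul_zero] at this
  exact norm_le_zero_iff.mp this

/-- an operator of order two from the Hilbert space to the algebra -/
def opH (N : ℕ) (P : Module.End ℝ (Sm n)) : LL n →L[ℝ] AA n (2 * N) :=
  (opL P (2 * N) 2).comp (kap N)

theorem opH_em (N : ℕ) {P : Module.End ℝ (Sm n)} (hP : Bd 2 P) (f : Sm n) :
    opH N P (em (n + N + 1) f) = io (2 * N) (P f) := by
  rw [opH, ContinuousLinearMap.comp_apply, kap_em, opL_io hP]

theorem bd_one2 : Bd 2 (1 : Module.End ℝ (Sm n)) := bd_one.mono (by norm_num)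

theorem inc_em (N : ℕ) (f : Sm n) : opH N 1 (em (n + N + 1) f) = io (2 * N) f :=
  opH_em N bd_one2 f

theorem ev_inc (N : ℕ) (w : LL n) : ev (2 * N) (opH N 1 w) = ev (2 * N + 2) (kap N w) := by
  refine (dense_em (n + N + 1)).induction_on w
    (p := fun w => ev (2 * N) (opH N 1 w) = ev (2 * N + 2) (kap N w))
    (isClosed_eq ((ev _).continuous.comp (opH N 1).continuous)
      ((ev _).continuous.comp (kap N).continuous)) fun f => ?_
  rw [inc_em, kap_em, ev_io, ev_io]

theorem compact_of_interp {H A Z : Type*} [NormedAddCommGroup H] [NormedSpace ℝ H]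
    [NormedAddCommGroup A] [NormedSpace ℝ A] [CompleteSpace A] [NormedAddCommGroup Z]
    [NormedSpace ℝ Z] (i : H →L[ℝ] A) (K : H →L[ℝ] Z) (hK : TotallyBounded (K '' closedBall 0 1))
    (h : ∀ ε : ℝ, 0 < ε → ∃ C : ℝ, 0 ≤ C ∧ ∀ w, ‖i w‖ ≤ ε * ‖w‖ + C * ‖K w‖) :
    IsCompactOperator i := by
  refine (isCompactOperator_iff_isCompact_closure_image_closedBall i.toLinearMap one_pos).mpr ?_
  refine TotallyBounded.isCompact_of_isClosed (TotallyBounded.closure ?_) isClosed_closure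
  rw [Metric.totallyBounded_iff]
  intro ε hε
  obtain ⟨C, hC, h1⟩ := h (ε / 4) (by positivity)
  obtain ⟨t, ht1, ht2, ht3⟩ := Metric.finite_approx_of_totallyBounded hK (ε / 2 / (C + 1))
    (by positivity)
  have ht4 : ∀ y ∈ t, ∃ w ∈ closedBall (0 : H) 1, K w = y := fun y hy => ht1 hy
  choose! g hg1 hg2 using ht4
  refine ⟨(fun y => i (g y)) '' t, ht2.image _, ?_⟩
  rintro _ ⟨w, hw, rfl⟩
  obtain ⟨y, hy, hwy⟩ := mem_iUnion₂.mp (ht3 ⟨w, hw, rfl⟩)
  refine mem_iUnion₂.mpr ⟨_, ⟨y, hy, rfl⟩, ?_⟩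
  rw [mem_ball, dist_eq_norm] at hwy ⊢
  have a1 := h1 (w - g y)
  rw [map_sub, map_sub, hg2 y hy] at a1
  have a2 : ‖w - g y‖ ≤ 2 := by
    have := norm_sub_le w (g y)
    have b1 := mem_closedBall_zero_iff.mp hw
    have b2 := mem_closedBall_zero_iff.mp (hg1 y hy)
    linarith
  have a3 : C * ‖K w - y‖ < ε / 2 := by
    rw [lt_div_iff₀ (by positivity)] at hwy
    nlinarith [norm_nonneg (K w - y)]
  have a4 := mul_le_mul_of_nonneg_left a2 (show 0 ≤ ε / 4 by positivity)
  change ‖i w - i (g y)‖ < ε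
  linarith

theorem nrm_le_sup (f : Sm n) : nrm 0 f ≤ nrm 0 (1 : Sm n) * ‖evS f‖ := by
  have := nrm_zero_mul (a := f) (fun u => (evS f).norm_coe_le_norm u) (norm_nonneg _) 1
  rwa [mul_one, mul_comm] at this

theorem inc_compact (N : ℕ) : IsCompactOperator (opH (n := n) N 1) := by
  apply compact_of_interp _ ((ev (2 * N + 2)).comp (kap N))
  · obtain ⟨S, hS, h⟩ := ev_compact (n := n) (2 * N + 1)
    obtain ⟨R, hR, hk⟩ : ∃ R : ℝ, 0 < R ∧ ∀ w : LL n, ‖kap N w‖ ≤ R * ‖w‖ := (kap N).bound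
    refine (hS.image (continuous_const_smul R)).totallyBounded.subset ?_
    rintro _ ⟨w, hw, rfl⟩
    refine ⟨_, h (R⁻¹ • kap N w) ?_, ?_⟩
    · rw [norm_smul, norm_inv, Real.norm_of_nonneg hR.le, inv_mul_le_iff₀ hR]
      exact (hk w).trans (mul_le_mul_of_nonneg_left (mem_closedBall_zero_iff.mp hw) hR.le)
    · change R • ev (2 * N + 2) (R⁻¹ • kap N w) = ev (2 * N + 2) (kap N w)
      rw [map_smul, smul_inv_smul₀ hR.ne']
  · intro ε hε
    obtain ⟨C, hC, h⟩ := Phi_low (n := n) N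
    obtain ⟨C1, hC1, h1⟩ := interp (n := n) (n + N) (ε / (C + 1)) (by positivity)
    have h0 := nn 0 (1 : Sm n)
    refine ⟨C * C1 * nrm 0 (1 : Sm n), by positivity, fun w => ?_⟩
    refine (dense_em (n + N + 1)).induction_on w (p := fun w => ‖opH N 1 w‖ ≤ ε * ‖w‖
      + C * C1 * nrm 0 (1 : Sm n) * ‖((ev (2 * N + 2)).comp (kap N)) w‖)
      (isClosed_le (opH N 1).continuous.norm ((continuous_const.mul continuous_norm).add
        (continuous_const.mul ((ev (2 * N + 2)).comp (kap N)).continuous.norm))) fun f => ?_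
    refine (h _).trans ?_
    rw [inc_em, Phi_io, ContinuousLinearMap.comp_apply, kap_em, ev_io, norm_em, norm_em]
    have a1 := mul_le_mul_of_nonneg_left (h1 f) hC
    have a2 := mul_le_mul_of_nonneg_left (nrm_le_sup f) (mul_nonneg hC hC1)
    have a3 : C * (ε / (C + 1)) ≤ ε := by
      rw [mul_div_assoc', div_le_iff₀ (by positivity)]
      nlinarith
    have a4 := mul_le_mul_of_nonneg_right a3 (nn 0 ((Ep ^ (n + N + 1)) f))
    nlinarith

theorem wtc_int (F : Sph n →ᵇ ℝ) : Integrable fun x => ext0 F x * chi x := by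
  obtain ⟨h1, h2⟩ := glob (m := 0) (r := 3 / 4) (F := fun x => ext0 F x * chi x) (by norm_num)
    (contDiffOn_zero.mpr ((continuous_nu_ext F.continuous).mul chi_smooth.continuous.continuousOn))
    fun x hx => by rw [chi_zero hx, mul_zero]
  exact h1.continuous.integrable_of_hasCompactSupport h2

/-- the invariant integral on continuous functions, linear form -/
def IIl : (Sph n →ᵇ ℝ) →ₗ[ℝ] ℝ where
  toFun F := ∫ x, ext0 F x * chi x
  map_add' f g := by
    rw [← integral_add (wtc_int f) (wtc_int g)]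
    congr 1
    funext x
    rw [BoundedContinuousFunction.coe_add, ext0_add, Pi.add_apply, add_mul]
  map_smul' c f := by
    rw [RingHom.id_apply, smul_eq_mul, ← integral_const_mul]
    congr 1
    funext x
    have : ⇑(c • f) = c • ⇑f := rfl
    rw [this, ext0_smul, Pi.smul_apply, smul_eq_mul, mul_assoc]

/-- the invariant integral on continuous functions -/
def IIc : (Sph n →ᵇ ℝ) →L[ℝ] ℝ :=
  IIl.mkContinuous (∫ x : EE n, ext0 (1 : Sph n →ᵇ ℝ) x * chi x) fun F => by
    rw [mul_comm, ← integral_const_mul]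
    refine norm_integral_le_of_norm_le ((wtc_int 1).const_mul _) (Eventually.of_forall fun x => ?_)
    by_cases hx : x = 0
    · simp [hx]
    · rw [norm_mul, ext0_of_ne _ hx, ext0_of_ne _ hx, Real.norm_of_nonneg (chi_nonneg x),
        BoundedContinuousFunction.coe_one, Pi.one_apply, one_mul]
      exact mul_le_mul_of_nonneg_right (F.norm_coe_le_norm _) (chi_nonneg x)

theorem IIc_apply (F : Sph n →ᵇ ℝ) : IIc F = ∫ x, ext0 F x * chi x := rfl

theorem IIc_evS (f g : Sm n) : IIc (evS f * evS g) = II (f * g) := rfl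

theorem IIc_act (g : EE n ≃ₗᵢ[ℝ] EE n) {F G : Sph n →ᵇ ℝ} (h : ∀ u, G u = F (act g u)) :
    IIc G = IIc F := by
  rw [IIc_apply, IIc_apply, ← g.measurePreserving.integral_comp g.toHomeomorph.measurableEmbedding
    (fun x => ext0 F x * chi x)]
  congr 1
  funext x
  have e : ⇑G = F ∘ act g := funext h
  rw [e, ext0_act, chi, chi, g.norm_map]

theorem ev_inj0 (N : ℕ) {a : AA n (2 * N)} (h : ev (2 * N) a = 0) : a = 0 := by
  apply Phi_inj
  have h1 : ∀ φ : Sm n, inner ℝ (Phi N a) (em 0 φ)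
      = IIc (ev (2 * N) a * evS ((Ep ^ (n + N)) φ)) := by
    intro φ
    refine (dense_io (2 * N)).induction_on a (p := fun a => inner ℝ (Phi N a) (em 0 φ)
      = IIc (ev (2 * N) a * evS ((Ep ^ (n + N)) φ)))
      (isClosed_eq ((Phi N).continuous.inner continuous_const)
        (IIc.continuous.comp ((ev _).continuous.mul continuous_const))) fun f => ?_
    rw [Phi_io, inner_em, ev_io, IIc_evS, II_Ep_pow_symm (n + N) f φ]
    rfl
  refine (dense_em 0).eq_zero_of_inner_left ℝ fun φ => ?_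
  rw [h1, h, zero_mul, map_zero]

theorem VV_ind' {M : Type*} [AddCommGroup M] [Module ℝ M] {N : ℕ} (P : Sm n →ₗ[ℝ] M) (h1 : P 1 = 0)
    (h2 : ∀ i, ∀ g ∈ VV n N, P (xh i * g) = 0) {f : Sm n} (hf : f ∈ VV n (N + 1)) : P f = 0 := by
  have : VV n (N + 1) ≤ LinearMap.ker P := by
    refine sup_le ?_ (iSup_le fun i => ?_)
    · rw [Submodule.span_singleton_le_iff_mem]
      exact h1
    · rintro _ ⟨g, hg, rfl⟩
      exact h2 i g hg
  exact this hf

theorem orth_lin {G : Set (EE n ≃ₗᵢ[ℝ] EE n)} (hG : ∀ v, (∀ g ∈ G, g v = v) → v = 0)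
    {F : Sph n →ᵇ ℝ} (hodd : ∀ u, F (act (LinearIsometryEquiv.neg ℝ) u) = -F u)
    (hinv : ∀ g ∈ G, ∀ u, F (act g u) = F u) {r : Sm n} (hr : r ∈ VV n 2) :
    IIc (F * evS r) = 0 := by
  let lam : Sm n →ₗ[ℝ] ℝ := IIc.toLinearMap ∘ₗ LinearMap.mulLeft ℝ F ∘ₗ evS
  have hl : ∀ r, lam r = IIc (F * evS r) := fun r => rfl
  have h1 : lam 1 = 0 := by
    have := IIc_act (LinearIsometryEquiv.neg ℝ) (F := F * evS 1) (G := -(F * evS 1)) fun u => by
      simp [hodd, evS_apply]
    rw [map_neg] at this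
    rw [hl]
    linarith
  have h2 : ∀ i, lam (xh i) = 0 := by
    set V : EE n := WithLp.toLp 2 fun i => lam (xh i) with hV
    have hin : ∀ y : EE n, inner ℝ V y = lam (∑ i, y i • xh i) := by
      intro y
      simp [hV, PiLp.inner_apply, map_sum]
    have hev : ∀ (y : EE n) (u : Sph n), evS (∑ i, y i • xh i) u = inner ℝ (u : EE n) y := by
      intro y u
      rw [evS_apply, Sm.sum_apply]
      simp [PiLp.inner_apply, xh_coe, xf]
    have h0 : V = 0 := by
      apply hG
      intro g hg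
      apply ext_inner_right ℝ
      intro y
      rw [g.inner_map_eq_flip, hin, hin, hl, hl]
      apply IIc_act g
      intro u
      rw [BoundedContinuousFunction.mul_apply, BoundedContinuousFunction.mul_apply, hev, hev,
        hinv g hg, ← g.inner_map_eq_flip]
      rfl
    intro i
    exact congrArg (fun v : EE n => v i) h0
  rw [← hl]
  refine VV_ind' lam h1 (fun i g hg => ?_) hr
  refine VV_ind' (lam ∘ₗ mu (xh i)) ?_ (fun a g hg => ?_) hg
  · simp [h2]
  · rw [(Submodule.mem_bot ℝ).mp hg, mul_zero, map_zero]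

theorem gap_smooth {N : ℕ} {v q : Sm n} (hv : v ∈ VV n N) (hq : q ∈ VV n 2)
    (ho : ∀ r ∈ VV n 2, II ((Ep v - q) * r) = 0) :
    II (v * Ep v) ≤ nrm 0 (Ep v) ^ 2 / (2 * n + 1) + nrm 0 q ^ 2 := by
  obtain ⟨r, hr, rfl⟩ := Ep_surj hq
  obtain ⟨b, rfl⟩ : ∃ b, v = b + r := ⟨v - r, by abel⟩
  rw [map_add, add_sub_cancel_right] at ho
  have hb : b ∈ VV n (N + 2) := by
    have := sub_mem (VV_mono (Nat.le_add_right N 2) hv) (VV_mono (Nat.le_add_left 2 N) hr)
    rwa [add_sub_cancel_right] at this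
  have h1 := spectral _ hb fun q hq => by
    obtain ⟨s, hs, rfl⟩ := Ep_surj hq
    rw [II_Ep_symm, ho s hs]
  have h2 := (le_abs_self _).trans (II_le b (Ep b))
  have h3 : II (b * Ep r) = 0 := by rw [II_Ep_symm, ho r hr]
  have h4 : II (r * Ep b) = 0 := by rw [mul_comm, ho r hr]
  have h5 : II (r * Ep r) ≤ nrm 0 (Ep r) ^ 2 := by
    refine (le_abs_self _).trans ((II_le _ _).trans ?_)
    rw [sq]
    exact mul_le_mul_of_nonneg_right (nrm_le_Ep r) (nn _ _)
  have h6 : nrm 0 (Ep b) ^ 2 ≤ nrm 0 (Ep b + Ep r) ^ 2 := by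
    have e : II (Ep r * Ep b) = 0 := by rw [mul_comm, ho _ hq]
    have := sq_nonneg (nrm 0 (Ep r))
    simp only [nrm_sq, add_mul, mul_add, map_add, e, ho _ hq] at this ⊢
    linarith
  have h7 : nrm 0 b ≤ 1 / (2 * n + 1) * nrm 0 (Ep b) := by
    refine sq_le_imp (nn _ _) (mul_nonneg (by positivity) (nn _ _)) ?_
    rw [one_div, le_inv_mul_iff₀ (by positivity), nrm_sq]
    linarith
  have h8 := mul_le_mul_of_nonneg_right h7 (nn 0 (Ep b))
  have h9 : 1 / (2 * n + 1) * nrm 0 (Ep b) * nrm 0 (Ep b)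
      ≤ nrm 0 (Ep b + Ep r) ^ 2 / (2 * n + 1) := by
    rw [mul_assoc, ← sq, one_div, inv_mul_eq_div]
    exact div_le_div_of_nonneg_right h6 (by positivity)
  simp only [map_add, add_mul, mul_add, h3, h4]
  linarith

theorem gap_LL (N : ℕ) (w : LL n) (ho : ∀ q ∈ VV n 2, inner ℝ w (em 0 q) = 0) :
    inner ℝ (Phi N (opH N 1 w)) w ≤ ‖w‖ ^ 2 / (2 * n + 1) := by
  let K : Submodule ℝ (LL n) := (VV n 2).map (em 0)
  have : CompleteSpace K := FiniteDimensional.complete ℝ K
  have h1 : inner ℝ (Phi N (opH N 1 w)) w ≤ ‖w‖ ^ 2 / (2 * n + 1) + ‖K.starProjection w‖ ^ 2 := by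
    refine (dense_poly (n + N + 1)).induction_on w (p := fun w => inner ℝ (Phi N (opH N 1 w)) w
      ≤ ‖w‖ ^ 2 / (2 * n + 1) + ‖K.starProjection w‖ ^ 2)
      (isClosed_le (((Phi N).continuous.comp (opH N 1).continuous).inner continuous_id)
        (((continuous_norm.pow 2).div_const _).add (K.starProjection.continuous.norm.pow 2))) ?_
    rintro ⟨s, M, hs⟩
    obtain ⟨q, hq, e⟩ := K.starProjection_apply_mem (em (n + N + 1) s)
    have h2 := gap_smooth (Ep_pow_VV (n + N) hs) hq fun r hr => by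
      have := K.starProjection_inner_eq_zero (em (n + N + 1) s) (em 0 r) ⟨r, hr, rfl⟩
      rw [← e, em_zero (n + N + 1), ← map_sub, inner_em, pow_succ'] at this
      exact this
    simp only
    rw [inc_em, Phi_io, inner_em, ← e, norm_em, norm_em, pow_succ']
    exact h2
  have h2 : K.starProjection w = 0 := by
    apply Submodule.eq_starProjection_of_mem_of_inner_eq_zero (zero_mem _)
    rintro _ ⟨q, hq, rfl⟩
    rw [sub_zero]
    exact ho q hq
  rwa [h2, norm_zero, zero_pow two_ne_zero, add_zero] at h1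

theorem inner_eq_IIc (N : ℕ) (w : LL n) (q : Sm n) :
    inner ℝ w (em 0 q) = IIc (ev (2 * N) (opH N 1 w) * evS ((Ep ^ (n + N + 1)) q)) := by
  refine (dense_em (n + N + 1)).induction_on w (p := fun w => inner ℝ w (em 0 q)
    = IIc (ev (2 * N) (opH N 1 w) * evS ((Ep ^ (n + N + 1)) q)))
    (isClosed_eq (continuous_id.inner continuous_const) (IIc.continuous.comp
      (((ev _).continuous.comp (opH N 1).continuous).mul continuous_const))) fun f => ?_
  rw [inc_em, inner_em, ev_io, IIc_evS, II_Ep_pow_symm (n + N + 1) f q]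
  rfl

theorem Phi_sum_D (N : ℕ) (w : LL n) :
    Phi N (∑ k, opH N (D k k) w) = (n : ℝ) • Phi N (opH N 1 w) - w := by
  refine (dense_em (n + N + 1)).induction_on w (p := fun w =>
    Phi N (∑ k, opH N (D k k) w) = (n : ℝ) • Phi N (opH N 1 w) - w)
    (isClosed_eq ((Phi N).continuous.comp (continuous_finsetSum _ fun k _ =>
      (opH N (D k k)).continuous))
      ((((Phi N).continuous.comp (opH N 1).continuous).const_smul (n : ℝ)).sub continuous_id))
    fun f => ?_
  simp only [opH_em N (bd_D _ _)]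
  rw [← map_sum, sum_D, inc_em, Phi_io, Phi_io, map_sub, map_smul, em_succ]

theorem cm_of_smooth {h : EE n → ℝ} (hs : ContDiffOn ℝ ∞ h {0}ᶜ) : Cm ∞ fun u : Sph n => h u :=
  cm_of (F := h ∘ fun x => ‖x‖⁻¹ • x) (hs.comp ((contDiffOn_nrm_inv ∞).smul contDiffOn_id)
    fun x hx => smul_ne_zero (inv_ne_zero (norm_ne_zero_iff.mpr hx)) hx)
    fun x hx => by rw [ext0_of_ne _ hx]; rfl

end Pool.Agent.P.MP_4a4b50_gt
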