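import Pool.Agent.P.MP_4a4b50_gt.CSub1

/-! The second order test at the touching point and auxiliary matrix facts. -/

set_option autoImplicit false

namespace Pool.Agent.P.MP_4a4b50_gt.CE

open scoped ContDiff Topology
open Pool.Agent.P.MP_f97e06_gt (Eu)
open Matrix Set Filter

namespace Sub

theorem expand (a : Fin 4 → ℝ) {B : Matrix (Fin 4) (Fin 4) ℝ} (hB : Bᵀ = B) {w : Fin 4 → ℝ}
    (hw : w 0 = 0) (r : ℝ) :
    (Pi.single 0 1 + r • w) ⬝ᵥ (diagonal a + r • B) *ᵥ (Pi.single 0 1 + r • w) =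
      a 0 + B 0 0 * r + (∑ j, (a j * w j ^ 2 + 2 * B 0 j * w j)) * r ^ 2
        + (w ⬝ᵥ B *ᵥ w) * r ^ 3 := by
  have hs : ∀ i j, B j i = B i j := fun i j => by
    conv_rhs => rw [← hB]
    rfl
  simp [dotProduct, mulVec, Fin.sum_univ_four, hw, Matrix.diagonal, hs 0 1, hs 0 2, hs 0 3]
  ring

theorem expand_sq {w : Fin 4 → ℝ} (hw : w 0 = 0) (r : ℝ) :
    (Pi.single 0 1 + r • w : Fin 4 → ℝ) ⬝ᵥ (Pi.single 0 1 + r • w) = 1 + (∑ j, w j ^ 2) * r ^ 2 := by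
  simp [dotProduct, Fin.sum_univ_four, hw]
  ring

variable {ν : Eu 10 → ℝ}

theorem second_order (hν : NuSpec ν) {d : Eu 10 → ℝ} (hd : ContDiffOn ℝ 2 d {0}ᶜ) {x : Eu 10}
    (hx : x ∈ Kp ν) {s : ℝ} (hW : 0 < Y x 0 0 + Gf ν x) (hds : d x = s * (Y x 0 0 + Gf ν x))
    (hg : ∀ z, Y z ≠ 0 → |z 0| ≤ ν z → ∀ q : Fin 4 → ℝ, 0 < q ⬝ᵥ q →
        0 ≤ q ⬝ᵥ Y z *ᵥ q + q ⬝ᵥ q * Gf ν z →
        s * (q ⬝ᵥ Y z *ᵥ q + q ⬝ᵥ q * Gf ν z) ≤ q ⬝ᵥ q * d z)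
    (c : Fin 4 → ℝ) (hc : c 0 = 0) (v : Eu 10) :
    s * (D2 (Gf ν) x v v + 2 * ∑ j, (2 * c j - c j ^ 2 * (Y x 0 0 - Y x j j)) * Y v 0 j ^ 2) ≤
      D2 d x v v := by
  have hx0 := ne_zero_of_norm hx.1
  have hY := Y_ne_of hν hx0 hx.2.1
  have hdx : ContDiffAt ℝ 2 d x := hd.contDiffAt (isOpen_compl_singleton.mem_nhds hx0)
  have hGx := contAt_Gf hν hY
  have hlt := Kp_lt hν hx
  obtain ⟨w, hw⟩ : ∃ w : Fin 4 → ℝ, w = fun j => c j * Y v 0 j := ⟨_, rfl⟩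
  have hw0 : w 0 = 0 := by rw [hw]; simp [hc]
  obtain ⟨a, ha⟩ : ∃ a : Fin 4 → ℝ, a = fun i => Y x i i := ⟨_, rfl⟩
  have hYa : Y x = diagonal a := by rw [ha]; exact hx.2.2.1
  have ha0 : Y x 0 0 = a 0 := by rw [ha]
  have hl : Tendsto (fun r : ℝ => x + r • v) (𝓝 0) (𝓝 x) := by
    have : Continuous fun r : ℝ => x + r • v := by fun_prop
    simpa using this.tendsto 0
  have hexp : ∀ r : ℝ, (Pi.single 0 1 + r • w) ⬝ᵥ Y (x + r • v) *ᵥ (Pi.single 0 1 + r • w) =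
      a 0 + Y v 0 0 * r + (∑ j, (a j * w j ^ 2 + 2 * Y v 0 j * w j)) * r ^ 2
        + (w ⬝ᵥ Y v *ᵥ w) * r ^ 3 := by
    intro r
    rw [Y_add, Y_smul, hYa, expand a (Y_symm v) hw0]
  obtain ⟨b, hb⟩ : ∃ b : ℝ, b = ∑ j, w j ^ 2 := ⟨_, rfl⟩
  obtain ⟨p2, hp2⟩ : ∃ p2 : ℝ, p2 = ∑ j, (a j * w j ^ 2 + 2 * Y v 0 j * w j) := ⟨_, rfl⟩
  obtain ⟨p3, hp3⟩ : ∃ p3 : ℝ, p3 = w ⬝ᵥ Y v *ᵥ w := ⟨_, rfl⟩
  have hb0 : 0 ≤ b := hb ▸ Finset.sum_nonneg fun j _ => sq_nonneg _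
  rw [← hp2, ← hp3] at hexp
  have e1 : ∀ᶠ r in 𝓝 (0 : ℝ), Y (x + r • v) ≠ 0 := hl.eventually (ev_Y_ne hY)
  have e2 : ∀ᶠ r in 𝓝 (0 : ℝ), |(x + r • v) 0| < ν (x + r • v) :=
    hl.eventually (cont_coord.abs.continuousAt.eventually_lt hν.cont.continuousAt hlt)
  have e3 : ∀ᶠ r in 𝓝 (0 : ℝ), 0 < a 0 + Y v 0 0 * r + p2 * r ^ 2 + p3 * r ^ 3 +
      (1 + b * r ^ 2) * Gf ν (x + r • v) := by
    have t1 : Tendsto (fun r : ℝ => Gf ν (x + r • v)) (𝓝 0) (𝓝 (Gf ν x)) :=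
      hGx.continuousAt.tendsto.comp hl
    have t2 : Continuous fun r : ℝ => a 0 + Y v 0 0 * r + p2 * r ^ 2 + p3 * r ^ 3 := by fun_prop
    have t3 : Continuous fun r : ℝ => 1 + b * r ^ 2 := by fun_prop
    have t4 := (t2.tendsto 0).add ((t3.tendsto 0).mul t1)
    refine t4.eventually (lt_mem_nhds ?_)
    rw [ha0] at hW
    simpa using hW
  have hgd : ContDiffAt ℝ 2 (fun z => 1 * d z + (-s) * Gf ν z) x :=
    (contDiffAt_const.mul hdx).add (contDiffAt_const.mul hGx)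
  have key := line_test hgd v (b := b) (p₁ := s * Y v 0 0) (p₂ := s * p2) (p₃ := s * p3) (by
    filter_upwards [e1, e2, e3] with r r1 r2 r3
    have h := hg _ r1 r2.le (Pi.single 0 1 + r • w) (by rw [expand_sq hw0, ← hb]; positivity)
      (by rw [expand_sq hw0, ← hb, hexp]; exact r3.le)
    rw [expand_sq hw0, ← hb, hexp] at h
    rw [hds, ha0]
    linarith)
  rw [Calc.D2_lin hdx hGx] at key
  simp only [_root_.add_apply, _root_.smul_apply, smul_eq_mul] at key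
  have e4 : ∑ j, (2 * c j - c j ^ 2 * (Y x 0 0 - Y x j j)) * Y v 0 j ^ 2 = p2 - b * a 0 := by
    rw [hp2, hb, Finset.sum_mul, ← Finset.sum_sub_distrib]
    refine Finset.sum_congr rfl fun j _ => ?_
    rw [hw, ha]
    ring
  rw [e4]
  rw [hds, ha0] at key
  linarith

section general
variable {n : ℕ}

theorem psd_of_form {A : Matrix (Fin n) (Fin n) ℝ} (hA : Aᵀ = A)
    (h : ∀ v : Eu n, 0 ≤ v.ofLp ⬝ᵥ A *ᵥ v.ofLp) : A.PosSemidef := by
  refine PosSemidef.of_dotProduct_mulVec_nonneg ?_ fun u => ?_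
  · rw [IsHermitian, conjTranspose_eq_transpose_of_trivial, hA]
  · simpa using h (WithLp.toLp 2 u)

theorem pd_of_form {A : Matrix (Fin n) (Fin n) ℝ} (hA : Aᵀ = A) {ε : ℝ} (hε : 0 < ε)
    (h : ∀ v : Eu n, ε * ‖v‖ ^ 2 ≤ v.ofLp ⬝ᵥ A *ᵥ v.ofLp) : A.PosDef := by
  refine PosDef.of_dotProduct_mulVec_pos ?_ fun u hu => ?_
  · rw [IsHermitian, conjTranspose_eq_transpose_of_trivial, hA]
  · have a2 := h (WithLp.toLp 2 u)
    have a3 : (WithLp.toLp 2 u : Eu n) ≠ 0 := fun h0 => hu (by simpa using h0)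
    have a4 : 0 < ε * ‖(WithLp.toLp 2 u : Eu n)‖ ^ 2 := mul_pos hε (pow_pos (norm_pos_iff.2 a3) 2)
    simp only [star_trivial] at a2 ⊢
    linarith

theorem dot_self (v : Eu n) : v.ofLp ⬝ᵥ v.ofLp = ‖v‖ ^ 2 := by
  rw [← Calc.inner_dot, real_inner_self_eq_norm_sq]

/-- a symmetric matrix with small entries has a small quadratic form -/
theorem form_small {D : Matrix (Fin n) (Fin n) ℝ} (hD : Dᵀ = D) {δ : ℝ} (h : ∀ i j, |D i j| ≤ δ)
    (v : Eu n) : |v.ofLp ⬝ᵥ D *ᵥ v.ofLp| ≤ n * δ * ‖v‖ ^ 2 := by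
  have h1 := cm_nonneg (posSemidef_add_of_small hD h) v.ofLp
  have h2 := cm_nonneg (posSemidef_add_of_small (D := -D) (δ := δ)
    (by rw [transpose_neg, hD]) (fun i j => by rw [Matrix.neg_apply, abs_neg]; exact h i j)) v.ofLp
  rw [add_mulVec, dotProduct_add, smul_mulVec, one_mulVec, dotProduct_smul, dot_self,
    smul_eq_mul] at h1 h2
  rw [neg_mulVec, dotProduct_neg] at h2
  rw [abs_le]
  constructor <;> linarith

/-- the coefficient vector of a linear functional -/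
noncomputable def vec (l : Eu n →L[ℝ] ℝ) : Fin n → ℝ := fun i => l (EuclideanSpace.single i 1)

theorem vec_dot (l : Eu n →L[ℝ] ℝ) (v : Eu n) : vec l ⬝ᵥ v.ofLp = l v := by
  have hv := (EuclideanSpace.basisFun (Fin n) ℝ).sum_repr v
  simp only [EuclideanSpace.basisFun_apply, EuclideanSpace.basisFun_repr] at hv
  conv_rhs => rw [← hv]
  simp only [map_sum, map_smul, smul_eq_mul, dotProduct, vec]
  exact Finset.sum_congr rfl fun i _ => mul_comm _ _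

theorem form_smul (A : Matrix (Fin n) (Fin n) ℝ) (t : ℝ) (v : Fin n → ℝ) :
    (t • v) ⬝ᵥ A *ᵥ (t • v) = t ^ 2 * (v ⬝ᵥ A *ᵥ v) := by
  rw [mulVec_smul, smul_dotProduct, dotProduct_smul, smul_eq_mul, smul_eq_mul]
  ring

/-- lower bound for the inverse form from one test vector -/
theorem inv_lower {A : Matrix (Fin n) (Fin n) ℝ} (hA : A.PosDef) (l : Eu n →L[ℝ] ℝ) (v : Eu n)
    {m : ℝ} (hm : 0 < m) (h : v.ofLp ⬝ᵥ A *ᵥ v.ofLp ≤ m) :
    l v ^ 2 / m ≤ vec l ⬝ᵥ A⁻¹ *ᵥ vec l := by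
  refine le_trans ?_ (inv_form_lower hA (vec l) ((l v / m) • v.ofLp))
  rw [form_smul, dotProduct_smul, vec_dot, smul_eq_mul]
  have h1 : (l v / m) ^ 2 * (v.ofLp ⬝ᵥ A *ᵥ v.ofLp) ≤ (l v / m) ^ 2 * m :=
    mul_le_mul_of_nonneg_left h (sq_nonneg _)
  have h2 : (l v / m) ^ 2 * m = l v ^ 2 / m := by field_simp
  have h3 : l v / m * l v = l v ^ 2 / m := by ring
  linarith

theorem inv_upper {A : Matrix (Fin n) (Fin n) ℝ} (hA : A.PosDef) (l : Eu n →L[ℝ] ℝ) {c : ℝ}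
    (hc : 0 ≤ c) (h : ∀ v : Eu n, l v ^ 2 ≤ c * (v.ofLp ⬝ᵥ A *ᵥ v.ofLp)) :
    vec l ⬝ᵥ A⁻¹ *ᵥ vec l ≤ c := by
  refine inv_form_upper hA _ hc fun u => ?_
  have := h (WithLp.toLp 2 u)
  rw [← vec_dot] at this
  exact this

theorem inv_nonneg' {A : Matrix (Fin n) (Fin n) ℝ} (hA : A.PosDef) (z : Fin n → ℝ) :
    0 ≤ z ⬝ᵥ A⁻¹ *ᵥ z := cm_nonneg hA.inv.posSemidef z

/-- trace of the inverse against a matrix dominating a combination of rank one terms -/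
theorem trace_lower {A D N : Matrix (Fin n) (Fin n) ℝ} (hA : A.PosDef) (hD : Dᵀ = D) (hN : Nᵀ = N)
    (l : Fin 4 → Eu n →L[ℝ] ℝ) (ζ : Eu n →L[ℝ] ℝ) (γ : Fin 4 → ℝ) (s κ σ : ℝ)
    (h : ∀ v : Eu n, s * (-κ * (v.ofLp ⬝ᵥ N *ᵥ v.ofLp) + σ * ζ v ^ 2 + 2 * ∑ j, γ j * l j v ^ 2) ≤
      v.ofLp ⬝ᵥ D *ᵥ v.ofLp) :
    s * (-κ * (A⁻¹ * N).trace + σ * (vec ζ ⬝ᵥ A⁻¹ *ᵥ vec ζ) +
      2 * ∑ j, γ j * (vec (l j) ⬝ᵥ A⁻¹ *ᵥ vec (l j))) ≤ (A⁻¹ * D).trace := by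
  have hP : (D - s • ((-κ) • N + σ • vecMulVec (vec ζ) (vec ζ) +
      (2 : ℝ) • ∑ j, γ j • vecMulVec (vec (l j)) (vec (l j)))).PosSemidef := by
    refine psd_of_form ?_ fun v => ?_
    · simp only [transpose_sub, transpose_add, transpose_smul, transpose_sum, transpose_vecMulVec,
        hD, hN]
    · have := h v
      simp only [sub_mulVec, add_mulVec, smul_mulVec, sum_mulVec, dotProduct_sub, dotProduct_add,
        dotProduct_smul, dotProduct_sum, cm_form_vecMulVec, vec_dot, smul_eq_mul]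
      linarith
  have h1 := trace_inv_mul_nonneg hA hP
  simp only [Matrix.mul_sub, Matrix.mul_add, Matrix.mul_smul, Matrix.mul_sum, trace_sub, trace_add,
    trace_smul, trace_sum, trace_inv_vecMulVec, smul_eq_mul] at h1
  linarith

end general

/-- the off-diagonal entries of the first row as linear functionals -/
noncomputable def hl (j : Fin 4) : Eu 10 →L[ℝ] ℝ :=
  LinearMap.toContinuousLinearMap
    { toFun := fun v => Y v 0 j
      map_add' := fun v w => by rw [Y_add]; rfl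
      map_smul' := fun c v => by rw [Y_smul]; rfl }

theorem hl_apply (j : Fin 4) (v : Eu 10) : hl j v = Y v 0 j := rfl

/-- the functional in the second derivative of `ν Θ (x 0 / ν)` -/
noncomputable def zl (ν : Eu 10 → ℝ) (x : Eu 10) : Eu 10 →L[ℝ] ℝ :=
  ν x • (EuclideanSpace.proj (0 : Fin 10) : Eu 10 →L[ℝ] ℝ) - x 0 • fderiv ℝ ν x

theorem zl_apply (x v : Eu 10) : zl ν x v = ν x * v 0 - x 0 * fderiv ℝ ν x v := by
  simp [zl]

theorem fderiv_e0 (hν : NuSpec ν) {x : Eu 10} (hx : Y x ≠ 0) : fderiv ℝ ν x e0 = 0 := by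
  have h1 : HasDerivAt (fun t : ℝ => x + t • e0) e0 0 := by
    simpa using ((hasDerivAt_id (0 : ℝ)).smul_const e0).const_add x
  have h2 : HasFDerivAt ν (fderiv ℝ ν x) (x + (0 : ℝ) • e0) := by
    rw [zero_smul, add_zero]
    exact ((hν.at hx).differentiableAt (by simp)).hasFDerivAt
  have h3 := h2.comp_hasDerivAt (0 : ℝ) h1
  have h4 : (ν ∘ fun t : ℝ => x + t • e0) = fun _ => ν x := funext fun t => hν.shift x t
  rw [h4] at h3
  exact h3.unique (hasDerivAt_const _ _)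

theorem two_le_infty : (2 : WithTop ℕ∞) ≤ ∞ := by
  norm_cast

theorem at2 (hν : NuSpec ν) {x : Eu 10} (hx : Y x ≠ 0) : ContDiffAt ℝ 2 ν x :=
  (hν.at hx).of_le two_le_infty

theorem D2_e0 (hν : NuSpec ν) {x : Eu 10} (hx : Y x ≠ 0) (v : Eu 10) : D2 ν x v e0 = 0 := by
  rw [D2, ← fderiv_apply_const (at2 hν hx)]
  have h : (fun y => fderiv ℝ ν y e0) =ᶠ[𝓝 x] fun _ => 0 := by
    filter_upwards [ev_Y_ne hx] with y hy
    exact fderiv_e0 hν hy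
  rw [h.fderiv_eq]
  simp

theorem Y_neg_ne {x : Eu 10} (hx : Y x ≠ 0) : Y (-x) ≠ 0 := by
  rw [Y_neg]
  exact neg_ne_zero.2 hx

/-- the unit direction `e0` made orthogonal to `x` -/
noncomputable def Hd (x : Eu 10) : Eu 10 := e0 - x 0 • x

theorem inner_e0 (x : Eu 10) : inner ℝ x e0 = x 0 := Calc.inner_single' x 0

theorem inner_Hd {x : Eu 10} (hx : ‖x‖ = 1) : inner ℝ x (Hd x) = 0 := by
  rw [Hd, inner_sub_right, inner_smul_right, inner_e0, real_inner_self_eq_norm_sq, hx]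
  ring

theorem Hd_zero (x : Eu 10) : Hd x 0 = 1 - x 0 ^ 2 := by
  simp [Hd, e0]
  ring

theorem norm_Hd {x : Eu 10} (hx : ‖x‖ = 1) : ‖Hd x‖ ^ 2 = 1 - x 0 ^ 2 := by
  rw [← real_inner_self_eq_norm_sq]
  conv_lhs => rw [Hd]
  rw [inner_sub_left, inner_smul_left, ← Hd, inner_Hd hx, real_inner_comm, inner_e0, Hd_zero]
  simp

theorem Hd_ne {x : Eu 10} (hx : Y x ≠ 0) : Hd x ≠ 0 := by
  intro h
  have h1 : Y (Hd x) = (-x 0) • Y x := by
    rw [Hd, sub_eq_add_neg, ← neg_smul, Y_add, Y_e0, zero_add, Y_smul]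
  rw [h, Y_zero] at h1
  have h2 : x 0 = 0 := by simpa [hx] using h1.symm
  have h3 := Hd_zero x
  rw [h, h2] at h3
  simp at h3

theorem Hd_neg (x : Eu 10) : Hd (-x) = Hd x := by
  simp [Hd]

theorem D2_Hd (hν : NuSpec ν) {x : Eu 10} (hx : Y x ≠ 0) (v : Eu 10) : D2 ν x v (Hd x) = 0 := by
  rw [Hd, map_sub, map_smul, D2_e0 hν hx, (hν.hom.D2_self (at2 hν hx) v).2]
  simp

theorem zl_Hd (hν : NuSpec ν) {x : Eu 10} (hx : Y x ≠ 0) : zl ν x (Hd x) = ν x := by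
  rw [zl_apply, Hd_zero, Hd, map_sub, map_smul, fderiv_e0 hν hx,
    hν.hom.euler ((hν.at hx).differentiableAt (by simp)), smul_eq_mul]
  ring

theorem mulVec_zero_of {h : Eu 10 → ℝ} {x u : Eu 10} (hu : ∀ v, D2 h x v u = 0) :
    hessM h x *ᵥ u.ofLp = 0 := by
  funext i
  have := hessM_form h x (EuclideanSpace.single i 1) u
  rw [hu] at this
  simpa using this

/-- the rank bound for the trace against the Hessian of `ν` -/
theorem trace_N_le (hν : NuSpec ν) {x : Eu 10} (hx : Y x ≠ 0)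
    {A : Matrix (Fin 10) (Fin 10) ℝ} (hA : A.PosDef) (hAs : Aᵀ = A) {c : ℝ}
    (hc : ∀ v : Eu 10, c * D2 ν x v v ≤ v.ofLp ⬝ᵥ A *ᵥ v.ofLp)
    (ho : x.ofLp ⬝ᵥ A *ᵥ (Hd x).ofLp = 0) : c * (A⁻¹ * hessM ν x).trace ≤ 8 := by
  have h := trace_le_rank hA (c := c) (P := hessM ν x) (u := x.ofLp) (v := (Hd x).ofLp)
    (psd_of_form (by rw [transpose_sub, transpose_smul, hAs, hessM_symm (at2 hν hx)]) fun v => by
      rw [sub_mulVec, smul_mulVec, dotProduct_sub, dotProduct_smul, hessM_form, smul_eq_mul]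
      linarith [hc v])
    (by simpa using ne_zero_of_Y hx) (by simpa using Hd_ne hx) ho
    (mulVec_zero_of fun v => (hν.hom.D2_self (at2 hν hx) v).2) (mulVec_zero_of (D2_Hd hν hx))
  norm_num at h
  exact h

end Sub

end Pool.Agent.P.MP_4a4b50_gt.CE
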