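import Pool.Agent.P.MP_4a4b50_gt.CMat
import Pool.Agent.P.MP_4a4b50_gt.CGrp
import Pool.Agent.P.MP_4a4b50_gt.CPsi
import Pool.Agent.P.MP_4a4b50_gt.CSub2

set_option autoImplicit false

namespace Pool.Agent.P.MP_4a4b50_gt.CE

open scoped ContDiff Topology
open Pool.Agent.P.MP_f97e06_gt (Eu)
open Matrix Set Filter

namespace Sub

theorem gain_one {α g sj da b θ : ℝ} (hα : 0 < α) (hb : 0 < b) (hθ : 0 < θ)
    (h : da * α = 2 * sj) (hg : 1 ^ 2 / (θ * α) ≤ g) :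
    ∃ c : ℝ, 0 ≤ 2 * c - c ^ 2 * da ∧ 2 * b - 2 * b ^ 2 * sj ≤ θ * ((2 * c - c ^ 2 * da) * g) := by
  by_cases hc : b * sj ≤ 1
  · have e : 2 * (b * α) - (b * α) ^ 2 * da = α * (2 * b - 2 * b ^ 2 * sj) := by
      linear_combination (-(b ^ 2 * α)) * h
    have h1 : 0 ≤ 2 * b - 2 * b ^ 2 * sj := by nlinarith
    refine ⟨b * α, by rw [e]; positivity, ?_⟩
    rw [e]
    rw [div_le_iff₀ (by positivity)] at hg
    nlinarith
  · refine ⟨0, by simp, ?_⟩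
    have h1 : 1 < b * sj := not_le.1 hc
    nlinarith

variable {ν : Eu 10 → ℝ}

theorem hl_Hv {j : Fin 4} (hj : j ≠ 0) : hl j (Hv j) = 1 := by
  rw [hl_apply, Y_Hv hj]
  simp [hj]

theorem inner_Hv {x : Eu 10} {a : Fin 4 → ℝ} (ha : Y x = diagonal a) {j : Fin 4} (hj : j ≠ 0) :
    inner ℝ x (Hv j) = 0 := by
  have h0 : Hv j 0 = 0 := rfl
  rw [inner_eq, h0, ha, Y_Hv hj]
  fin_cases j
  · exact absurd rfl hj
  all_goals simp [Matrix.trace, Fin.sum_univ_four, Matrix.single]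

/-- the gain from the off-diagonal directions -/
theorem gain (hν : NuSpec ν) {Ψ : ℝ → ℝ} {ε : ℝ} {f : Eu 10 → ℝ} (hf : FSpec ν Ψ ε f) (hε : 0 < ε)
    {x : Eu 10} (hx : x ∈ Kp ν) {P : ℝ} (hP : P = Ψ (x 0 / ν x) - x 0 / ν x * deriv Ψ (x 0 / ν x))
    (hεP : 1000 * ε ≤ P) {A : Matrix (Fin 10) (Fin 10) ℝ} (hA : A.PosDef)
    (hAX : ∀ v : Eu 10, v.ofLp ⬝ᵥ A *ᵥ v.ofLp ≤ 1001 / 1000 * (D2 f x v v + inner ℝ x v ^ 2)) :
    ∃ c : Fin 4 → ℝ, c 0 = 0 ∧ (∀ j, 0 ≤ 2 * c j - c j ^ 2 * (Y x 0 0 - Y x j j)) ∧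
      8612 / 1000 ≤ P * (2 * ∑ j, (2 * c j - c j ^ 2 * (Y x 0 0 - Y x j j)) *
        (vec (hl j) ⬝ᵥ A⁻¹ *ᵥ vec (hl j))) := by
  have hx0 := ne_zero_of_norm hx.1
  have hY := Y_ne_of hν hx0 hx.2.1
  have hP0 : 0 < P := by linarith
  obtain ⟨b, hb⟩ : ∃ b : ℝ, b = 3 / (2 * (1044 / 1000 * P)) := ⟨_, rfl⟩
  have hb0 : 0 < b := by rw [hb]; positivity
  have hbP : b * P = 1500 / 1044 := by rw [hb]; field_simp; norm_num
  have hone : ∀ j : Fin 4, j ≠ 0 → ∃ c : ℝ, 0 ≤ 2 * c - c ^ 2 * (Y x 0 0 - Y x j j) ∧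
      2 * b - 2 * b ^ 2 * fderiv ℝ f x (Dv j) ≤ 1001 / 1000 *
        ((2 * c - c ^ 2 * (Y x 0 0 - Y x j j)) * (vec (hl j) ⬝ᵥ A⁻¹ *ᵥ vec (hl j))) := by
    intro j hj
    have hi := inner_Hv hx.2.2.1 hj
    have hne : Hv j ≠ 0 := by
      intro h
      have := hl_Hv hj
      rw [h, map_zero] at this
      exact zero_ne_one this
    have hα : 0 < D2 f x (Hv j) (Hv j) := by
      have h1 := hf.pos x hx.1 (Hv j)
      have h2 : 0 < ε * ‖Hv j‖ ^ 2 := mul_pos hε (pow_pos (norm_pos_iff.2 hne) 2)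
      rw [hi] at h1
      linarith
    have h3 := offdiag_hess (hf.smooth.of_le two_le_infty) hf.inv hx0 hx.2.2.1 hj
    have h4 := inv_lower hA (hl j) (Hv j) (m := 1001 / 1000 * D2 f x (Hv j) (Hv j))
      (by positivity) (by
        have := hAX (Hv j)
        rw [hi] at this
        linarith)
    rw [hl_Hv hj] at h4
    exact gain_one hα hb0 (by norm_num) h3 h4
  obtain ⟨c1, p1, q1⟩ := hone 1 (by decide)
  obtain ⟨c2, p2, q2⟩ := hone 2 (by decide)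
  obtain ⟨c3, p3, q3⟩ := hone 3 (by decide)
  have hS : fderiv ℝ f x (Dv 1) + fderiv ℝ f x (Dv 2) + fderiv ℝ f x (Dv 3) ≤
      1044 / 1000 * P := by
    rw [← map_add, ← map_add, sum_Dv, hf.d1 x hx.1 hY, ← hP]
    have h0 : H0 0 = 0 := rfl
    have h1 : fderiv ℝ ν x H0 ≤ 26 / 25 := (hν.sublin x hY H0).trans hν.upper
    have h2 : inner ℝ x H0 ≤ 4 := by
      have h3 := real_inner_le_norm x H0
      rw [hx.1, one_mul] at h3
      have h4 := norm_H0_sq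
      nlinarith [norm_nonneg H0]
    rw [h0]
    nlinarith
  refine ⟨![0, c1, c2, c3], rfl, fun j => ?_, ?_⟩
  · fin_cases j
    · simp
    · exact p1
    · exact p2
    · exact p3
  · rw [Fin.sum_univ_four]
    simp only [Matrix.cons_val_zero, Matrix.cons_val_one, Matrix.cons_val]
    generalize (2 * c1 - c1 ^ 2 * (Y x 0 0 - Y x 1 1)) * (vec (hl 1) ⬝ᵥ A⁻¹ *ᵥ vec (hl 1)) = g1 at *
    generalize (2 * c2 - c2 ^ 2 * (Y x 0 0 - Y x 2 2)) * (vec (hl 2) ⬝ᵥ A⁻¹ *ᵥ vec (hl 2)) = g2 at *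
    generalize (2 * c3 - c3 ^ 2 * (Y x 0 0 - Y x 3 3)) * (vec (hl 3) ⬝ᵥ A⁻¹ *ᵥ vec (hl 3)) = g3 at *
    have h1 : 6 * b - 2 * b ^ 2 * (1044 / 1000 * P) ≤ 1001 / 1000 * (g1 + g2 + g3) := by
      have := mul_le_mul_of_nonneg_left hS (by positivity : 0 ≤ 2 * b ^ 2)
      linarith
    have h2 : 6 * b - 2 * b ^ 2 * (1044 / 1000 * P) = 3 * b := by
      linear_combination (-(2 * 1044 / 1000 * b)) * hbP
    rw [h2] at h1
    have h3 := mul_le_mul_of_nonneg_left h1 hP0.le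
    nlinarith

theorem cs_unit {x : Eu 10} (hx : ‖x‖ = 1) (v : Eu 10) : inner ℝ x v ^ 2 ≤ ‖v‖ ^ 2 := by
  have h := abs_real_inner_le_norm x v
  rw [hx, one_mul] at h
  rw [← sq_abs]
  exact pow_le_pow_left₀ (abs_nonneg _) h 2

/-- lower bound of the form of `hatM f` by its two main terms -/
theorem hat_lower {Ψ : ℝ → ℝ} {ε : ℝ} {f : Eu 10 → ℝ} (hf : FSpec ν Ψ ε f) (hε : 0 < ε)
    {x : Eu 10} (hx : ‖x‖ = 1) (hY : Y x ≠ 0) (v : Eu 10) :
    (Ψ (x 0 / ν x) - x 0 / ν x * deriv Ψ (x 0 / ν x)) * D2 ν x v v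
      + deriv (deriv Ψ) (x 0 / ν x) / ν x ^ 3 * zl ν x v ^ 2 ≤ D2 f x v v + inner ℝ x v ^ 2 := by
  rw [hf.d2 x hx hY, zl_apply]
  have h1 := mul_nonneg hε.le (sub_nonneg.2 (cs_unit hx v))
  nlinarith [sq_nonneg (inner ℝ x v)]

theorem zl_sq_le (hν : NuSpec ν) {x : Eu 10} (hY : Y x ≠ 0) (h1 : |x 0| ≤ ν x) (h2 : ν x ≤ ν (-x))
    (v : Eu 10) : zl ν x v ^ 2 ≤ 2 * zl ν (-x) v ^ 2 +
      2 * (ν (-x) * fderiv ℝ ν x v + ν x * fderiv ℝ ν (-x) v) ^ 2 := by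
  have p1 := hν.pos x hY
  have p2 := hν.pos _ (Y_neg_ne hY)
  have e : ν (-x) * zl ν x v = ν x * zl ν (-x) v -
      x 0 * (ν (-x) * fderiv ℝ ν x v + ν x * fderiv ℝ ν (-x) v) := by
    rw [zl_apply, zl_apply, PiLp.neg_apply]
    ring
  generalize ν (-x) * fderiv ℝ ν x v + ν x * fderiv ℝ ν (-x) v = m at *
  generalize zl ν (-x) v = z' at *
  generalize zl ν x v = z at *
  have h3 : x 0 ^ 2 ≤ ν (-x) ^ 2 := by
    rw [← sq_abs]
    exact pow_le_pow_left₀ (abs_nonneg _) (h1.trans h2) 2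
  have h4 : ν x ^ 2 ≤ ν (-x) ^ 2 := pow_le_pow_left₀ p1.le h2 2
  have h5 : ν (-x) ^ 2 * z ^ 2 ≤ ν (-x) ^ 2 * (2 * z' ^ 2 + 2 * m ^ 2) := by
    calc ν (-x) ^ 2 * z ^ 2 = (ν x * z' - x 0 * m) ^ 2 := by rw [← e]; ring
      _ ≤ 2 * (ν x ^ 2 * z' ^ 2) + 2 * (x 0 ^ 2 * m ^ 2) := by
          nlinarith [sq_nonneg (ν x * z' + x 0 * m)]
      _ ≤ 2 * (ν (-x) ^ 2 * z' ^ 2) + 2 * (ν (-x) ^ 2 * m ^ 2) := by gcongr
      _ = _ := by ring
  exact le_of_mul_le_mul_left h5 (by positivity)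

theorem no_super (hν : NuSpec ν) {C0 B1 b1 δ C2 η p ε : ℝ} (hC0 : 0 < C0)
    (hcmp : ∀ x, ‖x‖ = 1 → Y x ≠ 0 → ∀ v, D2 ν x v v ≤ C0 * D2 ν (-x) v v ∧
      (ν (-x) * fderiv ℝ ν x v + ν x * fderiv ℝ ν (-x) v) ^ 2 ≤ C0 * D2 ν (-x) v v)
    (hB : ∀ x, ‖x‖ = 1 → ν x ≤ B1) (hb1 : 0 < b1) (hb : ∀ x, ‖x‖ = 1 → |x 0| ≤ ν x → b1 ≤ ν x)
    (hδ : 0 < δ) (hδC : 150 * δ * (9 * C0 + 1) ≤ 1) (hC2 : C2 = 2 * B1 ^ 3 / δ + 2 * C0)
    (hη : η * (100 * (9 * C0 + 1200001 * C2 / b1 ^ 3)) ≤ 1)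
    {Ψ : ℝ → ℝ} (hΨ : PsiSpec δ 120000100 η Ψ) (hp : ∀ s, |s| ≤ 1 → p ≤ Ψ s - s * deriv Ψ s)
    (hε : 0 < ε) (hεδ : ε * B1 ≤ δ) (hεp : 1000 * ε ≤ p) {f : Eu 10 → ℝ} (hf : FSpec ν Ψ ε f)
    {d : Eu 10 → ℝ} (hd : ContDiffOn ℝ 2 d {0}ᶜ) (h1 : Hom1 d) (hi : Inv GG d)
    (hsm : ∀ x, ‖x‖ = 1 → ∀ i j, |hessM d x i j| ≤ ε / 10000)
    (hsup : ∀ x, ‖x‖ = 1 → 0 < om x → 0 < d x ∧ Eop (hatM f x) (hatM f (-x)) (hessM d x) < 0) :
    False := by
  obtain ⟨x, hx, s, hs, hW, hds, hg⟩ := exists_touch hν hd h1 hi fun x hx h => (hsup x hx h).1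
  have hn := hx.1
  have hn' : ‖-x‖ = 1 := by rw [norm_neg, hn]
  have hx0 := ne_zero_of_norm hn
  have hY := Y_ne_of hν hx0 hx.2.1
  have hY' := Y_neg_ne hY
  have n0 := hν.pos x hY
  have n1 : 21 / 20 * ν x ≤ ν (-x) :=
    (Kp_big hν hx).trans (diag_lower_neg (a := fun i => Y x i i) hν hx.2.2.1)
  have n2 : ν x ≤ ν (-x) := by linarith
  have n3 := hν.pos _ hY'
  have hσ := ratio_le hν hY hx.2.1
  have hσ' : |(-x) 0 / ν (-x)| ≤ 24 / 25 := by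
    rw [abs_div, abs_of_pos n3, div_le_iff₀ n3, PiLp.neg_apply, abs_neg]
    have := hx.2.1
    linarith
  obtain ⟨hP', hk1, hk2⟩ := hΨ.inner _ hσ'
  have hfx : ContDiffAt ℝ 2 f x :=
    (hf.smooth.contDiffAt (isOpen_compl_singleton.mem_nhds hx0)).of_le two_le_infty
  have hfx' : ContDiffAt ℝ 2 f (-x) :=
    (hf.smooth.contDiffAt (isOpen_compl_singleton.mem_nhds (neg_ne_zero.2 hx0))).of_le two_le_infty
  have hdx : ContDiffAt ℝ 2 d x := hd.contDiffAt (isOpen_compl_singleton.mem_nhds hx0)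
  have hsmall : ∀ v : Eu 10, |D2 d x v v| ≤ ε / 1000 * ‖v‖ ^ 2 := by
    intro v
    have := form_small (hessM_symm hdx) (hsm x hn) v
    rw [hessM_form] at this
    refine this.trans (le_of_eq ?_)
    push_cast
    ring
  have fX : ∀ v : Eu 10, v.ofLp ⬝ᵥ (hatM f x + hessM d x) *ᵥ v.ofLp =
      D2 f x v v + inner ℝ x v ^ 2 + D2 d x v v := by
    intro v
    rw [add_mulVec, dotProduct_add, hatM_form, hessM_form, sq]
  have fY : ∀ v : Eu 10, v.ofLp ⬝ᵥ hatM f (-x) *ᵥ v.ofLp =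
      D2 f (-x) v v + inner ℝ (-x) v ^ 2 := by
    intro v
    rw [hatM_form, sq]
  have fXl : ∀ v : Eu 10, 999 / 1000 * (D2 f x v v + inner ℝ x v ^ 2) ≤
      v.ofLp ⬝ᵥ (hatM f x + hessM d x) *ᵥ v.ofLp := by
    intro v
    have a1 := (abs_le.1 (hsmall v)).1
    have a2 := hf.pos x hn v
    rw [fX]
    linarith
  have fXu : ∀ v : Eu 10, v.ofLp ⬝ᵥ (hatM f x + hessM d x) *ᵥ v.ofLp ≤
      1001 / 1000 * (D2 f x v v + inner ℝ x v ^ 2) := by
    intro v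
    have a1 := (abs_le.1 (hsmall v)).2
    have a2 := hf.pos x hn v
    rw [fX]
    linarith
  have sX : (hatM f x + hessM d x)ᵀ = hatM f x + hessM d x := by
    rw [transpose_add, hatM_symm hfx, hessM_symm hdx]
  have pX : (hatM f x).PosDef := posDef_of_form hfx hε (hf.pos x hn)
  have pY : (hatM f (-x)).PosDef := posDef_of_form hfx' hε (hf.pos _ hn')
  have pXD : (hatM f x + hessM d x).PosDef :=
    pd_of_form sX (ε := 999 / 1000 * ε) (by positivity) fun v => by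
      have a1 := fXl v
      have a2 := hf.pos x hn v
      linarith
  have pYD : (hatM f (-x) - hessM d x).PosDef :=
    pd_of_form (by rw [transpose_sub, hatM_symm hfx', hessM_symm hdx]) (ε := 999 / 1000 * ε)
      (by positivity) fun v => by
      have a1 := (abs_le.1 (hsmall v)).2
      have a2 := hf.pos _ hn' v
      rw [sub_mulVec, dotProduct_sub, fY, hessM_form]
      linarith
  have hE := Eop_neg pX pY pXD pYD (hsup x hn (Kp_om hν hx)).2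
  obtain ⟨P, hP⟩ : ∃ P : ℝ, P = Ψ (x 0 / ν x) - x 0 / ν x * deriv Ψ (x 0 / ν x) := ⟨_, rfl⟩
  have hPp : 1000 * ε ≤ P := hεp.trans (hP ▸ hp _ hσ)
  have hP0 : 0 < P := by linarith
  obtain ⟨c, hc0, hγ, hgain⟩ := gain hν hf hε hx hP hPp pXD fXu
  obtain ⟨sg, hsg⟩ : ∃ sg : ℝ, sg = deriv (deriv Gam) (x 0 / ν x) / ν x ^ 3 := ⟨_, rfl⟩
  have hV : ∀ v : Eu 10, s * (-(107 / 100) * (v.ofLp ⬝ᵥ hessM ν x *ᵥ v.ofLp) + sg * zl ν x v ^ 2 +
      2 * ∑ j, (2 * c j - c j ^ 2 * (Y x 0 0 - Y x j j)) * hl j v ^ 2) ≤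
      v.ofLp ⬝ᵥ hessM d x *ᵥ v.ofLp := by
    intro v
    rw [hessM_form, hessM_form]
    refine le_trans (mul_le_mul_of_nonneg_left ?_ hs.le) (second_order hν hd hx hW hds hg c hc0 v)
    have a1 : D2 (Gf ν) x v v = _ := (comp_deriv hν contDiff_Gam hY v).2.2
    have a2 := mul_le_mul_of_nonneg_right (Gam_p hσ) (hν.psd x hY v)
    rw [a1, ← hsg, ← zl_apply]
    simp only [hl_apply]
    linarith
  have tX := trace_lower pXD (hessM_symm hdx) (hessM_symm (at2 hν hY)) hl (zl ν x) _ s _ sg hV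
  have tY := trace_lower pY (hessM_symm hdx) (hessM_symm (at2 hν hY)) hl (zl ν x) _ s _ sg hV
  have lX := fun v => hat_lower hf hε hn hY v
  have lY := fun v => hat_lower hf hε hn' hY' v
  rw [← hP] at lX
  have kX := hΨ.k_nonneg (x 0 / ν x)
  have lY1 : ∀ v : Eu 10, D2 ν (-x) v v ≤ v.ofLp ⬝ᵥ hatM f (-x) *ᵥ v.ofLp := by
    intro v
    have a1 := lY v
    have a2 := mul_le_mul_of_nonneg_right hP' (hν.psd _ hY' v)
    have a3 : 0 ≤ deriv (deriv Ψ) ((-x) 0 / ν (-x)) / ν (-x) ^ 3 * zl ν (-x) v ^ 2 :=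
      mul_nonneg (div_nonneg (by linarith) (by positivity)) (sq_nonneg _)
    rw [fY]
    linarith
  have rX := trace_N_le hν hY pXD sX (c := 999 / 1000 * P) (fun v => by
      have a1 := fXl v
      have a2 := lX v
      have a3 : 0 ≤ deriv (deriv Ψ) (x 0 / ν x) / ν x ^ 3 * zl ν x v ^ 2 := by positivity
      linarith) (by
      rw [add_mulVec, dotProduct_add, hatM_form, hessM_form, inner_Hd hn,
        (hf.hom.D2_self hfx _).1, (h1.D2_self hdx _).1]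
      ring)
  have rY := trace_N_le hν hY pY (hatM_symm hfx') (c := C0⁻¹) (fun v => by
      rw [inv_mul_le_iff₀ hC0]
      exact (hcmp x hn hY v).1.trans (mul_le_mul_of_nonneg_left (lY1 v) hC0.le)) (by
      have a1 := (hf.hom.D2_self hfx' (Hd x)).1
      rw [map_neg, _root_.neg_apply, neg_eq_zero] at a1
      rw [hatM_form, a1, inner_neg_left x (Hd x), inner_Hd hn]
      ring)
  rw [inv_mul_le_iff₀ hC0] at rY
  have gY : 0 ≤ ∑ j, (2 * c j - c j ^ 2 * (Y x 0 0 - Y x j j)) *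
      (vec (hl j) ⬝ᵥ (hatM f (-x))⁻¹ *ᵥ vec (hl j)) :=
    Finset.sum_nonneg fun j _ => mul_nonneg (hγ j) (inv_nonneg' pY _)
  have zX0 := inv_nonneg' pXD (vec (zl ν x))
  have zY0 := inv_nonneg' pY (vec (zl ν x))
  have hcase : (0 ≤ sg ∧ 9 * C0 + 1 ≤ sg * (vec (zl ν x) ⬝ᵥ (hatM f (-x))⁻¹ *ᵥ vec (zl ν x))) ∨
      (P ≤ η ∧ -(11 / 1000) ≤ P * (sg * (vec (zl ν x) ⬝ᵥ (hatM f x + hessM d x)⁻¹ *ᵥ vec (zl ν x)))
        ∧ -(1200001 * C2 / b1 ^ 3) ≤ sg * (vec (zl ν x) ⬝ᵥ (hatM f (-x))⁻¹ *ᵥ vec (zl ν x))) := by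
    rcases le_total |x 0 / ν x| (49 / 50) with hin | hout
    · left
      rw [Gam_k_inner hin] at hsg
      refine ⟨by rw [hsg]; positivity, ?_⟩
      have a1 := inv_lower pY (zl ν x) (Hd x) (m := 3 * δ / ν x) (by positivity) (by
        have b1 : D2 ν (-x) (Hd x) (Hd x) = 0 := by rw [← Hd_neg]; exact D2_Hd hν hY' _
        have b2 : zl ν (-x) (Hd x) = ν (-x) := by rw [← Hd_neg]; exact zl_Hd hν hY'
        rw [fY, hf.d2 _ hn' hY', ← zl_apply, b1, b2, inner_neg_left x (Hd x), inner_Hd hn,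
          norm_Hd hn]
        have b3 : deriv (deriv Ψ) ((-x) 0 / ν (-x)) / ν (-x) ^ 3 * ν (-x) ^ 2 =
            deriv (deriv Ψ) ((-x) 0 / ν (-x)) / ν (-x) := by field_simp
        have b4 : deriv (deriv Ψ) ((-x) 0 / ν (-x)) / ν (-x) ≤ 2 * δ / ν x := by gcongr
        have b5 : ε ≤ δ / ν x := by
          rw [le_div_iff₀ n0]
          exact (mul_le_mul_of_nonneg_left (hB x hn) hε.le).trans hεδ
        have b6 : 0 ≤ ε * x 0 ^ 2 := by positivity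
        have b7 : 3 * δ / ν x = 2 * δ / ν x + δ / ν x := by ring
        rw [b3, b7]
        nlinarith)
      rw [zl_Hd hν hY] at a1
      refine le_trans ?_ (mul_le_mul_of_nonneg_left a1 (by rw [hsg]; positivity))
      have a2 : sg * (ν x ^ 2 / (3 * δ / ν x)) = 1 / (150 * δ) := by
        rw [hsg]
        field_simp
        norm_num
      rw [a2, le_div_iff₀ (by positivity)]
      linarith
    · right
      obtain ⟨o1, o2⟩ := hΨ.outer _ hout hσ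
      rw [← hP] at o1 o2
      have hsg1 : -(1200001 / ν x ^ 3) ≤ sg := by
        rw [hsg, ← neg_div]
        exact div_le_div_of_nonneg_right (Gam_k hσ) (by positivity)
      refine ⟨o1, ?_, ?_⟩
      · have a1 := inv_upper pXD (zl ν x) (c := ν x ^ 3 / (999 / 1000 * (120000100 * P)))
          (by positivity) fun v => by
            rw [div_mul_eq_mul_div, le_div_iff₀ (by positivity)]
            have b1 := fXl v
            have b2 := lX v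
            have b3 := mul_nonneg hP0.le (hν.psd x hY v)
            have b4 : 120000100 * P / ν x ^ 3 * zl ν x v ^ 2 ≤
                deriv (deriv Ψ) (x 0 / ν x) / ν x ^ 3 * zl ν x v ^ 2 := by gcongr
            have b5 : 999 / 1000 * (120000100 * P / ν x ^ 3 * zl ν x v ^ 2) ≤
                v.ofLp ⬝ᵥ (hatM f x + hessM d x) *ᵥ v.ofLp := by linarith
            have b6 := mul_le_mul_of_nonneg_left b5 (pow_pos n0 3).le
            refine le_trans (le_of_eq ?_) b6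
            field_simp
        have a2 := mul_le_mul_of_nonneg_right hsg1 zX0
        have a3 := mul_le_mul_of_nonneg_left a1 (by positivity : 0 ≤ 1200001 / ν x ^ 3)
        have a4 : P * (1200001 / ν x ^ 3 * (ν x ^ 3 / (999 / 1000 * (120000100 * P)))) =
            10 / 999 := by
          field_simp
          norm_num
        have a5 := mul_le_mul_of_nonneg_left a2 hP0.le
        have a6 := mul_le_mul_of_nonneg_left a3 hP0.le
        nlinarith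
      · have hB1 : 0 < B1 := n0.trans_le (hB x hn)
        have hC20 : 0 ≤ C2 := by rw [hC2]; positivity
        have a1 := inv_upper pY (zl ν x) hC20 fun v => by
          have b1 := zl_sq_le hν hY hx.2.1 n2 v
          have b2 := (hcmp x hn hY v).2.trans (mul_le_mul_of_nonneg_left (lY1 v) hC0.le)
          have b3 : δ / B1 ^ 3 * zl ν (-x) v ^ 2 ≤ v.ofLp ⬝ᵥ hatM f (-x) *ᵥ v.ofLp := by
            have c1 := lY v
            have c2 := mul_nonneg (by linarith : 0 ≤ Ψ ((-x) 0 / ν (-x)) -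
              (-x) 0 / ν (-x) * deriv Ψ ((-x) 0 / ν (-x))) (hν.psd _ hY' v)
            have c3 : δ / B1 ^ 3 * zl ν (-x) v ^ 2 ≤
                deriv (deriv Ψ) ((-x) 0 / ν (-x)) / ν (-x) ^ 3 * zl ν (-x) v ^ 2 := by
              have c4 := hB _ hn'
              have c5 : 0 ≤ deriv (deriv Ψ) ((-x) 0 / ν (-x)) := by linarith
              gcongr
            rw [fY]
            linarith
          have b4 := mul_le_mul_of_nonneg_left b3 (by positivity : 0 ≤ 2 * B1 ^ 3 / δ)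
          have b5 : 2 * B1 ^ 3 / δ * (δ / B1 ^ 3 * zl ν (-x) v ^ 2) = 2 * zl ν (-x) v ^ 2 := by
            field_simp
          rw [hC2]
          linarith
        have a2 := mul_le_mul_of_nonneg_right hsg1 zY0
        have a3 : 1200001 / ν x ^ 3 * (vec (zl ν x) ⬝ᵥ (hatM f (-x))⁻¹ *ᵥ vec (zl ν x)) ≤
            1200001 / b1 ^ 3 * C2 := by
          have := hb x hn hx.2.1
          gcongr
        have a4 : 1200001 / b1 ^ 3 * C2 = 1200001 * C2 / b1 ^ 3 := by ring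
        linarith
  have hC20 : 0 ≤ 1200001 * C2 / b1 ^ 3 := by
    have hB1 : 0 < B1 := n0.trans_le (hB x hn)
    rw [hC2]
    positivity
  generalize ∑ j, (2 * c j - c j ^ 2 * (Y x 0 0 - Y x j j)) *
      (vec (hl j) ⬝ᵥ (hatM f (-x))⁻¹ *ᵥ vec (hl j)) = GY at *
  generalize ∑ j, (2 * c j - c j ^ 2 * (Y x 0 0 - Y x j j)) *
      (vec (hl j) ⬝ᵥ (hatM f x + hessM d x)⁻¹ *ᵥ vec (hl j)) = GX at *
  generalize vec (zl ν x) ⬝ᵥ (hatM f (-x))⁻¹ *ᵥ vec (zl ν x) = ZY at *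
  generalize vec (zl ν x) ⬝ᵥ (hatM f x + hessM d x)⁻¹ *ᵥ vec (zl ν x) = ZX at *
  generalize ((hatM f x + hessM d x)⁻¹ * hessM ν x).trace = TX at *
  generalize ((hatM f (-x))⁻¹ * hessM ν x).trace = TY at *
  generalize 1200001 * C2 / b1 ^ 3 = C3 at *
  have hneg : -(107 / 100) * TX + sg * ZX + 2 * GX + (-(107 / 100) * TY + sg * ZY + 2 * GY) < 0 := by
    by_contra hcon
    have := mul_nonneg hs.le (not_lt.1 hcon)
    linarith
  have hneg' := mul_neg_of_pos_of_neg hP0 hneg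
  have q1 := mul_le_mul_of_nonneg_left rY hP0.le
  have q2 := mul_nonneg hP0.le gY
  have q3 := mul_pos hP0 hC0
  rcases hcase with ⟨c1, c2⟩ | ⟨c1, c2, c3⟩
  · have q4 := mul_nonneg hP0.le (mul_nonneg c1 zX0)
    have q5 := mul_le_mul_of_nonneg_left c2 hP0.le
    linarith
  · have q5 := mul_le_mul_of_nonneg_left c3 hP0.le
    have q6 := mul_le_mul_of_nonneg_right c1 (by positivity : 0 ≤ 100 * (9 * C0 + C3))
    linarith

end Sub

open _root_.Pool.Agent.P.MP_4a4b50_gt.CE.Sub in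
theorem exists_geom {ν : Eu 10 → ℝ} (hν : NuSpec ν) : ∃ f : Eu 10 → ℝ, Geom GG om f := by
  obtain ⟨C0, hC0, hcmp⟩ := hν.cmp
  obtain ⟨B1, hB1, hB⟩ : ∃ B1 : ℝ, 0 < B1 ∧ ∀ x : Eu 10, ‖x‖ = 1 → ν x ≤ B1 := by
    obtain ⟨B, hB⟩ := (isCompact_sphere (0 : Eu 10) 1).bddAbove_image hν.cont.continuousOn
    refine ⟨max B 1, lt_of_lt_of_le one_pos (le_max_right _ _), fun x hx => ?_⟩
    exact (hB (mem_image_of_mem _ (by simpa using hx))).trans (le_max_left _ _)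
  obtain ⟨b1, hb1, hb⟩ : ∃ b1 : ℝ, 0 < b1 ∧ ∀ x : Eu 10, ‖x‖ = 1 → |x 0| ≤ ν x → b1 ≤ ν x := by
    obtain ⟨x0, hx0, -⟩ := exists_Kp hν
    obtain ⟨x, hx, hmin⟩ := (isCompact_K0 hν).exists_isMinOn ⟨x0, hx0.1, hx0.2.1⟩
      hν.cont.continuousOn
    exact ⟨ν x, hν.pos x (Y_ne_of hν (ne_zero_of_norm hx.1) hx.2), fun z h1 h2 => hmin ⟨h1, h2⟩⟩
  obtain ⟨δ, hδe⟩ : ∃ δ : ℝ, δ = 1 / (150 * (9 * C0 + 1)) := ⟨_, rfl⟩
  have hδ : 0 < δ := by rw [hδe]; positivity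
  have hδC : 150 * δ * (9 * C0 + 1) ≤ 1 := by
    rw [hδe]
    exact le_of_eq (by field_simp)
  obtain ⟨C2, hC2⟩ : ∃ C2 : ℝ, C2 = 2 * B1 ^ 3 / δ + 2 * C0 := ⟨_, rfl⟩
  have hC20 : 0 < C2 := by rw [hC2]; positivity
  obtain ⟨η, hηe⟩ : ∃ η : ℝ, η = 1 / (100 * (9 * C0 + 1200001 * C2 / b1 ^ 3)) := ⟨_, rfl⟩
  have hη0 : 0 < η := by rw [hηe]; positivity
  have hη : η * (100 * (9 * C0 + 1200001 * C2 / b1 ^ 3)) ≤ 1 := by
    rw [hηe]
    exact le_of_eq (one_div_mul_cancel (by positivity))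
  obtain ⟨Ψ, hΨ⟩ := exists_psi hδ (by norm_num : (0 : ℝ) < 120000100) hη0
  obtain ⟨p, hp0, hp⟩ := hΨ.p_pos
  obtain ⟨ε, hε, hε1, hεδ, hεp⟩ : ∃ ε : ℝ, 0 < ε ∧ ε ≤ 1 ∧ ε * B1 ≤ δ ∧ 1000 * ε ≤ p := by
    refine ⟨min 1 (min (δ / B1) (p / 1000)), by positivity, min_le_left _ _, ?_, ?_⟩
    · rw [← le_div_iff₀ hB1]
      exact (min_le_right _ _).trans (min_le_left _ _)
    · have := (min_le_right 1 (min (δ / B1) (p / 1000))).trans (min_le_right _ _)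
      linarith
  obtain ⟨f, hf⟩ := exists_f hν hΨ hε hε1
  refine ⟨f, nofix_GG, om_smooth, om_odd, om_inv, fun x _ h => om_zero x h, om_pos, hf.smooth,
    hf.hom, hf.inv, fun x hx => posDef_of_form ((hf.smooth.contDiffAt
      (isOpen_compl_singleton.mem_nhds (ne_zero_of_norm hx))).of_le two_le_infty) hε (hf.pos x hx),
    ε / 10000, by positivity, fun d hd h1 hi hsm hsup => ?_⟩
  exact no_super hν hC0 hcmp hB hb1 hb hδ hδC hC2 hη hΨ hp hε hεδ hεp hf hd h1 hi hsm hsup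

end Pool.Agent.P.MP_4a4b50_gt.CE
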