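import Pool.Agent.P.MP_4a4b50_gt.CMat
import Pool.Agent.P.MP_4a4b50_gt.CGrp
import Pool.Agent.P.MP_4a4b50_gt.CPsi

/-! The barrier profile and the touching argument. -/

set_option autoImplicit false

namespace Pool.Agent.P.MP_4a4b50_gt.CE

open scoped ContDiff Topology
open Pool.Agent.P.MP_f97e06_gt (Eu)
open Matrix Set Filter

namespace Sub

theorem hasDerivAt_posPow (k : ℕ) (u : ℝ) :
    HasDerivAt (fun u : ℝ => (max u 0) ^ (k + 2)) (((k : ℝ) + 2) * (max u 0) ^ (k + 1)) u := by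
  have hp : ∀ u : ℝ, HasDerivAt (fun u : ℝ => u ^ (k + 2)) (((k : ℝ) + 2) * u ^ (k + 1)) u := by
    intro u
    have := hasDerivAt_pow (k + 2) u
    simpa using this
  rcases lt_trichotomy u 0 with h | h | h
  · rw [max_eq_right h.le, zero_pow (by omega), mul_zero]
    refine (hasDerivAt_const u (0 : ℝ)).congr_of_eventuallyEq ?_
    filter_upwards [Iio_mem_nhds h] with y hy
    rw [max_eq_right (le_of_lt hy), zero_pow (by omega)]
  · subst h
    rw [max_self, zero_pow (by omega), mul_zero]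
    have h1 : HasDerivWithinAt (fun u : ℝ => (max u 0) ^ (k + 2)) 0 (Iic 0) 0 := by
      refine (hasDerivAt_const (0 : ℝ) (0 : ℝ)).hasDerivWithinAt.congr (fun y hy => ?_) (by simp)
      rw [max_eq_right hy, zero_pow (by omega)]
    have h2 : HasDerivWithinAt (fun u : ℝ => (max u 0) ^ (k + 2)) 0 (Ici 0) 0 := by
      have h3 := (hp 0).hasDerivWithinAt (s := Ici 0)
      rw [zero_pow (by omega), mul_zero] at h3
      refine h3.congr (fun y hy => ?_) (by simp)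
      rw [max_eq_left hy]
    have h3 := h1.union h2
    rwa [Iic_union_Ici, hasDerivWithinAt_univ] at h3
  · rw [max_eq_left h.le]
    refine (hp u).congr_of_eventuallyEq ?_
    filter_upwards [Ioi_mem_nhds h] with y hy
    rw [max_eq_left (le_of_lt hy)]

/-- the positive part entering the barrier profile -/
noncomputable def mm (s : ℝ) : ℝ := max (s ^ 2 - (49 / 50) ^ 2) 0

/-- the barrier profile -/
noncomputable def Gam (s : ℝ) : ℝ := -53 / 50 + s ^ 2 / 100 - 40000 * mm s ^ 3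

theorem hasDerivAt_in (s : ℝ) : HasDerivAt (fun s : ℝ => s ^ 2 - (49 / 50) ^ 2) (2 * s) s := by
  simpa using (hasDerivAt_pow 2 s).sub_const ((49 / 50 : ℝ) ^ 2)

theorem hasDerivAt_Gam (s : ℝ) : HasDerivAt Gam (s / 50 - 240000 * (s * mm s ^ 2)) s := by
  have h1 := (hasDerivAt_posPow 1 _).comp s (hasDerivAt_in s)
  have h2 := (((hasDerivAt_pow 2 s).div_const 100).const_add (-53 / 50)).sub (h1.const_mul 40000)
  refine (h2.congr_deriv ?_).congr_of_eventuallyEq (Eventually.of_forall fun y => rfl)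
  simp only [mm]
  push_cast
  ring

theorem deriv_Gam : deriv Gam = fun s => s / 50 - 240000 * (s * mm s ^ 2) :=
  funext fun s => (hasDerivAt_Gam s).deriv

theorem hasDerivAt_Gam' (s : ℝ) : HasDerivAt (deriv Gam)
    (1 / 50 - 240000 * (mm s ^ 2 + 4 * s ^ 2 * mm s)) s := by
  rw [deriv_Gam]
  have h1 := (hasDerivAt_posPow 0 _).comp s (hasDerivAt_in s)
  have h2 := ((hasDerivAt_id s).div_const 50).sub (((hasDerivAt_id s).mul h1).const_mul 240000)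
  refine (h2.congr_deriv ?_).congr_of_eventuallyEq (Eventually.of_forall fun y => rfl)
  simp only [mm, Function.comp, id]
  push_cast
  ring

theorem deriv2_Gam : deriv (deriv Gam) = fun s => 1 / 50 - 240000 * (mm s ^ 2 + 4 * s ^ 2 * mm s) :=
  funext fun s => (hasDerivAt_Gam' s).deriv

theorem contDiff_Gam : ContDiff ℝ 2 Gam := by
  have h0 : Continuous (deriv (deriv Gam)) := by
    rw [deriv2_Gam]
    unfold mm
    fun_prop
  have h1 : ContDiff ℝ 1 (deriv Gam) :=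
    contDiff_one_iff_deriv.2 ⟨fun s => (hasDerivAt_Gam' s).differentiableAt, h0⟩
  exact (contDiff_succ_iff_deriv (n := 1)).2
    ⟨fun s => (hasDerivAt_Gam s).differentiableAt, by simp, h1⟩

theorem mm_nonneg (s : ℝ) : 0 ≤ mm s := le_max_right _ _

theorem mm_le_sq (s : ℝ) : mm s ≤ s ^ 2 := max_le (by norm_num) (sq_nonneg s)

theorem sq_le_one {s : ℝ} (h : |s| ≤ 1) : s ^ 2 ≤ 1 := by
  rw [← sq_abs]
  nlinarith [abs_nonneg s]

theorem Gam_le {s : ℝ} (h : |s| ≤ 1) : Gam s ≤ -21 / 20 := by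
  have h1 := sq_le_one h
  have h2 : 0 ≤ mm s ^ 3 := pow_nonneg (mm_nonneg s) 3
  unfold Gam
  linarith

theorem Gam_p {s : ℝ} (h : |s| ≤ 1) : -107 / 100 ≤ Gam s - s * deriv Gam s := by
  have h1 := sq_le_one h
  have h2 := mm_nonneg s
  have h3 := mm_le_sq s
  rw [deriv_Gam]
  unfold Gam
  have h4 : 0 ≤ mm s ^ 2 * (6 * s ^ 2 - mm s) := mul_nonneg (sq_nonneg _) (by nlinarith)
  nlinarith

theorem Gam_k {s : ℝ} (h : |s| ≤ 1) : -1200001 ≤ deriv (deriv Gam) s := by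
  have h1 := sq_le_one h
  have h2 := mm_nonneg s
  have h3 := mm_le_sq s
  rw [deriv2_Gam]
  have h4 : mm s ^ 2 ≤ 1 := by nlinarith
  have h5 : s ^ 2 * mm s ≤ 1 := by nlinarith
  nlinarith

theorem Gam_k_inner {s : ℝ} (h : |s| ≤ 49 / 50) : deriv (deriv Gam) s = 1 / 50 := by
  have h1 : mm s = 0 := by
    refine max_eq_right ?_
    rw [← sq_abs]
    nlinarith [abs_nonneg s]
  rw [deriv2_Gam]
  simp [h1]

theorem Gam_one {s : ℝ} (h : |s| = 1) : Gam s < -3 := by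
  have h1 : s ^ 2 = 1 := by rw [← sq_abs, h]; norm_num
  have h2 : mm s = 99 / 2500 := by
    unfold mm
    rw [h1, max_eq_left (by norm_num)]
    norm_num
  unfold Gam
  rw [h1, h2]
  norm_num

theorem Gam_zero : Gam 0 = -53 / 50 := by
  have h2 : mm 0 = 0 := max_eq_right (by norm_num)
  unfold Gam
  rw [h2]
  norm_num

/-- the barrier -/
noncomputable def Gf (ν : Eu 10 → ℝ) (z : Eu 10) : ℝ := ν z * Gam (z 0 / ν z)

variable {ν : Eu 10 → ℝ}

theorem Gf_hom (hν : NuSpec ν) : Hom1 (Gf ν) := by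
  intro t ht x
  unfold Gf
  rw [hν.hom t ht, PiLp.smul_apply, smul_eq_mul, mul_div_mul_left _ _ ht.ne', mul_assoc]

theorem Y_ne_of {x : Eu 10} (hν : NuSpec ν) (hx : x ≠ 0) (h : |x 0| ≤ ν x) : Y x ≠ 0 := by
  intro h0
  rw [hν.zero x h0] at h
  have h1 : x 0 = 0 := abs_nonpos_iff.1 h
  exact hx (ext_Y (by simpa using h1) (by rw [h0, Y_zero]))

theorem ne_zero_of_norm {x : Eu 10} (hx : ‖x‖ = 1) : x ≠ 0 := by
  rintro rfl
  simp at hx

theorem ne_zero_of_Y {x : Eu 10} (hx : Y x ≠ 0) : x ≠ 0 := by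
  rintro rfl
  exact hx Y_zero

theorem ratio_le {x : Eu 10} (hν : NuSpec ν) (hx : Y x ≠ 0) (h : |x 0| ≤ ν x) :
    |x 0 / ν x| ≤ 1 := by
  have := hν.pos x hx
  rw [abs_div, abs_of_pos this, div_le_one this]
  exact h

theorem diag_lower (hν : NuSpec ν) {x : Eu 10} {a : Fin 4 → ℝ} (ha : Y x = diagonal a)
    (j : Fin 4) : -a j ≤ ν x := by
  have h := hν.lower x (Pi.single j 1) (by simp)
  rw [ha] at h
  simpa [mulVec_diagonal] using h

theorem diag_lower_neg (hν : NuSpec ν) {x : Eu 10} {a : Fin 4 → ℝ} (ha : Y x = diagonal a) :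
    a 0 ≤ ν (-x) := by
  have h := diag_lower hν (x := -x) (a := -a) (by rw [Y_neg, ha, diagonal_neg]; rfl) 0
  simpa using h

/-- the compact set on which the barrier is compared with the supersolution -/
def Kp (ν : Eu 10 → ℝ) : Set (Eu 10) :=
  {x | ‖x‖ = 1 ∧ |x 0| ≤ ν x ∧ Y x = diagonal (fun i => Y x i i) ∧ 0 ≤ Y x 0 0 + Gf ν x}

theorem contAt_Gf (hν : NuSpec ν) {x : Eu 10} (hx : Y x ≠ 0) : ContDiffAt ℝ 2 (Gf ν) x :=
  (comp_deriv hν contDiff_Gam hx 0).1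

theorem cont_Y (i j : Fin 4) : Continuous fun x : Eu 10 => Y x i j := (contDiff_Y i j).continuous

theorem cont_coord : Continuous fun x : Eu 10 => x 0 := (contDiff_coord (N := 0)).continuous

theorem isCompact_K0 (hν : NuSpec ν) : IsCompact {x : Eu 10 | ‖x‖ = 1 ∧ |x 0| ≤ ν x} := by
  have h1 : {x : Eu 10 | ‖x‖ = 1 ∧ |x 0| ≤ ν x} = Metric.sphere 0 1 ∩ {x | |x 0| ≤ ν x} := by
    ext x
    simp
  rw [h1]
  exact (isCompact_sphere 0 1).inter_right (isClosed_le cont_coord.abs hν.cont)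

theorem isCompact_Kp (hν : NuSpec ν) : IsCompact (Kp ν) := by
  have h0 := isCompact_K0 hν
  have h1 : ContinuousOn (fun x => Y x 0 0 + Gf ν x) {x : Eu 10 | ‖x‖ = 1 ∧ |x 0| ≤ ν x} :=
    fun x hx => ((cont_Y 0 0).continuousAt.add
      (contAt_Gf hν (Y_ne_of hν (ne_zero_of_norm hx.1) hx.2)).continuousAt).continuousWithinAt
  have h2 := h1.preimage_isClosed_of_isClosed h0.isClosed (isClosed_Ici (a := (0 : ℝ)))
  have h3 : IsClosed {x : Eu 10 | Y x = diagonal (fun i => Y x i i)} :=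
    isClosed_eq continuous_Y (Continuous.matrix_diagonal (continuous_pi fun i => cont_Y i i))
  refine h0.of_isClosed_subset ?_ fun x hx => ⟨hx.1, hx.2.1⟩
  convert h2.inter h3 using 1
  ext x
  simp only [Kp, mem_ofPred_eq, mem_inter_iff, mem_preimage, mem_Ici]
  tauto

theorem Kp_big (hν : NuSpec ν) {x : Eu 10} (hx : x ∈ Kp ν) : 21 / 20 * ν x ≤ Y x 0 0 := by
  obtain ⟨h1, h2, -, h4⟩ := hx
  have hY := Y_ne_of hν (ne_zero_of_norm h1) h2
  have h5 := Gam_le (ratio_le hν hY h2)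
  have h6 := hν.pos x hY
  unfold Gf at h4
  nlinarith

theorem Kp_om (hν : NuSpec ν) {x : Eu 10} (hx : x ∈ Kp ν) : 0 < om x := by
  have hb := Kp_big hν hx
  obtain ⟨h1, h2, h3, -⟩ := hx
  have h6 := hν.pos x (Y_ne_of hν (ne_zero_of_norm h1) h2)
  rw [om_diag h3]
  have a1 := diag_lower hν h3 1
  have a2 := diag_lower hν h3 2
  have a3 := diag_lower hν h3 3
  have b1 : 0 < Y x 0 0 + Y x 1 1 := by linarith
  have b2 : 0 < Y x 0 0 + Y x 2 2 := by linarith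
  have b3 : 0 < Y x 0 0 + Y x 3 3 := by linarith
  positivity

theorem Kp_lt (hν : NuSpec ν) {x : Eu 10} (hx : x ∈ Kp ν) : |x 0| < ν x := by
  obtain ⟨h1, h2, h3, h4⟩ := hx
  have h6 := hν.pos x (Y_ne_of hν (ne_zero_of_norm h1) h2)
  refine lt_of_le_of_ne h2 fun h => ?_
  have h7 : |x 0 / ν x| = 1 := by rw [abs_div, h, abs_of_pos h6, div_self h6.ne']
  have h8 := Gam_one h7
  have a0 := sum_diag h3
  have a1 := diag_lower hν h3 1
  have a2 := diag_lower hν h3 2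
  have a3 := diag_lower hν h3 3
  unfold Gf at h4
  nlinarith

theorem exists_Kp (hν : NuSpec ν) : ∃ x ∈ Kp ν, 0 < Y x 0 0 + Gf ν x := by
  have hn : 0 < ‖H0‖ := by
    rcases (norm_nonneg H0).lt_or_eq with h | h
    · exact h
    · have := norm_H0_sq
      rw [← h] at this
      norm_num at this
  have hc : 0 < ‖H0‖⁻¹ := inv_pos.2 hn
  have hY : Y (‖H0‖⁻¹ • H0) = Matrix.diagonal (‖H0‖⁻¹ • (![3, -1, -1, -1] : Fin 4 → ℝ)) := by
    rw [Y_smul, Y_H0, Matrix.diagonal_smul]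
  have h0 : H0 0 = 0 := rfl
  have hY0 : Y H0 ≠ 0 := by
    intro h
    have := congrFun (congrFun (Y_H0.symm.trans h) 0) 0
    simp at this
  have hp := hν.pos H0 hY0
  have hW : 0 < Y (‖H0‖⁻¹ • H0) 0 0 + Gf ν (‖H0‖⁻¹ • H0) := by
    rw [Gf_hom hν _ hc, Y_smul, Y_H0]
    unfold Gf
    rw [h0, zero_div, Gam_zero]
    have := hν.upper
    simp only [Matrix.smul_apply, diagonal_apply_eq, Matrix.cons_val_zero, smul_eq_mul]
    rw [← mul_add]
    exact mul_pos hc (by linarith)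
  refine ⟨‖H0‖⁻¹ • H0, ⟨by rw [norm_smul, norm_inv, norm_norm, inv_mul_cancel₀ hn.ne'], ?_, ?_,
    hW.le⟩, hW⟩
  · rw [hν.hom _ hc, PiLp.smul_apply, h0, smul_zero, abs_zero]
    positivity
  · rw [hY]
    simp

/-- the touching point and the global comparison -/
theorem exists_touch (hν : NuSpec ν) {d : Eu 10 → ℝ} (hd : ContDiffOn ℝ 2 d {0}ᶜ) (h1 : Hom1 d)
    (hi : Inv GG d) (hp : ∀ x, ‖x‖ = 1 → 0 < om x → 0 < d x) :
    ∃ x ∈ Kp ν, ∃ s : ℝ, 0 < s ∧ 0 < Y x 0 0 + Gf ν x ∧ d x = s * (Y x 0 0 + Gf ν x) ∧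
      ∀ z, Y z ≠ 0 → |z 0| ≤ ν z → ∀ q : Fin 4 → ℝ, 0 < q ⬝ᵥ q →
        0 ≤ q ⬝ᵥ Y z *ᵥ q + q ⬝ᵥ q * Gf ν z →
        s * (q ⬝ᵥ Y z *ᵥ q + q ⬝ᵥ q * Gf ν z) ≤ q ⬝ᵥ q * d z := by
  have hdp : ∀ x ∈ Kp ν, 0 < d x := fun x hx => hp x hx.1 (Kp_om hν hx)
  obtain ⟨x0, hx0, hW0⟩ := exists_Kp hν
  have hc : ContinuousOn (fun x => (Y x 0 0 + Gf ν x) / d x) (Kp ν) := by
    intro x hx
    have hx0 := ne_zero_of_norm hx.1
    refine ContinuousAt.continuousWithinAt (ContinuousAt.div ((cont_Y 0 0).continuousAt.add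
      (contAt_Gf hν (Y_ne_of hν hx0 hx.2.1)).continuousAt) ?_ (hdp x hx).ne')
    exact (hd.contDiffAt (isOpen_compl_singleton.mem_nhds hx0)).continuousAt
  obtain ⟨x, hx, hmax⟩ := (isCompact_Kp hν).exists_isMaxOn ⟨x0, hx0⟩ hc
  have hdx := hdp x hx
  have hW : 0 < Y x 0 0 + Gf ν x := by
    have h2 : (Y x0 0 0 + Gf ν x0) / d x0 ≤ (Y x 0 0 + Gf ν x) / d x := hmax hx0
    have h3 := (div_pos hW0 (hdp x0 hx0)).trans_le h2
    exact (div_pos_iff_of_pos_right hdx).1 h3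
  refine ⟨x, hx, d x / (Y x 0 0 + Gf ν x), div_pos hdx hW, hW, by field_simp, ?_⟩
  set s := d x / (Y x 0 0 + Gf ν x) with hs
  have hs0 : 0 < s := div_pos hdx hW
  have hK : ∀ z ∈ Kp ν, s * (Y z 0 0 + Gf ν z) ≤ d z := by
    intro z hz
    have h2 : (Y z 0 0 + Gf ν z) / d z ≤ (Y x 0 0 + Gf ν x) / d x := hmax hz
    rw [div_le_div_iff₀ (hdp z hz) hdx] at h2
    rw [hs, div_mul_eq_mul_div, div_le_iff₀ hW]
    linarith
  have hU : ∀ z, ‖z‖ = 1 → |z 0| ≤ ν z → ∀ q : Fin 4 → ℝ, q ⬝ᵥ q = 1 →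
      0 ≤ q ⬝ᵥ Y z *ᵥ q + Gf ν z → s * (q ⬝ᵥ Y z *ᵥ q + Gf ν z) ≤ d z := by
    intro z hz hz0 q hq hW
    obtain ⟨g, hg, a, ha, hg0, hqa⟩ := exists_diag z
    have e1 : ν (g z) = ν z := hν.inv g hg z
    have e2 : Gf ν (g z) = Gf ν z := by
      unfold Gf
      rw [e1, hg0]
    have e3 : Y (g z) 0 0 = a 0 := by rw [ha, diagonal_apply_eq]
    have h3 := hqa q hq
    have hm : g z ∈ Kp ν := by
      refine ⟨by rw [g.norm_map, hz], by rw [e1, hg0]; exact hz0, by rw [ha]; simp, ?_⟩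
      rw [e2, e3]
      linarith
    have h4 := hK _ hm
    rw [e2, e3, hi g hg z] at h4
    nlinarith
  intro z hz hz0 q hq hW
  have hzn : 0 < ‖z‖ := norm_pos_iff.2 (ne_zero_of_Y hz)
  have ht : 0 < ‖z‖⁻¹ := inv_pos.2 hzn
  obtain ⟨c, hc0, hc⟩ : ∃ c : ℝ, 0 < c ∧ c ^ 2 * (q ⬝ᵥ q) = 1 :=
    ⟨(√(q ⬝ᵥ q))⁻¹, inv_pos.2 (Real.sqrt_pos.2 hq), by
      rw [inv_pow, Real.sq_sqrt hq.le, inv_mul_cancel₀ hq.ne']⟩
  have e1 : (c • q) ⬝ᵥ Y (‖z‖⁻¹ • z) *ᵥ (c • q) + Gf ν (‖z‖⁻¹ • z) =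
      ‖z‖⁻¹ * c ^ 2 * (q ⬝ᵥ Y z *ᵥ q + q ⬝ᵥ q * Gf ν z) := by
    rw [Gf_hom hν _ ht, Y_smul, smul_mulVec, mulVec_smul, smul_dotProduct, dotProduct_smul,
      dotProduct_smul]
    simp only [smul_eq_mul]
    linear_combination (-(‖z‖⁻¹ * Gf ν z)) * hc
  have h5 := hU (‖z‖⁻¹ • z) (by rw [norm_smul, norm_inv, norm_norm, inv_mul_cancel₀ hzn.ne'])
    (by
      rw [hν.hom _ ht, PiLp.smul_apply, smul_eq_mul, abs_mul, abs_of_pos ht]
      exact mul_le_mul_of_nonneg_left hz0 ht.le) (c • q)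
    (by
      rw [smul_dotProduct, dotProduct_smul, smul_eq_mul, smul_eq_mul, ← hc]
      ring)
    (by rw [e1]; positivity)
  rw [e1, h1 _ ht] at h5
  have h6 : ‖z‖⁻¹ * c ^ 2 * (s * (q ⬝ᵥ Y z *ᵥ q + q ⬝ᵥ q * Gf ν z)) ≤
      ‖z‖⁻¹ * c ^ 2 * (q ⬝ᵥ q * d z) := by
    calc _ = s * (‖z‖⁻¹ * c ^ 2 * (q ⬝ᵥ Y z *ᵥ q + q ⬝ᵥ q * Gf ν z)) := by ring
      _ ≤ ‖z‖⁻¹ * d z := h5
      _ = _ := by linear_combination (-(‖z‖⁻¹ * d z)) * hc
  exact le_of_mul_le_mul_left h6 (by positivity)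

end Sub

end Pool.Agent.P.MP_4a4b50_gt.CE
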