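import Pool.Agent.P.MP_4a4b50_gt.Est

/-! Sobolev algebras as completions. -/

set_option autoImplicit false

noncomputable section

open Set Filter Topology Metric
open scoped ContDiff BoundedContinuousFunction

namespace Pool.Agent.P.MP_4a4b50_gt

variable {n : ℕ}

/-- smooth functions with an algebra norm of Sobolev type -/
def HH (n : ℕ) (_j : ℕ) : Type := Sm n

instance (j : ℕ) : CommRing (HH n j) := inferInstanceAs (CommRing (Sm n))

instance (j : ℕ) : Algebra ℝ (HH n j) := inferInstanceAs (Algebra ℝ (Sm n))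

/-- identity map -/
def toH (j : ℕ) : Sm n ≃ₐ[ℝ] HH n j := AlgEquiv.refl

/-- normalising constant -/
def cst (n j : ℕ) : ℝ := Classical.choose (alg_bound (n := n) (2 * n + j)) + 1

theorem cst_pos (j : ℕ) : 0 < cst n j := by
  have := (Classical.choose_spec (alg_bound (n := n) (2 * n + j))).1
  unfold cst
  linarith

theorem cst_spec (j : ℕ) (f g : Sm n) :
    nrm (2 * n + j) (f * g) ≤ cst n j * (nrm (2 * n + j) f * nrm (2 * n + j) g) := by
  have := (Classical.choose_spec (alg_bound (n := n) (2 * n + j))).2 _ _ le_rfl le_rfl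
    (by omega) f g
  refine this.trans (mul_le_mul_of_nonneg_right ?_ (mul_nonneg (nn _ _) (nn _ _)))
  unfold cst
  linarith

/-- the algebra seminorm -/
def rsn (n j : ℕ) : RingSeminorm (HH n j) where
  toFun f := cst n j * nrm (2 * n + j) ((toH j).symm f)
  map_zero' := by simp
  add_le' f g := by
    rw [map_add, ← mul_add]
    exact mul_le_mul_of_nonneg_left (nrm_add _ _ _) (cst_pos j).le
  neg' f := by rw [map_neg, map_neg_eq_map]
  mul_le' f g := by
    rw [map_mul]
    have := mul_le_mul_of_nonneg_left (cst_spec j ((toH j).symm f) ((toH j).symm g))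
      (cst_pos (n := n) j).le
    linarith

instance (j : ℕ) : SeminormedCommRing (HH n j) :=
  { (rsn n j).toSeminormedRing with mul_comm := mul_comm }

theorem norm_HH (j : ℕ) (f : HH n j) : ‖f‖ = cst n j * nrm (2 * n + j) ((toH j).symm f) := rfl

instance (j : ℕ) : NormedAlgebra ℝ (HH n j) where
  norm_smul_le r f := by
    rw [norm_HH, norm_HH, map_smul, map_smul_eq_mul]
    exact le_of_eq (by ring)

/-- the Sobolev algebra -/
abbrev AA (n j : ℕ) : Type := UniformSpace.Completion (HH n j)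

/-- inclusion of smooth functions, ring form -/
def ioR (j : ℕ) : Sm n →+* AA n j :=
  (UniformSpace.Completion.coeRingHom).comp (toH j).toRingEquiv.toRingHom

/-- inclusion of smooth functions -/
def io (j : ℕ) : Sm n →ₗ[ℝ] AA n j :=
  (UniformSpace.Completion.toComplL : HH n j →L[ℝ] AA n j).toLinearMap ∘ₗ
    (toH j).toLinearEquiv.toLinearMap

theorem io_eq (j : ℕ) (f : Sm n) : io j f = ioR j f := rfl

theorem io_mul (j : ℕ) (f g : Sm n) : io j (f * g) = io j f * io j g := map_mul (ioR j) f g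

theorem norm_io (j : ℕ) (f : Sm n) : ‖io j f‖ = cst n j * nrm (2 * n + j) f :=
  UniformSpace.Completion.norm_coe (toH j f)

theorem dense_io (j : ℕ) : DenseRange (io (n := n) j) :=
  UniformSpace.Completion.denseRange_coe (α := HH n j)

/-- a smooth function as a bounded continuous function -/
def evS : Sm n →ₗ[ℝ] (Sph n →ᵇ ℝ) where
  toFun f := BoundedContinuousFunction.mkOfCompact ⟨f.1, (Sm.cm f).continuous⟩
  map_add' _ _ := rfl
  map_smul' _ _ := rfl

theorem evS_apply (f : Sm n) (u : Sph n) : evS f u = f.1 u := rfl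

/-- evaluation -/
def ev (j : ℕ) : AA n j →L[ℝ] (Sph n →ᵇ ℝ) := evS.extendOfNorm (io j)

theorem ev_io (j : ℕ) (f : Sm n) : ev j (io j f) = evS f := by
  apply LinearMap.extendOfNorm_eq (dense_io j)
  obtain ⟨C, hC, h⟩ := sobolev (n := n)
  refine ⟨C / cst n j, fun f => ?_⟩
  have hc := cst_pos (n := n) j
  rw [norm_io, ← mul_assoc, div_mul_cancel₀ _ hc.ne',
    BoundedContinuousFunction.norm_le (mul_nonneg hC (nn _ _))]
  intro u
  exact (h f u).trans (mul_le_mul_of_nonneg_left (nrm_mono (by omega) f) hC)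

theorem cont_evp (j : ℕ) (u : Sph n) : Continuous fun z : AA n j => ev j z u :=
  (continuous_eval_const u).comp (ev j).continuous

/-- evaluation at a point -/
def evp (j : ℕ) (u : Sph n) : AA n j →+* ℝ where
  toFun z := ev j z u
  map_one' := by
    have : (1 : AA n j) = io j 1 := (map_one (ioR j)).symm
    rw [this, ev_io]
    rfl
  map_mul' a b := by
    have hc := cont_evp j u
    refine (dense_io j).induction_on₂ (p := fun a b => ev j (a * b) u = ev j a u * ev j b u)
      (isClosed_eq (hc.comp continuous_mul) ((hc.comp continuous_fst).mul (hc.comp continuous_snd)))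
      (fun f g => ?_) a b
    rw [← io_mul, ev_io, ev_io, ev_io]
    rfl
  map_zero' := by simp
  map_add' a b := by simp

theorem evp_apply (j : ℕ) (u : Sph n) (z : AA n j) : evp j u z = ev j z u := rfl

/-- extension of an operator -/
def opL (P : Module.End ℝ (Sm n)) (j m : ℕ) : AA n (j + m) →L[ℝ] AA n j :=
  (io j ∘ₗ P).extendOfNorm (io (j + m))

theorem opL_io {P : Module.End ℝ (Sm n)} {m : ℕ} (hP : Bd m P) (j : ℕ) (f : Sm n) :
    opL P j m (io (j + m) f) = io j (P f) := by
  apply LinearMap.extendOfNorm_eq (dense_io (j + m))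
  obtain ⟨C, hC, h⟩ := hP (2 * n + j)
  refine ⟨cst n j * C / cst n (j + m), fun f => ?_⟩
  have hc := cst_pos (n := n) (j + m)
  rw [LinearMap.comp_apply, norm_io, norm_io, ← mul_assoc, div_mul_cancel₀ _ hc.ne', mul_assoc,
    ← add_assoc]
  exact mul_le_mul_of_nonneg_left (h f) (cst_pos j).le

/-- gradient built from tangential components -/
def gr (g : Fin n → Sph n → ℝ) (y : EE n) : EE n →L[ℝ] ℝ :=
  ∑ i, (‖y‖⁻¹ * ext0 (g i) y) • (EuclideanSpace.proj i : EE n →L[ℝ] ℝ)

theorem gr_ee (g : Fin n → Sph n → ℝ) (y : EE n) (j : Fin n) :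
    gr g y (ee j) = ‖y‖⁻¹ * ext0 (g j) y := by
  simp [gr, PiLp.single_apply]

theorem fderiv_eq_gr (f : Sph n → ℝ) {y : EE n} (hy : y ≠ 0) :
    fderiv ℝ (ext0 f) y = gr (fun i => Tf i f) y := by
  ext v
  rw [clm_sum, clm_sum (gr _ y)]
  refine Finset.sum_congr rfl fun j _ => ?_
  rw [gr_ee, ext0_Tf j f hy, inv_mul_cancel_left₀ (norm_ne_zero_iff.mpr hy)]

theorem gr_sub_le {g g' : Fin n → Sph n → ℝ} {M : ℝ} (h : ∀ i u, |g i u - g' i u| ≤ M)
    {y : EE n} (hy : y ≠ 0) : ‖gr g y - gr g' y‖ ≤ n * (‖y‖⁻¹ * M) := by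
  rw [gr, gr, ← Finset.sum_sub_distrib]
  refine (norm_sum_le _ _).trans ?_
  have : ∀ i ∈ (Finset.univ : Finset (Fin n)),
      ‖(‖y‖⁻¹ * ext0 (g i) y) • (EuclideanSpace.proj i : EE n →L[ℝ] ℝ)
        - (‖y‖⁻¹ * ext0 (g' i) y) • (EuclideanSpace.proj i : EE n →L[ℝ] ℝ)‖ ≤ ‖y‖⁻¹ * M := by
    intro i _
    have h1 : ‖(EuclideanSpace.proj i : EE n →L[ℝ] ℝ)‖ ≤ 1 :=
      ContinuousLinearMap.opNorm_le_bound _ zero_le_one fun v => by
        rw [one_mul]
        exact PiLp.norm_apply_le v i
    rw [← sub_smul, norm_smul, ← mul_sub, ext0_of_ne _ hy, ext0_of_ne _ hy, norm_mul, norm_inv,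
      norm_norm]
    refine (mul_le_of_le_one_right (by positivity) h1).trans ?_
    exact mul_le_mul_of_nonneg_left (h i _) (by positivity)
  have h2 := Finset.sum_le_card_nsmul _ _ _ this
  rwa [Finset.card_univ, Fintype.card_fin, nsmul_eq_mul] at h2

theorem hasFDerivAt_ev (j : ℕ) (z : AA n (j + 1)) {x : EE n} (hx : x ≠ 0) :
    HasFDerivAt (ext0 (ev (j + 1) z)) (gr (fun i => ev j (opL (T i) j 1 z)) x) x := by
  obtain ⟨w, hw, hwz⟩ := mem_closure_iff_seq_limit.mp (dense_io (j + 1) z)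
  choose φ hφ using hw
  have hx0 : 0 < ‖x‖ := norm_pos_iff.mpr hx
  have hs : IsOpen {y : EE n | ‖x‖ / 2 < ‖y‖} := isOpen_lt continuous_const continuous_norm
  have hne : ∀ y ∈ {y : EE n | ‖x‖ / 2 < ‖y‖}, y ≠ 0 := fun y hy =>
    norm_pos_iff.mp (lt_trans (by positivity) hy)
  refine hasFDerivAt_of_tendstoUniformlyOn (l := atTop) (f := fun m => ext0 (φ m).1)
    (f' := fun m => gr fun i => Tf i (φ m).1) hs ?_ ?_ ?_ (show ‖x‖ / 2 < ‖x‖ by linarith)
  · rw [Metric.tendstoUniformlyOn_iff]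
    intro ε hε
    have h1 : ∀ i, ∀ᶠ m in atTop, dist (ev j (opL (T i) j 1 (w m))) (ev j (opL (T i) j 1 z))
        < ε * ‖x‖ / (2 * (n + 1)) := fun i =>
      Metric.tendsto_nhds.mp ((((ev j).continuous.comp (opL (T i) j 1).continuous).tendsto z).comp
        hwz) _ (by positivity)
    filter_upwards [eventually_all.mpr h1] with m hm y hy
    rw [dist_eq_norm]
    refine (gr_sub_le (M := ε * ‖x‖ / (2 * (n + 1))) (fun i u => ?_) (hne y hy)).trans_lt ?_
    · have := (BoundedContinuousFunction.dist_coe_le_dist u).trans (hm i).le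
      rw [← hφ m, opL_io (bd_T i), ev_io, Real.dist_eq, abs_sub_comm] at this
      exact this
    · have hy' : ‖x‖ / 2 < ‖y‖ := hy
      have hy0 : 0 < ‖y‖ := lt_trans (by positivity) hy'
      have h2 : ‖y‖⁻¹ * (ε * ‖x‖ / (2 * (n + 1))) ≤ ε / (n + 1) := by
        rw [inv_mul_le_iff₀ hy0, div_le_iff₀ (by positivity)]
        have : ‖y‖ * (ε / (n + 1)) * (2 * (n + 1)) = ε * (2 * ‖y‖) := by field_simp
        rw [this]
        exact mul_le_mul_of_nonneg_left (by linarith) hε.le
      refine (mul_le_mul_of_nonneg_left h2 (by positivity)).trans_lt ?_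
      rw [mul_div_assoc', div_lt_iff₀ (by positivity)]
      nlinarith
  · intro m y hy
    rw [← fderiv_eq_gr _ (hne y hy)]
    exact ((Sm.cm (φ m)).diff inf_ne (hne y hy)).hasFDerivAt
  · intro y hy
    simp only [ext0_of_ne _ (hne y hy)]
    have := ((cont_evp (j + 1) (nu y (hne y hy))).tendsto z).comp hwz
    refine this.congr fun m => ?_
    rw [Function.comp_apply, ← hφ m, ev_io]
    rfl

theorem Tf_ev (j : ℕ) (z : AA n (j + 1)) (i : Fin n) :
    Tf i (ev (j + 1) z) = ev j (opL (T i) j 1 z) := by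
  funext u
  rw [Tf, (hasFDerivAt_ev j z (Sph.ne_zero u)).fderiv, gr_ee, Sph.norm_eq, inv_one, one_mul,
    ext0_coe]

theorem continuous_nu_ext {f : Sph n → ℝ} (hf : Continuous f) : ContinuousOn (ext0 f) {0}ᶜ := by
  rw [continuousOn_iff_continuous_domRestrict]
  have : ({0}ᶜ : Set (EE n)).domRestrict (ext0 f) = fun y => f (nu y.1 y.2) := by
    funext y
    exact ext0_of_ne f y.2
  rw [this]
  refine hf.comp (Continuous.subtype_mk ?_ _)
  exact (continuous_subtype_val.norm.inv₀ fun y => norm_ne_zero_iff.mpr y.2).smul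
    continuous_subtype_val

theorem reg (m : ℕ) : ∀ k, m ≤ k → ∀ z : AA n k, Cm m (ev k z) := by
  induction m with
  | zero =>
    intro k _ z
    exact contDiffOn_zero.mpr (continuous_nu_ext (ev k z).continuous)
  | succ m ih =>
    intro k hk z
    obtain ⟨k, rfl⟩ : ∃ k', k = k' + 1 := ⟨k - 1, by omega⟩
    unfold Cm
    rw [Nat.cast_succ, contDiffOn_succ_iff_fderiv_of_isOpen isOpen_compl_singleton]
    refine ⟨fun x hx => (hasFDerivAt_ev k z hx).differentiableAt.differentiableWithinAt,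
      by simp, ?_⟩
    refine ContDiffOn.congr (f := gr fun i => ev k (opL (T i) k 1 z)) ?_
      fun x hx => (hasFDerivAt_ev k z hx).fderiv
    exact ContDiffOn.sum fun i _ =>
      ((contDiffOn_nrm_inv m).mul (ih k (by omega) _)).smul contDiffOn_const

theorem hess_ev (j : ℕ) (z : AA n (j + 2)) (u : Sph n) (i l : Fin n) :
    hess (lift (ev (j + 2) z)) u i l = ev j (opL (D i l) j 2 z) u := by
  rw [hess_lift (reg 2 (j + 2) (by omega) z)]
  have e1 : xf l * ev (j + 2) z + Tf l (ev (j + 2) z) = ev (j + 1) (opL (Q l) (j + 1) 1 z) := by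
    rw [Tf_ev (j + 1)]
    funext v
    refine (dense_io (j + 2)).induction_on z (p := fun z => xf l v * ev (j + 2) z v
      + ev (j + 1) (opL (T l) (j + 1) 1 z) v = ev (j + 1) (opL (Q l) (j + 1) 1 z) v)
      (isClosed_eq ((continuous_const.mul (cont_evp _ v)).add
        ((cont_evp _ v).comp (opL (T l) (j + 1) 1).continuous))
        ((cont_evp _ v).comp (opL (Q l) (j + 1) 1).continuous)) fun f => ?_
    rw [opL_io (bd_T l), opL_io (bd_Q l), ev_io, ev_io, ev_io]
    rfl
  rw [e1, Tf_ev j]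
  refine (dense_io (j + 2)).induction_on z (p := fun z =>
    ev j (opL (T i) j 1 (opL (Q l) (j + 1) 1 z)) u = ev j (opL (D i l) j 2 z) u)
    (isClosed_eq ((cont_evp _ u).comp ((opL (T i) j 1).continuous.comp
      (opL (Q l) (j + 1) 1).continuous)) ((cont_evp _ u).comp (opL (D i l) j 2).continuous))
    fun f => ?_
  rw [opL_io (bd_Q l), opL_io (bd_T i), opL_io (bd_D i l)]
  rfl

theorem ev_compact (j : ℕ) : ∃ S : Set (Sph n →ᵇ ℝ), IsCompact S ∧
    ∀ z : AA n (j + 1), ‖z‖ ≤ 1 → ev (j + 1) z ∈ S := by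
  obtain ⟨M0, hM0', b0⟩ : ∃ M0 : ℝ, 0 ≤ M0 ∧
      ∀ z : AA n (j + 1), ‖z‖ ≤ 1 → ∀ u, |ev (j + 1) z u| ≤ M0 :=
    ⟨‖ev (n := n) (j + 1)‖, ContinuousLinearMap.opNorm_nonneg _, fun z hz u =>
      ((ev (j + 1) z).norm_coe_le_norm u).trans ((ev (j + 1)).unit_le_opNorm z hz)⟩
  obtain ⟨M1, hM1', b1⟩ : ∃ M1 : ℝ, 0 ≤ M1 ∧
      ∀ z : AA n (j + 1), ‖z‖ ≤ 1 → ∀ i u, |ev j (opL (T i) j 1 z) u| ≤ M1 :=
    ⟨∑ i, ‖(ev j).comp (opL (T (n := n) i) j 1)‖,
      Finset.sum_nonneg fun _ _ => ContinuousLinearMap.opNorm_nonneg _,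
      fun z hz i u => ((ev j (opL (T i) j 1 z)).norm_coe_le_norm u).trans
        ((((ev j).comp (opL (T i) j 1)).unit_le_opNorm z hz).trans
          (Finset.single_le_sum (f := fun i => ‖(ev j).comp (opL (T (n := n) i) j 1)‖)
            (fun _ _ => ContinuousLinearMap.opNorm_nonneg _) (Finset.mem_univ i)))⟩
  refine ⟨closure (ev (j + 1) '' closedBall 0 1), ?_,
    fun z hz => subset_closure ⟨z, by simpa using hz, rfl⟩⟩
  apply BoundedContinuousFunction.arzela_ascoli (Icc (-M0) M0) isCompact_Icc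
  · rintro _ u ⟨z, hz, rfl⟩
    exact abs_le.mp (b0 z (by simpa using hz) u)
  · apply Metric.equicontinuous_of_continuity_modulus (fun r => (n * (2 * M1) + 4 * M0) * r)
    · have : Continuous fun r : ℝ => (n * (2 * M1) + 4 * M0) * r := by fun_prop
      simpa using this.tendsto 0
    · rintro u v ⟨_, z, hz, rfl⟩
      have hz' : ‖z‖ ≤ 1 := by simpa using hz
      change dist (ev (j + 1) z u) (ev (j + 1) z v) ≤ _
      have hd : 0 ≤ dist u v := dist_nonneg
      rcases lt_or_ge (dist u v) (1 / 2) with h | h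
      · have hb : ∀ y ∈ ball (v : EE n) (1 / 2), 1 / 2 ≤ ‖y‖ := by
          intro y hy
          have h1 := norm_sub_norm_le (v : EE n) y
          rw [mem_ball, dist_comm, dist_eq_norm] at hy
          rw [Sph.norm_eq] at h1
          linarith
        have hne : ∀ y ∈ ball (v : EE n) (1 / 2), y ≠ 0 := fun y hy =>
          norm_pos_iff.mp (lt_of_lt_of_le (by norm_num) (hb y hy))
        have := (convex_ball (v : EE n) (1 / 2)).norm_image_sub_le_of_norm_hasFDerivWithin_le
          (C := n * (2 * M1)) (fun y hy => (hasFDerivAt_ev j z (hne y hy)).hasFDerivWithinAt)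
          (fun y hy => by
            have h2 := gr_sub_le (g := fun i => ev j (opL (T i) j 1 z)) (g' := fun _ _ => 0)
              (M := M1) (fun i u => by simpa using b1 z hz' i u) (hne y hy)
            have h3 : gr (fun _ _ => 0 : Fin n → Sph n → ℝ) y = 0 := by
              simp [gr, ext0_of_ne _ (hne y hy)]
            rw [h3, sub_zero] at h2
            refine h2.trans (mul_le_mul_of_nonneg_left
              (mul_le_mul_of_nonneg_right ?_ hM1') (by positivity))
            rw [inv_le_comm₀ (norm_pos_iff.mpr (hne y hy)) (by norm_num)]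
            have := hb y hy
            linarith)
          (mem_ball_self (by norm_num)) (show (u : EE n) ∈ ball (v : EE n) (1 / 2) from h)
        rw [ext0_coe, ext0_coe, ← dist_eq_norm, ← dist_eq_norm] at this
        have e : dist (u : EE n) v = dist u v := rfl
        rw [e] at this
        nlinarith [mul_nonneg hM0' hd]
      · rw [Real.dist_eq]
        have h1 := abs_sub (ev (j + 1) z u) (ev (j + 1) z v)
        have h2 := b0 z hz' u
        have h3 := b0 z hz' v
        have h4 : 0 ≤ (n * (2 * M1)) * dist u v := by positivity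
        nlinarith

end Pool.Agent.P.MP_4a4b50_gt
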