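import Mathlib

set_option autoImplicit false

namespace Pool.Agent.P.MP_4a4b50_gt

/-- support function -/
noncomputable def supp {n : ℕ} (K : Set (EuclideanSpace ℝ (Fin n)))
    (x : EuclideanSpace ℝ (Fin n)) : ℝ :=
  sSup ((fun y => inner ℝ y x) '' K)

/-- product of the principal radii of curvature, `det (D² h (u) + u uᵀ)` -/
noncomputable def radii {n : ℕ} (K : Set (EuclideanSpace ℝ (Fin n)))
    (u : EuclideanSpace ℝ (Fin n)) : ℝ :=
  (Matrix.of (fun i j : Fin n =>
    fderiv ℝ (fderiv ℝ (supp K)) u (EuclideanSpace.single i 1) (EuclideanSpace.single j 1)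
      + u i * u j)).det

/-- convex body with `Cᵏ` support function and positive product of principal radii -/
def IsCPlus {n : ℕ} (k : ℕ) (K : Set (EuclideanSpace ℝ (Fin n))) : Prop :=
  IsCompact K ∧ Convex ℝ K ∧ (interior K).Nonempty ∧ ContDiffOn ℝ k (supp K) {0}ᶜ ∧
    ∀ u, ‖u‖ = 1 → 0 < radii K u

end Pool.Agent.P.MP_4a4b50_gt
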