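import Pool.Agent.P.MP_4a4b50_gt.Sob

/-! A priori estimates for elliptic operators on the sphere. -/

set_option autoImplicit false

noncomputable section

namespace Pool.Agent.P.MP_4a4b50_gt

variable {n : ℕ}

/-- multiplication operator -/
abbrev mu (a : Sm n) : Module.End ℝ (Sm n) := LinearMap.mulLeft ℝ a

/-- operators of order at most `m` -/
def Bd (m : ℕ) (P : Module.End ℝ (Sm n)) : Prop :=
  ∀ k, ∃ C : ℝ, 0 ≤ C ∧ ∀ f, nrm k (P f) ≤ C * nrm (k + m) f

theorem nn (k : ℕ) (f : Sm n) : 0 ≤ nrm k f := apply_nonneg _ _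

theorem nrm_add (k : ℕ) (f g : Sm n) : nrm k (f + g) ≤ nrm k f + nrm k g := map_add_le_add _ _ _

theorem nrm_sum {ι : Type*} (k : ℕ) (s : Finset ι) (f : ι → Sm n) :
    nrm k (∑ i ∈ s, f i) ≤ ∑ i ∈ s, nrm k (f i) := by
  classical
  induction s using Finset.induction with
  | empty => simp
  | insert a s ha ih =>
    rw [Finset.sum_insert ha, Finset.sum_insert ha]
    exact (nrm_add _ _ _).trans (add_le_add le_rfl ih)

theorem bd_mu (a : Sm n) : Bd 0 (mu a) := by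
  intro k
  induction k generalizing a with
  | zero =>
    obtain ⟨C, hC, h⟩ := sobolev (n := n)
    exact ⟨C * nrm n a, mul_nonneg hC (nn _ _), fun f =>
      nrm_zero_mul (h a) (mul_nonneg hC (nn _ _)) f⟩
  | succ k ih =>
    obtain ⟨C, hC, h⟩ := sobolev (n := n)
    obtain ⟨C1, hC1, h1⟩ := ih a
    choose C2 hC2 h2 using fun j => ih (T j a)
    refine ⟨C * nrm n a + ∑ j, (C2 j + C1), add_nonneg (mul_nonneg hC (nn _ _))
      (Finset.sum_nonneg fun j _ => add_nonneg (hC2 j) hC1), fun f => ?_⟩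
    rw [nrm_succ, add_mul, Finset.sum_mul]
    apply add_le_add
    · exact (nrm_zero_mul (h a) (mul_nonneg hC (nn _ _)) f).trans
        (mul_le_mul_of_nonneg_left (nrm_zero_le _ _) (mul_nonneg hC (nn _ _)))
    · refine Finset.sum_le_sum fun j _ => ?_
      rw [LinearMap.mulLeft_apply, T_mul, add_mul]
      exact (nrm_add _ _ _).trans (add_le_add
        ((h2 j f).trans (mul_le_mul_of_nonneg_left (nrm_le_succ _ _) (hC2 j)))
        ((h1 _).trans (mul_le_mul_of_nonneg_left (nrm_T_le _ _ _) hC1)))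

theorem bd_T (j : Fin n) : Bd 1 (T j) := fun k =>
  ⟨1, zero_le_one, fun f => by rw [one_mul]; exact nrm_T_le k j f⟩

theorem Bd.mono {m l : ℕ} {P : Module.End ℝ (Sm n)} (h : Bd m P) (hl : m ≤ l) : Bd l P := by
  intro k
  obtain ⟨C, hC, h1⟩ := h k
  exact ⟨C, hC, fun f => (h1 f).trans (mul_le_mul_of_nonneg_left (nrm_mono (by omega) f) hC)⟩

theorem Bd.mul {m l r : ℕ} {P Q : Module.End ℝ (Sm n)} (hP : Bd m P) (hQ : Bd l Q)
    (h : m + l ≤ r) : Bd r (P * Q) := by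
  intro k
  obtain ⟨C, hC, h1⟩ := hP k
  obtain ⟨C', hC', h2⟩ := hQ (k + m)
  refine ⟨C * C', mul_nonneg hC hC', fun f => (h1 _).trans ?_⟩
  rw [mul_assoc]
  exact mul_le_mul_of_nonneg_left ((h2 f).trans
    (mul_le_mul_of_nonneg_left (nrm_mono (by omega) f) hC')) hC

theorem Bd.add {m : ℕ} {P Q : Module.End ℝ (Sm n)} (hP : Bd m P) (hQ : Bd m Q) :
    Bd m (P + Q) := by
  intro k
  obtain ⟨C, hC, h1⟩ := hP k
  obtain ⟨C', hC', h2⟩ := hQ k
  refine ⟨C + C', add_nonneg hC hC', fun f => ?_⟩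
  rw [add_mul]
  exact (nrm_add _ _ _).trans (add_le_add (h1 f) (h2 f))

theorem Bd.neg {m : ℕ} {P : Module.End ℝ (Sm n)} (hP : Bd m P) : Bd m (-P) := by
  intro k
  obtain ⟨C, hC, h1⟩ := hP k
  exact ⟨C, hC, fun f => by rw [LinearMap.neg_apply, map_neg_eq_map]; exact h1 f⟩

theorem Bd.sub {m : ℕ} {P Q : Module.End ℝ (Sm n)} (hP : Bd m P) (hQ : Bd m Q) :
    Bd m (P - Q) := by
  have e : P - Q = P + -Q := sub_eq_add_neg P Q
  rw [e]
  exact hP.add hQ.neg

theorem Bd.sum {ι : Type*} {m : ℕ} (s : Finset ι) {P : ι → Module.End ℝ (Sm n)}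
    (h : ∀ i, Bd m (P i)) : Bd m (∑ i ∈ s, P i) := by
  classical
  induction s using Finset.induction with
  | empty => exact fun k => ⟨0, le_rfl, fun f => by simp⟩
  | insert a s ha ih =>
    rw [Finset.sum_insert ha]
    exact (h a).add ih

theorem bd_one : Bd 0 (1 : Module.End ℝ (Sm n)) := fun k =>
  ⟨1, zero_le_one, fun f => by rw [one_mul]; exact le_rfl⟩

theorem bd_Q (j : Fin n) : Bd 1 (Q j) := ((bd_mu _).mono zero_le_one).add (bd_T j)

theorem bd_D (i j : Fin n) : Bd 2 (D i j) := (bd_T i).mul (bd_Q j) le_rfl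

/-- second order operator with coefficient matrix `a` -/
def Op (a : Matrix (Fin n) (Fin n) (Sm n)) : Module.End ℝ (Sm n) := ∑ i, ∑ j, mu (a i j) * D i j

theorem Op_apply (a : Matrix (Fin n) (Fin n) (Sm n)) (f : Sm n) :
    Op a f = ∑ i, ∑ j, a i j * D i j f := by
  simp [Op, LinearMap.sum_apply]

theorem bd_Op (a : Matrix (Fin n) (Fin n) (Sm n)) : Bd 2 (Op a) :=
  Bd.sum _ fun i => Bd.sum _ fun j => (bd_mu _).mul (bd_D i j) le_rfl

theorem comm_Op (a : Matrix (Fin n) (Fin n) (Sm n)) (l : Fin n) :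
    ∃ P, Bd 2 P ∧ ∀ f, Op a (T l f) = T l (Op a f) - P f := by
  refine ⟨∑ i, ∑ j, (mu (T l (a i j)) * D i j + mu (a i j) *
    (T i * (mu (T l (xh j)) + mu (xh l) * T j - mu (xh j) * T l)
      + mu (xh l) * (T i * Q j) - mu (xh i) * (T l * Q j))), ?_, fun f => ?_⟩
  · refine Bd.sum _ fun i => Bd.sum _ fun j => ((bd_mu _).mul (bd_D i j) le_rfl).add
      ((bd_mu _).mul (Bd.sub (Bd.add ?_ ?_) ?_) le_rfl)
    · exact (bd_T i).mul ((((bd_mu _).mono zero_le_one).add ((bd_mu _).mul (bd_T j) le_rfl)).sub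
        ((bd_mu _).mul (bd_T l) le_rfl)) le_rfl
    · exact (bd_mu _).mul ((bd_T i).mul (bd_Q j) le_rfl) le_rfl
    · exact (bd_mu _).mul ((bd_T l).mul (bd_Q j) le_rfl) le_rfl
  · rw [Op_apply, Op_apply, map_sum, LinearMap.sum_apply, ← Finset.sum_sub_distrib]
    refine Finset.sum_congr rfl fun i _ => ?_
    rw [map_sum, LinearMap.sum_apply, ← Finset.sum_sub_distrib]
    refine Finset.sum_congr rfl fun j _ => ?_
    have e1 : T l (Q j f) = Q j (T l f) + (T l (xh j) * f + xh l * T j f - xh j * T l f) := by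
      rw [Q_apply, Q_apply, map_add, T_mul, T_comm l j f]
      ring
    have e2 : T l (D i j f) = D i j (T l f) + (T i (T l (xh j) * f + xh l * T j f - xh j * T l f)
        + xh l * T i (Q j f) - xh i * T l (Q j f)) := by
      change T l (T i (Q j f)) = T i (Q j (T l f)) + _
      rw [T_comm l i, ← add_sub_assoc, ← add_assoc, ← map_add, ← e1]
    rw [T_mul, e2]
    simp only [LinearMap.add_apply, LinearMap.sub_apply, Module.End.mul_apply,
      LinearMap.mulLeft_apply]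
    ring

/-- uniform ellipticity -/
def Ell (a : Matrix (Fin n) (Fin n) (Sm n)) : Prop :=
  ∃ c : ℝ, 0 < c ∧ ∀ (u : Sph n) (ξ : Fin n → ℝ),
    c * ∑ i, ξ i ^ 2 ≤ ∑ i, ∑ j, (a i j).1 u * (ξ i * ξ j)

theorem form_Op (a : Matrix (Fin n) (Fin n) (Sm n)) : ∃ R, Bd 1 R ∧ ∀ v,
    II (v * Op a v) = -II (∑ i, ∑ j, a i j * (T i v * T j v)) + II (v * R v) := by
  refine ⟨∑ i, ∑ j, (mu (((n : ℝ) - 1) • (xh i * a i j) - T i (a i j)) * Q j
    - mu (a i j * xh j) * T i), ?_, fun v => ?_⟩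
  · exact Bd.sum _ fun i => Bd.sum _ fun j => ((bd_mu _).mul (bd_Q j) le_rfl).sub
      ((bd_mu _).mul (bd_T i) le_rfl)
  · rw [Op_apply, LinearMap.sum_apply, Finset.mul_sum, Finset.mul_sum, map_sum, map_sum, map_sum,
      ← Finset.sum_neg_distrib, ← Finset.sum_add_distrib]
    refine Finset.sum_congr rfl fun i _ => ?_
    rw [LinearMap.sum_apply, Finset.mul_sum, Finset.mul_sum, map_sum, map_sum, map_sum,
      ← Finset.sum_neg_distrib, ← Finset.sum_add_distrib]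
    refine Finset.sum_congr rfl fun j _ => ?_
    have h := II_parts i (v * a i j) (Q j v)
    have e : v * (a i j * D i j v) = v * a i j * T i (Q j v) := by rw [← mul_assoc]; rfl
    rw [e, h, ← smul_eq_mul ((n : ℝ) - 1), ← map_smul, ← map_neg, ← map_neg, ← map_add, ← map_add]
    congr 1
    simp only [LinearMap.sub_apply, Module.End.mul_apply, LinearMap.mulLeft_apply, T_mul, Q_apply,
      Algebra.smul_def]
    ring

theorem sq_le_imp {x y C : ℝ} (hx : 0 ≤ x) (hy : 0 ≤ C * y) (h : x ^ 2 ≤ C * (x * y)) :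
    x ≤ C * y := by
  rcases hx.lt_or_eq with h0 | h0
  · nlinarith
  · rw [← h0]; exact hy

theorem nrm_succ_sq (k : ℕ) (f : Sm n) :
    nrm (k + 1) f ^ 2 ≤ 2 * nrm 0 f ^ 2 + 2 * n * ∑ j, nrm k (T j f) ^ 2 := by
  have h := sq_sum_le_card_mul_sum_sq (s := Finset.univ) (f := fun j => nrm k (T j f))
  rw [Finset.card_univ, Fintype.card_fin] at h
  rw [nrm_succ]
  nlinarith [sq_nonneg (nrm 0 f - ∑ j, nrm k (T j f))]

theorem garding {a : Matrix (Fin n) (Fin n) (Sm n)} (ha : Ell a) : ∃ C : ℝ, 0 ≤ C ∧ ∀ v,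
    nrm 1 v ^ 2 ≤ C * (|II (v * Op a v)| + nrm 0 v * nrm 1 v) := by
  obtain ⟨c, hc, he⟩ := ha
  obtain ⟨R, hR, hf⟩ := form_Op a
  obtain ⟨C, hC, h1⟩ := hR 0
  refine ⟨2 + 2 * n / c * (1 + C), by positivity, fun v => ?_⟩
  have h2 : c * ∑ j, nrm 0 (T j v) ^ 2 ≤ II (∑ i, ∑ j, a i j * (T i v * T j v)) := by
    simp only [nrm_sq]
    rw [← map_sum, ← smul_eq_mul, ← map_smul]
    apply II_mono
    intro u
    have := he u fun i => (T i v).1 u
    simp only [Subalgebra.coe_smul, Pi.smul_apply, smul_eq_mul, Sm.sum_apply,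
      MulMemClass.coe_mul, Pi.mul_apply, ← sq] at this ⊢
    exact this
  have h3 : II (v * R v) ≤ C * (nrm 0 v * nrm 1 v) := by
    refine (le_abs_self _).trans ((II_le _ _).trans ?_)
    have := mul_le_mul_of_nonneg_left (h1 v) (nn 0 v)
    linarith
  have h4 := nrm_succ_sq 0 v
  have h5 := neg_abs_le (II (v * Op a v))
  have h6 : nrm 0 v ^ 2 ≤ nrm 0 v * nrm 1 v := by
    rw [sq]
    exact mul_le_mul_of_nonneg_left (nrm_zero_le _ _) (nn _ _)
  have h7 := mul_nonneg (nn 0 v) (nn 1 v)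
  have h8 := abs_nonneg (II (v * Op a v))
  have h9 : ∑ j, nrm 0 (T j v) ^ 2 ≤ 1 / c * ((1 + C) * (|II (v * Op a v)| + nrm 0 v * nrm 1 v)) := by
    rw [one_div, le_inv_mul_iff₀ hc]
    have := hf v
    nlinarith [mul_nonneg hC h8]
  have h10 := mul_le_mul_of_nonneg_left h9 (show (0 : ℝ) ≤ 2 * n by positivity)
  have e : (2 + 2 * n / c * (1 + C)) * (|II (v * Op a v)| + nrm 0 v * nrm 1 v)
      = 2 * (|II (v * Op a v)| + nrm 0 v * nrm 1 v)
        + 2 * n * (1 / c * ((1 + C) * (|II (v * Op a v)| + nrm 0 v * nrm 1 v))) := by ring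
  rw [e]
  linarith

theorem apriori_one {a : Matrix (Fin n) (Fin n) (Sm n)} (ha : Ell a) : ∃ C : ℝ, 0 ≤ C ∧ ∀ v,
    nrm 1 v ≤ C * (nrm 0 (Op a v) + nrm 0 v) := by
  obtain ⟨C, hC, h⟩ := garding ha
  refine ⟨C, hC, fun v => sq_le_imp (nn _ _) (mul_nonneg hC (add_nonneg (nn _ _) (nn _ _)))
    ((h v).trans (mul_le_mul_of_nonneg_left ?_ hC))⟩
  have h1 := II_le v (Op a v)
  have h2 := mul_le_mul_of_nonneg_right (nrm_zero_le 1 v) (nn 0 (Op a v))
  nlinarith

theorem xh_le (j : Fin n) (u : Sph n) : |(xh j).1 u| ≤ 1 := by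
  have := PiLp.norm_apply_le (u : EE n) j
  rwa [Sph.norm_eq] at this

theorem apriori_two {a : Matrix (Fin n) (Fin n) (Sm n)} (ha : Ell a) : ∃ C : ℝ, 0 ≤ C ∧ ∀ v,
    nrm 2 v ≤ C * (nrm 0 (Op a v) + nrm 1 v) := by
  obtain ⟨C, hC, h⟩ := garding ha
  have key : ∀ l : Fin n, ∃ C : ℝ, 0 ≤ C ∧ ∀ v,
      nrm 1 (T l v) ^ 2 ≤ C * (nrm 2 v * (nrm 0 (Op a v) + nrm 1 v)) := by
    intro l
    obtain ⟨P, hP, hc⟩ := comm_Op a l
    obtain ⟨C1, hC1, h1⟩ := hP 0
    refine ⟨C * (2 + |(n : ℝ) - 1| + C1), by positivity, fun v => (h _).trans ?_⟩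
    rw [mul_assoc]
    apply mul_le_mul_of_nonneg_left _ hC
    have a0 := nn 0 (Op a v)
    have a1 := nn 1 v
    have a2 := nn 2 v
    have b1 : nrm 0 (T l v) ≤ nrm 1 v := nrm_T_le _ _ _
    have b2 : nrm 1 (T l v) ≤ nrm 2 v := nrm_T_le _ _ _
    have b3 : nrm 0 (T l (T l v)) ≤ nrm 2 v := (nrm_T_le _ _ _).trans b2
    have b4 : nrm 0 (xh l * T l v) ≤ nrm 2 v := by
      have := nrm_zero_mul (xh_le l) zero_le_one (T l v)
      linarith [nrm_le_succ 1 v]
    have c1 : |II (T l (T l v) * Op a v)| ≤ nrm 2 v * nrm 0 (Op a v) :=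
      (II_le _ _).trans (mul_le_mul_of_nonneg_right b3 a0)
    have c2 : |II (xh l * T l v * Op a v)| ≤ nrm 2 v * nrm 0 (Op a v) :=
      (II_le _ _).trans (mul_le_mul_of_nonneg_right b4 a0)
    have c3 : |II (T l v * P v)| ≤ nrm 1 v * (C1 * nrm 2 v) :=
      (II_le _ _).trans (mul_le_mul b1 (h1 v) (nn _ _) a1)
    have c4 : nrm 0 (T l v) * nrm 1 (T l v) ≤ nrm 1 v * nrm 2 v := mul_le_mul b1 b2 (nn _ _) a1
    have c5 : |II (T l v * Op a (T l v))| ≤ |II (T l (T l v) * Op a v)|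
        + |(n : ℝ) - 1| * |II (xh l * T l v * Op a v)| + |II (T l v * P v)| := by
      rw [hc, mul_sub, map_sub, II_parts, ← abs_mul, ← abs_neg (II (T l (T l v) * Op a v))]
      exact (abs_sub _ _).trans (add_le_add (abs_add_le _ _) le_rfl)
    have c6 := mul_le_mul_of_nonneg_left c2 (abs_nonneg ((n : ℝ) - 1))
    have d1 := mul_nonneg a2 a0
    have d2 := mul_nonneg a2 a1
    nlinarith [mul_nonneg hC1 d1, mul_nonneg (abs_nonneg ((n : ℝ) - 1)) d2]
  choose C1 hC1 h1 using key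
  have hS : 0 ≤ ∑ l, C1 l := Finset.sum_nonneg fun l _ => hC1 l
  refine ⟨2 + 2 * n * ∑ l, C1 l, by positivity, fun v => sq_le_imp (nn _ _)
    (mul_nonneg (by positivity) (add_nonneg (nn _ _) (nn _ _))) ((nrm_succ_sq 1 v).trans ?_)⟩
  have h2 : ∑ j, nrm 1 (T j v) ^ 2 ≤ (∑ l, C1 l) * (nrm 2 v * (nrm 0 (Op a v) + nrm 1 v)) := by
    rw [Finset.sum_mul]
    exact Finset.sum_le_sum fun j _ => h1 j v
  have h3 : nrm 0 v ^ 2 ≤ nrm 2 v * (nrm 0 (Op a v) + nrm 1 v) := by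
    rw [sq]
    exact mul_le_mul (nrm_zero_le _ _) (le_add_of_nonneg_of_le (nn _ _) (nrm_zero_le _ _))
      (nn _ _) (nn _ _)
  have h4 := mul_le_mul_of_nonneg_left h2 (show (0 : ℝ) ≤ 2 * n by positivity)
  nlinarith

theorem apriori {a : Matrix (Fin n) (Fin n) (Sm n)} (ha : Ell a) (k : ℕ) : ∃ C : ℝ, 0 ≤ C ∧ ∀ v,
    nrm (k + 2) v ≤ C * (nrm k (Op a v) + nrm 0 v) := by
  induction k with
  | zero =>
    obtain ⟨C1, hC1, h1⟩ := apriori_one ha
    obtain ⟨C2, hC2, h2⟩ := apriori_two ha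
    refine ⟨C2 * (1 + C1), by positivity, fun v => (h2 v).trans ?_⟩
    rw [mul_assoc]
    apply mul_le_mul_of_nonneg_left _ hC2
    have := h1 v
    nlinarith [nn 0 v]
  | succ k ih =>
    obtain ⟨C, hC, h⟩ := ih
    have key : ∀ l : Fin n, ∃ C : ℝ, 0 ≤ C ∧ ∀ v,
        nrm (k + 2) (T l v) ≤ C * (nrm (k + 1) (Op a v) + nrm 0 v) := by
      intro l
      obtain ⟨P, hP, hc⟩ := comm_Op a l
      obtain ⟨C1, hC1, h1⟩ := hP k
      refine ⟨C * (1 + (C1 + 1) * C), by positivity, fun v => (h _).trans ?_⟩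
      rw [mul_assoc]
      apply mul_le_mul_of_nonneg_left _ hC
      have b1 : nrm k (Op a (T l v)) ≤ nrm (k + 1) (Op a v) + C1 * nrm (k + 2) v := by
        rw [hc]
        exact (map_sub_le_add _ _ _).trans (add_le_add (nrm_T_le _ _ _) (h1 v))
      have b2 : nrm 0 (T l v) ≤ nrm (k + 2) v := (nrm_T_le _ _ _).trans (nrm_mono (by omega) v)
      have b3 : nrm (k + 2) v ≤ C * (nrm (k + 1) (Op a v) + nrm 0 v) :=
        (h v).trans (mul_le_mul_of_nonneg_left (add_le_add (nrm_le_succ _ _) le_rfl) hC)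
      have b4 := mul_le_mul_of_nonneg_left b3 (show 0 ≤ C1 + 1 by positivity)
      nlinarith [nn 0 v]
    choose C1 hC1 h1 using key
    have hS : 0 ≤ ∑ l, C1 l := Finset.sum_nonneg fun l _ => hC1 l
    refine ⟨1 + ∑ l, C1 l, by positivity, fun v => ?_⟩
    rw [nrm_succ (k + 2), add_mul, Finset.sum_mul, one_mul]
    exact add_le_add (le_add_of_nonneg_left (nn _ _)) (Finset.sum_le_sum fun j _ => h1 j v)

theorem alg_bound (m : ℕ) : ∃ C : ℝ, 0 ≤ C ∧ ∀ p q : ℕ, m ≤ p → m ≤ q → m + 2 * n ≤ p + q →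
    ∀ f g : Sm n, nrm m (f * g) ≤ C * (nrm p f * nrm q g) := by
  obtain ⟨C0, hC0, hs⟩ := sobolev (n := n)
  have base : ∀ p q : ℕ, 2 * n ≤ p + q → ∀ f g : Sm n,
      nrm 0 (f * g) ≤ C0 * (nrm p f * nrm q g) := by
    have aux : ∀ p q : ℕ, n ≤ p → ∀ f g : Sm n, nrm 0 (f * g) ≤ C0 * (nrm p f * nrm q g) := by
      intro p q hp f g
      refine (nrm_zero_mul (hs f) (mul_nonneg hC0 (nn _ _)) g).trans ?_
      rw [mul_assoc]
      exact mul_le_mul_of_nonneg_left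
        (mul_le_mul (nrm_mono hp f) (nrm_zero_le _ _) (nn _ _) (nn _ _)) hC0
    intro p q h f g
    rcases le_total n p with hp | hp
    · exact aux p q hp f g
    · rw [mul_comm f g, mul_comm (nrm p f)]
      exact aux q p (by omega) g f
  induction m with
  | zero => exact ⟨C0, hC0, fun p q _ _ h => base p q (by omega)⟩
  | succ m ih =>
    obtain ⟨C, hC, h⟩ := ih
    refine ⟨C0 + n * (2 * C), by positivity, fun p q hp hq hpq f g => ?_⟩
    obtain ⟨p, rfl⟩ : ∃ p', p = p' + 1 := ⟨p - 1, by omega⟩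
    obtain ⟨q, rfl⟩ : ∃ q', q = q' + 1 := ⟨q - 1, by omega⟩
    rw [nrm_succ m, add_mul]
    refine add_le_add (base _ _ (by omega) f g) ?_
    have : ∀ j ∈ (Finset.univ : Finset (Fin n)),
        nrm m (T j (f * g)) ≤ 2 * C * (nrm (p + 1) f * nrm (q + 1) g) := by
      intro j _
      rw [T_mul]
      have a1 := (h p (q + 1) (by omega) (by omega) (by omega) (T j f) g).trans
        (mul_le_mul_of_nonneg_left (mul_le_mul_of_nonneg_right (nrm_T_le p j f) (nn _ _)) hC)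
      have a2 := (h (p + 1) q (by omega) (by omega) (by omega) f (T j g)).trans
        (mul_le_mul_of_nonneg_left (mul_le_mul_of_nonneg_left (nrm_T_le q j g) (nn _ _)) hC)
      have := nrm_add m (T j f * g) (f * T j g)
      linarith
    have h2 := Finset.sum_le_card_nsmul _ _ _ this
    rw [Finset.card_univ, Fintype.card_fin, nsmul_eq_mul] at h2
    linarith

end Pool.Agent.P.MP_4a4b50_gt
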