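import Pool.Agent.P.MP_4a4b50_gt.Poly

/-! Coercivity estimates of high order. -/

set_option autoImplicit false

noncomputable section

namespace Pool.Agent.P.MP_4a4b50_gt

variable {n : ℕ}

theorem garding_signed {a : Matrix (Fin n) (Fin n) (Sm n)} (ha : Ell a) :
    ∃ c C : ℝ, 0 < c ∧ 0 ≤ C ∧ ∀ v,
      c * nrm 1 v ^ 2 ≤ -II (v * Op a v) + C * (nrm 0 v * nrm 1 v) := by
  obtain ⟨c, hc, he⟩ := ha
  obtain ⟨R, hR, hf⟩ := form_Op a
  obtain ⟨C, hC, h1⟩ := hR 0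
  refine ⟨c / (2 * n + 2), C + c, by positivity, by positivity, fun v => ?_⟩
  have h2 : c * ∑ j, nrm 0 (T j v) ^ 2 ≤ II (∑ i, ∑ j, a i j * (T i v * T j v)) := by
    simp only [nrm_sq]
    rw [← map_sum, ← smul_eq_mul, ← map_smul]
    apply II_mono
    intro u
    have := he u fun i => (T i v).1 u
    simp only [Subalgebra.coe_smul, Pi.smul_apply, smul_eq_mul, Sm.sum_apply,
      MulMemClass.coe_mul, Pi.mul_apply, ← sq] at this ⊢
    exact this
  have h3 : II (v * R v) ≤ C * (nrm 0 v * nrm 1 v) := by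
    refine (le_abs_self _).trans ((II_le _ _).trans ?_)
    have := mul_le_mul_of_nonneg_left (h1 v) (nn 0 v)
    linarith
  have h4 := nrm_succ_sq 0 v
  have h6 : nrm 0 v ^ 2 ≤ nrm 0 v * nrm 1 v := by
    rw [sq]
    exact mul_le_mul_of_nonneg_left (nrm_zero_le _ _) (nn _ _)
  have h7 : 0 ≤ ∑ j, nrm 0 (T j v) ^ 2 := Finset.sum_nonneg fun _ _ => sq_nonneg _
  have h8 : nrm 1 v ^ 2 ≤ (2 * n + 2) * (nrm 0 v ^ 2 + ∑ j, nrm 0 (T j v) ^ 2) := by
    have : (0 : ℝ) ≤ n * nrm 0 v ^ 2 := by positivity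
    simp only [zero_add] at h4
    nlinarith
  have h9 : c / (2 * n + 2) * nrm 1 v ^ 2 ≤ c * (nrm 0 v ^ 2 + ∑ j, nrm 0 (T j v) ^ 2) := by
    rw [div_mul_eq_mul_div, div_le_iff₀ (by positivity), mul_assoc, mul_comm _ (2 * (n : ℝ) + 2)]
    exact mul_le_mul_of_nonneg_left h8 hc.le
  have h10 := mul_le_mul_of_nonneg_left h6 hc.le
  have := hf v
  nlinarith

theorem garding_two {a : Matrix (Fin n) (Fin n) (Sm n)} (ha : Ell a) :
    ∃ c C : ℝ, 0 < c ∧ 0 ≤ C ∧ ∀ v,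
      c * nrm 2 v ^ 2 ≤ -II (Op a v * Ep v) + C * (nrm 2 v * nrm 1 v) := by
  obtain ⟨c, C, hc, hC, h⟩ := garding_signed ha
  obtain ⟨C0, hC0, h0⟩ := bd_Op a 0
  have key : ∀ l : Fin n, ∃ C : ℝ, 0 ≤ C ∧ ∀ v,
      c * nrm 1 (T l v) ^ 2 ≤ II (Op a v * T l (T l v)) + C * (nrm 2 v * nrm 1 v) := by
    intro l
    obtain ⟨P, hP, hcm⟩ := comm_Op a l
    obtain ⟨C1, hC1, h1⟩ := hP 0
    refine ⟨C + C1 + |(n : ℝ) - 1| * C0, by positivity, fun v => (h _).trans ?_⟩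
    have a1 := nn 1 v
    have a2 := nn 2 v
    have b1 : nrm 0 (T l v) ≤ nrm 1 v := nrm_T_le _ _ _
    have b2 : nrm 1 (T l v) ≤ nrm 2 v := nrm_T_le _ _ _
    have b4 : nrm 0 (xh l * T l v) ≤ nrm 1 v := by
      have := nrm_zero_mul (xh_le l) zero_le_one (T l v)
      linarith
    have c2 : |II (xh l * T l v * Op a v)| ≤ nrm 1 v * (C0 * nrm 2 v) :=
      (II_le _ _).trans (mul_le_mul b4 (h0 v) (nn _ _) a1)
    have c3 : |II (T l v * P v)| ≤ nrm 1 v * (C1 * nrm 2 v) :=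
      (II_le _ _).trans (mul_le_mul b1 (h1 v) (nn _ _) a1)
    have c4 : nrm 0 (T l v) * nrm 1 (T l v) ≤ nrm 1 v * nrm 2 v := mul_le_mul b1 b2 (nn _ _) a1
    have c5 : II (T l v * Op a (T l v)) = -II (Op a v * T l (T l v))
        + ((n : ℝ) - 1) * II (xh l * T l v * Op a v) - II (T l v * P v) := by
      rw [hcm, mul_sub, map_sub, II_parts, mul_comm (Op a v)]
    have c6 := mul_le_mul_of_nonneg_left c2 (abs_nonneg ((n : ℝ) - 1))
    rw [← abs_mul] at c6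
    have c7 := neg_abs_le (((n : ℝ) - 1) * II (xh l * T l v * Op a v))
    have c8 := le_abs_self (II (T l v * P v))
    have c9 := mul_le_mul_of_nonneg_left c4 hC
    nlinarith
  choose C1 hC1 h1 using key
  have hS : 0 ≤ ∑ l, C1 l := Finset.sum_nonneg fun l _ => hC1 l
  refine ⟨c / (2 * n + 2), c + C0 + ∑ l, C1 l, by positivity, by positivity, fun v => ?_⟩
  have h2 : c * ∑ j, nrm 1 (T j v) ^ 2
      ≤ II (Op a v * Lap v) + (∑ l, C1 l) * (nrm 2 v * nrm 1 v) := by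
    rw [Finset.mul_sum, Lap_apply, Finset.mul_sum, map_sum, Finset.sum_mul,
      ← Finset.sum_add_distrib]
    exact Finset.sum_le_sum fun j _ => h1 j v
  have h3 : nrm 0 v ^ 2 ≤ nrm 2 v * nrm 1 v := by
    rw [sq]
    exact mul_le_mul (nrm_zero_le _ _) (nrm_zero_le _ _) (nn _ _) (nn _ _)
  have h4 := nrm_succ_sq 1 v
  have h7 : 0 ≤ ∑ j, nrm 1 (T j v) ^ 2 := Finset.sum_nonneg fun _ _ => sq_nonneg _
  have h8 : nrm 2 v ^ 2 ≤ (2 * n + 2) * (nrm 0 v ^ 2 + ∑ j, nrm 1 (T j v) ^ 2) := by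
    have : (0 : ℝ) ≤ n * nrm 0 v ^ 2 := by positivity
    norm_num at h4
    nlinarith
  have h9 : c / (2 * n + 2) * nrm 2 v ^ 2 ≤ c * (nrm 0 v ^ 2 + ∑ j, nrm 1 (T j v) ^ 2) := by
    rw [div_mul_eq_mul_div, div_le_iff₀ (by positivity), mul_assoc, mul_comm _ (2 * (n : ℝ) + 2)]
    exact mul_le_mul_of_nonneg_left h8 hc.le
  have h10 := mul_le_mul_of_nonneg_left h3 hc.le
  have h11 : II (Op a v * Ep v) = II (Op a v * v) - II (Op a v * Lap v) := by
    rw [Ep_apply, mul_sub, map_sub]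
  have h12 : II (Op a v * v) ≤ C0 * nrm 2 v * nrm 1 v := (le_abs_self _).trans
    ((II_le _ _).trans (mul_le_mul (h0 v) (nrm_zero_le _ _) (nn _ _) (mul_nonneg hC0 (nn _ _))))
  nlinarith

theorem comm_Ep (a : Matrix (Fin n) (Fin n) (Sm n)) :
    ∃ P, Bd 3 P ∧ ∀ f, Ep (Op a f) = Op a (Ep f) + P f := by
  choose P hP h using comm_Op a
  refine ⟨-∑ l, (P l * T l + T l * P l), (Bd.sum _ fun l =>
    ((hP l).mul (bd_T l) le_rfl).add ((bd_T l).mul (hP l) le_rfl)).neg, fun f => ?_⟩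
  have e : ∀ l, T l (T l (Op a f)) = Op a (T l (T l f)) + (P l * T l + T l * P l) f := by
    intro l
    rw [h l (T l f), h l f, map_sub, LinearMap.add_apply, Module.End.mul_apply,
      Module.End.mul_apply]
    abel
  rw [Ep_apply, Ep_apply, map_sub, Lap_apply, Lap_apply, map_sum, LinearMap.neg_apply,
    LinearMap.sum_apply, Finset.sum_congr rfl fun l _ => e l, Finset.sum_add_distrib]
  abel

theorem comm_Ep_pow (a : Matrix (Fin n) (Fin n) (Sm n)) (m : ℕ) :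
    ∃ P, Bd (2 * m + 1) P ∧ ∀ f, (Ep ^ m) (Op a f) = Op a ((Ep ^ m) f) + P f := by
  induction m with
  | zero => exact ⟨0, fun k => ⟨0, le_rfl, fun f => by simp⟩, fun f => by simp⟩
  | succ m ih =>
    obtain ⟨P, hP, h⟩ := ih
    obtain ⟨P1, hP1, h1⟩ := comm_Ep a
    refine ⟨P1 * Ep ^ m + Ep * P, (hP1.mul (bd_Ep_pow m) (by omega)).add
      (bd_Ep.mul hP (by omega)), fun f => ?_⟩
    rw [pow_succ', Module.End.mul_apply, Module.End.mul_apply, h, map_add, h1, add_assoc]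
    rfl

theorem garding_high {a : Matrix (Fin n) (Fin n) (Sm n)} (ha : Ell a) (m : ℕ) :
    ∃ μ c : ℝ, 0 < c ∧ ∀ f, c * nrm 0 ((Ep ^ (m + 1)) f) ^ 2
      ≤ II ((Ep ^ m) (μ • f - Op a f) * (Ep ^ (m + 1)) f) := by
  obtain ⟨c, C, hc, hC, h⟩ := garding_two ha
  obtain ⟨P, hP, hcm⟩ := comm_Ep_pow a m
  obtain ⟨C1, hC1, h1⟩ := hP 0
  obtain ⟨C2, hC2, h2⟩ := apriori_Ep_pow (n := n) m 1
  obtain ⟨C3, hC3, h3⟩ := bd_Ep (n := n) 0
  obtain ⟨K, hK, hK0⟩ : ∃ K, K = C + C1 * C2 * C3 ∧ 0 ≤ K := ⟨_, rfl, by positivity⟩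
  refine ⟨(2 * n + 2) * (K ^ 2 / (2 * c)), c / 2 / (C3 ^ 2 + 1), by positivity, fun f => ?_⟩
  rw [pow_succ' Ep m, Module.End.mul_apply, map_sub, map_smul, hcm]
  have a1 : nrm 0 (P f) ≤ C1 * (C2 * nrm 1 ((Ep ^ m) f)) := by
    refine (h1 f).trans (mul_le_mul_of_nonneg_left ?_ hC1)
    have e : 0 + (2 * m + 1) = 1 + 2 * m := by omega
    rw [e]
    exact h2 f
  generalize (Ep ^ m) f = v at a1 ⊢
  generalize P f = r at a1 ⊢
  have b0 := nn 1 v
  have b1 := nn 2 v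
  have b2 : nrm 0 (Ep v) ≤ C3 * nrm 2 v := h3 v
  have b3 : II (r * Ep v) ≤ C1 * (C2 * nrm 1 v) * (C3 * nrm 2 v) := (le_abs_self _).trans
    ((II_le _ _).trans (mul_le_mul a1 b2 (nn _ _) (by positivity)))
  have b4 : nrm 1 v ^ 2 ≤ (2 * n + 2) * II (v * Ep v) := by
    have h4 := nrm_succ_sq 0 v
    have h7 : 0 ≤ ∑ j, nrm 0 (T j v) ^ 2 := Finset.sum_nonneg fun _ _ => sq_nonneg _
    have : (0 : ℝ) ≤ n * nrm 0 v ^ 2 := by positivity
    rw [II_Ep_self]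
    simp only [zero_add] at h4
    nlinarith
  have b5 := mul_le_mul_of_nonneg_left b4 (show 0 ≤ K ^ 2 / (2 * c) by positivity)
  have b6 : K * (nrm 2 v * nrm 1 v) ≤ c / 2 * nrm 2 v ^ 2 + K ^ 2 / (2 * c) * nrm 1 v ^ 2 := by
    have : c / 2 * nrm 2 v ^ 2 + K ^ 2 / (2 * c) * nrm 1 v ^ 2 - K * (nrm 2 v * nrm 1 v)
        = (c * nrm 2 v - K * nrm 1 v) ^ 2 / (2 * c) := by
      field_simp
      ring
    have h0 : 0 ≤ (c * nrm 2 v - K * nrm 1 v) ^ 2 / (2 * c) := by positivity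
    linarith
  have b7 : c / 2 / (C3 ^ 2 + 1) * nrm 0 (Ep v) ^ 2 ≤ c / 2 * nrm 2 v ^ 2 := by
    rw [div_mul_eq_mul_div, div_le_iff₀ (by positivity), mul_assoc]
    apply mul_le_mul_of_nonneg_left _ (by positivity)
    have := pow_le_pow_left₀ (nn _ _) b2 2
    nlinarith [sq_nonneg (nrm 2 v)]
  have b8 := h v
  rw [sub_mul, add_mul (Op a v), map_sub, map_add, smul_mul_assoc, map_smul, smul_eq_mul]
  have b9 : K * (nrm 2 v * nrm 1 v)
      = C * (nrm 2 v * nrm 1 v) + C1 * (C2 * nrm 1 v) * (C3 * nrm 2 v) := by rw [hK]; ring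
  have b10 : (2 * n + 2) * (K ^ 2 / (2 * c)) * II (v * Ep v)
      = K ^ 2 / (2 * c) * ((2 * n + 2) * II (v * Ep v)) := by ring
  rw [b10]
  linarith

theorem ell_of_posDef {a : Matrix (Fin n) (Fin n) (Sm n)}
    (h : ∀ u : Sph n, (Matrix.of fun k j => (a k j).1 u).PosDef) : Ell a := by
  have hc : Continuous fun p : Sph n × Sph n =>
      ∑ i, ∑ j, (a i j).1 p.1 * ((p.2 : EE n) i * (p.2 : EE n) j) := by
    refine continuous_finsetSum _ fun i _ => continuous_finsetSum _ fun j _ => ?_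
    exact ((Sm.cm (a i j)).continuous.comp continuous_fst).mul
      (((cm_xf 0 i).continuous.comp continuous_snd).mul
        ((cm_xf 0 j).continuous.comp continuous_snd))
  obtain ⟨c, hc0, hc1⟩ := isCompact_univ.exists_forall_le' hc.continuousOn (a := 0) (by
    rintro ⟨u, v⟩ -
    have := (h u).dotProduct_mulVec_pos (x := (v : EE n).ofLp) (by
      intro h0
      exact Sph.ne_zero v (PiLp.ext fun i => congrFun h0 i))
    refine this.trans_le (le_of_eq ?_)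
    simp only [dotProduct, Matrix.mulVec, star_trivial, Matrix.of_apply, Finset.mul_sum]
    refine Finset.sum_congr rfl fun i _ => Finset.sum_congr rfl fun j _ => by ring)
  refine ⟨c, hc0, fun u ξ => ?_⟩
  by_cases hξ : (WithLp.toLp 2 ξ : EE n) = 0
  · have : ξ = 0 := by simpa using hξ
    simp [this]
  · have h1 := hc1 (u, nu _ hξ) (Set.mem_univ _)
    have h2 : ∑ i, ξ i ^ 2 = ‖(WithLp.toLp 2 ξ : EE n)‖ ^ 2 := by
      rw [EuclideanSpace.real_norm_sq_eq]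
    have h3 := norm_ne_zero_iff.mpr hξ
    rw [h2]
    refine (mul_le_mul_of_nonneg_right h1 (sq_nonneg _)).trans (le_of_eq ?_)
    simp only [Finset.sum_mul, nu_coe, PiLp.smul_apply, smul_eq_mul]
    refine Finset.sum_congr rfl fun i _ => Finset.sum_congr rfl fun j _ => ?_
    field_simp

theorem interp (m : ℕ) : ∀ ε : ℝ, 0 < ε → ∃ C : ℝ, 0 ≤ C ∧ ∀ f : Sm n,
    nrm 0 ((Ep ^ m) f) ≤ ε * nrm 0 ((Ep ^ (m + 1)) f) + C * nrm 0 f := by
  induction m with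
  | zero =>
    intro ε hε
    refine ⟨1, zero_le_one, fun f => ?_⟩
    rw [one_mul]
    exact le_add_of_nonneg_left (mul_nonneg hε.le (nn _ _))
  | succ m ih =>
    intro ε hε
    obtain ⟨C, hC, h⟩ := ih ε hε
    refine ⟨C / ε, by positivity, fun f => ?_⟩
    have h1 : nrm 0 ((Ep ^ (m + 1)) f) ^ 2 ≤ nrm 0 ((Ep ^ m) f) * nrm 0 ((Ep ^ (m + 1 + 1)) f) := by
      rw [nrm_sq, pow_succ' _ (m + 1), Module.End.mul_apply]
      refine le_trans (le_of_eq ?_) ((le_abs_self _).trans (II_le _ _))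
      rw [II_Ep_symm, ← Module.End.mul_apply, ← pow_succ']
    have h2 := h f
    have a0 := nn 0 ((Ep ^ m) f)
    have a1 := nn 0 ((Ep ^ (m + 1)) f)
    have a2 := nn 0 ((Ep ^ (m + 1 + 1)) f)
    have a3 := nn 0 f
    generalize nrm 0 ((Ep ^ m) f) = x at *
    generalize nrm 0 ((Ep ^ (m + 1)) f) = y at *
    generalize nrm 0 ((Ep ^ (m + 1 + 1)) f) = z at *
    generalize nrm 0 f = w at *
    by_contra hcon
    push Not at hcon
    have e : C / ε * w * ε = C * w := by field_simp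
    have b1 : 0 ≤ C / ε * w := by positivity
    have b2 : y ^ 2 ≤ (ε * y + C * w) * z := h1.trans (mul_le_mul_of_nonneg_right h2 a2)
    have b3 : C / ε * w * (ε * z) ≤ C / ε * w * y :=
      mul_le_mul_of_nonneg_left (by linarith) b1
    have b4 : 0 < y := lt_of_le_of_lt (by positivity) hcon
    have b5 : (ε * z + C / ε * w) * y < y * y := mul_lt_mul_of_pos_right hcon b4
    nlinarith

end Pool.Agent.P.MP_4a4b50_gt
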