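import Mathlib

set_option autoImplicit false

open Set Filter Topology Metric

namespace Pool.Agent.P.MP_4a4b50_gt

variable {E : Type*} [NormedAddCommGroup E] [InnerProductSpace ℝ E]

theorem snd_nonpos_of_isLocalMax {f : E → ℝ} {x : E} (hf : ContDiffAt ℝ 2 f x)
    (hm : IsLocalMax f x) (v : E) : fderiv ℝ (fderiv ℝ f) x v v ≤ 0 := by
  by_contra hpos
  push Not at hpos
  set γ : ℝ → E := fun t => x + t • v with hγ
  have hγ0 : γ 0 = x := by simp [hγ]
  have hγd : ∀ t, HasDerivAt γ v t := by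
    intro t
    have := ((hasDerivAt_id t).smul_const v).const_add x
    simpa [hγ] using this
  have hγc : Continuous γ := by
    rw [hγ]; fun_prop
  have hγt : Tendsto γ (𝓝 0) (𝓝 x) := by
    have := hγc.tendsto 0
    rwa [hγ0] at this
  have hev : ∀ᶠ y in 𝓝 x, DifferentiableAt ℝ f y := by
    have h1 : ∀ᶠ y in 𝓝 x, ContDiffAt ℝ 2 f y := hf.eventually (by simp)
    filter_upwards [h1] with y hy
    exact hy.differentiableAt (by simp)
  have hd1 : deriv (f ∘ γ) =ᶠ[𝓝 0] fun t => fderiv ℝ f (γ t) v := by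
    filter_upwards [hγt.eventually hev] with t ht
    exact (ht.hasFDerivAt.comp_hasDerivAt t (hγd t)).deriv
  have hf1 : DifferentiableAt ℝ (fderiv ℝ f) x := by
    have : ContDiffAt ℝ 1 (fderiv ℝ f) x := hf.fderiv_right (by norm_num)
    exact this.differentiableAt (by simp)
  have hd2 : HasDerivAt (fun t => fderiv ℝ f (γ t) v) (fderiv ℝ (fderiv ℝ f) x v v) 0 := by
    have h1 : HasFDerivAt (fderiv ℝ f) (fderiv ℝ (fderiv ℝ f) x) (γ 0) := by
      rw [hγ0]; exact hf1.hasFDerivAt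
    have h2 := h1.comp_hasDerivAt (0 : ℝ) (hγd 0)
    have h3 := h2.clm_apply (hasDerivAt_const (0 : ℝ) v)
    simpa using h3
  have hdd : deriv (deriv (f ∘ γ)) 0 = fderiv ℝ (fderiv ℝ f) x v v := by
    rw [hd1.deriv_eq]; exact hd2.deriv
  have hmax : IsLocalMax (f ∘ γ) 0 := by
    apply IsLocalMax.comp_continuous _ hγc.continuousAt
    rwa [hγ0]
  have hcont : ContinuousAt (f ∘ γ) 0 := by
    apply ContinuousAt.comp _ hγc.continuousAt
    rw [hγ0]; exact hf.continuousAt
  have hmin : IsLocalMin (f ∘ γ) 0 :=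
    isLocalMin_of_deriv_deriv_pos (by rw [hdd]; exact hpos) hmax.deriv_eq_zero hcont
  have hconst : (f ∘ γ) =ᶠ[𝓝 0] fun _ => (f ∘ γ) 0 := by
    filter_upwards [hmax, hmin] with t h1 h2
    exact le_antisymm h1 h2
  have : deriv (deriv (f ∘ γ)) 0 = 0 := by
    have h1 := hconst.deriv
    have h2 : deriv (fun _ : ℝ => (f ∘ γ) 0) = fun _ => (0 : ℝ) := by
      funext t; simp
    rw [h2] at h1
    rw [h1.deriv_eq]; simp
  linarith

/-- derivatives of the barrier -/
theorem barrier_fderiv (y : E) (r k : ℝ) (x : E) :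
    HasFDerivAt (fun x : E => (r - ‖x - y‖ ^ 2) + k * (r - ‖x - y‖ ^ 2) ^ 2)
      ((-(2 + 4 * k * (r - ‖x - y‖ ^ 2))) • innerSL ℝ (x - y)) x := by
  have h0 : HasFDerivAt (fun x : E => ‖x - y‖ ^ 2) (2 • (innerSL ℝ (x - y))) x := by
    have := ((hasFDerivAt_id x).sub_const y).norm_sq
    simpa using this
  have h1 := h0.const_sub r
  have h2 := (h1.pow 2).const_mul k
  have h3 := h1.add h2
  refine HasFDerivAt.congr_fderiv h3 ?_
  ext v
  simp only [add_apply, smul_apply, neg_apply, innerSL_apply_apply, smul_eq_mul, nsmul_eq_mul]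
  push_cast
  ring

theorem barrier_fderiv2 (y : E) (r k : ℝ) (x v w : E) :
    fderiv ℝ (fderiv ℝ (fun x : E => (r - ‖x - y‖ ^ 2) + k * (r - ‖x - y‖ ^ 2) ^ 2)) x v w
      = -(2 + 4 * k * (r - ‖x - y‖ ^ 2)) * inner ℝ v w
        + 8 * k * inner ℝ (x - y) v * inner ℝ (x - y) w := by
  have e : fderiv ℝ (fun x : E => (r - ‖x - y‖ ^ 2) + k * (r - ‖x - y‖ ^ 2) ^ 2)
      = fun x => ((-(2 + 4 * k * (r - ‖x - y‖ ^ 2))) • innerSL ℝ (x - y)) := by
    funext x; exact (barrier_fderiv y r k x).fderiv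
  rw [e]
  have h0 : HasFDerivAt (fun x : E => ‖x - y‖ ^ 2) (2 • (innerSL ℝ (x - y))) x := by
    have := ((hasFDerivAt_id x).sub_const y).norm_sq
    simpa using this
  have h1 := (((h0.const_sub r).const_mul (4 * k)).const_add 2).neg
  have h2 : HasFDerivAt (fun x : E => innerSL ℝ (x - y)) (innerSL ℝ : E →L[ℝ] E →L[ℝ] ℝ) x := by
    have := (innerSL ℝ : E →L[ℝ] E →L[ℝ] ℝ).hasFDerivAt.comp x ((hasFDerivAt_id x).sub_const y)
    exact this
  have h3 := (h1.smul h2).fderiv
  have e2 : (fun x : E => ((-(2 + 4 * k * (r - ‖x - y‖ ^ 2))) • innerSL ℝ (x - y)))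
     = ((-fun x => 2 + 4 * k * (r - ‖x - y‖ ^ 2)) • fun x : E => innerSL ℝ (x - y)) := by
    funext x; simp
  rw [e2, h3]
  have e3 : ((innerSL ℝ : E →L[ℝ] E →L[ℝ] ℝ) v) w = inner ℝ v w := rfl
  simp only [add_apply, smul_apply, neg_apply, innerSL_apply_apply, smul_eq_mul, nsmul_eq_mul,
    ContinuousLinearMap.smulRight_apply, Pi.neg_apply, e3]
  push_cast
  ring

/-- Hopf's strong maximum principle, local form. -/
theorem hopf [FiniteDimensional ℝ E] {ι : Type*} [Fintype ι] {U : Set E} (hU : IsOpen U)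
    {g : E → ℝ} (hg : ContDiffOn ℝ 2 g U) (c : ι → E → ℝ) (w : ι → E → E) (B : E → E)
    (hc : ∀ i, ContinuousOn (c i) U) (hw : ∀ i, ContinuousOn (w i) U) (hB : ContinuousOn B U)
    (hpos : ∀ i, ∀ x ∈ U, 0 < c i x)
    (hspan : ∀ x ∈ U, ∀ ξ : E, ξ ≠ 0 → ∃ i, inner ℝ ξ (w i x) ≠ 0)
    (hL : ∀ x ∈ U, 0 ≤ ∑ i, c i x * fderiv ℝ (fderiv ℝ g) x (w i x) (w i x)
      + fderiv ℝ g x (B x))
    {m : ℝ} (hm : ∀ x ∈ U, g x ≤ m) {x0 : E} (hx0 : x0 ∈ U) (h0 : g x0 = m) :
    ∀ᶠ x in 𝓝 x0, g x = m := by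
  have : ProperSpace E := FiniteDimensional.proper_real E
  by_contra hcon
  obtain ⟨R, hR, hRU⟩ := Metric.isOpen_iff.mp hU x0 hx0
  set r := R / 4 with hr
  have hr0 : 0 < r := by positivity
  have hsub : closedBall x0 (3 * r) ⊆ U := by
    refine (closedBall_subset_ball ?_).trans hRU
    rw [hr]; linarith
  have hex : ∃ y ∈ ball x0 r, g y ≠ m := by
    by_contra h
    push Not at h
    exact hcon (Filter.mem_of_superset (ball_mem_nhds x0 hr0) h)
  obtain ⟨y, hy, hgy⟩ := hex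
  have hgc : ContinuousOn g U := hg.continuousOn
  set Z : Set E := closedBall x0 (3 * r) ∩ g ⁻¹' {m} with hZ
  have hZc : IsCompact Z := by
    have : IsClosed Z := (hgc.mono hsub).preimage_isClosed_of_isClosed isClosed_closedBall
      isClosed_singleton
    exact (isCompact_closedBall x0 (3 * r)).of_isClosed_subset this inter_subset_left
  have hx0Z : x0 ∈ Z := ⟨mem_closedBall_self (by positivity), h0⟩
  obtain ⟨z, hzZ, hzmin⟩ := hZc.exists_isMinOn ⟨x0, hx0Z⟩
    (f := fun x => ‖x - y‖) (by fun_prop)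
  set ρ := ‖z - y‖ with hρ
  have hgz : g z = m := hzZ.2
  have hρ0 : 0 < ρ := by
    rw [hρ, norm_pos_iff, sub_ne_zero]
    rintro rfl
    exact hgy hgz
  have hyx : ‖y - x0‖ < r := by simpa [dist_eq_norm] using hy
  have hρr : ρ < r := by
    have := hzmin hx0Z
    simp only [mem_ofPred_eq] at this
    rw [norm_sub_rev x0 y] at this
    linarith
  have hzU : z ∈ U := hsub hzZ.1
  -- inside the ball of radius ρ about y we have g < m
  have hlt : ∀ x, ‖x - y‖ < ρ → g x < m := by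
    intro x hx
    have hxb : x ∈ closedBall x0 (3 * r) := by
      rw [mem_closedBall, dist_eq_norm]
      have : ‖x - x0‖ ≤ ‖x - y‖ + ‖y - x0‖ := by
        simpa using norm_add_le (x - y) (y - x0)
      linarith
    refine lt_of_le_of_ne (hm x (hsub hxb)) ?_
    intro h
    have := hzmin (show x ∈ Z from ⟨hxb, h⟩)
    simp only [mem_ofPred_eq] at this
    linarith
  -- the shrunk ball
  set ξ : E := (1 / 2 : ℝ) • (z - y) with hξ
  set y' : E := z - ξ with hy'
  have hξn : ‖ξ‖ = ρ / 2 := by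
    rw [hξ, norm_smul]; simp [hρ]; ring
  have hξ0 : ξ ≠ 0 := by
    rw [← norm_pos_iff, hξn]; positivity
  have hzy' : z - y' = ξ := by rw [hy']; abel
  have hshr : ∀ x, ‖x - y'‖ ^ 2 ≤ ‖ξ‖ ^ 2 → x ≠ z → g x < m := by
    intro x hx hxz
    apply hlt
    have e1 : x - y = (x - y') + ξ := by
      rw [hy', hξ]; module
    have e2 : x - z = (x - y') - ξ := by rw [hy']; abel
    have par := parallelogram_law_with_norm ℝ (x - y') ξ
    rw [← e1, ← e2] at par
    have hp : 0 < ‖x - z‖ := by rwa [norm_pos_iff, sub_ne_zero]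
    have : ‖x - y‖ ^ 2 < ρ ^ 2 := by
      rw [hξn] at hx par
      nlinarith
    exact lt_of_pow_lt_pow_left₀ 2 hρ0.le this
  -- choice of k
  obtain ⟨i0, hi0⟩ := hspan z hzU ξ hξ0
  set S : ℝ := ∑ i, c i z * (inner ℝ ξ (w i z)) ^ 2 with hS
  have hS0 : 0 < S := by
    apply Finset.sum_pos'
    · intro i _
      exact mul_nonneg (hpos i z hzU).le (sq_nonneg _)
    · exact ⟨i0, Finset.mem_univ _, mul_pos (hpos i0 z hzU) (by positivity)⟩
  set T : ℝ := ∑ i, c i z * inner ℝ (w i z) (w i z) + inner ℝ ξ (B z) with hT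
  set k : ℝ := (|T| + 1) / S with hk
  have hk0 : 0 < k := by positivity
  set q := ‖ξ‖ ^ 2 with hq
  set φ : E → ℝ := fun x => (q - ‖x - y'‖ ^ 2) + k * (q - ‖x - y'‖ ^ 2) ^ 2 with hφ
  set Lφ : E → ℝ := fun x => ∑ i, c i x * (-(2 + 4 * k * (q - ‖x - y'‖ ^ 2)) * inner ℝ (w i x) (w i x)
        + 8 * k * inner ℝ (x - y') (w i x) * inner ℝ (x - y') (w i x))
        + (-(2 + 4 * k * (q - ‖x - y'‖ ^ 2))) * inner ℝ (x - y') (B x) with hLφ
  have hLφc : ContinuousAt Lφ z := by
    have hn := hU.mem_nhds hzU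
    have h1 : ∀ i, ContinuousAt (c i) z := fun i => (hc i).continuousAt hn
    have h2 : ∀ i, ContinuousAt (w i) z := fun i => (hw i).continuousAt hn
    have h3 : ContinuousAt B z := hB.continuousAt hn
    rw [hLφ]
    apply ContinuousAt.add
    · apply tendsto_finsetSum
      intro i _
      have := h1 i
      have := h2 i
      change ContinuousAt (fun x => c i x * (-(2 + 4 * k * (q - ‖x - y'‖ ^ 2)) * inner ℝ (w i x) (w i x)
        + 8 * k * inner ℝ (x - y') (w i x) * inner ℝ (x - y') (w i x))) z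
      fun_prop
    · fun_prop
  have hLφz : 0 < Lφ z := by
    have e : Lφ z = -2 * T + 8 * k * S := by
      rw [hLφ]
      simp only [hzy', hq, sub_self, mul_zero, add_zero, hT, hS, Finset.mul_sum, mul_add]
      rw [add_right_comm, ← Finset.sum_add_distrib]
      congr 1
      apply Finset.sum_congr rfl
      intro i _
      ring
    have e2 : k * S = |T| + 1 := by rw [hk]; field_simp
    have := le_abs_self T
    have := abs_nonneg T
    rw [e]; nlinarith
  have hs : ContinuousAt (fun x => 1 + k * (q - ‖x - y'‖ ^ 2)) z := by fun_prop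
  have hsz : 0 < 1 + k * (q - ‖z - y'‖ ^ 2) := by rw [hzy', hq]; simp
  have hev : ∀ᶠ x in 𝓝 z, x ∈ U ∧ 0 < Lφ x ∧ 0 < 1 + k * (q - ‖x - y'‖ ^ 2) :=
    Filter.Eventually.and (hU.mem_nhds hzU) ((hLφc.eventually (lt_mem_nhds hLφz)).and (hs.eventually (lt_mem_nhds hsz)))
  obtain ⟨η, hη, hηb⟩ := Metric.eventually_nhds_iff_ball.mp hev
  set δ := η / 2 with hδ
  have hδ0 : 0 < δ := by positivity
  have hcb : ∀ x ∈ closedBall z δ, x ∈ U ∧ 0 < Lφ x ∧ 0 < 1 + k * (q - ‖x - y'‖ ^ 2) := by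
    intro x hx
    exact hηb x (closedBall_subset_ball (by rw [hδ]; linarith) hx)
  have hφc : Continuous φ := by rw [hφ]; fun_prop
  -- choice of ε
  have hε : ∃ ε : ℝ, 0 < ε ∧ ∀ x ∈ sphere z δ, g x + ε * φ x < m := by
    set C : Set E := sphere z δ ∩ {x | ‖x - y'‖ ^ 2 ≤ q} with hC
    have hCc : IsCompact C := (isCompact_sphere z δ).inter_right
      (isClosed_le (by fun_prop) continuous_const)
    have hCU : C ⊆ U := fun x hx => (hcb x (sphere_subset_closedBall hx.1)).1
    have hout : ∀ ε : ℝ, 0 < ε → ∀ x ∈ sphere z δ, x ∉ C → g x + ε * φ x < m := by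
      intro ε hε x hx hxC
      have h1 : q < ‖x - y'‖ ^ 2 := by
        by_contra h
        exact hxC ⟨hx, not_lt.mp h⟩
      have h2 := hcb x (sphere_subset_closedBall hx)
      have h3 : φ x < 0 := by
        have : φ x = (q - ‖x - y'‖ ^ 2) * (1 + k * (q - ‖x - y'‖ ^ 2)) := by rw [hφ]; ring
        rw [this]
        exact mul_neg_of_neg_of_pos (by linarith) h2.2.2
      have := hm x h2.1
      nlinarith
    rcases C.eq_empty_or_nonempty with hCe | hCn
    · exact ⟨1, one_pos, fun x hx => hout 1 one_pos x hx (by rw [hCe]; simp)⟩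
    · obtain ⟨x1, hx1, hx1m⟩ := hCc.exists_isMaxOn hCn (hgc.mono hCU)
      obtain ⟨x2, hx2, hx2m⟩ := hCc.exists_isMaxOn hCn hφc.continuousOn
      have hx1z : x1 ≠ z := by
        rintro rfl
        have := hx1.1
        simp at this
        linarith
      have hg1 : g x1 < m := hshr x1 hx1.2 hx1z
      refine ⟨(m - g x1) / (2 * (|φ x2| + 1)), by
        apply div_pos (by linarith) (by positivity), ?_⟩
      intro x hx
      by_cases hxC : x ∈ C
      · have a1 : g x ≤ g x1 := hx1m hxC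
        have a2 : φ x ≤ φ x2 := hx2m hxC
        have a3 := le_abs_self (φ x2)
        have a4 := abs_nonneg (φ x2)
        have a5 : (m - g x1) / (2 * (|φ x2| + 1)) * φ x
            ≤ (m - g x1) / (2 * (|φ x2| + 1)) * (|φ x2| + 1) := by
          apply mul_le_mul_of_nonneg_left (by linarith)
          apply div_nonneg (by linarith) (by positivity)
        have a6 : (m - g x1) / (2 * (|φ x2| + 1)) * (|φ x2| + 1) = (m - g x1) / 2 := by
          field_simp
        linarith
      · exact hout _ (by apply div_pos (by linarith) (by positivity)) x hx hxC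
  obtain ⟨ε, hε0, hεs⟩ := hε
  set W : E → ℝ := fun x => g x + ε * φ x with hW
  have hWc : ContinuousOn W (closedBall z δ) := by
    apply ContinuousOn.add (hgc.mono fun x hx => (hcb x hx).1)
    exact (continuous_const.mul hφc).continuousOn
  obtain ⟨p, hp, hpm⟩ := (isCompact_closedBall z δ).exists_isMaxOn ⟨z, mem_closedBall_self hδ0.le⟩ hWc
  have hWz : W z = m := by
    rw [hW, hφ]; simp only [hzy', hq, hgz]; simp
  have hWp : m ≤ W p := by
    rw [← hWz]; exact hpm (mem_closedBall_self hδ0.le)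
  have hpb : p ∈ ball z δ := by
    rcases lt_or_eq_of_le (mem_closedBall.mp hp) with h | h
    · exact h
    · have := hεs p h
      exact absurd this (not_lt.mpr hWp)
  have hloc : IsLocalMax W p :=
    hpm.isLocalMax (Filter.mem_of_superset (isOpen_ball.mem_nhds hpb) ball_subset_closedBall)
  have hpU := (hcb p hp).1
  have hφ2 : ContDiff ℝ 2 φ := by
    have hn : ContDiff ℝ 2 (fun x : E => ‖x - y'‖ ^ 2) := (contDiff_id.sub contDiff_const).norm_sq ℝ
    rw [hφ]
    exact (contDiff_const.sub hn).add (contDiff_const.mul ((contDiff_const.sub hn).pow 2))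
  have hgp : ContDiffAt ℝ 2 g p := hg.contDiffAt (hU.mem_nhds hpU)
  have hWp2 : ContDiffAt ℝ 2 W p := hgp.add (contDiffAt_const.mul hφ2.contDiffAt)
  have hD1 : ∀ x ∈ U, fderiv ℝ W x = fderiv ℝ g x + ε • fderiv ℝ φ x := by
    intro x hx
    have a1 : HasFDerivAt g (fderiv ℝ g x) x :=
      ((hg.contDiffAt (hU.mem_nhds hx)).differentiableAt (by simp)).hasFDerivAt
    have a2 : HasFDerivAt φ (fderiv ℝ φ x) x := (hφ2.differentiable (by simp) x).hasFDerivAt
    exact (a1.add (a2.const_mul ε)).fderiv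
  have hD2 : fderiv ℝ (fderiv ℝ W) p
      = fderiv ℝ (fderiv ℝ g) p + ε • fderiv ℝ (fderiv ℝ φ) p := by
    have e : fderiv ℝ W =ᶠ[𝓝 p] fun x => fderiv ℝ g x + ε • fderiv ℝ φ x := by
      filter_upwards [hU.mem_nhds hpU] with x hx using hD1 x hx
    rw [e.fderiv_eq]
    have a1 : DifferentiableAt ℝ (fderiv ℝ g) p :=
      (hgp.fderiv_right (m := 1) (by norm_num)).differentiableAt (by simp)
    have a2 : DifferentiableAt ℝ (fderiv ℝ φ) p :=
      (hφ2.contDiffAt.fderiv_right (m := 1) (by norm_num)).differentiableAt (by simp)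
    exact (a1.hasFDerivAt.add (a2.hasFDerivAt.const_smul ε)).fderiv
  have hz1 : fderiv ℝ W p = 0 := hloc.fderiv_eq_zero
  have hz2 : ∀ i, fderiv ℝ (fderiv ℝ W) p (w i p) (w i p) ≤ 0 :=
    fun i => snd_nonpos_of_isLocalMax hWp2 hloc _
  have hLW : ∑ i, c i p * fderiv ℝ (fderiv ℝ W) p (w i p) (w i p) + fderiv ℝ W p (B p) ≤ 0 := by
    rw [hz1]
    simp only [zero_apply, add_zero]
    exact Finset.sum_nonpos fun i _ => mul_nonpos_of_nonneg_of_nonpos (hpos i p hpU).le (hz2 i)
  have hLsplit : ∑ i, c i p * fderiv ℝ (fderiv ℝ W) p (w i p) (w i p) + fderiv ℝ W p (B p)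
      = (∑ i, c i p * fderiv ℝ (fderiv ℝ g) p (w i p) (w i p) + fderiv ℝ g p (B p))
        + ε * Lφ p := by
    rw [hD2, hD1 p hpU]
    have b1 : fderiv ℝ φ p = _ := (barrier_fderiv y' q k p).fderiv
    have b2 : ∀ v, fderiv ℝ (fderiv ℝ φ) p v v = _ := fun v => barrier_fderiv2 y' q k p v v
    simp only [add_apply, smul_apply, b1, b2, hLφ,
      smul_eq_mul, innerSL_apply_apply, mul_add, Finset.mul_sum, Finset.sum_add_distrib]
    have : ∀ i, c i p * (ε * (-(2 + 4 * k * (q - ‖p - y'‖ ^ 2)) * inner ℝ (w i p) (w i p)))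
      = ε * (c i p * (-(2 + 4 * k * (q - ‖p - y'‖ ^ 2)) * inner ℝ (w i p) (w i p))) := by
      intro i; ring
    have h' : ∀ i, c i p * (ε * (8 * k * inner ℝ (p - y') (w i p) * inner ℝ (p - y') (w i p)))
      = ε * (c i p * (8 * k * inner ℝ (p - y') (w i p) * inner ℝ (p - y') (w i p))) := by
      intro i; ring
    simp only [this, h']
    ring
  have := hL p hpU
  have := mul_pos hε0 (hcb p hp).2.1
  linarith

end Pool.Agent.P.MP_4a4b50_gt
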