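import Pool.Agent.P.MP_4a4b50_gt.Sph

/-! An invariant integral on the sphere and Sobolev seminorms. -/

set_option autoImplicit false

noncomputable section

open Set Filter Topology Metric MeasureTheory
open scoped ContDiff

namespace Pool.Agent.P.MP_4a4b50_gt

variable {n : ℕ}

/-- closed annulus -/
def Ann (n : ℕ) (r : ℝ) : Set (EE n) := {x | |‖x‖ ^ 2 - 1| ≤ r}

theorem Ann_closed (r : ℝ) : IsClosed (Ann n r) := isClosed_le (by fun_prop) continuous_const

theorem Ann_compact (r : ℝ) : IsCompact (Ann n r) := by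
  apply (isCompact_closedBall (0 : EE n) (r + 2)).of_isClosed_subset (Ann_closed r)
  intro x hx
  have h : |‖x‖ ^ 2 - 1| ≤ r := hx
  rw [mem_closedBall_zero_iff]
  have := abs_le.mp h
  nlinarith [abs_nonneg (‖x‖ ^ 2 - 1), norm_nonneg x]

theorem glob {m : WithTop ℕ∞} {r : ℝ} (hr : r < 1) {F : EE n → ℝ} (hF : ContDiffOn ℝ m F {0}ᶜ)
    (hs : ∀ x, x ∉ Ann n r → F x = 0) : ContDiff ℝ m F ∧ HasCompactSupport F := by
  refine ⟨contDiff_iff_contDiffAt.mpr fun x => ?_, HasCompactSupport.intro (Ann_compact r) hs⟩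
  by_cases hx : x = 0
  · have h0 : x ∈ (Ann n r)ᶜ := by
      intro h
      have h' : |‖x‖ ^ 2 - 1| ≤ r := h
      rw [hx] at h'
      norm_num at h'
      linarith
    have : F =ᶠ[𝓝 x] fun _ => 0 := by
      filter_upwards [(Ann_closed r).isOpen_compl.mem_nhds h0] with y hy using hs y hy
    exact contDiffAt_const.congr_of_eventuallyEq this
  · exact hF.contDiffAt (compl_nhds hx)

/-- outer bump -/
def bigB : ContDiffBump (1 : ℝ) := ⟨1 / 2, 3 / 4, by norm_num, by norm_num⟩

/-- inner bump -/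
def smallB : ContDiffBump (1 : ℝ) := ⟨1 / 4, 1 / 2, by norm_num, by norm_num⟩

/-- radial weight -/
def chi (x : EE n) : ℝ := bigB (‖x‖ ^ 2)

theorem chi_smooth : ContDiff ℝ ∞ (chi : EE n → ℝ) :=
  bigB.contDiff.comp (contDiff_norm_sq ℝ)

theorem chi_nonneg (x : EE n) : 0 ≤ chi x := bigB.nonneg

theorem chi_zero {x : EE n} (hx : x ∉ Ann n (3 / 4)) : chi x = 0 := by
  apply bigB.zero_of_le_dist
  rw [Real.dist_eq]
  exact (not_le.mp hx).le

theorem chi_one {x : EE n} (hx : x ∈ Ann n (1 / 2)) : chi x = 1 := by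
  apply bigB.one_of_mem_closedBall
  rw [mem_closedBall, Real.dist_eq]
  exact hx

theorem Sph.mem_Ann (u : Sph n) {r : ℝ} (hr : 0 ≤ r) : (u : EE n) ∈ Ann n r := by
  change |‖(u : EE n)‖ ^ 2 - 1| ≤ r
  rw [Sph.norm_eq]
  simpa using hr

theorem wt_glob (f : Sm n) : ContDiff ℝ ∞ (fun x => ext0 f.1 x * chi x) ∧
    HasCompactSupport (fun x => ext0 f.1 x * chi x) :=
  glob (r := 3 / 4) (by norm_num) (ContDiffOn.mul (Sm.cm f) chi_smooth.contDiffOn)
    fun x hx => by rw [chi_zero hx, mul_zero]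

theorem wt_int (f : Sm n) : Integrable (fun x => ext0 f.1 x * chi x) :=
  (wt_glob f).1.continuous.integrable_of_hasCompactSupport (wt_glob f).2

/-- the invariant integral -/
def II : Sm n →ₗ[ℝ] ℝ where
  toFun f := ∫ x, ext0 f.1 x * chi x
  map_add' f g := by
    rw [← integral_add (wt_int f) (wt_int g)]
    congr 1
    funext x
    rw [Subalgebra.coe_add, ext0_add, Pi.add_apply, add_mul]
  map_smul' c f := by
    rw [RingHom.id_apply, smul_eq_mul, ← integral_const_mul]
    congr 1
    funext x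
    rw [Subalgebra.coe_smul, ext0_smul, Pi.smul_apply, smul_eq_mul, mul_assoc]

theorem II_apply (f : Sm n) : II f = ∫ x, ext0 f.1 x * chi x := rfl

theorem ext0_nonneg {f : Sph n → ℝ} (h : ∀ u, 0 ≤ f u) (x : EE n) : 0 ≤ ext0 f x := by
  by_cases hx : x = 0
  · simp [hx]
  · rw [ext0_of_ne _ hx]
    exact h _

theorem II_nonneg {f : Sm n} (h : ∀ u, 0 ≤ f.1 u) : 0 ≤ II f :=
  integral_nonneg fun x => mul_nonneg (ext0_nonneg h x) (chi_nonneg x)

theorem II_mono {f g : Sm n} (h : ∀ u, f.1 u ≤ g.1 u) : II f ≤ II g := by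
  have := II_nonneg (f := g - f) fun u => sub_nonneg.mpr (h u)
  rw [map_sub] at this
  linarith

theorem II_pos {f : Sm n} (h : ∀ u, 0 ≤ f.1 u) {u : Sph n} (hu : f.1 u ≠ 0) : 0 < II f := by
  have h1 : ext0 f.1 u * chi (u : EE n) ≠ 0 := by
    rw [chi_one (Sph.mem_Ann u (by norm_num)), mul_one, ext0_coe]
    exact hu
  have h2 : (0 : EE n → ℝ) ≤ fun x => ext0 f.1 x * chi x :=
    fun x => mul_nonneg (ext0_nonneg h x) (chi_nonneg x)
  rw [II_apply]
  exact Continuous.integral_pos_of_hasCompactSupport_nonneg_nonzero (x := (u : EE n))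
    (wt_glob f).1.continuous (wt_glob f).2 h2 h1

theorem int_coord {F : EE n → ℝ} (hF : ContDiff ℝ ∞ F) (hc : HasCompactSupport F) (a j : Fin n) :
    ∫ x, x a * fderiv ℝ F x (ee j) = -∫ x, (ee j : EE n) a * F x := by
  have h1 : ∀ x : EE n, fderiv ℝ (fun y : EE n => y a) x (ee j) = (ee j : EE n) a := by
    intro x
    exact congrArg (fun L : EE n →L[ℝ] ℝ => L (ee j))
      (EuclideanSpace.proj a : EE n →L[ℝ] ℝ).fderiv
  have hd : Continuous fun x => fderiv ℝ F x (ee j) :=
    (hF.continuous_fderiv inf_ne).clm_apply continuous_const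
  have hca := (contDiff_coord (n := n) 1 a).continuous
  have := integral_mul_fderiv_eq_neg_fderiv_mul_of_integrable (μ := volume)
    (f := fun y : EE n => y a) (g := F) (v := ee j)
    (by
      simp only [h1]
      exact (hF.continuous.integrable_of_hasCompactSupport hc).const_mul _)
    ((hca.mul hd).integrable_of_hasCompactSupport (hc.fderiv_apply ℝ (ee j)).mul_left)
    ((hca.mul hF.continuous).integrable_of_hasCompactSupport hc.mul_left)
    (fun x _ => (contDiff_coord 1 a).differentiable one_ne_zero x)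
    (fun x _ => hF.differentiable inf_ne x)
  simpa only [h1] using this

theorem fderiv_chi (x : EE n) (j : Fin n) :
    fderiv ℝ chi x (ee j) = deriv bigB (‖x‖ ^ 2) * (2 * x j) := by
  have h1 : HasDerivAt bigB (deriv bigB (‖x‖ ^ 2)) (‖x‖ ^ 2) :=
    ((bigB.contDiff (n := 1)).differentiable one_ne_zero _).hasDerivAt
  have h2 := h1.comp_hasFDerivAt x (hasStrictFDerivAt_norm_sq x).hasFDerivAt
  have h3 : fderiv ℝ chi x = _ := h2.fderiv
  rw [h3]
  simp [inner_ee]

theorem II_rot (a j : Fin n) (f : Sm n) : II (xh a * T j f - xh j * T a f) = 0 := by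
  obtain ⟨h1, h2⟩ := wt_glob f
  have hd : ∀ i : Fin n, Continuous fun x => fderiv ℝ (fun x => ext0 f.1 x * chi x) x (ee i) :=
    fun i => (h1.continuous_fderiv inf_ne).clm_apply continuous_const
  have hi : ∀ b i : Fin n,
      Integrable fun x : EE n => x b * fderiv ℝ (fun x => ext0 f.1 x * chi x) x (ee i) :=
    fun b i => ((contDiff_coord (n := n) 1 b).continuous.mul (hd i)).integrable_of_hasCompactSupport
      (h2.fderiv_apply ℝ (ee i)).mul_left
  have e : II (xh a * T j f - xh j * T a f)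
      = (∫ x : EE n, x a * fderiv ℝ (fun x => ext0 f.1 x * chi x) x (ee j))
        - ∫ x : EE n, x j * fderiv ℝ (fun x => ext0 f.1 x * chi x) x (ee a) := by
    rw [← integral_sub (hi a j) (hi j a), II_apply]
    congr 1
    funext x
    by_cases hx : x = 0
    · simp [hx]
    · have h3 := ((Sm.cm f).diff inf_ne hx).hasFDerivAt.mul
        (chi_smooth.differentiable inf_ne x).hasFDerivAt
      have h4 : fderiv ℝ (fun x => ext0 f.1 x * chi x) x = _ := h3.fderiv
      have h5 : ext0 (xh a * T j f - xh j * T a f).1 x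
          = ext0 (xf a) x * ext0 (Tf j f.1) x - ext0 (xf j) x * ext0 (Tf a f.1) x := by
        simp only [ext0_of_ne _ hx]
        rfl
      rw [h4, h5, ext0_xf a hx, ext0_xf j hx, ext0_Tf j _ hx, ext0_Tf a _ hx]
      simp only [add_apply, smul_apply, smul_eq_mul, fderiv_chi]
      have := norm_ne_zero_iff.mpr hx
      field_simp
      ring
  rw [e, int_coord h1 h2, int_coord h1 h2]
  have : (ee j : EE n) a = (ee a : EE n) j := by simp [PiLp.single_apply, eq_comm]
  rw [this, sub_self]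

theorem II_T (j : Fin n) (f : Sm n) : II (T j f) = ((n : ℝ) - 1) * II (xh j * f) := by
  have h : ∑ a, (xh a * T j (xh a * f) - xh j * T a (xh a * f))
      = T j f - ((n : ℝ) - 1) • (xh j * f) := by
    have e : ∀ a, xh a * T j (xh a * f) - xh j * T a (xh a * f)
        = (xh a * xh a) * T j f + (if a = j then xh j * f else 0)
          - xh j * (xh a * T a f) - xh j * f := by
      intro a
      rw [T_mul, T_mul, T_xh, T_xh, if_pos rfl]
      split_ifs with h
      · rw [h]; ring
      · ring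
    simp only [e, Finset.sum_sub_distrib, Finset.sum_add_distrib, ← Finset.sum_mul,
      ← Finset.mul_sum, sum_xh_sq, euler_T, Finset.sum_ite_eq', Finset.mem_univ, if_true,
      Finset.sum_const, Finset.card_univ, Fintype.card_fin]
    rw [sub_smul, one_smul, Nat.cast_smul_eq_nsmul, smul_mul_assoc]
    ring
  have h2 := congrArg II h
  rw [map_sum, Finset.sum_eq_zero (fun a _ => II_rot a j _), map_sub, map_smul, smul_eq_mul] at h2
  linarith

theorem II_parts (j : Fin n) (f g : Sm n) :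
    II (f * T j g) = -II (T j f * g) + ((n : ℝ) - 1) * II (xh j * f * g) := by
  have := II_T j (f * g)
  rw [T_mul, map_add, ← mul_assoc] at this
  linarith

/-- action of an isometry on the sphere -/
def act (g : EE n ≃ₗᵢ[ℝ] EE n) (u : Sph n) : Sph n := ⟨g u, by simp⟩

theorem ext0_act (g : EE n ≃ₗᵢ[ℝ] EE n) (f : Sph n → ℝ) (x : EE n) :
    ext0 (f ∘ act g) x = ext0 f (g x) := by
  by_cases hx : x = 0
  · simp [hx]
  · have h2 : g x ≠ 0 := by simpa using hx
    rw [ext0_of_ne _ hx, ext0_of_ne _ h2, Function.comp_apply]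
    congr 1
    apply Subtype.ext
    simp [act, nu_coe]

theorem Cm.act {m : WithTop ℕ∞} {f : Sph n → ℝ} (hf : Cm m f) (g : EE n ≃ₗᵢ[ℝ] EE n) :
    Cm m (f ∘ act g) :=
  cm_of (F := ext0 f ∘ g) (ContDiffOn.comp hf g.contDiff.contDiffOn
    fun x hx => by simpa using hx) fun x _ => ext0_act g f x

/-- pull back by an isometry -/
def pull (g : EE n ≃ₗᵢ[ℝ] EE n) : Sm n →ₐ[ℝ] Sm n where
  toFun f := ⟨f.1 ∘ act g, (Sm.cm f).act g⟩
  map_one' := rfl
  map_mul' _ _ := rfl
  map_zero' := rfl
  map_add' _ _ := rfl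
  commutes' _ := rfl

theorem pull_apply (g : EE n ≃ₗᵢ[ℝ] EE n) (f : Sm n) (u : Sph n) :
    (pull g f).1 u = f.1 (act g u) := rfl

theorem II_pull (g : EE n ≃ₗᵢ[ℝ] EE n) (f : Sm n) : II (pull g f) = II f := by
  rw [II_apply, II_apply, ← g.measurePreserving.integral_comp g.toHomeomorph.measurableEmbedding
    (fun x => ext0 f.1 x * chi x)]
  congr 1
  funext x
  have : ext0 (pull g f).1 x = ext0 f.1 (g x) := ext0_act g f.1 x
  rw [this, chi, chi, g.norm_map]

/-- smooth functions with the square integral norm -/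
def S0 (n : ℕ) : Type := Sm n

instance : AddCommGroup (S0 n) := inferInstanceAs (AddCommGroup (Sm n))

instance : Module ℝ (S0 n) := inferInstanceAs (Module ℝ (Sm n))

/-- identity map -/
def toS0 : Sm n ≃ₗ[ℝ] S0 n := LinearEquiv.refl ℝ (Sm n)

/-- the scalar product -/
@[reducible] def core0 : InnerProductSpace.Core ℝ (S0 n) where
  inner f g := II (toS0.symm f * toS0.symm g)
  conj_inner_symm f g := by simp [mul_comm]
  re_inner_nonneg f := II_nonneg fun u => mul_self_nonneg _
  add_left f g h := by rw [map_add, add_mul, map_add]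
  smul_left f g r := by rw [map_smul, smul_mul_assoc, map_smul]; simp
  definite f hf := by
    by_contra h
    have h1 : ∃ u, (toS0.symm f).1 u ≠ 0 := by
      by_contra h2
      push Not at h2
      exact h (toS0.symm.injective (Subtype.ext (funext h2)))
    obtain ⟨u, hu⟩ := h1
    exact (II_pos (f := toS0.symm f * toS0.symm f) (fun u => mul_self_nonneg _)
      (u := u) (mul_self_ne_zero.mpr hu)).ne' hf

instance : NormedAddCommGroup (S0 n) :=
  InnerProductSpace.Core.toNormedAddCommGroup (cd := core0)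

instance : InnerProductSpace ℝ (S0 n) := InnerProductSpace.ofCore core0.toCore

theorem inner_S0 (f g : Sm n) : inner ℝ (toS0 f) (toS0 g) = II (f * g) := rfl

/-- Sobolev seminorms -/
def nrm : ℕ → Seminorm ℝ (Sm n)
  | 0 => (normSeminorm ℝ (S0 n)).comp toS0.toLinearMap
  | k + 1 => (normSeminorm ℝ (S0 n)).comp toS0.toLinearMap + ∑ j, (nrm k).comp (T j)

theorem nrm_zero (f : Sm n) : nrm 0 f = ‖toS0 f‖ := rfl

theorem nrm_succ (k : ℕ) (f : Sm n) : nrm (k + 1) f = nrm 0 f + ∑ j, nrm k (T j f) := by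
  have h : ∀ s : Finset (Fin n), (∑ j ∈ s, (nrm k).comp (T j)) f = ∑ j ∈ s, nrm k (T j f) := by
    intro s
    induction s using Finset.induction with
    | empty => rfl
    | insert a s ha ih => rw [Finset.sum_insert ha, Finset.sum_insert ha, ← ih]; rfl
  rw [← h]
  rfl

theorem nrm_sq (f : Sm n) : nrm 0 f ^ 2 = II (f * f) := by
  rw [nrm_zero, ← real_inner_self_eq_norm_sq, inner_S0]

theorem II_le (f g : Sm n) : |II (f * g)| ≤ nrm 0 f * nrm 0 g := by
  rw [← inner_S0]
  exact abs_real_inner_le_norm _ _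

theorem nrm_zero_le (k : ℕ) (f : Sm n) : nrm 0 f ≤ nrm k f := by
  cases k with
  | zero => exact le_rfl
  | succ k =>
    rw [nrm_succ]
    exact le_add_of_nonneg_right (Finset.sum_nonneg fun j _ => apply_nonneg _ _)

theorem nrm_T_le (k : ℕ) (j : Fin n) (f : Sm n) : nrm k (T j f) ≤ nrm (k + 1) f := by
  rw [nrm_succ]
  exact le_add_of_nonneg_of_le (apply_nonneg _ _)
    (Finset.single_le_sum (f := fun j => nrm k (T j f)) (fun j _ => apply_nonneg _ _)
      (Finset.mem_univ j))

theorem nrm_le_succ (k : ℕ) (f : Sm n) : nrm k f ≤ nrm (k + 1) f := by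
  induction k generalizing f with
  | zero => exact nrm_zero_le _ _
  | succ k ih =>
    rw [nrm_succ, nrm_succ (k + 1)]
    exact add_le_add le_rfl (Finset.sum_le_sum fun j _ => ih _)

theorem nrm_mono {k l : ℕ} (h : k ≤ l) (f : Sm n) : nrm k f ≤ nrm l f :=
  monotone_nat_of_le_succ (f := fun k => nrm k f) (fun k => nrm_le_succ k f) h

theorem nrm_zero_mul {a : Sm n} {M : ℝ} (h : ∀ u, |a.1 u| ≤ M) (hM : 0 ≤ M) (f : Sm n) :
    nrm 0 (a * f) ≤ M * nrm 0 f := by
  apply le_of_pow_le_pow_left₀ two_ne_zero (mul_nonneg hM (apply_nonneg _ _))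
  rw [nrm_sq, mul_pow, nrm_sq, ← smul_eq_mul (M ^ 2), ← map_smul]
  apply II_mono
  intro u
  change (a.1 u * f.1 u) * (a.1 u * f.1 u) ≤ M ^ 2 * (f.1 u * f.1 u)
  have := sq_le_sq' (abs_le.mp (h u)).1 (abs_le.mp (h u)).2
  nlinarith [mul_self_nonneg (f.1 u)]

end Pool.Agent.P.MP_4a4b50_gt
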