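import Pool.Agent.P.MP_4a4b50_gt.Pde

set_option autoImplicit false

open Set Filter Topology Metric

namespace Pool.Agent.P.MP_4a4b50_gt

noncomputable def Del (h : E3 → ℝ) (a b x : E3) : ℝ :=
  fderiv ℝ (fderiv ℝ h) x a a * fderiv ℝ (fderiv ℝ h) x b b - fderiv ℝ (fderiv ℝ h) x a b ^ 2

noncomputable def Rad (h : E3 → ℝ) (u : E3) : ℝ :=
  (Matrix.of (fun i j : Fin 3 =>
        fderiv ℝ (fderiv ℝ h) u (EuclideanSpace.single i 1) (EuclideanSpace.single j 1)
        + inner ℝ u (EuclideanSpace.single i (1 : ℝ))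
          * inner ℝ u (EuclideanSpace.single j (1 : ℝ)))).det

theorem cAt {h : E3 → ℝ} (hc : ContDiffOn ℝ 3 h {0}ᶜ) {x : E3} (hx : x ≠ 0) :
    ContDiffAt ℝ 3 h x := hc.contDiffAt (isOpen_compl_singleton.mem_nhds hx)

theorem del_eq {h : E3 → ℝ} (hc : ContDiffOn ℝ 3 h {0}ᶜ)
    (hom : ∀ t : ℝ, 0 < t → ∀ x, h (t • x) = t • h x) (a b u : E3) (hu : ‖u‖ = 1)
    (t : ℝ) (ht : 0 < t) : t ^ 2 * Del h a b (t • u) = Rad h u * trip a b u ^ 2 := by
  have hu0 : u ≠ 0 := by
    rintro rfl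
    simp at hu
  have h3 := cAt hc hu0
  have h2 : ContDiffAt ℝ 2 h u := h3.of_le (by norm_num)
  have hQ : fderiv ℝ (fderiv ℝ h) u u = 0 :=
    euler_zero (fderiv ℝ h) (fun s hs x => fderiv_hom_one h s hs.ne' (hom s hs) x)
      ((h2.fderiv_right (m := 1) (by norm_num)).differentiableAt (by simp))
  rw [Rad, det_id _ (symm2 h2) u hu (fun v => by rw [hQ]; rfl) a b,
    ← fderiv2_hom_one h t ht.ne' (hom t ht) u]
  simp only [Del, smul_apply, smul_eq_mul]
  ring

theorem trip_smul (a b x : E3) (t : ℝ) : trip a b (t • x) = t * trip a b x := by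
  simp only [trip, PiLp.smul_apply, smul_eq_mul]
  ring

theorem trip_neg (a b x : E3) : trip a b (-x) = - trip a b x := by
  simp only [trip, PiLp.neg_apply]
  ring

theorem trip_cont (a b : E3) : Continuous (trip a b) := by
  unfold trip
  fun_prop

theorem polar {x : E3} (hx : x ≠ 0) : ∃ t : ℝ, ∃ u : E3, 0 < t ∧ ‖u‖ = 1 ∧ x = t • u := by
  have hn : 0 < ‖x‖ := norm_pos_iff.mpr hx
  refine ⟨‖x‖, ‖x‖⁻¹ • x, hn, ?_, ?_⟩
  · rw [norm_smul, norm_inv, norm_norm, inv_mul_cancel₀ hn.ne']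
  · rw [smul_smul, mul_inv_cancel₀ hn.ne', one_smul]

structure Data (hH hK : E3 → ℝ) : Prop where
  cH : ContDiffOn ℝ 3 hH {0}ᶜ
  cK : ContDiffOn ℝ 3 hK {0}ᶜ
  homH : ∀ t : ℝ, 0 < t → ∀ x, hH (t • x) = t • hH x
  homK : ∀ t : ℝ, 0 < t → ∀ x, hK (t • x) = t • hK x
  zH : hH 0 = 0
  zK : hK 0 = 0
  psdH : ∀ x, x ≠ 0 → ∀ v, 0 ≤ fderiv ℝ (fderiv ℝ hH) x v v
  psdK : ∀ x, x ≠ 0 → ∀ v, 0 ≤ fderiv ℝ (fderiv ℝ hK) x v v
  posH : ∀ u, ‖u‖ = 1 → 0 < Rad hH u
  posK : ∀ u, ‖u‖ = 1 → 0 < Rad hK u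
  width : ∀ u, ‖u‖ = 1 → hH u + hH (-u) = hK u + hK (-u)
  ratio : ∀ u, ‖u‖ = 1 → Rad hH (-u) * Rad hK u = Rad hK (-u) * Rad hH u

variable {hH hK : E3 → ℝ}

theorem Data.odd (D : Data hH hK) (x : E3) : hK (-x) - hH (-x) = -(hK x - hH x) := by
  by_cases hx : x = 0
  · subst hx
    simp [D.zH, D.zK]
  · obtain ⟨t, u, ht, hu, rfl⟩ := polar hx
    rw [← smul_neg, D.homH t ht, D.homH t ht, D.homK t ht, D.homK t ht]
    simp only [smul_eq_mul]
    linear_combination (-t) * D.width u hu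

theorem Data.homd (D : Data hH hK) (t : ℝ) (ht : t ≠ 0) (x : E3) :
    (fun y => hK y - hH y) (t • x) = t • (fun y => hK y - hH y) x := by
  simp only [smul_eq_mul]
  rcases lt_or_gt_of_ne ht with h | h
  · have : t • x = -((-t) • x) := by simp
    rw [this, D.odd, D.homH _ (by linarith), D.homK _ (by linarith)]
    simp only [smul_eq_mul]
    ring
  · rw [D.homH _ h, D.homK _ h]
    simp only [smul_eq_mul]
    ring

theorem Data.cd (D : Data hH hK) : ContDiffOn ℝ 3 (fun y => hK y - hH y) {0}ᶜ := D.cK.sub D.cH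

theorem Data.snd (D : Data hH hK) {x : E3} (hx : x ≠ 0) :
    fderiv ℝ (fderiv ℝ (fun y => hK y - hH y)) x
      = fderiv ℝ (fderiv ℝ hK) x - fderiv ℝ (fderiv ℝ hH) x := by
  have e : fderiv ℝ (fun y => hK y - hH y) =ᶠ[𝓝 x] fun y => fderiv ℝ hK y - fderiv ℝ hH y := by
    filter_upwards [isOpen_compl_singleton.mem_nhds hx] with y hy
    exact (((cAt D.cK hy).differentiableAt (by simp)).hasFDerivAt.sub
      ((cAt D.cH hy).differentiableAt (by simp)).hasFDerivAt).fderiv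
  rw [e.fderiv_eq]
  exact ((((cAt D.cK hx).fderiv_right (m := 1) (by norm_num)).differentiableAt
    (by simp)).hasFDerivAt.sub (((cAt D.cH hx).fderiv_right (m := 1)
    (by norm_num)).differentiableAt (by simp)).hasFDerivAt).fderiv

theorem Data.snd_neg (D : Data hH hK) {x : E3} (hx : x ≠ 0) (v w : E3) :
    fderiv ℝ (fderiv ℝ hK) x v w - fderiv ℝ (fderiv ℝ hH) x v w
      = fderiv ℝ (fderiv ℝ hH) (-x) v w - fderiv ℝ (fderiv ℝ hK) (-x) v w := by
  have := fderiv2_hom_one (fun y => hK y - hH y) (-1) (by norm_num) (D.homd (-1) (by norm_num)) x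
  rw [neg_one_smul ℝ x, D.snd hx, D.snd (neg_ne_zero.mpr hx)] at this
  have h2 := congrArg (fun L : E3 →L[ℝ] E3 →L[ℝ] ℝ => L v w) this
  simp only [smul_apply, sub_apply, smul_eq_mul] at h2
  linarith

theorem Data.dels (D : Data hH hK) {a b x : E3} (hx : trip a b x ≠ 0) :
    0 < Del hH a b x ∧ 0 < Del hK a b x ∧ 0 < Del hH a b (-x) ∧ 0 < Del hK a b (-x) ∧
      Del hH a b (-x) * Del hK a b x = Del hK a b (-x) * Del hH a b x := by
  have hx0 : x ≠ 0 := by
    rintro rfl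
    simp [trip] at hx
  obtain ⟨t, u, ht, hu, rfl⟩ := polar hx0
  have hu' : ‖-u‖ = 1 := by rwa [norm_neg]
  have htr : trip a b u ≠ 0 := by
    intro h
    rw [trip_smul, h] at hx
    simp at hx
  have hT : 0 < trip a b u ^ 2 := by positivity
  have e1 := del_eq D.cH D.homH a b u hu t ht
  have e2 := del_eq D.cK D.homK a b u hu t ht
  have e3 := del_eq D.cH D.homH a b (-u) hu' t ht
  have e4 := del_eq D.cK D.homK a b (-u) hu' t ht
  rw [trip_neg, neg_sq, smul_neg] at e3 e4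
  have ht2 : 0 < t ^ 2 := by positivity
  refine ⟨?_, ?_, ?_, ?_, ?_⟩
  · exact (mul_pos_iff_of_pos_left ht2).mp (e1 ▸ mul_pos (D.posH u hu) hT)
  · exact (mul_pos_iff_of_pos_left ht2).mp (e2 ▸ mul_pos (D.posK u hu) hT)
  · exact (mul_pos_iff_of_pos_left ht2).mp (e3 ▸ mul_pos (D.posH _ hu') hT)
  · exact (mul_pos_iff_of_pos_left ht2).mp (e4 ▸ mul_pos (D.posK _ hu') hT)
  · have : (t ^ 2 * Del hH a b (-(t • u))) * (t ^ 2 * Del hK a b (t • u))
        = (t ^ 2 * Del hK a b (-(t • u))) * (t ^ 2 * Del hH a b (t • u)) := by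
      rw [e1, e2, e3, e4]
      linear_combination (trip a b u ^ 2) ^ 2 * D.ratio u hu
    have h4 : (t ^ 2 * t ^ 2) ≠ 0 := by positivity
    apply mul_left_cancel₀ h4
    linear_combination this

theorem Data.loc (D : Data hH hK) {a x0 : E3} (ha : a ≠ 0) (hx0 : x0 ∉ Submodule.span ℝ {a})
    {m : ℝ} (hm : ∀ x, x ≠ 0 → fderiv ℝ (fun y => hK y - hH y) x a ≤ m)
    (h0 : fderiv ℝ (fun y => hK y - hH y) x0 a = m) :
    ∀ᶠ x in 𝓝 x0, fderiv ℝ (fun y => hK y - hH y) x a = m := by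
  obtain ⟨b, hb⟩ := exists_trip ha hx0
  set U : Set E3 := {x | trip a b x ≠ 0} with hUdef
  have hU : IsOpen U := isOpen_ne_fun (trip_cont a b) continuous_const
  have hU0 : ∀ x ∈ U, x ≠ 0 := by
    rintro x hx rfl
    simp [hUdef, trip] at hx
  set M11 : E3 → ℝ := fun x =>
    Del hH a b (-x) * (fderiv ℝ (fderiv ℝ hH) x b b + fderiv ℝ (fderiv ℝ hK) x b b)
    + Del hH a b x * (fderiv ℝ (fderiv ℝ hK) (-x) b b + fderiv ℝ (fderiv ℝ hH) (-x) b b) with hM11
  set M12 : E3 → ℝ := fun x =>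
    -(Del hH a b (-x) * (fderiv ℝ (fderiv ℝ hH) x a b + fderiv ℝ (fderiv ℝ hK) x a b)
    + Del hH a b x * (fderiv ℝ (fderiv ℝ hK) (-x) a b + fderiv ℝ (fderiv ℝ hH) (-x) a b)) with hM12
  set M22 : E3 → ℝ := fun x =>
    Del hH a b (-x) * (fderiv ℝ (fderiv ℝ hH) x a a + fderiv ℝ (fderiv ℝ hK) x a a)
    + Del hH a b x * (fderiv ℝ (fderiv ℝ hK) (-x) a a + fderiv ℝ (fderiv ℝ hH) (-x) a a) with hM22
  have halg : ∀ x ∈ U, 0 < M22 x ∧ 0 < M11 x / M22 x - (M12 x / M22 x) ^ 2 := by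
    intro x hx
    obtain ⟨p1, p2, p3, p4, -⟩ := D.dels hx
    have hx0 := hU0 x hx
    have hx0' : -x ≠ 0 := neg_ne_zero.mpr hx0
    exact alg_main (D.psdH x hx0 a) p1 (D.psdK x hx0 a) p2 (D.psdK _ hx0' a) p4
      (D.psdH _ hx0' a) p3 _ _ _ rfl rfl rfl
  have c1 : ∀ {h : E3 → ℝ}, ContDiffOn ℝ 3 h {0}ᶜ → ∀ x ∈ U, ∀ v w : E3,
      ContDiffAt ℝ 1 (fun y => fderiv ℝ (fderiv ℝ h) y v w) x :=
    fun hc x hx v w => contDiffAt_dir2 (cAt hc (hU0 x hx)) v w
  have c2 : ∀ {h : E3 → ℝ}, ContDiffOn ℝ 3 h {0}ᶜ → ∀ x ∈ U, ∀ v w : E3,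
      ContDiffAt ℝ 1 (fun y => fderiv ℝ (fderiv ℝ h) (-y) v w) x := by
    intro h hc x hx v w
    exact (contDiffAt_dir2 (cAt hc (neg_ne_zero.mpr (hU0 x hx))) v w).comp x contDiffAt_id.neg
  have c3 : ∀ x ∈ U, ContDiffAt ℝ 1 (fun y => Del hH a b y) x := fun x hx =>
    ((c1 D.cH x hx a a).mul (c1 D.cH x hx b b)).sub ((c1 D.cH x hx a b).pow 2)
  have c4 : ∀ x ∈ U, ContDiffAt ℝ 1 (fun y => Del hH a b (-y)) x := fun x hx =>
    ((c2 D.cH x hx a a).mul (c2 D.cH x hx b b)).sub ((c2 D.cH x hx a b).pow 2)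
  have cM : ∀ x ∈ U, ∀ v w : E3, ContDiffAt ℝ 1 (fun x =>
      Del hH a b (-x) * (fderiv ℝ (fderiv ℝ hH) x v w + fderiv ℝ (fderiv ℝ hK) x v w)
      + Del hH a b x * (fderiv ℝ (fderiv ℝ hK) (-x) v w + fderiv ℝ (fderiv ℝ hH) (-x) v w)) x :=
    fun x hx v w => ((c4 x hx).mul ((c1 D.cH x hx v w).add (c1 D.cK x hx v w))).add
      ((c3 x hx).mul ((c2 D.cK x hx v w).add (c2 D.cH x hx v w)))
  refine hopf_dir hU (D.cd.mono fun x hx => hU0 x hx) (fun t ht x => D.homd t ht.ne' x) a b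
    (α := fun x => M11 x / M22 x) (β := fun x => M12 x / M22 x) ?_ ?_ (fun x hx => (halg x hx).2)
    ?_ (fun x hx ξ => span_of_trip hx) (fun x hx => hm x (hU0 x hx)) hb h0
  · intro x hx
    exact ((cM x hx b b).div (cM x hx a a) (halg x hx).1.ne').contDiffWithinAt
  · intro x hx
    exact ((cM x hx a b).neg.div (cM x hx a a) (halg x hx).1.ne').contDiffWithinAt
  · intro x hx
    have h22 := (halg x hx).1.ne'
    have hx0 := hU0 x hx
    obtain ⟨-, -, -, -, p5⟩ := D.dels hx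
    have key : M11 x * fderiv ℝ (fderiv ℝ (fun y => hK y - hH y)) x a a
        + 2 * M12 x * fderiv ℝ (fderiv ℝ (fun y => hK y - hH y)) x a b
        + M22 x * fderiv ℝ (fderiv ℝ (fun y => hK y - hH y)) x b b = 0 := by
      rw [D.snd hx0]
      simp only [sub_apply, hM11, hM12, hM22]
      have n11 := D.snd_neg hx0 a a
      have n12 := D.snd_neg hx0 a b
      have n22 := D.snd_neg hx0 b b
      have q1 : Del hK a b (-x) = _ := rfl
      have q2 : Del hH a b (-x) = _ := rfl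
      have q3 : Del hK a b x = _ := rfl
      have q4 : Del hH a b x = _ := rfl
      conv_rhs at q1 => unfold Del
      conv_rhs at q2 => unfold Del
      conv_rhs at q3 => unfold Del
      conv_rhs at q4 => unfold Del
      linear_combination 2 * p5
        + Del hH a b x * ((fderiv ℝ (fderiv ℝ hK) (-x) b b + fderiv ℝ (fderiv ℝ hH) (-x) b b) * n11
          - 2 * (fderiv ℝ (fderiv ℝ hK) (-x) a b + fderiv ℝ (fderiv ℝ hH) (-x) a b) * n12
          + (fderiv ℝ (fderiv ℝ hK) (-x) a a + fderiv ℝ (fderiv ℝ hH) (-x) a a) * n22)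
        - 2 * Del hH a b (-x) * q3 + 2 * Del hH a b (-x) * q4
        + 2 * Del hH a b x * q1 - 2 * Del hH a b x * q2
    field_simp
    linear_combination key

theorem Data.le_axis (D : Data hH hK) {a : E3} (ha : a ≠ 0) {x : E3} (hx : x ≠ 0) :
    fderiv ℝ (fun y => hK y - hH y) x a ≤ fderiv ℝ (fun y => hK y - hH y) a a := by
  set g : E3 → ℝ := fun x => fderiv ℝ (fun y => hK y - hH y) x a with hg
  have gc : ContinuousOn g {0}ᶜ := fun y hy =>
    (contDiffAt_dir (cAt D.cd hy) a).continuousAt.continuousWithinAt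
  have g0 : ∀ t : ℝ, t ≠ 0 → ∀ x, g (t • x) = g x := by
    intro t ht x
    simp only [hg]
    rw [fderiv_hom_one _ t ht (D.homd t ht)]
  have hs : sphere (0 : E3) 1 ⊆ {0}ᶜ := by
    rintro y hy rfl
    simp at hy
  obtain ⟨x1, hx1, hmax⟩ := (isCompact_sphere (0 : E3) 1).exists_isMaxOn
    (NormedSpace.sphere_nonempty.mpr zero_le_one) (gc.mono hs)
  have hle : ∀ y, y ≠ 0 → g y ≤ g x1 := by
    intro y hy
    obtain ⟨t, u, ht, hu, rfl⟩ := polar hy
    rw [g0 t ht.ne']
    exact hmax (by simpa using hu)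
  have hx10 : x1 ≠ 0 := hs hx1
  have : g x1 = g a := by
    by_cases hin : x1 ∈ Submodule.span ℝ {a}
    · obtain ⟨t, rfl⟩ := Submodule.mem_span_singleton.mp hin
      apply g0
      rintro rfl
      simp at hx10
    · set L := Submodule.span ℝ {a} with hL
      have hfin : Module.finrank ℝ (E3 ⧸ L) = 2 := by
        have h1 := L.finrank_quotient_add_finrank
        rw [hL, finrank_span_singleton ha] at h1
        simp at h1
        rw [hL]
        omega
      have hrank : 1 < Module.rank ℝ (E3 ⧸ L) := by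
        rw [← Module.finrank_eq_rank, hfin]
        norm_num
      have hconn := (isConnected_compl_of_one_lt_codim hrank).2
      have hL0 : ((L : Set E3)ᶜ) ⊆ {0}ᶜ := by
        rintro y hy rfl
        exact hy L.zero_mem
      have hall : ((L : Set E3)ᶜ) ⊆ interior {y | g y = g x1} := by
        apply hconn.subset_of_closure_inter_subset isOpen_interior
        · refine ⟨x1, hin, ?_⟩
          exact mem_interior_iff_mem_nhds.mpr (D.loc ha hin hle rfl)
        · rintro y ⟨hy1, hy2⟩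
          have hy3 : y ∈ closure {y | g y = g x1} := closure_mono interior_subset hy1
          have hy4 : g y = g x1 := by
            have hcy : ContinuousAt g y := gc.continuousAt
              (isOpen_compl_singleton.mem_nhds (hL0 hy2))
            have := hcy.continuousWithinAt.mem_closure_image hy3
            have h5 : g '' {y | g y = g x1} ⊆ {g x1} := by
              rintro _ ⟨z, hz, rfl⟩
              exact hz
            simpa using closure_mono h5 this
          exact mem_interior_iff_mem_nhds.mpr (D.loc ha hy2 hle hy4)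
      have hne : L ≠ ⊤ := by
        intro h
        exact hin (by rw [h]; trivial)
      have hcl : a ∈ closure ((L : Set E3)ᶜ) := by
        rw [closure_compl]
        intro h
        exact hne (L.eq_top_of_nonempty_interior' ⟨a, h⟩)
      have hy3 : a ∈ closure {y | g y = g x1} :=
        closure_mono (hall.trans interior_subset) hcl
      have hcy : ContinuousAt g a := gc.continuousAt (isOpen_compl_singleton.mem_nhds ha)
      have := hcy.continuousWithinAt.mem_closure_image hy3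
      have h5 : g '' {y | g y = g x1} ⊆ {g x1} := by
        rintro _ ⟨z, hz, rfl⟩
        exact hz
      symm
      simpa using closure_mono h5 this
  change g x ≤ g a
  rw [← this]
  exact hle x hx

theorem Data.grad_const (D : Data hH hK) {x y : E3} (hx : x ≠ 0) (hy : y ≠ 0) :
    fderiv ℝ (fun y => hK y - hH y) x = fderiv ℝ (fun y => hK y - hH y) y := by
  ext a
  by_cases ha : a = 0
  · simp [ha]
  have key : ∀ z, z ≠ 0 → fderiv ℝ (fun y => hK y - hH y) z a
      = fderiv ℝ (fun y => hK y - hH y) a a := by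
    intro z hz
    apply le_antisymm (D.le_axis ha hz)
    have := D.le_axis (neg_ne_zero.mpr ha) hz
    have e := fderiv_hom_one (fun y => hK y - hH y) (-1) (by norm_num) (D.homd (-1) (by norm_num)) a
    rw [neg_one_smul] at e
    rw [e, map_neg, map_neg] at this
    linarith
  rw [key x hx, key y hy]

theorem Data.linear (D : Data hH hK) : ∃ v : E3, ∀ x, hH x = hK x + inner ℝ v x := by
  set e : E3 := EuclideanSpace.single 0 1 with he
  have he0 : e ≠ 0 := by simp [he]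
  refine ⟨-(InnerProductSpace.toDual ℝ E3).symm (fderiv ℝ (fun y => hK y - hH y) e), ?_⟩
  intro x
  rw [inner_neg_left, InnerProductSpace.toDual_symm_apply]
  by_cases hx : x = 0
  · subst hx
    simp [D.zH, D.zK]
  · rw [D.grad_const he0 hx, euler_one _ (fun t ht => D.homd t ht.ne')
      ((cAt D.cd hx).differentiableAt (by simp))]
    ring

end Pool.Agent.P.MP_4a4b50_gt
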