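import Mathlib

/-! Definitions for the non-uniqueness theorem. -/

set_option autoImplicit false

noncomputable section

namespace Pool.Agent.P.MP_4a4b50_gt

/-- Euclidean space. -/
abbrev EE (n : ℕ) : Type := EuclideanSpace ℝ (Fin n)

/-- Hessian matrix. -/
def hess {n : ℕ} (w : EE n → ℝ) (x : EE n) : Matrix (Fin n) (Fin n) ℝ :=
  Matrix.of fun i j => fderiv ℝ (fderiv ℝ w) x (EuclideanSpace.single i 1)
    (EuclideanSpace.single j 1)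

/-- Hessian plus `u uᵀ`. -/
def radM {n : ℕ} (h : EE n → ℝ) (u : EE n) : Matrix (Fin n) (Fin n) ℝ :=
  Matrix.of fun i j => fderiv ℝ (fderiv ℝ h) u (EuclideanSpace.single i 1)
    (EuclideanSpace.single j 1) +
      inner ℝ u (EuclideanSpace.single i (1 : ℝ)) * inner ℝ u (EuclideanSpace.single j (1 : ℝ))

/-- The linearised operator `tr ((X⁻¹ + Y⁻¹) D²w)`. -/
def linOp {n : ℕ} (h w : EE n → ℝ) (u : EE n) : ℝ :=
  (((radM h u)⁻¹ + (radM h (-u))⁻¹) * hess w u).trace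

/-- Positively homogeneous of degree one. -/
def Hom1 {n : ℕ} (w : EE n → ℝ) : Prop := ∀ t : ℝ, 0 < t → ∀ x, w (t • x) = t * w x

/-- Invariant under a set of isometries. -/
def Inv {n : ℕ} (Γ : Set (EE n ≃ₗᵢ[ℝ] EE n)) (w : EE n → ℝ) : Prop :=
  ∀ g ∈ Γ, ∀ x, w (g x) = w x

/-- The uniqueness assertion in dimension `n` and smoothness class `N`. -/
def Uniq (n N : ℕ) : Prop :=
  ∀ H K : Set (EuclideanSpace ℝ (Fin n)),
    IsCompact H → Convex ℝ H → (interior H).Nonempty →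
    IsCompact K → Convex ℝ K → (interior K).Nonempty →
    ∀ hH hK : EuclideanSpace ℝ (Fin n) → ℝ,
    (∀ x, hH x = sSup ((fun y => inner ℝ y x) '' H)) →
    (∀ x, hK x = sSup ((fun y => inner ℝ y x) '' K)) →
    ∀ RH RK : EuclideanSpace ℝ (Fin n) → ℝ,
    (∀ u, RH u = (Matrix.of (fun i j : Fin n =>
        fderiv ℝ (fderiv ℝ hH) u (EuclideanSpace.single i 1) (EuclideanSpace.single j 1)
        + inner ℝ u (EuclideanSpace.single i (1 : ℝ)) *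
          inner ℝ u (EuclideanSpace.single j (1 : ℝ)))).det) →
    (∀ u, RK u = (Matrix.of (fun i j : Fin n =>
        fderiv ℝ (fderiv ℝ hK) u (EuclideanSpace.single i 1) (EuclideanSpace.single j 1)
        + inner ℝ u (EuclideanSpace.single i (1 : ℝ)) *
          inner ℝ u (EuclideanSpace.single j (1 : ℝ)))).det) →
    ContDiffOn ℝ (N : WithTop ℕ∞) hH {0}ᶜ →
    ContDiffOn ℝ (N : WithTop ℕ∞) hK {0}ᶜ →
    (∀ u : EuclideanSpace ℝ (Fin n), ‖u‖ = 1 → 0 < RH u) →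
    (∀ u : EuclideanSpace ℝ (Fin n), ‖u‖ = 1 → 0 < RK u) →
    (∀ u : EuclideanSpace ℝ (Fin n), ‖u‖ = 1 → hH u + hH (-u) = hK u + hK (-u)) →
    (∀ u : EuclideanSpace ℝ (Fin n), ‖u‖ = 1 → RH (-u) * RK u = RK (-u) * RH u) →
    ∃ v : EuclideanSpace ℝ (Fin n), H = (fun x => x + v) '' K

/-- The data of an example. `p` is an odd invariant function, the domain is `{p > 0}`. -/
structure Ex (n : ℕ) where
  /-- symmetries -/
  Γ : Set (EE n ≃ₗᵢ[ℝ] EE n)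
  /-- support function of the middle body -/
  h : EE n → ℝ
  /-- odd invariant function -/
  p : EE n → ℝ
  h_smooth : ContDiffOn ℝ (⊤ : ℕ∞) h {0}ᶜ
  h_hom : Hom1 h
  h_inv : Inv Γ h
  h_pos : ∀ u, ‖u‖ = 1 → (radM h u).PosDef
  p_smooth : ContDiffOn ℝ (⊤ : ℕ∞) p {0}ᶜ
  p_hom : Hom1 p
  p_inv : Inv Γ p
  p_odd : ∀ x, p (-x) = -p x
  p_ne : ∃ x, 0 < p x
  p_super : ∀ u, ‖u‖ = 1 → 0 < p u → (hess p u).trace < 0
  zero : ∀ u, ‖u‖ = 1 → p u = 0 → ∃ g ∈ Γ, g u = -u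
  conn : ∃ C : Set (EE n), IsPreconnected C ∧ (∀ x ∈ C, 0 < p x) ∧
    ∀ x, 0 < p x → ∃ g ∈ Γ, ∃ t : ℝ, 0 < t ∧ t • g x ∈ C
  strata : ∃ (m : ℕ) (Z : ℕ → Set (EE n)) (R : ℕ → EE n → ℝ),
    (∀ u, ‖u‖ = 1 → p u = 0 → u ∈ Z 0) ∧ (∀ u, ‖u‖ = 1 → u ∉ Z m) ∧ (∀ j, IsClosed (Z j)) ∧
    (∀ j, ContDiffOn ℝ 2 (R j) {0}ᶜ ∧ Hom1 (R j) ∧ (∀ x, 0 ≤ R j x) ∧
      (∀ u ∈ Z j, ‖u‖ = 1 → R j u = 0) ∧
      ∀ u ∈ Z j, ‖u‖ = 1 → j < m → u ∉ Z (j + 1) → hess (R j) u ≠ 0)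
  nolin : ∀ v : EE n, (∀ g ∈ Γ, g v = v) → v = 0
  nosuper : ¬ ∃ w : EE n → ℝ, ContDiffOn ℝ 3 w {0}ᶜ ∧ Hom1 w ∧ Inv Γ w ∧ (∀ x, w (-x) = -w x) ∧
    (∀ x, 0 < p x → 0 < w x) ∧ ∀ u, ‖u‖ = 1 → 0 < p u → linOp h w u ≤ 0

end Pool.Agent.P.MP_4a4b50_gt
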