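import Pool.Agent.P.MP_4a4b50_gt.Comp

/-! The Laplacian on the sphere, polynomials and the spectral gap. -/

set_option autoImplicit false

noncomputable section

open Set Filter Topology Metric

namespace Pool.Agent.P.MP_4a4b50_gt

variable {n : ℕ}

/-- the Laplacian -/
def Lap : Module.End ℝ (Sm n) := ∑ l, T l * T l

theorem Lap_apply (f : Sm n) : Lap f = ∑ l, T l (T l f) := by simp [Lap, LinearMap.sum_apply]

/-- one minus the Laplacian -/
def Ep : Module.End ℝ (Sm n) := 1 - Lap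

theorem Ep_apply (f : Sm n) : Ep f = f - Lap f := rfl

theorem bd_Ep : Bd 2 (Ep : Module.End ℝ (Sm n)) :=
  (bd_one.mono (by norm_num)).sub (Bd.sum _ fun l => (bd_T l).mul (bd_T l) le_rfl)

theorem bd_Ep_pow (m : ℕ) : Bd (2 * m) (Ep ^ m : Module.End ℝ (Sm n)) := by
  induction m with
  | zero => exact bd_one
  | succ m ih =>
    rw [pow_succ]
    exact ih.mul bd_Ep (by omega)

theorem II_Lap (f g : Sm n) : II (f * Lap g) = -∑ l, II (T l f * T l g) := by
  rw [Lap_apply, Finset.mul_sum, map_sum, Finset.sum_congr rfl fun l _ => II_parts l f (T l g)]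
  rw [Finset.sum_add_distrib, ← Finset.mul_sum, ← map_sum, Finset.sum_neg_distrib]
  have : ∑ l, xh l * f * T l g = 0 := by
    have e : ∀ l, xh l * f * T l g = f * (xh l * T l g) := fun l => by ring
    simp only [e, ← Finset.mul_sum, euler_T, mul_zero]
  rw [this, map_zero, mul_zero, add_zero]

theorem II_Ep (f g : Sm n) : II (f * Ep g) = II (f * g) + ∑ l, II (T l f * T l g) := by
  rw [Ep_apply, mul_sub, map_sub, II_Lap, sub_neg_eq_add]

theorem II_Ep_symm (f g : Sm n) : II (f * Ep g) = II (Ep f * g) := by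
  rw [mul_comm (Ep f), II_Ep, II_Ep, mul_comm g f]
  simp only [mul_comm]

theorem II_Ep_pow_symm (m : ℕ) (f g : Sm n) : II (f * (Ep ^ m) g) = II ((Ep ^ m) f * g) := by
  induction m generalizing f with
  | zero => rfl
  | succ m ih =>
    rw [pow_succ', Module.End.mul_apply, II_Ep_symm, ih, ← Module.End.mul_apply, ← pow_succ,
      ← pow_succ']

theorem II_Ep_self (f : Sm n) : II (f * Ep f) = nrm 0 f ^ 2 + ∑ l, nrm 0 (T l f) ^ 2 := by
  simp only [II_Ep, nrm_sq]

theorem nrm_le_Ep (f : Sm n) : nrm 0 f ≤ nrm 0 (Ep f) := by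
  have h1 := (le_abs_self _).trans (II_le f (Ep f))
  rw [II_Ep_self] at h1
  have h2 : 0 ≤ ∑ l, nrm 0 (T l f) ^ 2 := Finset.sum_nonneg fun l _ => sq_nonneg _
  have := sq_le_imp (x := nrm 0 f) (y := nrm 0 (Ep f)) (C := 1) (nn _ _)
    (by rw [one_mul]; exact nn _ _) (by linarith)
  rwa [one_mul] at this

theorem sum_D (f : Sm n) : ∑ k, D k k f = (n : ℝ) • f - Ep f := by
  have e : ∀ k, D k k f = f - xh k * xh k * f + xh k * T k f + T k (T k f) := by
    intro k
    rw [D_apply, map_add, T_mul, T_xh, if_pos rfl]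
    ring
  simp only [e, Finset.sum_add_distrib, Finset.sum_sub_distrib, ← Finset.sum_mul, sum_xh_sq,
    euler_T, Finset.sum_const, Finset.card_univ, Fintype.card_fin]
  rw [Ep_apply, Lap_apply, Nat.cast_smul_eq_nsmul]
  ring

theorem Op_one (f : Sm n) : Op 1 f = (n : ℝ) • f - Ep f := by
  rw [← sum_D, Op_apply]
  refine Finset.sum_congr rfl fun i _ => ?_
  simp [Matrix.one_apply]

theorem ell_one : Ell (1 : Matrix (Fin n) (Fin n) (Sm n)) := by
  refine ⟨1, one_pos, fun u ξ => le_of_eq ?_⟩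
  rw [one_mul]
  refine Finset.sum_congr rfl fun i _ => ?_
  rw [Finset.sum_eq_single i]
  · simp [sq]
  · intro j _ hj
    simp [Matrix.one_apply_ne hj.symm]
  · simp

theorem apriori_Ep (k : ℕ) : ∃ C : ℝ, 0 ≤ C ∧ ∀ v : Sm n, nrm (k + 2) v ≤ C * nrm k (Ep v) := by
  have step : ∀ k, (∃ C : ℝ, 0 ≤ C ∧ ∀ v : Sm n, nrm k v ≤ C * nrm k (Ep v)) →
      ∃ C : ℝ, 0 ≤ C ∧ ∀ v : Sm n, nrm (k + 2) v ≤ C * nrm k (Ep v) := by
    rintro k ⟨C, hC, h⟩
    obtain ⟨C1, hC1, h1⟩ := apriori (ell_one (n := n)) k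
    refine ⟨C1 * ((n + 1) * C + 1), by positivity, fun v => (h1 v).trans ?_⟩
    rw [mul_assoc]
    apply mul_le_mul_of_nonneg_left _ hC1
    have h2 : nrm k (Op 1 v) ≤ n * nrm k v + nrm k (Ep v) := by
      rw [Op_one]
      refine (map_sub_le_add _ _ _).trans (le_of_eq ?_)
      rw [map_smul_eq_mul, Real.norm_natCast]
    have h3 := mul_le_mul_of_nonneg_left (h v) (show (0 : ℝ) ≤ n + 1 by positivity)
    have h4 := nrm_zero_le k v
    nlinarith
  induction k with
  | zero => exact step 0 ⟨1, zero_le_one, fun v => by rw [one_mul]; exact nrm_le_Ep v⟩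
  | succ k ih =>
    obtain ⟨C, hC, h⟩ := ih
    exact step (k + 1) ⟨C, hC, fun v => (nrm_le_succ _ _).trans ((h v).trans
      (mul_le_mul_of_nonneg_left (nrm_le_succ _ _) hC))⟩

theorem apriori_Ep_pow (m k : ℕ) :
    ∃ C : ℝ, 0 ≤ C ∧ ∀ v : Sm n, nrm (k + 2 * m) v ≤ C * nrm k ((Ep ^ m) v) := by
  induction m with
  | zero => exact ⟨1, zero_le_one, fun v => by rw [one_mul]; exact le_rfl⟩
  | succ m ih =>
    obtain ⟨C, hC, h⟩ := ih
    obtain ⟨C1, hC1, h1⟩ := apriori_Ep (n := n) (k + 2 * m)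
    refine ⟨C1 * C, by positivity, fun v => (h1 v).trans ?_⟩
    rw [mul_assoc, pow_succ]
    exact mul_le_mul_of_nonneg_left (h _) hC1

/-- polynomials of degree less than `N` -/
def VV (n : ℕ) : ℕ → Submodule ℝ (Sm n)
  | 0 => ⊥
  | N + 1 => Submodule.span ℝ {1} ⊔ ⨆ i, (VV n N).map (mu (xh i))

theorem one_mem_VV (N : ℕ) : (1 : Sm n) ∈ VV n (N + 1) :=
  Submodule.mem_sup_left (Submodule.mem_span_singleton_self _)

theorem xh_mul_mem {N : ℕ} (i : Fin n) {f : Sm n} (hf : f ∈ VV n N) : xh i * f ∈ VV n (N + 1) :=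
  Submodule.mem_sup_right (Submodule.mem_iSup_of_mem i (Submodule.mem_map_of_mem hf))

theorem VV_ind {N : ℕ} (P : Module.End ℝ (Sm n)) (U : Submodule ℝ (Sm n)) (h1 : P 1 ∈ U)
    (h2 : ∀ i, ∀ g ∈ VV n N, P (xh i * g) ∈ U) {f : Sm n} (hf : f ∈ VV n (N + 1)) : P f ∈ U := by
  have : VV n (N + 1) ≤ U.comap P := by
    refine sup_le ?_ (iSup_le fun i => ?_)
    · rw [Submodule.span_singleton_le_iff_mem]
      exact h1
    · rintro _ ⟨g, hg, rfl⟩
      exact h2 i g hg
  exact this hf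

theorem VV_succ {N : ℕ} {f : Sm n} (hf : f ∈ VV n N) : f ∈ VV n (N + 1) := by
  induction N generalizing f with
  | zero => rw [(Submodule.mem_bot ℝ).mp hf]; exact zero_mem _
  | succ N ih => exact VV_ind 1 _ (one_mem_VV _) (fun i g hg => xh_mul_mem i (ih hg)) hf

theorem VV_mono {N M : ℕ} (h : N ≤ M) : VV n N ≤ VV n M :=
  monotone_nat_of_le_succ (f := VV n) (fun _ _ hf => VV_succ hf) h

instance VV_fin (N : ℕ) : FiniteDimensional ℝ (VV n N) := by
  induction N with
  | zero => exact inferInstanceAs (FiniteDimensional ℝ (⊥ : Submodule ℝ (Sm n)))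
  | succ N ih =>
    exact inferInstanceAs (FiniteDimensional ℝ
      (Submodule.span ℝ {(1 : Sm n)} ⊔ ⨆ i, (VV n N).map (mu (xh i)) : Submodule ℝ (Sm n)))

theorem VV_mul {N M : ℕ} {f g : Sm n} (hf : f ∈ VV n N) (hg : g ∈ VV n M) :
    f * g ∈ VV n (N + M) := by
  induction N generalizing f with
  | zero => rw [(Submodule.mem_bot ℝ).mp hf, zero_mul]; exact zero_mem _
  | succ N ih =>
    refine VV_ind (LinearMap.mulRight ℝ g) _ ?_ (fun i f hf => ?_) hf
    · rw [LinearMap.mulRight_apply, one_mul]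
      exact VV_mono (by omega) hg
    · rw [LinearMap.mulRight_apply, mul_assoc, Nat.succ_add]
      exact xh_mul_mem i (ih hf)

theorem T_VV (N : ℕ) (i : Fin n) {f : Sm n} (hf : f ∈ VV n (N + 1)) :
    T i f + (N : ℝ) • (xh i * f) ∈ VV n (N + 1) := by
  induction N generalizing f with
  | zero =>
    refine VV_ind (T i + ((0 : ℕ) : ℝ) • mu (xh i)) _ ?_ (fun a g hg => ?_) hf
    · simp [T_one]
    · rw [(Submodule.mem_bot ℝ).mp hg, mul_zero, map_zero]
      exact zero_mem _
  | succ N ih =>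
    refine VV_ind (T i + ((N + 1 : ℕ) : ℝ) • mu (xh i)) _ ?_ (fun a g hg => ?_) hf
    · rw [LinearMap.add_apply, T_one, zero_add, LinearMap.smul_apply]
      exact Submodule.smul_mem _ _ (xh_mul_mem i (one_mem_VV N))
    · have e : (T i + ((N + 1 : ℕ) : ℝ) • mu (xh i)) (xh a * g)
          = (if a = i then g else 0) + xh a * (T i g + (N : ℝ) • (xh i * g)) := by
        rw [LinearMap.add_apply, LinearMap.smul_apply, LinearMap.mulLeft_apply, T_mul, T_xh]
        simp only [Algebra.smul_def, Nat.cast_succ, map_add, map_one]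
        split_ifs <;> ring
      rw [e]
      refine add_mem ?_ (xh_mul_mem a (ih hg))
      split_ifs
      · exact VV_succ hg
      · exact zero_mem _

theorem Lap_xh_mul (i : Fin n) (g : Sm n) :
    Lap (xh i * g) = xh i * Lap g - ((n : ℝ) - 1) • (xh i * g) + (2 : ℝ) • T i g := by
  have e : ∀ l, T l (T l (xh i * g)) = xh i * T l (T l g) + (if i = l then 2 * T i g - xh i * g
      else 0) + 2 * (xh i * g) * (xh l * xh l) - xh i * g - 2 * xh i * (xh l * T l g) := by
    intro l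
    have h0 : T l (if i = l then (1 : Sm n) else 0) = 0 := by
      split_ifs
      · exact T_one l
      · exact map_zero _
    simp only [T_mul, T_xh, map_add, map_sub, h0, if_true]
    split_ifs with h
    · rw [h]; ring
    · ring
  rw [Lap_apply, Lap_apply]
  simp only [e, Finset.sum_add_distrib, Finset.sum_sub_distrib, ← Finset.mul_sum, sum_xh_sq,
    euler_T, Finset.sum_ite_eq, Finset.mem_univ, if_true, Finset.sum_const, Finset.card_univ,
    Fintype.card_fin]
  rw [sub_smul, one_smul, Nat.cast_smul_eq_nsmul, two_smul]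
  simp only [nsmul_eq_mul]
  ring

theorem Lap_one : Lap (1 : Sm n) = 0 := by simp [Lap_apply, T_one]

theorem Lap_VV (N : ℕ) {f : Sm n} (hf : f ∈ VV n (N + 1)) :
    Lap f + ((N : ℝ) * (N + n - 2)) • f ∈ VV n N := by
  induction N generalizing f with
  | zero =>
    refine VV_ind (Lap + (((0 : ℕ) : ℝ) * ((0 : ℕ) + n - 2)) • 1) _ ?_ (fun a g hg => ?_) hf
    · simp [Lap_one]
    · rw [(Submodule.mem_bot ℝ).mp hg, mul_zero, map_zero]
      exact zero_mem _
  | succ N ih =>
    refine VV_ind (Lap + (((N + 1 : ℕ) : ℝ) * ((N + 1 : ℕ) + n - 2)) • 1) _ ?_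
      (fun a g hg => ?_) hf
    · rw [LinearMap.add_apply, Lap_one, zero_add, LinearMap.smul_apply]
      exact Submodule.smul_mem _ _ (one_mem_VV N)
    · have e : (Lap + (((N + 1 : ℕ) : ℝ) * ((N + 1 : ℕ) + n - 2)) • 1 : Module.End ℝ (Sm n))
          (xh a * g) = xh a * (Lap g + ((N : ℝ) * (N + n - 2)) • g)
            + (2 : ℝ) • (T a g + (N : ℝ) • (xh a * g)) := by
        rw [LinearMap.add_apply, LinearMap.smul_apply, Module.End.one_apply, Lap_xh_mul]
        simp only [Algebra.smul_def, Nat.cast_succ, map_add, map_one, map_mul, map_sub, map_ofNat]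
        ring
      rw [e]
      exact add_mem (xh_mul_mem a (ih hg)) (Submodule.smul_mem _ _ (T_VV N a hg))

theorem Ep_VV {N : ℕ} {f : Sm n} (hf : f ∈ VV n N) : Ep f ∈ VV n N := by
  cases N with
  | zero => rw [(Submodule.mem_bot ℝ).mp hf, map_zero]; exact zero_mem _
  | succ N =>
    have := sub_mem (VV_succ (Lap_VV N hf)) (Submodule.smul_mem _ ((N : ℝ) * (N + n - 2)) hf)
    rw [add_sub_cancel_right] at this
    exact sub_mem hf this

theorem eq_zero_of_nrm {f : Sm n} (h : nrm 0 f = 0) : f = 0 := by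
  rw [nrm_zero, norm_eq_zero] at h
  exact toS0.injective h

theorem surj_aux {V : Type*} [AddCommGroup V] [Module ℝ V] (W : Submodule ℝ V)
    [FiniteDimensional ℝ W] (P : V →ₗ[ℝ] V) (h : ∀ f ∈ W, P f ∈ W) (hi : ∀ f, P f = 0 → f = 0)
    {q : V} (hq : q ∈ W) : ∃ s ∈ W, P s = q := by
  have hinj : Function.Injective (P.restrict h) := by
    rw [injective_iff_map_eq_zero]
    intro f hf
    exact Subtype.ext (hi _ (congrArg Subtype.val hf))
  obtain ⟨s, hs⟩ := LinearMap.surjective_of_injective hinj ⟨q, hq⟩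
  exact ⟨s.1, s.2, congrArg Subtype.val hs⟩

theorem Ep_surj {N : ℕ} {q : Sm n} (hq : q ∈ VV n N) : ∃ s ∈ VV n N, Ep s = q := by
  refine surj_aux (VV n N) Ep (fun f hf => Ep_VV hf) (fun f h1 => ?_) hq
  have h2 := nrm_le_Ep f
  rw [h1, map_zero] at h2
  exact eq_zero_of_nrm (le_antisymm h2 (nn _ _))

theorem Ep_pow_VV (m : ℕ) {N : ℕ} {f : Sm n} (hf : f ∈ VV n N) : (Ep ^ m) f ∈ VV n N := by
  induction m with
  | zero => exact hf
  | succ m ih => rw [pow_succ']; exact Ep_VV ih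

theorem Ep_pow_surj (m : ℕ) {N : ℕ} {q : Sm n} (hq : q ∈ VV n N) :
    ∃ s ∈ VV n N, (Ep ^ m) s = q := by
  induction m with
  | zero => exact ⟨q, hq, rfl⟩
  | succ m ih =>
    obtain ⟨s, hs, e⟩ := ih
    obtain ⟨r, hr, e'⟩ := Ep_surj hs
    exact ⟨r, hr, by rw [pow_succ, Module.End.mul_apply, e', e]⟩

theorem exists_proj (N : ℕ) (v : Sm n) : ∃ a ∈ VV n N, ∀ q ∈ VV n N, II ((v - a) * q) = 0 := by
  let K : Submodule ℝ (S0 n) := (VV n N).map toS0.toLinearMap
  have : CompleteSpace K := FiniteDimensional.complete ℝ K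
  obtain ⟨a, ha, e⟩ := K.starProjection_apply_mem (toS0 v)
  refine ⟨a, ha, fun q hq => ?_⟩
  have := K.starProjection_inner_eq_zero (toS0 v) (toS0 q) ⟨q, hq, rfl⟩
  rw [← e] at this
  rw [← inner_S0, map_sub]
  exact this

theorem spectral (N : ℕ) {v : Sm n} (hv : v ∈ VV n N) (ho : ∀ q ∈ VV n 2, II (v * q) = 0) :
    (2 * n + 1) * II (v * v) ≤ II (v * Ep v) := by
  induction N generalizing v with
  | zero => rw [(Submodule.mem_bot ℝ).mp hv]; simp
  | succ N ih =>
    rcases lt_or_ge N 2 with hN | hN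
    · rw [ho v (VV_mono (by omega) hv), mul_zero, II_Ep_self]
      positivity
    · obtain ⟨a, ha, hb⟩ := exists_proj N v
      obtain ⟨b, rfl⟩ : ∃ b, v = a + b := ⟨v - a, by abel⟩
      rw [add_sub_cancel_left] at hb
      have hbm : b ∈ VV n (N + 1) := by
        have := sub_mem hv (VV_succ ha)
        rwa [add_sub_cancel_left] at this
      have h1 := ih ha fun q hq => by
        have := ho q hq
        rwa [add_mul, map_add, hb q (VV_mono hN hq), add_zero] at this
      have h2 := hb _ (Lap_VV N hbm)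
      rw [mul_add, map_add, mul_smul_comm, map_smul, smul_eq_mul] at h2
      have h3 : II (b * Ep b) = II (b * b) - II (b * Lap b) := by rw [Ep_apply, mul_sub, map_sub]
      have h4 : II (a * Ep b) = 0 := by rw [II_Ep_symm, mul_comm, hb _ (Ep_VV ha)]
      have h5 : II (b * Ep a) = 0 := hb _ (Ep_VV ha)
      have h6 : II (a * b) = 0 := by rw [mul_comm, hb a ha]
      have h7 : 0 ≤ II (b * b) := by rw [← nrm_sq]; positivity
      have h8 : (2 : ℝ) * n ≤ N * (N + n - 2) := by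
        have : (2 : ℝ) ≤ N := by exact_mod_cast hN
        have h : (0 : ℝ) ≤ n := by positivity
        nlinarith
      simp only [map_add, add_mul, mul_add, h3, h4, h5, h6, hb a ha]
      nlinarith

/-- the algebra of polynomial functions -/
def polyA (n : ℕ) : Subalgebra ℝ C(Sph n, ℝ) where
  carrier := {F | ∃ N, ∃ q ∈ VV n N, ∀ u, F u = q.1 u}
  mul_mem' := by
    rintro F G ⟨N, q, hq, e⟩ ⟨M, r, hr, e'⟩
    exact ⟨N + M, q * r, VV_mul hq hr, fun u => by rw [ContinuousMap.mul_apply, e, e']; rfl⟩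
  add_mem' := by
    rintro F G ⟨N, q, hq, e⟩ ⟨M, r, hr, e'⟩
    exact ⟨N + M, q + r, add_mem (VV_mono (by omega) hq) (VV_mono (by omega) hr),
      fun u => by rw [ContinuousMap.add_apply, e, e']; rfl⟩
  algebraMap_mem' := fun c => ⟨1, c • 1, Submodule.smul_mem _ _ (one_mem_VV 0), fun u => by simp⟩

theorem poly_dense (f : Sm n) {ε : ℝ} (hε : 0 < ε) : ∃ N, ∃ q ∈ VV n N, nrm 0 (q - f) < ε := by
  have hsep : (polyA n).SeparatesPoints := by
    intro u v huv
    have : ∃ i, (u : EE n) i ≠ (v : EE n) i := by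
      by_contra h
      push Not at h
      exact huv (Subtype.ext (PiLp.ext h))
    obtain ⟨i, hi⟩ := this
    refine ⟨_, ⟨⟨xf i, (cm_xf 0 i).continuous⟩, ⟨2, xh i * 1, xh_mul_mem i (one_mem_VV 0),
      fun u => by rw [mul_one]; rfl⟩, rfl⟩, hi⟩
  have h1 := nn 0 (1 : Sm n)
  obtain ⟨⟨_, N, q, hq, e⟩, hg⟩ := ContinuousMap.exists_mem_subalgebra_near_continuous_of_separatesPoints
    (polyA n) hsep f.1 (Sm.cm f).continuous (ε / (nrm 0 (1 : Sm n) + 1)) (by positivity)
  refine ⟨N, q, hq, ?_⟩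
  have h2 := nrm_zero_mul (a := q - f) (M := ε / (nrm 0 (1 : Sm n) + 1)) (fun u => by
    have := (hg u).le
    rw [Real.norm_eq_abs] at this
    change |q.1 u - f.1 u| ≤ _
    rw [← e u]
    exact this) (by positivity) 1
  rw [mul_one] at h2
  refine h2.trans_lt ?_
  rw [div_mul_eq_mul_div, div_lt_iff₀ (by positivity)]
  nlinarith

end Pool.Agent.P.MP_4a4b50_gt
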