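import Pool.Agent.P.MP_4a4b50_gt.SInt

/-! Rotation fields, Sobolev inner products and norms on the sphere. -/

set_option autoImplicit false

namespace Pool.Agent.P.MP_4a4b50_gt.CE

open scoped ContDiff Topology
open Pool.Agent.P.MP_f97e06_gt
open Finset

variable {n : ℕ}

/-- the rotation field as an endomorphism -/
noncomputable def LE (α : Fin n × Fin n) : Module.End ℝ (Sm n) := (Lv α).toLinearMap

theorem LE_apply (α : Fin n × Fin n) (u : Sm n) : LE α u = Lv α u := rfl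

theorem LE_swap (i j : Fin n) : LE (j, i) = -LE (i, j) := by
  ext u
  simp [LE_apply, Lv_apply]

theorem LE_comm (i j k l : Fin n) : LE (i, j) * LE (k, l) - LE (k, l) * LE (i, j) =
    (if j = k then LE (i, l) else 0) + (if j = l then LE (k, i) else 0)
      + (if i = k then LE (l, j) else 0) + (if i = l then LE (j, k) else 0) := by
  ext u
  have hi : ∀ (a b : Fin n) (β : Fin n × Fin n), (if a = b then LE β else 0) u =
      (if a = b then 1 else 0) * Lv β u := fun a b β => by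
    split_ifs
    · rw [one_mul]; rfl
    · rw [zero_mul]; rfl
  have hs : ∀ a b : Fin n, (if a = b then (1 : Sm n) else 0) = if b = a then 1 else 0 :=
    fun a b => by simp only [eq_comm]
  simp only [LinearMap.sub_apply, Module.End.mul_apply, LE_apply, Lv_apply, map_sub, der_mul,
    D_crd, LinearMap.add_apply, hi]
  rw [D_comm l j u, D_comm k j u, D_comm l i u, D_comm k i u, hs k j, hs l j, hs k i, hs l i]
  ring

theorem casimir {R : Type*} [Ring R] (L : Fin n × Fin n → R) (hs : ∀ i j, L (j, i) = -L (i, j))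
    (hc : ∀ i j k l, L (i, j) * L (k, l) - L (k, l) * L (i, j) =
      (if j = k then L (i, l) else 0) + (if j = l then L (k, i) else 0)
      + (if i = k then L (l, j) else 0) + (if i = l then L (j, k) else 0)) (α : Fin n × Fin n) :
    L α * (1 - ∑ β, L β * L β) = (1 - ∑ β, L β * L β) * L α := by
  obtain ⟨i, j⟩ := α
  have h : ∀ β : Fin n × Fin n, L (i, j) * (L β * L β) - L β * L β * L (i, j) =
      (L (i, j) * L β - L β * L (i, j)) * L β + L β * (L (i, j) * L β - L β * L (i, j)) :=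
    fun β => by noncomm_ring
  have key : ∑ β : Fin n × Fin n, (L (i, j) * (L β * L β) - L β * L β * L (i, j)) = 0 := by
    simp only [h]
    rw [Fintype.sum_prod_type]
    simp only [hc, add_mul, mul_add, ite_mul, mul_ite, zero_mul, mul_zero, sum_add_distrib,
      sum_ite_eq, mem_univ, if_true]
    rw [sum_comm (f := fun k l => if j = k then L (i, l) * L (k, l) else 0),
      sum_comm (f := fun k l => if i = k then L (l, j) * L (k, l) else 0),
      sum_comm (f := fun k l => if j = k then L (k, l) * L (i, l) else 0),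
      sum_comm (f := fun k l => if i = k then L (k, l) * L (l, j) else 0)]
    simp only [sum_ite_eq, mem_univ, if_true, ← sum_add_distrib]
    refine sum_eq_zero fun m _ => ?_
    rw [hs i m, hs j m]
    noncomm_ring
  rw [mul_sub, sub_mul, mul_sum, sum_mul, mul_one, one_mul, sub_right_inj, ← sub_eq_zero,
    ← sum_sub_distrib]
  exact key

/-- one minus twice the spherical Laplacian -/
noncomputable def Lam : Module.End ℝ (Sm n) := 1 - ∑ α, LE α * LE α

theorem Lam_apply (u : Sm n) : Lam u = u - ∑ α, Lv α (Lv α u) := by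
  simp [Lam, LE_apply]

theorem LE_Lam (α : Fin n × Fin n) : LE α * Lam = Lam * LE α :=
  casimir (R := Module.End ℝ (Sm n)) LE LE_swap LE_comm α

theorem Lv_Lam_pow (α : Fin n × Fin n) (s : ℕ) (u : Sm n) :
    Lv α ((Lam ^ s) u) = (Lam ^ s) (Lv α u) := by
  have : LE α * Lam ^ s = Lam ^ s * LE α := (Commute.pow_right (LE_Lam α) s)
  exact congrArg (fun P : Module.End ℝ (Sm n) => P u) this

theorem I_Lv_mul (α : Fin n × Fin n) (u v : Sm n) : I (Lv α u * v) = -I (u * Lv α v) := by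
  have := I_Lv α (u * v)
  rw [der_mul, map_add] at this
  linarith

theorem I_mul_Lam (u v : Sm n) : I (u * Lam v) = I (u * v) + ∑ α, I (Lv α u * Lv α v) := by
  rw [Lam_apply, mul_sub, mul_sum, map_sub, map_sum]
  simp only [I_Lv_mul, sum_neg_distrib]
  ring

theorem I_Lam_mul (u v : Sm n) : I (Lam u * v) = I (u * Lam v) := by
  rw [mul_comm, I_mul_Lam, I_mul_Lam, mul_comm]
  simp only [mul_comm]

/-- the Sobolev inner product of order `s` -/
noncomputable def ip (s : ℕ) (u v : Sm n) : ℝ := I (u * (Lam ^ s) v)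

theorem ip_zero (u v : Sm n) : ip 0 u v = I (u * v) := rfl

theorem ip_succ_right (s : ℕ) (u v : Sm n) : ip (s + 1) u v = ip s u (Lam v) := by
  rw [ip, ip, pow_succ]; rfl

theorem ip_succ_left (s : ℕ) (u v : Sm n) : ip (s + 1) u v = ip s (Lam u) v := by
  rw [ip, ip, pow_succ', I_Lam_mul]; rfl

theorem ip_comm (s : ℕ) (u v : Sm n) : ip s u v = ip s v u := by
  induction s generalizing u v with
  | zero => rw [ip_zero, ip_zero, mul_comm]
  | succ s ih => rw [ip_succ_right, ip_succ_left, ih]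

theorem ip_succ (s : ℕ) (u v : Sm n) :
    ip (s + 1) u v = ip s u v + ∑ α, ip s (Lv α u) (Lv α v) := by
  simp only [ip, pow_succ', Module.End.mul_apply, I_mul_Lam, Lv_Lam_pow]

theorem ip_add_left (s : ℕ) (u v w : Sm n) : ip s (u + v) w = ip s u w + ip s v w := by
  rw [ip, add_mul, map_add]; rfl

theorem ip_smul_left (s : ℕ) (c : ℝ) (u w : Sm n) : ip s (c • u) w = c * ip s u w := by
  rw [ip, smul_mul_assoc, map_smul]; rfl

theorem evl_smul (y : Eu n) (c : ℝ) (u : Sm n) : evl y (c • u) = c * evl y u := rfl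

theorem I_nonneg {u : Sm n} (h : ∀ x : Sph n, 0 ≤ evl x.1 u) : 0 ≤ I u := J_nonneg h

theorem I_mono {u v : Sm n} (h : ∀ x : Sph n, evl x.1 u ≤ evl x.1 v) : I u ≤ I v := J_mono h

theorem I_congr {u v : Sm n} (h : res u = res v) : I u = I v := by rw [I_apply, I_apply, h]

theorem ip_nonneg (s : ℕ) (u : Sm n) : 0 ≤ ip s u u := by
  induction s generalizing u with
  | zero => exact I_nonneg fun x => by rw [map_mul]; exact mul_self_nonneg _
  | succ s ih => rw [ip_succ]; exact add_nonneg (ih _) (sum_nonneg fun α _ => ih _)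

/-- smooth functions with the Sobolev seminorm of order `s` -/
def Hs (n : ℕ) (_s : ℕ) : Type := Sm n

noncomputable instance (s : ℕ) : AddCommGroup (Hs n s) := inferInstanceAs (AddCommGroup (Sm n))
noncomputable instance (s : ℕ) : Module ℝ (Hs n s) := inferInstanceAs (Module ℝ (Sm n))

/-- the inner product data -/
@[reducible] noncomputable def core (n s : ℕ) : PreInnerProductSpace.Core ℝ (Hs n s) where
  inner u v := ip (n := n) s u v
  conj_inner_symm _ _ := ip_comm s _ _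
  re_inner_nonneg _ := ip_nonneg s _
  add_left _ _ _ := ip_add_left s _ _ _
  smul_left _ _ _ := ip_smul_left s _ _ _

noncomputable instance (s : ℕ) : SeminormedAddCommGroup (Hs n s) :=
  @InnerProductSpace.Core.toSeminormedAddCommGroup ℝ (Hs n s) _ _ _ (core n s)

noncomputable instance (s : ℕ) : InnerProductSpace ℝ (Hs n s) := InnerProductSpace.ofCore (core n s)

/-- the identity map -/
noncomputable def toHs (s : ℕ) : Sm n ≃ₗ[ℝ] Hs n s := LinearEquiv.refl ℝ (Sm n)

theorem inner_toHs (s : ℕ) (u v : Sm n) : inner ℝ (toHs s u) (toHs s v) = ip s u v := rfl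

/-- the Sobolev seminorm -/
noncomputable def nrm (s : ℕ) (u : Sm n) : ℝ := ‖toHs s u‖

theorem norm_toHs (s : ℕ) (u : Sm n) : ‖toHs s u‖ = nrm s u := rfl

theorem nrm_nonneg (s : ℕ) (u : Sm n) : 0 ≤ nrm s u := norm_nonneg _

theorem nrm_sq (s : ℕ) (u : Sm n) : nrm s u ^ 2 = ip s u u := by
  rw [nrm, ← real_inner_self_eq_norm_sq]; rfl

theorem nrm_add_le (s : ℕ) (u v : Sm n) : nrm s (u + v) ≤ nrm s u + nrm s v := by
  rw [nrm, map_add]; exact norm_add_le _ _

theorem nrm_sub_le (s : ℕ) (u v : Sm n) : nrm s (u - v) ≤ nrm s u + nrm s v := by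
  rw [nrm, map_sub]; exact norm_sub_le _ _

theorem nrm_smul (s : ℕ) (c : ℝ) (u : Sm n) : nrm s (c • u) = |c| * nrm s u := by
  rw [nrm, map_smul, norm_smul]; rfl

theorem nrm_neg (s : ℕ) (u : Sm n) : nrm s (-u) = nrm s u := by
  rw [nrm, map_neg, norm_neg]; rfl

theorem nrm_zero (s : ℕ) : nrm s (0 : Sm n) = 0 := by rw [nrm, map_zero, norm_zero]

theorem nrm_sum_le {ι : Type*} (s : ℕ) (t : Finset ι) (u : ι → Sm n) :
    nrm s (∑ i ∈ t, u i) ≤ ∑ i ∈ t, nrm s (u i) := by
  rw [nrm, map_sum]; exact norm_sum_le _ _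

theorem abs_ip_le (s : ℕ) (u v : Sm n) : |ip s u v| ≤ nrm s u * nrm s v :=
  abs_real_inner_le_norm (toHs s u) (toHs s v)

theorem nrm_succ_sq (s : ℕ) (u : Sm n) :
    nrm (s + 1) u ^ 2 = nrm s u ^ 2 + ∑ α, nrm s (Lv α u) ^ 2 := by
  simp only [nrm_sq, ip_succ]

theorem nrm_le_succ (s : ℕ) (u : Sm n) : nrm s u ≤ nrm (s + 1) u := by
  refine (sq_le_sq₀ (nrm_nonneg _ _) (nrm_nonneg _ _)).1 ?_
  rw [nrm_succ_sq]
  exact le_add_of_nonneg_right (sum_nonneg fun _ _ => sq_nonneg _)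

theorem nrm_mono {s t : ℕ} (h : s ≤ t) (u : Sm n) : nrm s u ≤ nrm t u :=
  monotone_nat_of_le_succ (f := fun s => nrm s u) (fun s => nrm_le_succ s u) h

theorem nrm_Lv_le (s : ℕ) (α : Fin n × Fin n) (u : Sm n) : nrm s (Lv α u) ≤ nrm (s + 1) u := by
  refine (sq_le_sq₀ (nrm_nonneg _ _) (nrm_nonneg _ _)).1 ?_
  rw [nrm_succ_sq]
  exact le_add_of_nonneg_of_le (sq_nonneg _)
    (single_le_sum (f := fun α => nrm s (Lv α u) ^ 2) (fun _ _ => sq_nonneg _) (mem_univ α))

theorem nrm_succ_le (s : ℕ) (u : Sm n) : nrm (s + 1) u ≤ nrm s u + ∑ α, nrm s (Lv α u) := by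
  have h0 : 0 ≤ ∑ α, nrm s (Lv α u) := sum_nonneg fun _ _ => nrm_nonneg _ _
  refine (sq_le_sq₀ (nrm_nonneg _ _) (add_nonneg (nrm_nonneg _ _) h0)).1 ?_
  rw [nrm_succ_sq]
  have h1 := sum_sq_le_sq_sum_of_nonneg (s := univ) (f := fun α => nrm s (Lv α u))
    fun _ _ => nrm_nonneg _ _
  nlinarith [nrm_nonneg s u]

theorem res_eq_zero_of_nrm {s : ℕ} {u : Sm n} (h : nrm s u = 0) : res u = 0 := by
  have h0 : nrm 0 u = 0 := le_antisymm (h ▸ nrm_mono (Nat.zero_le s) u) (nrm_nonneg _ _)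
  have h1 : J (res u * res u) = 0 := by
    rw [← map_mul, ← I_apply, ← ip_zero, ← nrm_sq, h0]; simp
  have h2 := eq_zero_of_J (fun x => mul_self_nonneg (res u x)) h1
  ext x
  exact mul_self_eq_zero.1 (congrArg (fun g : C(Sph n, ℝ) => g x) h2)

theorem ip_congr_left (s : ℕ) {u v : Sm n} (h : res u = res v) (w : Sm n) :
    ip s u w = ip s v w := I_congr (by rw [map_mul, map_mul, h])

theorem ip_congr_right (s : ℕ) {u v : Sm n} (h : res u = res v) (w : Sm n) :
    ip s w u = ip s w v := by rw [ip_comm, ip_congr_left s h, ip_comm]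

theorem nrm_congr (s : ℕ) {u v : Sm n} (h : res u = res v) : nrm s u = nrm s v := by
  refine (sq_eq_sq₀ (nrm_nonneg _ _) (nrm_nonneg _ _)).1 ?_
  rw [nrm_sq, nrm_sq, ip_congr_left s h, ip_congr_right s h]

/-- operators of order at most `m` -/
structure Ord (m : ℕ) (P : Module.End ℝ (Sm n)) : Prop where
  bd : ∀ r, ∃ C : ℝ, 0 ≤ C ∧ ∀ u, nrm r (P u) ≤ C * nrm (r + m) u

theorem Ord.res_congr {m : ℕ} {P : Module.End ℝ (Sm n)} (hP : Ord m P) {u v : Sm n}
    (h : res u = res v) : res (P u) = res (P v) := by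
  obtain ⟨C, -, hC⟩ := hP.bd 0
  have h1 := hC (u - v)
  rw [nrm_congr _ (v := 0) (u := u - v) (by rw [map_sub, h, sub_self, map_zero]), nrm_zero,
    mul_zero] at h1
  have h2 := res_eq_zero_of_nrm (le_antisymm h1 (nrm_nonneg _ _))
  rwa [map_sub, map_sub, sub_eq_zero] at h2

theorem Ord.mono {m m' : ℕ} {P : Module.End ℝ (Sm n)} (hP : Ord m P) (h : m ≤ m') : Ord m' P := by
  refine ⟨fun r => ?_⟩
  obtain ⟨C, hC0, hC⟩ := hP.bd r
  exact ⟨C, hC0, fun u => (hC u).trans (mul_le_mul_of_nonneg_left (nrm_mono (by omega) u) hC0)⟩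

theorem Ord.zero (m : ℕ) : Ord m (0 : Module.End ℝ (Sm n)) := ⟨fun r =>
  ⟨0, le_rfl, fun u => by simp [nrm_zero]⟩⟩

theorem Ord.one : Ord 0 (1 : Module.End ℝ (Sm n)) :=
  ⟨fun r => ⟨1, zero_le_one, fun u => by simp⟩⟩

theorem Ord.add {m : ℕ} {P Q : Module.End ℝ (Sm n)} (hP : Ord m P) (hQ : Ord m Q) :
    Ord m (P + Q) := by
  refine ⟨fun r => ?_⟩
  obtain ⟨C, hC0, hC⟩ := hP.bd r
  obtain ⟨C', hC0', hC'⟩ := hQ.bd r
  refine ⟨C + C', add_nonneg hC0 hC0', fun u => (nrm_add_le _ _ _).trans ?_⟩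
  rw [add_mul]; exact add_le_add (hC u) (hC' u)

theorem Ord.neg {m : ℕ} {P : Module.End ℝ (Sm n)} (hP : Ord m P) : Ord m (-P) := by
  refine ⟨fun r => ?_⟩
  obtain ⟨C, hC0, hC⟩ := hP.bd r
  exact ⟨C, hC0, fun u => by rw [LinearMap.neg_apply, nrm_neg]; exact hC u⟩

theorem Ord.sub {m : ℕ} {P Q : Module.End ℝ (Sm n)} (hP : Ord m P) (hQ : Ord m Q) :
    Ord m (P - Q) := by
  rw [sub_eq_add_neg]; exact hP.add hQ.neg

theorem Ord.sum {ι : Type*} {m : ℕ} (t : Finset ι) {P : ι → Module.End ℝ (Sm n)}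
    (hP : ∀ i ∈ t, Ord m (P i)) : Ord m (∑ i ∈ t, P i) :=
  Finset.sum_induction P (Ord m) (fun _ _ => Ord.add) (Ord.zero m) hP

theorem Ord.mul {m m' : ℕ} {P Q : Module.End ℝ (Sm n)} (hP : Ord m P) (hQ : Ord m' Q) :
    Ord (m + m') (P * Q) := by
  refine ⟨fun r => ?_⟩
  obtain ⟨C, hC0, hC⟩ := hP.bd r
  obtain ⟨C', hC0', hC'⟩ := hQ.bd (r + m)
  refine ⟨C * C', mul_nonneg hC0 hC0', fun u => (hC _).trans ?_⟩
  rw [mul_assoc, ← add_assoc]
  exact mul_le_mul_of_nonneg_left (hC' u) hC0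

theorem ord_LE (α : Fin n × Fin n) : Ord 1 (LE α) := ⟨fun r =>
  ⟨1, zero_le_one, fun u => by rw [one_mul]; exact nrm_Lv_le r α u⟩⟩

theorem ord_Lam : Ord 2 (Lam : Module.End ℝ (Sm n)) := by
  rw [Lam]
  exact (Ord.one.mono (by norm_num)).sub (Ord.sum _ fun α _ => (ord_LE α).mul (ord_LE α))

/-- multiplication operator -/
noncomputable def mL (a : Sm n) : Module.End ℝ (Sm n) := LinearMap.mulLeft ℝ a

theorem mL_apply (a u : Sm n) : mL a u = a * u := rfl

theorem abs_evl_le (a : Sm n) (x : Sph n) : |evl x.1 a| ≤ ‖res a‖ := by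
  have := (res a).norm_coe_le_norm x
  rwa [Real.norm_eq_abs, res_apply] at this

theorem nrm_zero_mul_le (a u : Sm n) : nrm 0 (a * u) ≤ ‖res a‖ * nrm 0 u := by
  refine (sq_le_sq₀ (nrm_nonneg _ _) (mul_nonneg (norm_nonneg _) (nrm_nonneg _ _))).1 ?_
  have h1 := abs_evl_le a
  generalize ‖res a‖ = M at h1
  rw [mul_pow, nrm_sq, nrm_sq, ← ip_smul_left, ip_zero, ip_zero]
  refine I_mono fun x => ?_
  have h2 : evl x.1 a ^ 2 ≤ M ^ 2 := by
    rw [← sq_abs]; exact pow_le_pow_left₀ (abs_nonneg _) (h1 x) 2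
  simp only [map_mul, evl_smul]
  generalize evl x.1 a = p at h2
  generalize evl x.1 u = q
  nlinarith [mul_self_nonneg q]

theorem ord_mL (a : Sm n) : Ord 0 (mL a) := by
  refine ⟨fun r => ?_⟩
  induction r generalizing a with
  | zero => exact ⟨‖res a‖, norm_nonneg _, fun u => nrm_zero_mul_le a u⟩
  | succ r ih =>
    obtain ⟨C, hC0, hC⟩ := ih a
    choose C' hC0' hC' using fun α => ih (Lv α a)
    refine ⟨C + ∑ α, (C' α + C), add_nonneg hC0 (sum_nonneg fun α _ => add_nonneg (hC0' α) hC0),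
      fun u => (nrm_succ_le _ _).trans ?_⟩
    rw [add_mul, sum_mul]
    have h1 := nrm_le_succ r u
    refine add_le_add ((hC u).trans (mul_le_mul_of_nonneg_left h1 hC0)) (sum_le_sum fun α _ => ?_)
    rw [mL_apply, der_mul, add_mul]
    refine (nrm_add_le _ _ _).trans (add_le_add ?_ ?_)
    · exact (hC' α u).trans (mul_le_mul_of_nonneg_left h1 (hC0' α))
    · exact (hC _).trans (mul_le_mul_of_nonneg_left (nrm_Lv_le r α u) hC0)

theorem ip_def (s : ℕ) (u v : Sm n) : ip s u v = I (u * (Lam ^ s) v) := rfl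

theorem Lam_def : (Lam : Module.End ℝ (Sm n)) = 1 - ∑ α, LE α * LE α := rfl

theorem ip_add_right (s : ℕ) (u v w : Sm n) : ip s w (u + v) = ip s w u + ip s w v := by
  rw [ip_comm, ip_add_left, ip_comm s u, ip_comm s v]

theorem ip_smul_right (s : ℕ) (c : ℝ) (u w : Sm n) : ip s w (c • u) = c * ip s w u := by
  rw [ip_comm, ip_smul_left, ip_comm]

theorem ip_sub_left (s : ℕ) (u v w : Sm n) : ip s (u - v) w = ip s u w - ip s v w := by
  rw [ip, sub_mul, map_sub]; rfl

theorem ip_neg_left (s : ℕ) (u w : Sm n) : ip s (-u) w = -ip s u w := by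
  rw [ip, neg_mul, map_neg]; rfl

theorem ip_sub_right (s : ℕ) (u v w : Sm n) : ip s w (u - v) = ip s w u - ip s w v := by
  rw [ip_comm, ip_sub_left, ip_comm s u, ip_comm s v]

attribute [irreducible] nrm ip Lam

/-- tangential derivative -/
noncomputable def TT (k : Fin n) : Module.End ℝ (Sm n) := ∑ l, mL (crd l) * LE (l, k)

/-- Hessian of the one-homogeneous extension -/
noncomputable def HE (k j : Fin n) : Module.End ℝ (Sm n) := TT k * (TT j + mL (crd j))

theorem TT_apply (k : Fin n) (u : Sm n) : TT k u = ∑ l, crd l * Lv (l, k) u := by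
  simp only [TT, LinearMap.sum_apply, Module.End.mul_apply, mL_apply, LE_apply]

theorem HE_apply (k j : Fin n) (u : Sm n) : HE k j u = TT k (TT j u + crd j * u) := rfl

theorem ord_TT (k : Fin n) : Ord 1 (TT k) := by
  rw [TT]
  exact Ord.sum _ fun l _ => (ord_mL (crd l)).mul (ord_LE (l, k))

theorem ord_HE (k j : Fin n) : Ord 2 (HE k j) := by
  rw [HE]
  exact (ord_TT k).mul ((ord_TT j).add ((ord_mL _).mono (by norm_num)))

/-- the eigenvalues of `Lam` -/
noncomputable def lam (n m : ℕ) : ℝ := 1 + 2 * (m : ℝ) * ((m : ℝ) + n - 2)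

/-- monomials -/
noncomputable def mono (a : Fin n → ℕ) : Sm n := ∏ i, crd i ^ a i

/-- polynomials of degree at most `m` -/
noncomputable def PP (n m : ℕ) : Submodule ℝ (Sm n) :=
  Submodule.span ℝ {u | ∃ a : Fin n → ℕ, ∑ i, a i ≤ m ∧ u = mono a}

end Pool.Agent.P.MP_4a4b50_gt.CE
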