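import Pool.Agent.P.MP_4a4b50_gt.CDefs

/-! Integration on the sphere. -/

set_option autoImplicit false

namespace Pool.Agent.P.MP_4a4b50_gt.CE

open scoped ContDiff Topology Pointwise
open Pool.Agent.P.MP_f97e06_gt
open MeasureTheory Set Filter

variable {n : ℕ}

/-- restriction of a smooth function to the sphere -/
noncomputable def res : Sm n →ₐ[ℝ] C(Sph n, ℝ) where
  toFun u := ⟨fun x => evl x.1 u, (evl_cont u).comp continuous_subtype_val⟩
  map_one' := rfl
  map_mul' _ _ := rfl
  map_zero' := rfl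
  map_add' _ _ := rfl
  commutes' _ := rfl

theorem res_apply (u : Sm n) (x : Sph n) : res u x = evl x.1 u := rfl

/-- the surface measure -/
noncomputable abbrev sig (n : ℕ) : Measure (Sph n) := (volume : Measure (Eu n)).toSphere

theorem integrable_sig (g : C(Sph n, ℝ)) : Integrable (fun x => g x) (sig n) :=
  g.continuous.integrable_of_hasCompactSupport (HasCompactSupport.of_compactSpace _)

/-- the integral over the sphere -/
noncomputable def J : C(Sph n, ℝ) →L[ℝ] ℝ :=
  LinearMap.mkContinuous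
    { toFun := fun g => ∫ x, g x ∂(sig n)
      map_add' := fun g h => integral_add (integrable_sig g) (integrable_sig h)
      map_smul' := fun c g => integral_const_mul c _ }
    ((sig n).real univ) (fun g => by
      have := norm_integral_le_of_norm_le_const (μ := sig n) (f := fun x => g x) (C := ‖g‖)
        (Eventually.of_forall fun x => g.norm_coe_le_norm x)
      rw [mul_comm] at this
      exact this)

theorem J_apply (g : C(Sph n, ℝ)) : J g = ∫ x, g x ∂(sig n) := rfl

theorem J_mono {g h : C(Sph n, ℝ)} (hgh : ∀ x, g x ≤ h x) : J g ≤ J h :=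
  integral_mono (integrable_sig g) (integrable_sig h) hgh

theorem J_nonneg {g : C(Sph n, ℝ)} (hg : ∀ x, 0 ≤ g x) : 0 ≤ J g := integral_nonneg hg

theorem eq_zero_of_J {g : C(Sph n, ℝ)} (hg : ∀ x, 0 ≤ g x) (h : J g = 0) : g = 0 := by
  have h1 := (integral_eq_zero_iff_of_nonneg hg (integrable_sig g)).1 h
  have h2 := (Continuous.ae_eq_iff_eq (sig n) g.continuous continuous_const).1 h1
  ext x
  exact congrFun h2 x

/-- an isometry as a self-map of the sphere -/
noncomputable def sphMap (g : Eu n ≃ₗᵢ[ℝ] Eu n) : C(Sph n, Sph n) :=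
  ⟨fun x => ⟨g x.1, by simp⟩, by fun_prop⟩

theorem sphMap_coe (g : Eu n ≃ₗᵢ[ℝ] Eu n) (x : Sph n) : (sphMap g x).1 = g x.1 := rfl

theorem measurePreserving_sphMap (g : Eu n ≃ₗᵢ[ℝ] Eu n) :
    MeasurePreserving (sphMap g) (sig n) (sig n) := by
  refine ⟨(sphMap g).continuous.measurable, ?_⟩
  ext s hs
  rw [Measure.map_apply (sphMap g).continuous.measurable hs,
    Measure.toSphere_apply' _ ((sphMap g).continuous.measurable hs), Measure.toSphere_apply' _ hs]
  congr 1
  have key : (Ioo (0 : ℝ) 1 • ((↑) '' (sphMap g ⁻¹' s) : Set (Eu n))) =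
      g ⁻¹' (Ioo (0 : ℝ) 1 • ((↑) '' s : Set (Eu n))) := by
    ext z
    simp only [Set.mem_smul, mem_preimage, mem_image]
    constructor
    · rintro ⟨t, ht, _, ⟨y, hy, rfl⟩, rfl⟩
      exact ⟨t, ht, _, ⟨_, hy, rfl⟩, by rw [map_smul]; rfl⟩
    · rintro ⟨t, ht, _, ⟨y, hy, rfl⟩, h⟩
      refine ⟨t, ht, _, ⟨sphMap g.symm y, ?_, rfl⟩, ?_⟩
      · have : sphMap g (sphMap g.symm y) = y := Subtype.ext (g.apply_symm_apply _)
        rwa [this]
      · apply g.injective
        rw [← h, map_smul, sphMap_coe, g.apply_symm_apply]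
  rw [key]
  exact MeasurePreserving.measure_preimage_equiv (f := g.toMeasurableEquiv) g.measurePreserving _

theorem J_comp (g : Eu n ≃ₗᵢ[ℝ] Eu n) (u : C(Sph n, ℝ)) : J (u.comp (sphMap g)) = J u := by
  rw [J_apply, J_apply]
  have := (measurePreserving_sphMap g).map_eq
  conv_rhs => rw [← this]
  rw [integral_map (sphMap g).continuous.aemeasurable u.continuous.aestronglyMeasurable]
  rfl

/-- the integral of a smooth function over the sphere -/
noncomputable def I : Sm n →ₗ[ℝ] ℝ := (J : C(Sph n, ℝ) →L[ℝ] ℝ).toLinearMap ∘ₗ res.toLinearMap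

theorem I_apply (u : Sm n) : I u = J (res u) := rfl

/-- the rotation fields -/
noncomputable def Lv (α : Fin n × Fin n) : Derivation ℝ (Sm n) (Sm n) :=
  (crd α.1 : Sm n) • D α.2 - (crd α.2 : Sm n) • D α.1

theorem Lv_apply (α : Fin n × Fin n) (u : Sm n) :
    Lv α u = crd α.1 * D α.2 u - crd α.2 * D α.1 u := rfl

/-- the rotation in a coordinate plane -/
noncomputable def rotL (i j : Fin n) (θ : ℝ) : Eu n →ₗ[ℝ] Eu n where
  toFun x := x + (Real.cos θ - 1) • (x i • ev i + x j • ev j) + Real.sin θ • (x i • ev j - x j • ev i)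
  map_add' x y := by simp only [PiLp.add_apply]; module
  map_smul' c x := by simp only [PiLp.smul_apply, smul_eq_mul, RingHom.id_apply]; module

theorem rotL_inner {i j : Fin n} (hij : i ≠ j) (θ : ℝ) (x y : Eu n) :
    inner ℝ (rotL i j θ x) (rotL i j θ y) = inner ℝ x y := by
  have h := Real.sin_sq_add_cos_sq θ
  simp only [rotL, LinearMap.coe_mk, AddHom.coe_mk, inner_add_left, inner_add_right, inner_sub_left,
    inner_sub_right, inner_smul_left, inner_smul_right, EuclideanSpace.inner_single_left,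
    EuclideanSpace.inner_single_right]
  simp [hij, hij.symm]
  linear_combination (x i * y i + x j * y j) * h

/-- the rotation as an isometry -/
noncomputable def rot {i j : Fin n} (hij : i ≠ j) (θ : ℝ) : Eu n ≃ₗᵢ[ℝ] Eu n :=
  ((rotL i j θ).isometryOfInner (rotL_inner hij θ)).toLinearIsometryEquiv rfl

theorem rot_apply {i j : Fin n} (hij : i ≠ j) (θ : ℝ) (x : Eu n) : rot hij θ x =
    x + (Real.cos θ - 1) • (x i • ev i + x j • ev j) + Real.sin θ • (x i • ev j - x j • ev i) := rfl

theorem I_Lv (α : Fin n × Fin n) (u : Sm n) : I (Lv α u) = 0 := by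
  obtain ⟨i, j⟩ := α
  by_cases hij : i = j
  · subst hij
    rw [Lv_apply, sub_self, map_zero]
  set R : ℝ → Sph n → Eu n := fun θ x => x.1 + (Real.cos θ - 1) • (x.1 i • ev i + x.1 j • ev j)
    + Real.sin θ • (x.1 i • ev j - x.1 j • ev i) with hR
  set R' : ℝ → Sph n → Eu n := fun θ x => (-Real.sin θ) • (x.1 i • ev i + x.1 j • ev j)
    + Real.cos θ • (x.1 i • ev j - x.1 j • ev i) with hR'
  have hd : ∀ x θ, HasDerivAt (fun θ => R θ x) (R' θ x) θ := by
    intro x θ
    have h1 := ((Real.hasDerivAt_cos θ).sub_const 1).smul_const (x.1 i • ev i + x.1 j • ev j)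
    have h2 := (Real.hasDerivAt_sin θ).smul_const (x.1 i • ev j - x.1 j • ev i)
    exact (h1.const_add x.1).add h2
  have hc : Continuous fun p : ℝ × Sph n => fderiv ℝ u.fn (R p.1 p.2) (R' p.1 p.2) := by
    have h1 : Continuous (fderiv ℝ u.fn) := u.smooth.continuous_fderiv (by simp)
    have h2 : Continuous fun p : ℝ × Sph n => R p.1 p.2 := by rw [hR]; fun_prop
    have h3 : Continuous fun p : ℝ × Sph n => R' p.1 p.2 := by rw [hR']; fun_prop
    exact (h1.comp h2).clm_apply h3
  obtain ⟨C, hC⟩ := ((isCompact_closedBall (0 : ℝ) 1).prod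
    (isCompact_univ (X := Sph n))).exists_bound_of_continuousOn hc.continuousOn
  have hRc : ∀ θ, Continuous fun x => u.fn (R θ x) := fun θ =>
    u.cont.comp (by rw [hR]; fun_prop)
  have key := hasDerivAt_integral_of_dominated_loc_of_deriv_le (μ := sig n)
    (F := fun θ x => u.fn (R θ x)) (F' := fun θ x => fderiv ℝ u.fn (R θ x) (R' θ x)) (x₀ := 0)
    (bound := fun _ => C) (s := Metric.closedBall 0 1) (Metric.closedBall_mem_nhds 0 one_pos)
    (Eventually.of_forall fun θ => (hRc θ).aestronglyMeasurable)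
    (integrable_sig ⟨_, hRc 0⟩)
    (hc.comp (Continuous.prodMk_right 0)).aestronglyMeasurable
    (Eventually.of_forall fun x θ hθ => hC (θ, x) ⟨hθ, mem_univ _⟩)
    (integrable_const _)
    (Eventually.of_forall fun x θ _ => (u.diff _).hasFDerivAt.comp_hasDerivAt θ (hd x θ))
  have hconst : (fun θ => ∫ x, u.fn (R θ x) ∂(sig n)) = fun _ => I u := by
    funext θ
    exact J_comp (rot hij θ) (res u)
  have h0 := key.2
  rw [hconst] at h0
  have h1 := h0.unique (hasDerivAt_const _ _)
  rw [← h1, I_apply, J_apply]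
  refine integral_congr_ae (Eventually.of_forall fun x => ?_)
  simp [hR, hR', res_apply, Lv_apply, D_apply]

end Pool.Agent.P.MP_4a4b50_gt.CE
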