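import Pool.Agent.P.MP_4a4b50_gt.Int

/-! Sobolev embedding on the sphere. -/

set_option autoImplicit false

noncomputable section

open Set Filter Topology Metric MeasureTheory Function
open scoped ContDiff ENNReal

namespace Pool.Agent.P.MP_4a4b50_gt

variable {n : ℕ}

/-- iterated integral of the absolute value -/
def mg (s : Finset (Fin n)) (F : EE n → ℝ) (x : Fin n → ℝ) : ℝ≥0∞ :=
  lmarginal (fun _ => volume) s (fun y => ‖F (WithLp.toLp 2 y)‖ₑ) x

theorem meas_en {F : EE n → ℝ} (hF : Continuous F) :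
    Measurable fun y : Fin n → ℝ => ‖F (WithLp.toLp 2 y)‖ₑ :=
  (hF.comp (PiLp.continuous_toLp 2 _)).measurable.enorm

theorem line_le {F : EE n → ℝ} (hF : ContDiff ℝ 1 F) (hc : HasCompactSupport F) (i : Fin n)
    (x : Fin n → ℝ) :
    ‖F (WithLp.toLp 2 x)‖ₑ ≤ ∫⁻ t, ‖fderiv ℝ F (WithLp.toLp 2 (update x i t)) (ee i)‖ₑ := by
  set e := (EuclideanSpace.equiv (Fin n) ℝ).symm with he
  have hu : ContDiff ℝ 1 (F ∘ e) := hF.comp e.contDiff
  have h2u : HasCompactSupport (F ∘ e) := hc.comp_homeomorph e.toHomeomorph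
  have hd : ∀ t, deriv ((F ∘ e) ∘ update x i) t
      = fderiv ℝ F (WithLp.toLp 2 (update x i t)) (ee i) := by
    intro t
    have h1 := (e.toContinuousLinearMap.hasFDerivAt (x := update x i t)).comp_hasDerivAt t
      (hasDerivAt_update x i t)
    have h2 := (hF.differentiable one_ne_zero (e (update x i t))).hasFDerivAt.comp_hasDerivAt t h1
    exact h2.deriv
  calc ‖F (WithLp.toLp 2 x)‖ₑ
      ≤ ∫⁻ t in Iic (x i), ‖deriv ((F ∘ e) ∘ update x i) t‖ₑ := by
        apply le_trans (by simp [he]) (HasCompactSupport.enorm_le_lintegral_Ici_deriv _ _ _)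
        · exact hu.comp (by convert! contDiff_update 1 x i)
        · exact h2u.comp_isClosedEmbedding (isClosedEmbedding_update x i)
    _ ≤ ∫⁻ t, ‖deriv ((F ∘ e) ∘ update x i) t‖ₑ := lintegral_mono' Measure.restrict_le_self le_rfl
    _ = _ := by simp only [hd]

theorem mg_step {F : EE n → ℝ} (hF : ContDiff ℝ 1 F) (hc : HasCompactSupport F) {i : Fin n}
    {s : Finset (Fin n)} (hi : i ∈ s) (x : Fin n → ℝ) :
    mg (s.erase i) F x ≤ mg s (fun y => fderiv ℝ F y (ee i)) x := by
  have hd : Continuous fun x => fderiv ℝ F x (ee i) :=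
    (hF.continuous_fderiv one_ne_zero).clm_apply continuous_const
  unfold mg
  rw [lmarginal_erase' _ (meas_en hd) hi]
  exact lmarginal_mono (fun y => line_le hF hc i y) x

theorem mg_add (s : Finset (Fin n)) {F G : EE n → ℝ} (hF : Continuous F) (x : Fin n → ℝ) :
    mg s (fun y => F y + G y) x ≤ mg s F x + mg s G x := by
  unfold mg lmarginal
  refine le_trans ?_ (le_of_eq (lintegral_add_left ((meas_en hF).comp measurable_updateFinset) _))
  exact lintegral_mono fun y => enorm_add_le _ _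

theorem abs_int_le (f : Sm n) :
    ∫ x, |ext0 f.1 x| * chi x ≤ (1 + II (1 : Sm n)) / 2 * nrm 0 f := by
  by_cases h0 : nrm 0 f = 0
  · have : f = 0 := by
      rw [nrm_zero, norm_eq_zero] at h0
      exact toS0.injective h0
    have e : ∀ x : EE n, ext0 (0 : Sph n → ℝ) x = 0 := by
      intro x
      by_cases hx : x = 0
      · simp [hx]
      · rw [ext0_of_ne _ hx]; rfl
    simp [this, e]
  · set l := nrm 0 f with hl
    have hl0 : 0 < l := lt_of_le_of_ne (apply_nonneg _ _) (Ne.symm h0)
    have h1 : ∫ x, |ext0 f.1 x| * chi x ≤ II ((1 / (2 * l)) • (f * f) + (l / 2) • (1 : Sm n)) := by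
      rw [II_apply]
      apply integral_mono_of_nonneg (Eventually.of_forall fun x =>
        mul_nonneg (abs_nonneg _) (chi_nonneg x)) (wt_int _)
      refine Eventually.of_forall fun x => mul_le_mul_of_nonneg_right ?_ (chi_nonneg x)
      by_cases hx : x = 0
      · simp [hx]
      · rw [ext0_of_ne _ hx, ext0_of_ne _ hx]
        change _ ≤ 1 / (2 * l) * (f.1 _ * f.1 _) + l / 2 * 1
        rw [← abs_mul_abs_self]
        generalize |f.1 (nu x hx)| = a
        have : 1 / (2 * l) * (a * a) + l / 2 * 1 - a = (a - l) ^ 2 / (2 * l) := by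
          field_simp
          ring
        have h2 : 0 ≤ (a - l) ^ 2 / (2 * l) := by positivity
        linarith
    rw [map_add, map_smul, map_smul, ← nrm_sq, ← hl, smul_eq_mul, smul_eq_mul] at h1
    refine h1.trans (le_of_eq ?_)
    field_simp

theorem mg_bound (t : Finset (Fin n)) : ∀ c : EE n → ℝ, ContDiffOn ℝ ∞ c {0}ᶜ →
    (∀ x, x ∉ Ann n (1 / 2) → c x = 0) → ∃ C : ℝ, 0 ≤ C ∧ ∀ (f : Sm n) (x : Fin n → ℝ),
      mg tᶜ (fun y => c y * ext0 f.1 y) x ≤ ENNReal.ofReal (C * nrm t.card f) := by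
  have hglob : ∀ c : EE n → ℝ, ContDiffOn ℝ ∞ c {0}ᶜ → (∀ x, x ∉ Ann n (1 / 2) → c x = 0) →
      ∀ f : Sm n, ContDiff ℝ ∞ (fun y => c y * ext0 f.1 y) ∧
        HasCompactSupport (fun y => c y * ext0 f.1 y) := fun c hc hs f =>
    glob (r := 1 / 2) (by norm_num) (hc.mul (Sm.cm f)) fun x hx => by rw [hs x hx, zero_mul]
  induction t using Finset.induction with
  | empty =>
    intro c hc hs
    obtain ⟨h1, h2⟩ := glob (r := 1 / 2) (by norm_num) hc hs
    obtain ⟨M, hM⟩ := h1.continuous.bounded_above_of_compact_support h2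
    have hM0 : 0 ≤ M := (norm_nonneg _).trans (hM 0)
    have hI : 0 ≤ II (1 : Sm n) := II_nonneg fun u => zero_le_one
    refine ⟨M * ((1 + II (1 : Sm n)) / 2), by positivity, fun f x => ?_⟩
    obtain ⟨g1, g2⟩ := hglob c hc hs f
    have e : mg (∅ : Finset (Fin n))ᶜ (fun y => c y * ext0 f.1 y) x
        = ∫⁻ y, ‖c y * ext0 f.1 y‖ₑ := by
      unfold mg
      rw [Finset.compl_empty, lmarginal_univ]
      exact (PiLp.volume_preserving_toLp (Fin n)).lintegral_comp g1.continuous.measurable.enorm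
    rw [e, ← ofReal_integral_norm_eq_lintegral_enorm
      (g1.continuous.integrable_of_hasCompactSupport g2)]
    apply ENNReal.ofReal_le_ofReal
    rw [mul_assoc]
    refine le_trans ?_ (mul_le_mul_of_nonneg_left (abs_int_le f) hM0)
    rw [← integral_const_mul]
    have hi : Integrable fun x => M * (|ext0 f.1 x| * chi x) := by
      refine ((wt_int f).abs.congr (Eventually.of_forall fun x => ?_)).const_mul M
      simp only [abs_mul, abs_of_nonneg (chi_nonneg x)]
    apply integral_mono_of_nonneg (Eventually.of_forall fun x => norm_nonneg _) hi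
    refine Eventually.of_forall fun y => ?_
    by_cases hy : y ∈ Ann n (1 / 2)
    · simp only [chi_one hy, mul_one, norm_mul]
      exact mul_le_mul_of_nonneg_right (hM y) (abs_nonneg _)
    · simp only [hs y hy, zero_mul, norm_zero]
      exact mul_nonneg hM0 (mul_nonneg (abs_nonneg _) (chi_nonneg y))
  | insert i t hi ih =>
    intro c hc hs
    obtain ⟨h1, h2⟩ := glob (r := 1 / 2) (by norm_num) hc hs
    have hs1 : ∀ x, x ∉ Ann n (1 / 2) → fderiv ℝ c x (ee i) = 0 := by
      intro x hx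
      have : c =ᶠ[𝓝 x] fun _ => 0 := by
        filter_upwards [(Ann_closed (1 / 2)).isOpen_compl.mem_nhds hx] with y hy using hs y hy
      simp [this.fderiv_eq]
    have hc1 : ContDiff ℝ ∞ fun x => fderiv ℝ c x (ee i) :=
      (h1.fderiv_right (m := ∞) (by simp)).clm_apply contDiff_const
    obtain ⟨C1, hC1, b1⟩ := ih _ hc1.contDiffOn hs1
    obtain ⟨C2, hC2, b2⟩ := ih (fun x => c x * ‖x‖⁻¹) (hc.mul (contDiffOn_nrm_inv ∞))
      fun x hx => by rw [hs x hx, zero_mul]
    refine ⟨C1 + C2, by positivity, fun f x => ?_⟩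
    obtain ⟨g1, g2⟩ := hglob c hc hs f
    have e : (fun y => fderiv ℝ (fun y => c y * ext0 f.1 y) y (ee i))
        = fun y => fderiv ℝ c y (ee i) * ext0 f.1 y + c y * ‖y‖⁻¹ * ext0 (T i f).1 y := by
      funext y
      by_cases hy : y = 0
      · have h0 : y ∉ Ann n (1 / 2) := by
          intro h
          have h' : |‖y‖ ^ 2 - 1| ≤ 1 / 2 := h
          rw [hy] at h'
          norm_num at h'
        have : (fun y => c y * ext0 f.1 y) =ᶠ[𝓝 y] fun _ => 0 := by
          filter_upwards [(Ann_closed (1 / 2)).isOpen_compl.mem_nhds h0] with z hz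
          rw [hs z hz, zero_mul]
        rw [this.fderiv_eq]
        simp [hy]
      · have h3 := (h1.differentiable inf_ne y).hasFDerivAt.mul
          ((Sm.cm f).diff inf_ne hy).hasFDerivAt
        have h4 : fderiv ℝ (fun y => c y * ext0 f.1 y) y = _ := h3.fderiv
        rw [h4, T_coe, ext0_Tf i _ hy]
        simp only [add_apply, smul_apply, smul_eq_mul]
        have := norm_ne_zero_iff.mpr hy
        field_simp
        ring
    rw [Finset.compl_insert, Finset.card_insert_of_notMem hi]
    refine (mg_step (g1.of_le (by exact_mod_cast le_top)) g2 (Finset.mem_compl.mpr hi) x).trans ?_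
    rw [e]
    refine (mg_add _ (hglob _ hc1.contDiffOn hs1 f).1.continuous x).trans ?_
    refine (add_le_add (b1 f x) (b2 (T i f) x)).trans ?_
    rw [← ENNReal.ofReal_add (mul_nonneg hC1 (apply_nonneg _ _)) (mul_nonneg hC2 (apply_nonneg _ _))]
    apply ENNReal.ofReal_le_ofReal
    rw [add_mul]
    exact add_le_add (mul_le_mul_of_nonneg_left (nrm_le_succ _ _) hC1)
      (mul_le_mul_of_nonneg_left (nrm_T_le _ _ _) hC2)

theorem sobolev : ∃ C : ℝ, 0 ≤ C ∧ ∀ (f : Sm n) (u : Sph n), |f.1 u| ≤ C * nrm n f := by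
  obtain ⟨C, hC, h⟩ := mg_bound (n := n) Finset.univ (fun x => smallB (‖x‖ ^ 2))
    (smallB.contDiff.comp (contDiff_norm_sq ℝ)).contDiffOn (fun x hx => by
      apply smallB.zero_of_le_dist
      rw [Real.dist_eq]
      exact (not_le.mp hx).le)
  refine ⟨C, hC, fun f u => ?_⟩
  have := h f (WithLp.ofLp (u : EE n))
  rw [Finset.compl_univ, mg, lmarginal_empty, Finset.card_univ, Fintype.card_fin] at this
  have e : smallB (‖(u : EE n)‖ ^ 2) = 1 := by
    apply smallB.one_of_mem_closedBall
    rw [Sph.norm_eq, one_pow]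
    exact mem_closedBall_self smallB.rIn_pos.le
  simp only [WithLp.toLp_ofLp, e, one_mul, ext0_coe] at this
  rw [← ofReal_norm,
    ENNReal.ofReal_le_ofReal_iff (mul_nonneg hC (apply_nonneg _ _))] at this
  exact this

end Pool.Agent.P.MP_4a4b50_gt
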