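import Pool.Agent.P.MP_4a4b50_gt.NDefs
import Pool.Agent.P.MP_4a4b50_gt.Basic

/-! Calculus on the unit sphere through homogeneous extensions. -/

set_option autoImplicit false

noncomputable section

open Set Filter Topology Metric
open scoped ContDiff

namespace Pool.Agent.P.MP_4a4b50_gt

variable {n : ℕ}

/-- the unit sphere -/
abbrev Sph (n : ℕ) : Type := Metric.sphere (0 : EE n) 1

/-- basis vector -/
abbrev ee (j : Fin n) : EE n := EuclideanSpace.single j 1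

theorem Sph.norm_eq (u : Sph n) : ‖(u : EE n)‖ = 1 := by simp

theorem Sph.ne_zero (u : Sph n) : (u : EE n) ≠ 0 := by
  intro h
  have := Sph.norm_eq u
  rw [h, norm_zero] at this
  exact zero_ne_one this

/-- radial projection -/
def nu (x : EE n) (hx : x ≠ 0) : Sph n :=
  ⟨‖x‖⁻¹ • x, by
    rw [mem_sphere_zero_iff_norm, norm_smul, norm_inv, norm_norm,
      inv_mul_cancel₀ (norm_ne_zero_iff.mpr hx)]⟩

theorem nu_coe (x : EE n) (hx : x ≠ 0) : (nu x hx : EE n) = ‖x‖⁻¹ • x := rfl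

theorem smul_nu (x : EE n) (hx : x ≠ 0) : ‖x‖ • (nu x hx : EE n) = x := by
  rw [nu_coe, smul_smul, mul_inv_cancel₀ (norm_ne_zero_iff.mpr hx), one_smul]

open Classical in
/-- homogeneous extension of degree zero -/
def ext0 (f : Sph n → ℝ) (x : EE n) : ℝ := if h : x = 0 then 0 else f (nu x h)

theorem ext0_of_ne (f : Sph n → ℝ) {x : EE n} (hx : x ≠ 0) : ext0 f x = f (nu x hx) := by
  simp [ext0, hx]

@[simp] theorem ext0_zero (f : Sph n → ℝ) : ext0 f 0 = 0 := by simp [ext0]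

@[simp] theorem ext0_coe (f : Sph n → ℝ) (u : Sph n) : ext0 f u = f u := by
  rw [ext0_of_ne f (Sph.ne_zero u)]
  congr 1
  apply Subtype.ext
  rw [nu_coe, Sph.norm_eq, inv_one, one_smul]

theorem ext0_smul_arg (f : Sph n → ℝ) {t : ℝ} (ht : 0 < t) (x : EE n) :
    ext0 f (t • x) = ext0 f x := by
  by_cases hx : x = 0
  · simp [hx]
  · have h2 : t • x ≠ 0 := smul_ne_zero ht.ne' hx
    rw [ext0_of_ne f hx, ext0_of_ne f h2]
    congr 1
    apply Subtype.ext
    rw [nu_coe, nu_coe, norm_smul, smul_smul, Real.norm_eq_abs, abs_of_pos ht]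
    congr 1
    field_simp

theorem ext0_add (f g : Sph n → ℝ) : ext0 (f + g) = ext0 f + ext0 g := by
  funext x
  by_cases hx : x = 0
  · simp [hx]
  · simp [ext0_of_ne _ hx]

theorem ext0_mul (f g : Sph n → ℝ) : ext0 (f * g) = ext0 f * ext0 g := by
  funext x
  by_cases hx : x = 0
  · simp [hx]
  · simp [ext0_of_ne _ hx]

theorem ext0_smul (c : ℝ) (f : Sph n → ℝ) : ext0 (c • f) = c • ext0 f := by
  funext x
  by_cases hx : x = 0
  · simp [hx]
  · simp [ext0_of_ne _ hx]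

theorem ext0_restrict {F : EE n → ℝ} (hF : ∀ t : ℝ, 0 < t → ∀ x, x ≠ 0 → F (t • x) = F x)
    {x : EE n} (hx : x ≠ 0) : ext0 (fun u => F u) x = F x := by
  rw [ext0_of_ne _ hx, nu_coe, hF _ (inv_pos.mpr (norm_pos_iff.mpr hx)) x hx]

theorem ev_ne {x : EE n} (hx : x ≠ 0) : ∀ᶠ y in 𝓝 x, y ≠ 0 := isOpen_ne.mem_nhds hx

theorem compl_nhds {x : EE n} (hx : x ≠ 0) : ({0}ᶜ : Set (EE n)) ∈ 𝓝 x :=
  isOpen_compl_singleton.mem_nhds hx

/-- the extension is of class `C^m` away from the origin -/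
def Cm (m : WithTop ℕ∞) (f : Sph n → ℝ) : Prop := ContDiffOn ℝ m (ext0 f) {0}ᶜ

theorem Cm.at {m : WithTop ℕ∞} {f : Sph n → ℝ} (hf : Cm m f) {x : EE n} (hx : x ≠ 0) :
    ContDiffAt ℝ m (ext0 f) x := ContDiffOn.contDiffAt hf (compl_nhds hx)

theorem Cm.of_le {m m' : WithTop ℕ∞} {f : Sph n → ℝ} (hf : Cm m f) (h : m' ≤ m) : Cm m' f :=
  ContDiffOn.of_le hf h

theorem Cm.diff {m : WithTop ℕ∞} {f : Sph n → ℝ} (hf : Cm m f) (hm : m ≠ 0) {x : EE n}
    (hx : x ≠ 0) : DifferentiableAt ℝ (ext0 f) x := (hf.at hx).differentiableAt hm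

theorem Cm.continuous {m : WithTop ℕ∞} {f : Sph n → ℝ} (hf : Cm m f) : Continuous f := by
  have : f = fun u : Sph n => ext0 f u := by funext u; simp
  rw [this]
  exact (ContDiffOn.continuousOn hf).comp_continuous continuous_subtype_val
    fun u => Sph.ne_zero u

theorem Cm.add {m : WithTop ℕ∞} {f g : Sph n → ℝ} (hf : Cm m f) (hg : Cm m g) : Cm m (f + g) := by
  unfold Cm
  rw [ext0_add]
  exact ContDiffOn.add hf hg

theorem Cm.mul {m : WithTop ℕ∞} {f g : Sph n → ℝ} (hf : Cm m f) (hg : Cm m g) : Cm m (f * g) := by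
  unfold Cm
  rw [ext0_mul]
  exact ContDiffOn.mul hf hg

theorem cm_of {m : WithTop ℕ∞} {f : Sph n → ℝ} {F : EE n → ℝ} (hF : ContDiffOn ℝ m F {0}ᶜ)
    (h : ∀ x, x ≠ 0 → ext0 f x = F x) : Cm m f := hF.congr h

theorem cm_const (m : WithTop ℕ∞) (c : ℝ) : Cm m (fun _ : Sph n => c) :=
  cm_of (F := fun _ => c) contDiffOn_const fun x hx => by rw [ext0_of_ne _ hx]

theorem contDiffOn_nrm (m : WithTop ℕ∞) : ContDiffOn ℝ m (fun x : EE n => ‖x‖) {0}ᶜ :=
  fun _ hx => (contDiffAt_norm ℝ hx).contDiffWithinAt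

theorem contDiffOn_nrm_inv (m : WithTop ℕ∞) : ContDiffOn ℝ m (fun x : EE n => ‖x‖⁻¹) {0}ᶜ :=
  (contDiffOn_nrm m).inv fun _ hx => norm_ne_zero_iff.mpr hx

theorem contDiff_coord (m : WithTop ℕ∞) (j : Fin n) : ContDiff ℝ m (fun x : EE n => x j) :=
  (EuclideanSpace.proj j : EE n →L[ℝ] ℝ).contDiff

/-- coordinate function on the sphere -/
def xf (j : Fin n) : Sph n → ℝ := fun u => (u : EE n) j

theorem ext0_xf (j : Fin n) {x : EE n} (hx : x ≠ 0) : ext0 (xf j) x = ‖x‖⁻¹ * x j := by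
  rw [ext0_of_ne _ hx]
  simp [xf, nu_coe]

theorem cm_xf (m : WithTop ℕ∞) (j : Fin n) : Cm m (xf j) :=
  cm_of ((contDiffOn_nrm_inv m).mul (contDiff_coord m j).contDiffOn) fun _ hx => ext0_xf j hx

/-- tangential derivative -/
def Tf (j : Fin n) (f : Sph n → ℝ) : Sph n → ℝ := fun u => fderiv ℝ (ext0 f) u (ee j)

theorem fderiv_ext0 (f : Sph n → ℝ) {x : EE n} (hx : x ≠ 0) :
    ‖x‖ • fderiv ℝ (ext0 f) x = fderiv ℝ (ext0 f) (nu x hx) := by
  have := fderiv_scale (ext0 f) ‖x‖ 1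
    (fun y => by rw [ext0_smul_arg f (norm_pos_iff.mpr hx), one_smul]) (nu x hx)
  rwa [smul_nu, one_smul] at this

theorem ext0_Tf (j : Fin n) (f : Sph n → ℝ) {x : EE n} (hx : x ≠ 0) :
    ext0 (Tf j f) x = ‖x‖ * fderiv ℝ (ext0 f) x (ee j) := by
  rw [ext0_of_ne _ hx, Tf, ← fderiv_ext0 f hx]
  simp

theorem Cm.Tf {m m' : WithTop ℕ∞} {f : Sph n → ℝ} (hf : Cm m f) (h : m' + 1 ≤ m) (j : Fin n) :
    Cm m' (Tf j f) :=
  cm_of ((contDiffOn_nrm m').mul
    ((ContDiffOn.fderiv_of_isOpen hf isOpen_compl_singleton h).clm_apply contDiffOn_const))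
    fun _ hx => ext0_Tf j f hx

theorem Tf_add (j : Fin n) {m : WithTop ℕ∞} (hm : m ≠ 0) {f g : Sph n → ℝ} (hf : Cm m f)
    (hg : Cm m g) : Tf j (f + g) = Tf j f + Tf j g := by
  funext u
  simp only [Tf, Pi.add_apply]
  rw [ext0_add, fderiv_add (hf.diff hm (Sph.ne_zero u)) (hg.diff hm (Sph.ne_zero u))]
  rfl

theorem Tf_smul (j : Fin n) (c : ℝ) (f : Sph n → ℝ) : Tf j (c • f) = c • Tf j f := by
  funext u
  simp only [Tf, Pi.smul_apply]
  rw [ext0_smul, fderiv_const_smul_field]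
  rfl

theorem Tf_mul (j : Fin n) {m : WithTop ℕ∞} (hm : m ≠ 0) {f g : Sph n → ℝ} (hf : Cm m f)
    (hg : Cm m g) : Tf j (f * g) = Tf j f * g + f * Tf j g := by
  funext u
  simp only [Tf, Pi.add_apply, Pi.mul_apply]
  rw [ext0_mul, fderiv_mul (hf.diff hm (Sph.ne_zero u)) (hg.diff hm (Sph.ne_zero u))]
  simp only [ext0_coe, add_apply, smul_apply, smul_eq_mul]
  ring

theorem Tf_const (j : Fin n) (c : ℝ) : Tf j (fun _ : Sph n => c) = 0 := by
  funext u
  have : ext0 (fun _ : Sph n => c) =ᶠ[𝓝 (u : EE n)] fun _ => c := by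
    filter_upwards [ev_ne (Sph.ne_zero u)] with y hy
    rw [ext0_of_ne _ hy]
  simp [Tf, this.fderiv_eq]

theorem hasFDerivAt_nrm {x : EE n} (hx : x ≠ 0) :
    HasFDerivAt (fun y : EE n => ‖y‖) (‖x‖⁻¹ • innerSL ℝ x) x := by
  have h0 : ‖x‖ ≠ 0 := norm_ne_zero_iff.mpr hx
  have h1 := (hasStrictFDerivAt_norm_sq x).hasFDerivAt.sqrt (pow_ne_zero 2 h0)
  simp only [Real.sqrt_sq (norm_nonneg _)] at h1
  have e : (‖x‖⁻¹ • innerSL ℝ x : EE n →L[ℝ] ℝ) = (1 / (2 * ‖x‖)) • 2 • innerSL ℝ x := by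
    rw [← Nat.cast_smul_eq_nsmul ℝ, smul_smul]
    congr 1
    push_cast
    field_simp
  rw [e]
  exact h1

theorem inner_ee (x : EE n) (j : Fin n) : inner ℝ x (ee j) = x j := by
  simp [ee, EuclideanSpace.inner_single_right]

theorem sum_coord (x : EE n) : ∑ j, x j • (ee j : EE n) = x := by
  have := (EuclideanSpace.basisFun (Fin n) ℝ).sum_repr x
  simpa using this

theorem clm_sum (L : EE n →L[ℝ] ℝ) (v : EE n) : L v = ∑ j, v j * L (ee j) := by
  conv_lhs => rw [← sum_coord v]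
  simp [map_sum]

theorem sum_xf_sq (u : Sph n) : ∑ j, xf j u * xf j u = 1 := by
  have h := EuclideanSpace.real_norm_sq_eq (u : EE n)
  rw [Sph.norm_eq] at h
  simp only [xf, ← sq]
  linarith

theorem euler_Tf {m : WithTop ℕ∞} (hm : m ≠ 0) {f : Sph n → ℝ} (hf : Cm m f) (u : Sph n) :
    ∑ j, xf j u * Tf j f u = 0 := by
  have := euler_zero (ext0 f) (fun t ht x => ext0_smul_arg f ht x) (hf.diff hm (Sph.ne_zero u))
  rw [clm_sum] at this
  exact this

/-- homogeneous extension of degree one -/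
def lift (f : Sph n → ℝ) (x : EE n) : ℝ := ‖x‖ * ext0 f x

@[simp] theorem lift_coe (f : Sph n → ℝ) (u : Sph n) : lift f u = f u := by
  simp [lift]

theorem lift_hom (f : Sph n → ℝ) : Hom1 (lift f) := by
  intro t ht x
  rw [lift, lift, ext0_smul_arg f ht, norm_smul, Real.norm_eq_abs, abs_of_pos ht, mul_assoc]

theorem Cm.lift {m : WithTop ℕ∞} {f : Sph n → ℝ} (hf : Cm m f) : ContDiffOn ℝ m (lift f) {0}ᶜ :=
  (contDiffOn_nrm m).mul hf

theorem Hom1.zero {w : EE n → ℝ} (hw : Hom1 w) : w 0 = 0 := by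
  have := hw 2 (by norm_num) 0
  rw [smul_zero] at this
  linarith

theorem lift_restrict {w : EE n → ℝ} (hw : Hom1 w) : lift (fun u => w u) = w := by
  funext x
  by_cases hx : x = 0
  · simp [lift, hx, hw.zero]
  · rw [lift, ext0_of_ne _ hx, ← hw _ (norm_pos_iff.mpr hx), smul_nu]

theorem cm_restrict {m : WithTop ℕ∞} {w : EE n → ℝ} (hw : Hom1 w) (hs : ContDiffOn ℝ m w {0}ᶜ) :
    Cm m (fun u : Sph n => w u) :=
  cm_of ((contDiffOn_nrm_inv m).mul hs) fun x hx => by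
    rw [ext0_of_ne _ hx, nu_coe, hw _ (inv_pos.mpr (norm_pos_iff.mpr hx))]

theorem fderiv_lift {m : WithTop ℕ∞} (hm : m ≠ 0) {f : Sph n → ℝ} (hf : Cm m f) (j : Fin n)
    {x : EE n} (hx : x ≠ 0) :
    fderiv ℝ (lift f) x (ee j) = ext0 (xf j * f + Tf j f) x := by
  have h1 := (hasFDerivAt_nrm hx).mul (hf.diff hm hx).hasFDerivAt
  have h2 : fderiv ℝ (lift f) x = _ := h1.fderiv
  rw [h2, ext0_add, ext0_mul, Pi.add_apply, Pi.mul_apply, ext0_xf j hx, ext0_Tf j f hx]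
  simp [inner_ee]
  ring

theorem Tf_xf (j i : Fin n) :
    Tf j (xf i) = (fun _ => if i = j then 1 else 0) - xf i * xf j := by
  funext u
  have hu := Sph.ne_zero u
  have e : lift (xf i) =ᶠ[𝓝 (u : EE n)] (EuclideanSpace.proj i : EE n →L[ℝ] ℝ) := by
    filter_upwards [ev_ne hu] with y hy
    rw [lift, ext0_xf i hy, mul_inv_cancel_left₀ (norm_ne_zero_iff.mpr hy)]
    rfl
  have h1 := fderiv_lift (m := 1) one_ne_zero (cm_xf 1 i) j hu
  rw [e.fderiv_eq, ContinuousLinearMap.fderiv, ext0_coe] at h1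
  simp only [PiLp.proj_apply, Pi.add_apply, Pi.mul_apply, Pi.sub_apply] at h1 ⊢
  rw [PiLp.single_apply] at h1
  linarith

theorem hess_lift {f : Sph n → ℝ} (hf : Cm 2 f) (u : Sph n) (i j : Fin n) :
    hess (lift f) u i j = Tf i (xf j * f + Tf j f) u := by
  have hu := Sph.ne_zero u
  have h1 : ContDiffAt ℝ 2 (lift f) u := hf.lift.contDiffAt (compl_nhds hu)
  have e : (fun y => fderiv ℝ (lift f) y (ee j)) =ᶠ[𝓝 (u : EE n)] ext0 (xf j * f + Tf j f) := by
    filter_upwards [ev_ne hu] with y hy using fderiv_lift (by norm_num) hf j hy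
  rw [hess, Matrix.of_apply, ← fderiv_apply_const h1, e.fderiv_eq]
  rfl

theorem hess_symm {w : EE n → ℝ} {x : EE n} (hw : ContDiffAt ℝ 2 w x) (i j : Fin n) :
    hess w x i j = hess w x j i :=
  hw.isSymmSndFDerivAt (by simp) _ _

/-- the algebra of smooth functions on the sphere -/
def Sm (n : ℕ) : Subalgebra ℝ (Sph n → ℝ) where
  carrier := {f | Cm ∞ f}
  mul_mem' := Cm.mul
  add_mem' := Cm.add
  algebraMap_mem' := fun c => cm_const ∞ c

theorem Sm.cm (f : Sm n) : Cm ∞ f.1 := f.2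

theorem Sm.cm' (f : Sm n) (m : ℕ) : Cm m f.1 := (Sm.cm f).of_le (by exact_mod_cast le_top)

theorem inf_ne : (∞ : WithTop ℕ∞) ≠ 0 := by simp

/-- tangential derivative on smooth functions -/
def T (j : Fin n) : Module.End ℝ (Sm n) where
  toFun f := ⟨Tf j f.1, (Sm.cm f).Tf (by simp) j⟩
  map_add' f g := Subtype.ext (Tf_add j inf_ne (Sm.cm f) (Sm.cm g))
  map_smul' c f := Subtype.ext (Tf_smul j c f.1)

/-- coordinate function as a smooth function -/
def xh (j : Fin n) : Sm n := ⟨xf j, cm_xf ∞ j⟩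

theorem T_coe (j : Fin n) (f : Sm n) : (T j f).1 = Tf j f.1 := rfl

theorem xh_coe (j : Fin n) : (xh j).1 = xf j := rfl

theorem T_mul (j : Fin n) (f g : Sm n) : T j (f * g) = T j f * g + f * T j g :=
  Subtype.ext (Tf_mul j inf_ne (Sm.cm f) (Sm.cm g))

theorem T_one (j : Fin n) : T j (1 : Sm n) = 0 := Subtype.ext (Tf_const j 1)

theorem T_xh (j i : Fin n) : T j (xh i) = (if i = j then 1 else 0) - xh i * xh j := by
  apply Subtype.ext
  rw [T_coe, xh_coe, Tf_xf]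
  split_ifs <;> rfl

theorem Sm.sum_apply {ι : Type*} (s : Finset ι) (f : ι → Sm n) (u : Sph n) :
    (∑ i ∈ s, f i).1 u = ∑ i ∈ s, (f i).1 u := by
  rw [AddSubmonoidClass.coe_finsetSum, Finset.sum_apply]

theorem sum_xh_sq : ∑ j : Fin n, xh j * xh j = 1 := by
  apply Subtype.ext
  funext u
  rw [Sm.sum_apply]
  exact sum_xf_sq u

theorem euler_T (f : Sm n) : ∑ j, xh j * T j f = 0 := by
  apply Subtype.ext
  funext u
  rw [Sm.sum_apply]
  exact euler_Tf inf_ne (Sm.cm f) u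

/-- gradient of the degree one extension -/
def Q (j : Fin n) : Module.End ℝ (Sm n) := LinearMap.mulLeft ℝ (xh j) + T j

/-- Hessian of the degree one extension -/
def D (i j : Fin n) : Module.End ℝ (Sm n) := T i * Q j

theorem Q_apply (j : Fin n) (f : Sm n) : Q j f = xh j * f + T j f := rfl

theorem D_apply (i j : Fin n) (f : Sm n) : D i j f = T i (xh j * f + T j f) := rfl

theorem D_coe (i j : Fin n) (f : Sm n) (u : Sph n) : (D i j f).1 u = hess (lift f.1) u i j :=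
  (hess_lift (Sm.cm' f 2) u i j).symm

theorem D_symm (i j : Fin n) (f : Sm n) : D i j f = D j i f := by
  apply Subtype.ext
  funext u
  rw [D_coe, D_coe]
  exact hess_symm ((Sm.cm' f 2).lift.contDiffAt (compl_nhds (Sph.ne_zero u))) i j

theorem T_comm (i j : Fin n) (f : Sm n) :
    T i (T j f) = T j (T i f) + xh i * T j f - xh j * T i f := by
  have h := D_symm i j f
  rw [D_apply, D_apply, map_add, map_add, T_mul, T_mul, T_xh, T_xh] at h
  have e : (if j = i then (1 : Sm n) else 0) = if i = j then 1 else 0 := by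
    simp only [eq_comm]
  rw [e] at h
  linear_combination h

end Pool.Agent.P.MP_4a4b50_gt
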